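import Mathlib

namespace Pool.Agent.Helper391.Lg
open Set

/-- edges of `G` with one end in `U` and one end outside `U` -/
def bd {V : Type*} (G : SimpleGraph V) (U : Set V) : Set (Sym2 V) :=
  {e | e ∈ G.edgeSet ∧ (∃ v ∈ e, v ∈ U) ∧ ∃ v ∈ e, v ∉ U}

/-- edges of `G` avoiding `F` and meeting `X` -/
def inc {V : Type*} (G : SimpleGraph V) (F X : Set V) : Set (Sym2 V) :=
  {e | e ∈ G.edgeSet ∧ (∀ v ∈ e, v ∉ F) ∧ ∃ v ∈ e, v ∈ X}

/-- edges of `G` inside `X` -/
def ins {V : Type*} (G : SimpleGraph V) (X : Set V) : Set (Sym2 V) :=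
  {e | e ∈ G.edgeSet ∧ ∀ v ∈ e, v ∈ X}

open Classical in
/-- the incidence vector of an edge over `ZMod 2` -/
noncomputable def chi {V : Type*} (e : Sym2 V) : V → ZMod 2 := fun v => if v ∈ e then 1 else 0

open Classical in
/-- the incidence vector of an edge with the coordinates outside `X` put to `0` -/
noncomputable def vX {V : Type*} (X : Set V) (e : Sym2 V) : V → ZMod 2 :=
  fun v => if v ∈ e ∧ v ∈ X then 1 else 0

open Classical in
/-- ring vectors: edges inside `X` as usual, admissible exit edges (those in `Φ`) are all sent to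
the unit vector of `x`, all other edges to `0` -/
noncomputable def vA {V : Type*} (X : Set V) (Φ : Set (Sym2 V)) (x : V) (e : Sym2 V) : V → ZMod 2 :=
  if (∀ v ∈ e, v ∈ X) then chi e else if e ∈ Φ then (fun v => if v = x then 1 else 0) else 0

/-- rank of the family `f` on `T` -/
noncomputable def rk {E M : Type*} [AddCommGroup M] [Module (ZMod 2) M] (f : E → M) (T : Set E) : ℕ :=
  Set.finrank (ZMod 2) (f '' T)

/-- cost of `(U, T)` relative to the frozen set `F` -/
noncomputable def cost {V : Type*} (G : SimpleGraph V) (F U : Set V) (T : Set (Sym2 V)) : ℤ :=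
  ((inc G F U).ncard : ℤ) - T.ncard + 2 * rk chi T - 2 * U.ncard

/-- `T` is an optimal edge set inside `U` -/
def Opt {V : Type*} (G : SimpleGraph V) (U : Set V) (T : Set (Sym2 V)) : Prop :=
  T ⊆ ins G U ∧ ∀ T' ⊆ ins G U, (T'.ncard : ℤ) - 2 * rk chi T' ≤ T.ncard - 2 * rk chi T

/-- the function `h_F(U)` : minimum of the costs -/
noncomputable def h {V : Type*} (G : SimpleGraph V) (F U : Set V) : ℤ :=
  sInf {z : ℤ | ∃ T ⊆ ins G U, z = cost G F U T}

/-- `T` contains no edge between `U` and the complement of `U` -/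
def Closed {V : Type*} (T : Set (Sym2 V)) (U : Set V) : Prop :=
  ∀ e ∈ T, (∃ v ∈ e, v ∈ U) → ∀ v ∈ e, v ∈ U

/-- every vertex of `L` is joined by edges of `T` to a vertex outside `L` -/
def Out {V : Type*} (T : Set (Sym2 V)) (L : Set V) : Prop :=
  ∀ v ∈ L, ∃ w, w ∉ L ∧ (SimpleGraph.fromEdgeSet T).Reachable v w

/-- `B` and its complement in `inc G F L` both lead every vertex of `L` out of `L` -/
structure Good {V : Type*} (G : SimpleGraph V) (F L : Set V) (B : Set (Sym2 V)) : Prop where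
  sub : B ⊆ inc G F L
  outB : Out B L
  outA : Out (inc G F L \ B) L

/-- the set `X` is connected by the edges in `T` -/
def Conn {V : Type*} (T : Set (Sym2 V)) (X : Set V) : Prop :=
  ∀ u ∈ X, ∀ v ∈ X, (SimpleGraph.fromEdgeSet T).Reachable u v

/-- condition (I) -/
def Ipos {V : Type*} (G : SimpleGraph V) (F : Set V) : Prop :=
  ∀ U : Set V, U.Finite → Disjoint U F → 0 ≤ h G F U

/-- every finite vertex set leaves exactly one infinite component, in the form: -/
def OneEnd {V : Type*} (G : SimpleGraph V) : Prop :=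
  ∀ S : Set V, S.Finite → ∃ K : Set V, K.Finite ∧ S ⊆ K ∧
    ∀ u, u ∉ K → ∀ v, v ∉ K → (SimpleGraph.fromEdgeSet {e | e ∈ G.edgeSet ∧ ∀ x ∈ e, x ∉ S}).Reachable u v

/-- `l` is a trail (list of edges) from `a` to `b`, `ends e` being the pair of ends of the edge `e` -/
def Tr {E V : Type*} (ends : E → Sym2 V) : V → List E → V → Prop
  | a, [], b => a = b
  | a, e :: l, b => ∃ c, ends e = s(a, c) ∧ Tr ends c l b

/-- residual graph of an edge set -/
def Gr {E V : Type*} (ends : E → Sym2 V) (R : Set E) : SimpleGraph V :=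
  SimpleGraph.fromEdgeSet (ends '' R)

/-- degree without loops -/
noncomputable def dg {E V : Type*} (ends : E → Sym2 V) (X : Set E) (v : V) : ℕ :=
  {e | e ∈ X ∧ v ∈ ends e ∧ ¬ (ends e).IsDiag}.ncard

/-- invariant of the two-way Euler trail construction -/
structure Inv {E V : Type*} (ends : E → Sym2 V) (T : List E) (a b : V) : Prop where
  tr : Tr ends a T b
  nd : T.Nodup
  conn : ∀ e, e ∉ T → ∀ f, f ∉ T → ∀ x ∈ ends e, ∀ y ∈ ends f, (Gr ends {e | e ∉ T}).Reachable x y
  ha : ∃ e, e ∉ T ∧ a ∈ ends e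
  hb : ∃ e, e ∉ T ∧ b ∈ ends e

/-- the standing hypotheses of the two-way Euler trail theorem -/
structure Eul {E V : Type*} (ends : E → Sym2 V) : Prop where
  fin : ∀ v, {e | v ∈ ends e}.Finite
  even : ∀ v, Even (dg ends Set.univ v)
  conn : ∀ u v, (Gr ends Set.univ).Reachable u v
  one : ∀ X : Set E, X.Finite → ∃ K : Set V, K.Finite ∧ ∀ u, u ∉ K → ∀ v, v ∉ K →
    (Gr ends Xᶜ).Reachable u v

/-- `G` minus the finite set `F` splits into the regions `C i`, each of which has one end -/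
structure Reg {V : Type*} (G : SimpleGraph V) (F : Set V) {k : ℕ} (C : Fin k → Set V) : Prop where
  finF : F.Finite
  cover : ∀ v, v ∈ F ∨ ∃ i, v ∈ C i
  disjF : ∀ i, Disjoint (C i) F
  disj : ∀ i j, i ≠ j → Disjoint (C i) (C j)
  inf : ∀ i, (C i).Infinite
  noedge : ∀ i, ∀ e ∈ G.edgeSet, (∃ v ∈ e, v ∈ C i) → ∀ v ∈ e, v ∈ F ∪ C i
  one : ∀ i, ∀ Z ⊆ C i, (bd G Z).Finite → Z.Finite ∨ (C i \ Z).Finite

/-- hypotheses for the multigraph `ends` with one-ended regions `C i` outside the finite set `F` -/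
structure EulK {E V : Type*} (ends : E → Sym2 V) (F : Set V) {k : ℕ} (C : Fin k → Set V) : Prop where
  fin : ∀ v, {e | v ∈ ends e}.Finite
  even : ∀ v, Even (dg ends Set.univ v)
  conn : ∀ u v, (Gr ends Set.univ).Reachable u v
  finF : F.Finite
  disjF : ∀ i, Disjoint (C i) F
  disj : ∀ i j, i ≠ j → Disjoint (C i) (C j)
  inf : ∀ i, (C i).Infinite
  edge : ∀ e, (∃ v ∈ ends e, v ∈ F) ∨ ∃ i, ∀ v ∈ ends e, v ∈ C i
  cut : ∀ i, Even {e | (∃ v ∈ ends e, v ∈ F) ∧ ∃ v ∈ ends e, v ∈ C i}.ncard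
  one : ∀ i, ∀ X : Set E, X.Finite → ∃ K : Set V, K.Finite ∧ ∀ u ∈ C i \ K, ∀ v ∈ C i \ K,
    (Gr ends {e | e ∉ X ∧ ∀ x ∈ ends e, x ∈ C i}).Reachable u v

/-- segmentation of a trail: `l₀` from `a` to the first marked vertex, then the marked segments -/
def Seg {E V ι : Type*} (ends : E → Sym2 V) (p : ι → V) : V → List E → List (ι × List E) → V → Prop
  | a, l₀, [], b => Tr ends a l₀ b
  | a, l₀, (i, l) :: rest, b => Tr ends a l₀ (p i) ∧ Seg ends p (p i) l rest b

/-- `r` is a ray (one-way infinite path) of `G` -/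
def IsRay {V : Type*} (G : SimpleGraph V) (r : ℕ → V) : Prop :=
  Function.Injective r ∧ ∀ n, G.Adj (r n) (r (n + 1))

/-- The rays `r` and `r'` are equivalent: no finite vertex set separates them. -/
def RayEquiv {V : Type*} (G : SimpleGraph V) (r r' : ℕ → V) : Prop :=
  ∀ S : Finset V, ∃ m n : ℕ, (∀ i, m ≤ i → r i ∉ S) ∧ (∀ i, n ≤ i → r' i ∉ S) ∧
    ∃ p : G.Walk (r m) (r' n), ∀ v ∈ p.support, v ∉ S

/-- `G` has exactly `k + 1` ends, represented by the rays `r i` -/
def EndRays {V : Type*} (G : SimpleGraph V) (k : ℕ) (r : Fin (k + 1) → ℕ → V) : Prop :=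
  (∀ i, IsRay G (r i)) ∧ (∀ i j, i ≠ j → ¬ RayEquiv G (r i) (r j)) ∧
    ∀ s, IsRay G s → ∃ i, RayEquiv G s (r i)

end Pool.Agent.Helper391.Lg
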