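import Pool.Agent.Helper391.Lg.Defs



namespace Pool.Agent.Helper391.Lg
open Set


theorem tr_append {E V : Type*} (ends : E → Sym2 V) (l₁ l₂ : List E) (a b : V) :
    Tr ends a (l₁ ++ l₂) b ↔ ∃ c, Tr ends a l₁ c ∧ Tr ends c l₂ b := by
  induction l₁ generalizing a with
  | nil =>
    constructor
    · intro h
      exact ⟨a, rfl, h⟩
    · rintro ⟨c, hc, h⟩
      have hc' : a = c := hc
      rw [List.nil_append, hc']
      exact h
  | cons e l ih =>
    constructor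
    · rintro ⟨c, hc, h⟩
      obtain ⟨d, h1, h2⟩ := (ih c).1 h
      exact ⟨d, ⟨c, hc, h1⟩, h2⟩
    · rintro ⟨d, ⟨c, hc, h1⟩, h2⟩
      exact ⟨c, hc, (ih c).2 ⟨d, h1, h2⟩⟩

end Pool.Agent.Helper391.Lg
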