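import Pool.Agent.Helper391.Lg.Defs
import Pool.Agent.Helper391.Lg.P_tr_append



namespace Pool.Agent.Helper391.Lg
open Set


private theorem j26298_len {E : Type*} (Z : Set E) (hZ : Z.Finite) (l : List E) (hl : l.Nodup)
    (hs : ∀ e ∈ l, e ∈ Z) : l.length ≤ Z.ncard := by
  classical
  rw [← List.toFinset_card_of_nodup hl, ← Set.ncard_coe_finset]
  refine Set.ncard_le_ncard ?_ hZ
  intro e he
  exact hs e (List.mem_toFinset.mp (Finset.mem_coe.mp he))

private theorem j26298_step {E V : Type*} (ends : E → Sym2 V) (Z : Set E) (hZ : Z.Finite) (p : V)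
    (k : ℕ) : ∀ (l : List E) (q : V), l.Nodup → (∀ e ∈ l, e ∈ Z) → Tr ends p l q →
      Z.ncard ≤ l.length + k →
    ∃ (l : List E) (q : V), l.Nodup ∧ (∀ e ∈ l, e ∈ Z) ∧ Tr ends p l q ∧
      ∀ e ∈ Z, q ∈ ends e → e ∈ l := by
  induction k with
  | zero =>
    intro l q h1 h2 h3 h4
    refine ⟨l, q, h1, h2, h3, fun e heZ _ => ?_⟩
    by_contra hel
    have h5 : (e :: l).Nodup := List.nodup_cons.mpr ⟨hel, h1⟩
    have h6 : ∀ f ∈ e :: l, f ∈ Z := by
      intro f hf
      rcases List.mem_cons.mp hf with rfl | hf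
      · exact heZ
      · exact h2 f hf
    have h7 := j26298_len Z hZ _ h5 h6
    rw [List.length_cons] at h7
    omega
  | succ k ih =>
    intro l q h1 h2 h3 h4
    by_cases hall : ∀ e ∈ Z, q ∈ ends e → e ∈ l
    · exact ⟨l, q, h1, h2, h3, hall⟩
    · push Not at hall
      obtain ⟨e, heZ, hqe, hel⟩ := hall
      obtain ⟨r, hr⟩ := Sym2.mem_iff_exists.mp hqe
      refine ih (l ++ [e]) r ?_ ?_ ?_ ?_
      · rw [List.nodup_append]
        refine ⟨h1, List.nodup_singleton e, fun a ha b hb hab => ?_⟩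
        rw [List.mem_singleton] at hb
        rw [hab, hb] at ha
        exact hel ha
      · intro f hf
        rcases List.mem_append.mp hf with hf | hf
        · exact h2 f hf
        · rw [List.mem_singleton] at hf
          rw [hf]; exact heZ
      · rw [tr_append]
        exact ⟨q, h3, r, hr, rfl⟩
      · rw [List.length_append, List.length_singleton]
        omega

theorem max_trail {E V : Type*} (ends : E → Sym2 V) (Z : Set E) (hZ : Z.Finite) (p : V) :
    ∃ (l : List E) (q : V), l.Nodup ∧ (∀ e ∈ l, e ∈ Z) ∧ Tr ends p l q ∧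
      ∀ e ∈ Z, q ∈ ends e → e ∈ l := by
  exact j26298_step ends Z hZ p Z.ncard [] p List.nodup_nil
    (fun e he => absurd he List.not_mem_nil) rfl (by simp)

end Pool.Agent.Helper391.Lg
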