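import Pool.Agent.Helper391.Lg.Defs



namespace Pool.Agent.Helper391.Lg
open Set


theorem tr_parity_cons {E V : Type*} (ends : E → Sym2 V) (e : E) (l : List E) (v : V)
    (hn : (e :: l).Nodup) :
    ((v ∈ ends e ∧ ¬ (ends e).IsDiag) →
      dg ends {x | x ∈ e :: l} v = dg ends {x | x ∈ l} v + 1) ∧
    (¬ (v ∈ ends e ∧ ¬ (ends e).IsDiag) →
      dg ends {x | x ∈ e :: l} v = dg ends {x | x ∈ l} v) := by
  have he : e ∉ l := (List.nodup_cons.1 hn).1
  have hfin : {x | x ∈ {x | x ∈ l} ∧ v ∈ ends x ∧ ¬ (ends x).IsDiag}.Finite := by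
    refine (l.finite_toSet).subset ?_
    intro x hx
    exact hx.1
  constructor
  · intro hc
    have hset : {x | x ∈ {x | x ∈ e :: l} ∧ v ∈ ends x ∧ ¬ (ends x).IsDiag} =
        insert e {x | x ∈ {x | x ∈ l} ∧ v ∈ ends x ∧ ¬ (ends x).IsDiag} := by
      ext x
      constructor
      · rintro ⟨h1, h2⟩
        rcases List.mem_cons.1 h1 with h | h
        · exact Or.inl h
        · exact Or.inr ⟨h, h2⟩
      · rintro (h | ⟨h1, h2⟩)
        · subst h
          exact ⟨List.mem_cons_self, hc⟩
        · exact ⟨List.mem_cons_of_mem _ h1, h2⟩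
    unfold dg
    rw [hset, Set.ncard_insert_of_notMem (fun h => he h.1) hfin]
  · intro hc
    have hset : {x | x ∈ {x | x ∈ e :: l} ∧ v ∈ ends x ∧ ¬ (ends x).IsDiag} =
        {x | x ∈ {x | x ∈ l} ∧ v ∈ ends x ∧ ¬ (ends x).IsDiag} := by
      ext x
      constructor
      · rintro ⟨h1, h2⟩
        rcases List.mem_cons.1 h1 with h | h
        · subst h
          exact absurd h2 hc
        · exact ⟨h, h2⟩
      · rintro ⟨h1, h2⟩
        exact ⟨List.mem_cons_of_mem _ h1, h2⟩
    unfold dg
    rw [hset]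

theorem tr_parity {E V : Type*} [DecidableEq V] (ends : E → Sym2 V) (l : List E) (a b v : V)
    (h : Tr ends a l b) (hn : l.Nodup) :
    (dg ends {e | e ∈ l} v : ZMod 2) = (if v = a then 1 else 0) + (if v = b then 1 else 0) := by
  induction l generalizing a with
  | nil =>
    have hab : a = b := h
    subst hab
    rw [CharTwo.add_self_eq_zero]
    have : dg ends {e : E | e ∈ ([] : List E)} v = 0 := by
      unfold dg
      have hs : {e : E | e ∈ {e : E | e ∈ ([] : List E)} ∧ v ∈ ends e ∧ ¬ (ends e).IsDiag} = ∅ := by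
        ext x
        constructor
        · rintro ⟨h1, _⟩
          exact absurd h1 List.not_mem_nil
        · intro h
          exact absurd h (Set.notMem_empty _)
      rw [hs, Set.ncard_empty]
    rw [this, Nat.cast_zero]
  | cons e l ih =>
    obtain ⟨c, hc, ht⟩ := h
    have ih' := ih c ht (List.nodup_cons.1 hn).2
    obtain ⟨h1, h2⟩ := tr_parity_cons ends e l v hn
    rw [hc] at h1 h2
    have h11 : (1 : ZMod 2) + 1 = 0 := CharTwo.add_self_eq_zero 1
    by_cases hac : a = c
    · subst hac
      rw [h2 (fun h => h.2 (Sym2.mk_isDiag_iff.2 rfl)), ih']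
    · have hnd : ¬ (s(a, c) : Sym2 V).IsDiag := fun h => hac (Sym2.mk_isDiag_iff.1 h)
      by_cases hva : v = a
      · subst hva
        rw [h1 ⟨Sym2.mem_mk_left _ _, hnd⟩, Nat.cast_add, ih', if_neg hac, if_pos rfl,
          Nat.cast_one]
        ring
      · by_cases hvc : v = c
        · subst hvc
          rw [h1 ⟨Sym2.mem_mk_right _ _, hnd⟩, Nat.cast_add, ih', if_pos rfl, if_neg hva,
            Nat.cast_one]
          linear_combination h11
        · rw [h2 (fun h => by
            rcases Sym2.mem_iff.1 h.1 with h' | h'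
            · exact hva h'
            · exact hvc h'), ih', if_neg hva, if_neg hvc]

end Pool.Agent.Helper391.Lg
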