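import Pool.Agent.Helper391.Lg.Defs
import Pool.Agent.Helper391.Lg.P_tr_parity
import Pool.Agent.Helper391.Lg.P_max_trail



namespace Pool.Agent.Helper391.Lg
open Set


theorem closed_trail {E V : Type*} (ends : E → Sym2 V) (Z : Set E) (hZ : Z.Finite)
    (hev : ∀ v, Even (dg ends Z v)) (p : V) (e : E) (he : e ∈ Z) (hp : p ∈ ends e) :
    ∃ l : List E, l ≠ [] ∧ l.Nodup ∧ (∀ e ∈ l, e ∈ Z) ∧ Tr ends p l p := by
  classical
  obtain ⟨l, q, hnd, hsub, htr, hmax⟩ := max_trail ends Z hZ p
  by_cases hqp : q = p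
  · subst hqp
    refine ⟨l, ?_, hnd, hsub, htr⟩
    intro h
    have := hmax e he hp
    rw [h] at this
    simp at this
  · exfalso
    have h1 := tr_parity ends l p q q htr hnd
    have h2 : dg ends {e | e ∈ l} q = dg ends Z q := by
      unfold dg
      congr 1
      ext f
      constructor
      · rintro ⟨a, b, c⟩
        exact ⟨hsub f a, b, c⟩
      · rintro ⟨a, b, c⟩
        exact ⟨hmax f a b, b, c⟩
    rw [h2, if_neg hqp, if_pos rfl, zero_add] at h1
    have h3 : ((dg ends Z q : ℕ) : ZMod 2) = 0 := by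
      rw [ZMod.natCast_eq_zero_iff_even]
      exact hev q
    rw [h3] at h1
    exact zero_ne_one h1

end Pool.Agent.Helper391.Lg
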