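import Pool.Agent.Helper391.Lg.Defs



namespace Pool.Agent.Helper391.Lg
open Set


theorem tr_split {E V : Type*} (ends : E → Sym2 V) (l : List E) (a b p : V)
    (h : Tr ends a l b) (e : E) (he : e ∈ l) (hp : p ∈ ends e) :
    ∃ l₁ l₂ : List E, l = l₁ ++ l₂ ∧ Tr ends a l₁ p ∧ Tr ends p l₂ b := by
  induction l generalizing a with
  | nil => simp at he
  | cons f l ih =>
    obtain ⟨c, hc, hcl⟩ := h
    rcases List.mem_cons.1 he with rfl | he'
    · rw [hc, Sym2.mem_iff] at hp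
      rcases hp with rfl | rfl
      · exact ⟨[], e :: l, rfl, rfl, c, hc, hcl⟩
      · exact ⟨[e], l, rfl, ⟨p, hc, rfl⟩, hcl⟩
    · obtain ⟨l₁, l₂, rfl, h1, h2⟩ := ih c hcl he'
      exact ⟨f :: l₁, l₂, rfl, ⟨c, hc, h1⟩, h2⟩

end Pool.Agent.Helper391.Lg
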