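import Pool.Agent.Helper391.Lg.Defs
import Pool.Agent.Helper391.Lg.P_tr_append
import Pool.Agent.Helper391.Lg.P_tr_parity
import Pool.Agent.Helper391.Lg.P_tr_split
import Pool.Agent.Helper391.Lg.P_closed_trail



namespace Pool.Agent.Helper391.Lg
open Set


theorem absorb_ot {E V : Type*} (ends : E → Sym2 V) (Z : Set E) (P : List E) (b c : V)
    (hno : ∀ p, (∃ l₁ l₂ : List E, P = l₁ ++ l₂ ∧ Tr ends b l₁ p ∧ Tr ends p l₂ c) →
      ∀ e ∈ Z, p ∉ ends e) (hP : Tr ends b P c)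
    (u x : V) (w : (Gr ends (Z ∪ {e | e ∈ P})).Walk u x)
    (hu : ∃ l₁ l₂ : List E, P = l₁ ++ l₂ ∧ Tr ends b l₁ u ∧ Tr ends u l₂ c) :
    ∃ l₁ l₂ : List E, P = l₁ ++ l₂ ∧ Tr ends b l₁ x ∧ Tr ends x l₂ c := by
  induction w with
  | nil => exact hu
  | @cons u u' x hadj w ih =>
    apply ih
    rw [Gr, SimpleGraph.fromEdgeSet_adj] at hadj
    obtain ⟨⟨e, he, hee⟩, hne⟩ := hadj
    rcases he with he | he
    · exfalso
      apply hno u hu e he
      rw [hee]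
      exact Sym2.mem_mk_left _ _
    · obtain ⟨l₁, l₂, h1, h2, h3⟩ := tr_split ends P b c u' hP e he (by
        rw [hee]; exact Sym2.mem_mk_right _ _)
      exact ⟨l₁, l₂, h1, h2, h3⟩

theorem absorb_dg {E V : Type*} (ends : E → Sym2 V) (Z C : Set E) (hZ : Z.Finite) (hC : C ⊆ Z)
    (v : V) : dg ends Z v = dg ends (Z \ C) v + dg ends C v := by
  unfold dg
  rw [← Set.ncard_union_eq ?_ (hZ.subset (fun e he => he.1.1)) (hZ.subset (fun e he => hC he.1))]
  · congr 1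
    ext e
    simp only [Set.mem_union, Set.mem_ofPred_eq, Set.mem_sdiff]
    constructor
    · rintro ⟨h1, h2, h3⟩
      by_cases h : e ∈ C
      · exact Or.inr ⟨h, h2, h3⟩
      · exact Or.inl ⟨⟨h1, h⟩, h2, h3⟩
    · rintro (⟨⟨h1, -⟩, h2, h3⟩ | ⟨h1, h2, h3⟩)
      · exact ⟨h1, h2, h3⟩
      · exact ⟨hC h1, h2, h3⟩
  · rw [Set.disjoint_left]
    rintro e ⟨⟨-, h1⟩, -⟩ ⟨h2, -⟩
    exact h1 h2

theorem absorb_aux {E V : Type*} (ends : E → Sym2 V) (c : V) (n : ℕ) :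
    ∀ (Z : Set E) (hn : Z.ncard = n) (hZ : Z.Finite)
    (hev : ∀ v, Even (dg ends Z v)) (P : List E) (b : V) (hP : Tr ends b P c) (hPn : P.Nodup)
    (hdis : ∀ e ∈ P, e ∉ Z)
    (hcon : ∀ e ∈ Z, ∀ x ∈ ends e, (Gr ends (Z ∪ {e | e ∈ P})).Reachable b x),
    ∃ P' : List E, Tr ends b P' c ∧ P'.Nodup ∧ ∀ e, e ∈ P' ↔ (e ∈ P ∨ e ∈ Z) := by
  classical
  induction n using Nat.strong_induction_on with
  | _ n ih =>
  intro Z hn hZ hev P b hP hPn hdis hcon
  rcases Z.eq_empty_or_nonempty with hE | ⟨e₁, he₁⟩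
  · subst hE
    exact ⟨P, hP, hPn, fun e => by simp⟩
  · have hclaim : ∃ p, (∃ l₁ l₂ : List E, P = l₁ ++ l₂ ∧ Tr ends b l₁ p ∧ Tr ends p l₂ c) ∧
        ∃ e ∈ Z, p ∈ ends e := by
      by_contra hcc
      push Not at hcc
      obtain ⟨x, hx⟩ : ∃ x, x ∈ ends e₁ := by
        induction h : ends e₁ using Sym2.ind with
        | _ x y => exact ⟨x, Sym2.mem_mk_left _ _⟩
      obtain ⟨w⟩ := hcon e₁ he₁ x hx
      have h1 := absorb_ot ends Z P b c hcc hP b x w ⟨[], P, rfl, rfl, hP⟩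
      exact hcc x h1 e₁ he₁ hx
    obtain ⟨p, ⟨l₁, l₂, hPl, ht1, ht2⟩, e, he, hpe⟩ := hclaim
    obtain ⟨C, hC0, hCn, hCZ, hCt⟩ := closed_trail ends Z hZ hev p e he hpe
    set Z₁ : Set E := Z \ {e | e ∈ C} with hZ₁
    have hCsub : {e | e ∈ C} ⊆ Z := fun e he => hCZ e he
    have hlt : Z₁.ncard < n := by
      rw [← hn]
      apply Set.ncard_lt_ncard _ hZ
      refine ⟨Set.sdiff_subset, ?_⟩
      intro hsub
      obtain ⟨e', he'⟩ := List.exists_mem_of_ne_nil C hC0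
      exact (hsub (hCZ e' he')).2 he'
    have htr : Tr ends b (l₁ ++ (C ++ l₂)) c :=
      (tr_append ends _ _ _ _).2 ⟨p, ht1, (tr_append ends _ _ _ _).2 ⟨p, hCt, ht2⟩⟩
    have hnd : (l₁ ++ (C ++ l₂)).Nodup := by
      rw [hPl, List.nodup_append] at hPn
      obtain ⟨hn1, hn2, hn3⟩ := hPn
      rw [List.nodup_append, List.nodup_append]
      refine ⟨hn1, ⟨hCn, hn2, ?_⟩, ?_⟩
      · rintro x hx y hy rfl
        exact hdis x (by rw [hPl]; exact List.mem_append_right _ hy) (hCZ x hx)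
      · rintro x hx y hy rfl
        rcases List.mem_append.1 hy with hy | hy
        · exact hdis x (by rw [hPl]; exact List.mem_append_left _ hx) (hCZ x hy)
        · exact hn3 x hx x hy rfl
    have hmem : ∀ e, e ∈ l₁ ++ (C ++ l₂) ↔ (e ∈ P ∨ e ∈ C) := by
      intro e
      rw [hPl]
      simp only [List.mem_append]
      tauto
    have hset : Z₁ ∪ {e | e ∈ l₁ ++ (C ++ l₂)} = Z ∪ {e | e ∈ P} := by
      ext e
      simp only [hZ₁, Set.mem_union, Set.mem_sdiff, Set.mem_ofPred_eq, hmem]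
      constructor
      · rintro (⟨h, -⟩ | (h | h))
        · exact Or.inl h
        · exact Or.inr h
        · exact Or.inl (hCZ e h)
      · rintro (h | h)
        · by_cases h' : e ∈ C
          · exact Or.inr (Or.inr h')
          · exact Or.inl ⟨h, h'⟩
        · exact Or.inr (Or.inl h)
    have hev1 : ∀ v, Even (dg ends Z₁ v) := by
      intro v
      have hd := absorb_dg ends Z {e | e ∈ C} hZ hCsub v
      have hpar := tr_parity ends C p p v hCt hCn
      have hev2 : Even (dg ends {e | e ∈ C} v) := by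
        rw [even_iff_two_dvd, ← ZMod.natCast_eq_zero_iff]
        rw [hpar]
        split_ifs <;> decide
      have := hev v
      rw [hd] at this
      rw [Nat.even_add] at this
      exact this.2 hev2
    have hdis1 : ∀ e ∈ l₁ ++ (C ++ l₂), e ∉ Z₁ := by
      intro e he heZ
      rw [hmem] at he
      rcases he with he | he
      · exact hdis e he heZ.1
      · exact heZ.2 he
    have hcon1 : ∀ e ∈ Z₁, ∀ x ∈ ends e,
        (Gr ends (Z₁ ∪ {e | e ∈ l₁ ++ (C ++ l₂)})).Reachable b x := by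
      intro e he x hx
      rw [hset]
      exact hcon e he.1 x hx
    obtain ⟨P', h1, h2, h3⟩ := ih Z₁.ncard hlt Z₁ rfl (hZ.subset Set.sdiff_subset) hev1
      (l₁ ++ (C ++ l₂)) b htr hnd hdis1 hcon1
    refine ⟨P', h1, h2, fun e => ?_⟩
    rw [h3, hmem]
    simp only [hZ₁, Set.mem_sdiff, Set.mem_ofPred_eq]
    constructor
    · rintro ((h | h) | ⟨h, -⟩)
      · exact Or.inl h
      · exact Or.inr (hCZ e h)
      · exact Or.inr h
    · rintro (h | h)
      · exact Or.inl (Or.inl h)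
      · by_cases h' : e ∈ C
        · exact Or.inl (Or.inr h')
        · exact Or.inr ⟨h, h'⟩

theorem absorb {E V : Type*} (ends : E → Sym2 V) (Z : Set E) (hZ : Z.Finite)
    (hev : ∀ v, Even (dg ends Z v)) (P : List E) (b c : V) (hP : Tr ends b P c) (hPn : P.Nodup)
    (hdis : ∀ e ∈ P, e ∉ Z)
    (hcon : ∀ e ∈ Z, ∀ x ∈ ends e, (Gr ends (Z ∪ {e | e ∈ P})).Reachable b x) :
    ∃ P' : List E, Tr ends b P' c ∧ P'.Nodup ∧ ∀ e, e ∈ P' ↔ (e ∈ P ∨ e ∈ Z) :=
  absorb_aux ends c Z.ncard Z rfl hZ hev P b hP hPn hdis hcon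

end Pool.Agent.Helper391.Lg
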