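import Pool.Agent.Helper391.Lg.Defs
import Pool.Agent.Helper391.Lg.P_tr_append
import Pool.Agent.Helper391.Lg.P_tr_parity
import Pool.Agent.Helper391.Lg.P_max_trail
import Pool.Agent.Helper391.Lg.P_absorb



namespace Pool.Agent.Helper391.Lg
open Set


theorem absorb_odd {E V : Type*} [DecidableEq V] (ends : E → Sym2 V) (Z : Set E) (hZ : Z.Finite)
    (a b c : V) (hac : a ≠ c)
    (hev : ∀ v, (dg ends Z v : ZMod 2) = (if v = a then 1 else 0) + (if v = c then 1 else 0))
    (P : List E) (hP : Tr ends b P c) (hPn : P.Nodup)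
    (hdis : ∀ e ∈ P, e ∉ Z)
    (hcon : ∀ e ∈ Z, ∀ x ∈ ends e, (Gr ends (Z ∪ {e | e ∈ P})).Reachable b x) :
    ∃ P' : List E, Tr ends b P' a ∧ P'.Nodup ∧ ∀ e, e ∈ P' ↔ (e ∈ P ∨ e ∈ Z) := by
  obtain ⟨l, q, hln, hlZ, hl, hmax⟩ := max_trail ends Z hZ c
  have hdq : dg ends Z q = dg ends {e | e ∈ l} q := by
    unfold dg
    congr 1
    ext e
    constructor
    · rintro ⟨h1, h2, h3⟩
      exact ⟨hmax e h1 h2, h2, h3⟩
    · rintro ⟨h1, h2, h3⟩
      exact ⟨hlZ e h1, h2, h3⟩
  have hpar := tr_parity ends l c q q hl hln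
  have hq : q = a := by
    have h1 := hev q
    rw [hdq, hpar] at h1
    by_contra hqa
    rw [if_neg hqa] at h1
    simp at h1
  subst hq
  have hTr : Tr ends b (P ++ l) q := (tr_append ends P l b q).mpr ⟨c, hP, hl⟩
  have hNd : (P ++ l).Nodup := by
    rw [List.nodup_append']
    refine ⟨hPn, hln, ?_⟩
    intro e h1 h2
    exact hdis e h1 (hlZ e h2)
  have hset : (Z \ {e | e ∈ l}) ∪ {e | e ∈ P ++ l} = Z ∪ {e | e ∈ P} := by
    ext e
    simp only [Set.mem_union, Set.mem_diff, Set.mem_setOf_eq, List.mem_append]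
    constructor
    · rintro (⟨h1, _⟩ | h1 | h1)
      · exact Or.inl h1
      · exact Or.inr h1
      · exact Or.inl (hlZ e h1)
    · rintro (h1 | h1)
      · by_cases h2 : e ∈ l
        · exact Or.inr (Or.inr h2)
        · exact Or.inl ⟨h1, h2⟩
      · exact Or.inr (Or.inl h1)
  obtain ⟨P', h1, h2, h3⟩ := absorb ends (Z \ {e | e ∈ l}) (hZ.subset (fun e he => he.1)) (by
      intro v
      have hadd : dg ends Z v = dg ends (Z \ {e | e ∈ l}) v + dg ends {e | e ∈ l} v := by
        unfold dg
        have hdj : Disjoint {e | e ∈ Z \ {e | e ∈ l} ∧ v ∈ ends e ∧ ¬(ends e).IsDiag}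
            {e | e ∈ {e | e ∈ l} ∧ v ∈ ends e ∧ ¬(ends e).IsDiag} := by
          rw [Set.disjoint_left]
          rintro e ⟨⟨_, h1⟩, _⟩ ⟨h2, _⟩
          exact h1 h2
        rw [← Set.ncard_union_eq hdj (hZ.subset (fun e he => he.1.1))
          (hZ.subset (fun e he => hlZ e he.1))]
        · congr 1
          ext e
          simp only [Set.mem_union, Set.mem_diff, Set.mem_setOf_eq]
          constructor
          · rintro ⟨h1, h2⟩
            by_cases h3 : e ∈ l
            · exact Or.inr ⟨h3, h2⟩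
            · exact Or.inl ⟨⟨h1, h3⟩, h2⟩
          · rintro (⟨h1, h2⟩ | ⟨h1, h2⟩)
            · exact ⟨h1.1, h2⟩
            · exact ⟨hlZ e h1, h2⟩
      have hp := tr_parity ends l c q v hl hln
      have he := hev v
      rw [hadd, Nat.cast_add, hp] at he
      have h0 : (dg ends (Z \ {e | e ∈ l}) v : ZMod 2) = 0 := by
        have h4 : (dg ends (Z \ {e | e ∈ l}) v : ZMod 2) +
            ((if v = c then 1 else 0) + (if v = q then 1 else 0)) =
            0 + ((if v = c then 1 else 0) + (if v = q then 1 else 0)) := by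
          rw [he]
          ring
        exact add_right_cancel h4
      rw [ZMod.natCast_eq_zero_iff] at h0
      exact even_iff_two_dvd.mpr h0) (P ++ l) b q hTr hNd (by
      intro e he hZ'
      rw [List.mem_append] at he
      rcases he with he | he
      · exact hdis e he hZ'.1
      · exact hZ'.2 he) (by
      intro e he x hx
      rw [hset]
      exact hcon e he.1 x hx)
  refine ⟨P', h1, h2, ?_⟩
  intro e
  rw [h3 e, List.mem_append, Set.mem_diff, Set.mem_setOf_eq]
  constructor
  · rintro ((h | h) | h)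
    · exact Or.inl h
    · exact Or.inr (hlZ e h)
    · exact Or.inr h.1
  · rintro (h | h)
    · exact Or.inl (Or.inl h)
    · by_cases h4 : e ∈ l
      · exact Or.inl (Or.inr h4)
      · exact Or.inr ⟨h, h4⟩

end Pool.Agent.Helper391.Lg
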