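import Pool.Agent.Helper391.Lg.Defs



namespace Pool.Agent.Helper391.Lg
open Set


private theorem big_comps_walk {V : Type*} (G : SimpleGraph V) (S : Set V) {u s : V}
    (w : G.Walk u s) : s ∈ S → u ∉ S → ∃ x, (∃ s' ∈ S, G.Adj s' x) ∧
      (SimpleGraph.fromEdgeSet {e | e ∈ G.edgeSet ∧ ∀ x ∈ e, x ∉ S}).Reachable u x := by
  induction w with
  | nil => intro hs hu; exact absurd hs hu
  | @cons u v s' hadj p ih =>
    intro hs hu
    by_cases hv : v ∈ S
    · exact ⟨u, ⟨v, hv, hadj.symm⟩, SimpleGraph.Reachable.refl _⟩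
    · obtain ⟨x, hx, hr⟩ := ih hs hv
      refine ⟨x, hx, SimpleGraph.Reachable.trans (SimpleGraph.Adj.reachable ?_) hr⟩
      rw [SimpleGraph.fromEdgeSet_adj]
      refine ⟨⟨hadj, ?_⟩, hadj.ne⟩
      intro y hy
      rw [Sym2.mem_iff] at hy
      rcases hy with rfl | rfl
      · exact hu
      · exact hv

/-- deleting a finite nonempty set `S`: all vertices whose component in `G - S` is finite, together
with `S`, form a finite set -/
theorem big_comps {V : Type*} (G : SimpleGraph V) (hfin : ∀ v, (G.neighborSet v).Finite)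
    (hconn : ∀ u v, G.Reachable u v) (S : Set V) (hS : S.Finite) (hne : S.Nonempty) :
    (S ∪ {v | {w | (SimpleGraph.fromEdgeSet {e | e ∈ G.edgeSet ∧ ∀ x ∈ e, x ∉ S}).Reachable v w}.Finite}).Finite := by
  obtain ⟨s, hs⟩ := hne
  have hN : (⋃ s ∈ S, G.neighborSet s).Finite := hS.biUnion fun s _ => hfin s
  have hfinU : (S ∪ ⋃ x ∈ (⋃ s ∈ S, G.neighborSet s) ∩
      {x | {w | (SimpleGraph.fromEdgeSet {e | e ∈ G.edgeSet ∧ ∀ x ∈ e, x ∉ S}).Reachable x w}.Finite},
      {w | (SimpleGraph.fromEdgeSet {e | e ∈ G.edgeSet ∧ ∀ x ∈ e, x ∉ S}).Reachable x w}).Finite :=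
    hS.union ((hN.inter_of_left _).biUnion fun x hx => hx.2)
  refine hfinU.subset ?_
  intro v hv
  by_cases hvS : v ∈ S
  · exact Or.inl hvS
  · have hvB : {w | (SimpleGraph.fromEdgeSet
        {e | e ∈ G.edgeSet ∧ ∀ x ∈ e, x ∉ S}).Reachable v w}.Finite := hv.resolve_left hvS
    obtain ⟨w⟩ := hconn v s
    obtain ⟨x, ⟨s', hs', hadj⟩, hr⟩ := big_comps_walk G S w hs hvS
    refine Or.inr ?_
    rw [Set.mem_iUnion₂]
    refine ⟨x, ⟨?_, ?_⟩, hr.symm⟩
    · rw [Set.mem_iUnion₂]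
      exact ⟨s', hs', hadj⟩
    · exact hvB.subset fun y hy => hr.trans hy

end Pool.Agent.Helper391.Lg
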