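import Pool.Agent.Helper391.Lg.Defs



namespace Pool.Agent.Helper391.Lg
open Set


theorem inc_finite {V : Type*} (G : SimpleGraph V) (hfin : ∀ v, (G.neighborSet v).Finite) (F X : Set V)
    (hX : X.Finite) : (inc G F X).Finite ∧ (ins G X).Finite ∧ (bd G X).Finite := by
  have key : (⋃ v ∈ X, (fun w => s(v, w)) '' G.neighborSet v).Finite :=
    hX.biUnion fun v _ => (hfin v).image _
  have sub : ∀ e ∈ G.edgeSet, ∀ v ∈ e, v ∈ X → e ∈ ⋃ v ∈ X, (fun w => s(v, w)) '' G.neighborSet v := by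
    intro e he v hv hvX
    obtain ⟨w, rfl⟩ := Sym2.mem_iff_exists.1 hv
    simp only [mem_iUnion]
    exact ⟨v, hvX, w, he, rfl⟩
  refine ⟨key.subset ?_, key.subset ?_, key.subset ?_⟩
  · rintro e ⟨he, -, v, hv, hvX⟩
    exact sub e he v hv hvX
  · rintro e ⟨he, h⟩
    induction e with
    | _ a b => exact sub _ he a (Sym2.mem_mk_left a b) (h a (Sym2.mem_mk_left a b))
  · rintro e ⟨he, ⟨v, hv, hvX⟩, -⟩
    exact sub e he v hv hvX

end Pool.Agent.Helper391.Lg
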