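import Pool.Agent.Helper391.Lg.Defs
import Pool.Agent.Helper391.Lg.P_inc_finite



namespace Pool.Agent.Helper391.Lg
open Set


open Classical in
theorem rk_lower_chi {V : Type*} (a b : V) (hab : a ≠ b) :
    chi s(a, b) = (Pi.single b (1 : ZMod 2) : V → ZMod 2) - Pi.single a 1 := by
  funext v
  unfold chi
  simp only [Sym2.mem_iff, Pi.sub_apply, Pi.single_apply]
  by_cases h1 : v = a
  · have h2 : v ≠ b := fun h => hab (h1.symm.trans h)
    simp only [h1, h2, true_or, if_true, if_false]
    rw [if_neg (fun h => hab h)]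
    decide
  · by_cases h2 : v = b
    · simp [h2, hab.symm]
    · simp [h1, h2]

open Classical in
theorem rk_lower_walk {V : Type*} (T : Set (Sym2 V)) (x v : V)
    (p : (SimpleGraph.fromEdgeSet T).Walk x v) :
    (Pi.single v (1 : ZMod 2) : V → ZMod 2) - Pi.single x 1 ∈
      Submodule.span (ZMod 2) (chi '' T) := by
  induction p with
  | nil => simp
  | @cons a b c h p ih =>
    rw [SimpleGraph.fromEdgeSet_adj] at h
    have h1 : (Pi.single b (1 : ZMod 2) : V → ZMod 2) - Pi.single a 1 ∈
        Submodule.span (ZMod 2) (chi '' T) := by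
      rw [← rk_lower_chi a b h.2]
      exact Submodule.subset_span ⟨_, h.1, rfl⟩
    have h2 := Submodule.add_mem _ ih h1
    convert h2 using 1
    abel

/-- edges connecting a finite set `D` have rank at least `|D| - 1` -/
theorem rk_lower {V : Type*} (G : SimpleGraph V) (hfin : ∀ v, (G.neighborSet v).Finite)
    (D : Set V) (hD : D.Finite) (T : Set (Sym2 V)) (hT : T ⊆ ins G D) (hc : Conn T D) :
    D.ncard ≤ rk chi T + 1 := by
  classical
  rcases D.eq_empty_or_nonempty with hD0 | ⟨x, hx⟩
  · rw [hD0]; simp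
  have hTfin : T.Finite := (inc_finite G hfin ∅ D hD).2.1.subset hT
  have hSfin : (chi '' T).Finite := hTfin.image _
  haveI : FiniteDimensional (ZMod 2) (Submodule.span (ZMod 2) (chi '' T)) :=
    FiniteDimensional.span_of_finite _ hSfin
  haveI : Fintype D := hD.fintype
  have hli : LinearIndependent (ZMod 2) (fun v : D => (Pi.single (v : V) (1 : ZMod 2) : V → ZMod 2)) :=
    (Pi.linearIndependent_single_one V (ZMod 2)).comp (fun v : D => (v : V)) Subtype.val_injective
  have hcard := finrank_span_eq_card hli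
  have hle : Submodule.span (ZMod 2) (Set.range (fun v : D => (Pi.single (v : V) (1 : ZMod 2) : V → ZMod 2))) ≤
      Submodule.span (ZMod 2) (chi '' T) ⊔
        Submodule.span (ZMod 2) {(Pi.single x (1 : ZMod 2) : V → ZMod 2)} := by
    rw [Submodule.span_le]
    rintro _ ⟨v, rfl⟩
    obtain ⟨p⟩ := hc x hx v.1 v.2
    have h1 := rk_lower_walk T x v.1 p
    have h2 : (Pi.single (v : V) (1 : ZMod 2) : V → ZMod 2) =
        ((Pi.single (v : V) (1 : ZMod 2) : V → ZMod 2) - Pi.single x 1) + Pi.single x 1 := by abel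
    show (Pi.single (v : V) (1 : ZMod 2) : V → ZMod 2) ∈ _
    rw [h2]
    exact Submodule.add_mem_sup h1 (Submodule.mem_span_singleton_self _)
  have h1 := Submodule.finrank_mono hle
  have h2 := Submodule.finrank_add_le_finrank_add_finrank
    (Submodule.span (ZMod 2) (chi '' T))
    (Submodule.span (ZMod 2) {(Pi.single x (1 : ZMod 2) : V → ZMod 2)})
  have h3 : Module.finrank (ZMod 2)
      (Submodule.span (ZMod 2) {(Pi.single x (1 : ZMod 2) : V → ZMod 2)}) = 1 := by
    apply finrank_span_singleton
    intro h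
    have := congrFun h x
    simp at this
  have h4 : D.ncard = Fintype.card D := by
    rw [← Nat.card_eq_fintype_card, Nat.card_coe_set_eq]
  have h5 : rk chi T = Module.finrank (ZMod 2) (Submodule.span (ZMod 2) (chi '' T)) := rfl
  rw [h4, h5]
  omega

end Pool.Agent.Helper391.Lg
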