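import Pool.Agent.Helper391.Lg.Defs
import Pool.Agent.Helper391.Lg.P_rk_lower



namespace Pool.Agent.Helper391.Lg
open Set


theorem cc_one {V : Type*} (G : SimpleGraph V) (hfin : ∀ v, (G.neighborSet v).Finite)
    (S : Set V) (hS : S.Finite) (c : V)
    (hc : ∀ x ∈ S, (SimpleGraph.fromEdgeSet (ins G S)).Reachable x c) :
    (S.ncard : ℤ) - rk chi (ins G S) ≤ 1 := by
  have h1 : Conn (ins G S) S := fun u hu v hv => (hc u hu).trans (hc v hv).symm
  have h2 := rk_lower G hfin S hS (ins G S) (fun e he => he) h1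
  omega

end Pool.Agent.Helper391.Lg
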