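import Pool.Agent.Helper391.Lg.Defs



namespace Pool.Agent.Helper391.Lg
open Set


/-- ranks add for vector families with disjoint supports -/
theorem rk_disj {E V : Type*} (f : E → V → ZMod 2) (T T' : Set E) (hT : T.Finite) (hT' : T'.Finite)
    (X : Set V) (h : ∀ e ∈ T, ∀ v, v ∉ X → f e v = 0) (h' : ∀ e ∈ T', ∀ v, v ∈ X → f e v = 0) :
    rk f (T ∪ T') = rk f T + rk f T' := by
  haveI : FiniteDimensional (ZMod 2) (Submodule.span (ZMod 2) (f '' T)) :=
    FiniteDimensional.span_of_finite _ (hT.image f)
  haveI : FiniteDimensional (ZMod 2) (Submodule.span (ZMod 2) (f '' T')) :=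
    FiniteDimensional.span_of_finite _ (hT'.image f)
  have h1 : ∀ w ∈ Submodule.span (ZMod 2) (f '' T), ∀ v, v ∉ X → w v = 0 := by
    intro w hw
    induction hw using Submodule.span_induction with
    | mem x hx =>
      obtain ⟨e, he, rfl⟩ := hx
      exact h e he
    | zero => intro v _; rfl
    | add x y _ _ hx hy =>
      intro v hv
      rw [Pi.add_apply, hx v hv, hy v hv, add_zero]
    | smul a x _ hx =>
      intro v hv
      rw [Pi.smul_apply, hx v hv, smul_zero]
  have h2 : ∀ w ∈ Submodule.span (ZMod 2) (f '' T'), ∀ v, v ∈ X → w v = 0 := by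
    intro w hw
    induction hw using Submodule.span_induction with
    | mem x hx =>
      obtain ⟨e, he, rfl⟩ := hx
      exact h' e he
    | zero => intro v _; rfl
    | add x y _ _ hx hy =>
      intro v hv
      rw [Pi.add_apply, hx v hv, hy v hv, add_zero]
    | smul a x _ hx =>
      intro v hv
      rw [Pi.smul_apply, hx v hv, smul_zero]
  have hinf : Submodule.span (ZMod 2) (f '' T) ⊓ Submodule.span (ZMod 2) (f '' T') = ⊥ := by
    rw [eq_bot_iff]
    rintro w ⟨hw1, hw2⟩
    rw [Submodule.mem_bot]
    funext v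
    by_cases hv : v ∈ X
    · exact h2 w hw2 v hv
    · exact h1 w hw1 v hv
  have h3 := Submodule.finrank_sup_add_finrank_inf_eq (Submodule.span (ZMod 2) (f '' T))
    (Submodule.span (ZMod 2) (f '' T'))
  rw [hinf, finrank_bot, add_zero, ← Submodule.span_union, ← Set.image_union] at h3
  exact h3

end Pool.Agent.Helper391.Lg
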