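import Pool.Agent.Helper391.Lg.Defs



namespace Pool.Agent.Helper391.Lg
open Set


theorem rk_mono {E M : Type*} [AddCommGroup M] [Module (ZMod 2) M] (f : E → M) (T T' : Set E)
    (h : T ⊆ T') (hf : T'.Finite) : rk f T ≤ rk f T' := by
  unfold rk Set.finrank
  have : FiniteDimensional (ZMod 2) (Submodule.span (ZMod 2) (f '' T')) :=
    FiniteDimensional.span_of_finite (ZMod 2) (hf.image f)
  exact Submodule.finrank_mono (Submodule.span_mono (Set.image_mono h))

end Pool.Agent.Helper391.Lg
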