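import Pool.Agent.Helper391.Lg.Defs
import Pool.Agent.Helper391.Lg.P_rk_mono
import Pool.Agent.Helper391.Lg.P_rk_disj
import Pool.Agent.Helper391.Lg.P_inc_finite



namespace Pool.Agent.Helper391.Lg
open Set


theorem cc_union {V : Type*} (G : SimpleGraph V) (hfin : ∀ v, (G.neighborSet v).Finite)
    (S D : Set V) (hS : S.Finite) (hD : D.Finite) (hSD : Disjoint S D) :
    ((S ∪ D).ncard : ℤ) - rk chi (ins G (S ∪ D)) ≤
      ((S.ncard : ℤ) - rk chi (ins G S)) + ((D.ncard : ℤ) - rk chi (ins G D)) := by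
  classical
  have h1 : rk chi (ins G S ∪ ins G D) ≤ rk chi (ins G (S ∪ D)) := by
    apply rk_mono _ _ _ _ (inc_finite G hfin ∅ (S ∪ D) (hS.union hD)).2.1
    rintro e (he | he)
    · exact ⟨he.1, fun v hv => Or.inl (he.2 v hv)⟩
    · exact ⟨he.1, fun v hv => Or.inr (he.2 v hv)⟩
  have h2 : rk chi (ins G S ∪ ins G D) = rk chi (ins G S) + rk chi (ins G D) := by
    apply rk_disj chi _ _ (inc_finite G hfin ∅ S hS).2.1 (inc_finite G hfin ∅ D hD).2.1 S
    · intro e he v hv
      unfold chi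
      rw [if_neg]
      intro hve
      exact hv (he.2 v hve)
    · intro e he v hv
      unfold chi
      rw [if_neg]
      intro hve
      exact Set.disjoint_left.1 hSD hv (he.2 v hve)
  have h3 : (S ∪ D).ncard = S.ncard + D.ncard := Set.ncard_union_eq hSD hS hD
  rw [h3]
  push_cast
  have h4 : (rk chi (ins G S) : ℤ) + rk chi (ins G D) ≤ rk chi (ins G (S ∪ D)) := by
    exact_mod_cast h2 ▸ h1
  linarith

end Pool.Agent.Helper391.Lg
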