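import Pool.Agent.Helper391.Lg.Defs



namespace Pool.Agent.Helper391.Lg
open Set


theorem comp_exists {V : Type*} (G : SimpleGraph V) (S : Set V) (x : V) (hx : x ∈ S) :
    ∃ D ⊆ S, x ∈ D ∧ Conn (ins G D) D ∧
      (∀ e ∈ G.edgeSet, (∃ v ∈ e, v ∈ D) → ¬ ∃ v ∈ e, v ∈ S \ D) ∧
      (∀ v, v ∈ D ↔ (v ∈ S ∧ (SimpleGraph.fromEdgeSet (ins G S)).Reachable x v)) := by
  set D : Set V := {v | v ∈ S ∧ (SimpleGraph.fromEdgeSet (ins G S)).Reachable x v} with hD
  have hmem : ∀ v, v ∈ D ↔ (v ∈ S ∧ (SimpleGraph.fromEdgeSet (ins G S)).Reachable x v) :=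
    fun v => Iff.rfl
  have hreach : ∀ v, (SimpleGraph.fromEdgeSet (ins G S)).Reachable x v →
      (SimpleGraph.fromEdgeSet (ins G D)).Reachable x v := by
    intro v hv
    rw [SimpleGraph.reachable_iff_reflTransGen] at hv
    induction hv with
    | refl => exact SimpleGraph.Reachable.refl _
    | @tail b c hb hbc ih =>
      have hb' : (SimpleGraph.fromEdgeSet (ins G S)).Reachable x b :=
        (SimpleGraph.reachable_iff_reflTransGen _ _).2 hb
      have hc' : (SimpleGraph.fromEdgeSet (ins G S)).Reachable x c := hb'.trans hbc.reachable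
      rw [SimpleGraph.fromEdgeSet_adj] at hbc
      obtain ⟨⟨h1, h2⟩, h3⟩ := hbc
      have hbD : b ∈ D := ⟨h2 b (Sym2.mem_mk_left b c), hb'⟩
      have hcD : c ∈ D := ⟨h2 c (Sym2.mem_mk_right b c), hc'⟩
      refine ih.trans (SimpleGraph.Adj.reachable ?_)
      rw [SimpleGraph.fromEdgeSet_adj]
      refine ⟨⟨h1, fun v hv => ?_⟩, h3⟩
      rcases Sym2.mem_iff.1 hv with rfl | rfl
      · exact hbD
      · exact hcD
  refine ⟨D, fun v hv => hv.1, ⟨hx, SimpleGraph.Reachable.refl _⟩, ?_, ?_, hmem⟩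
  · intro u hu v hv
    exact (hreach u hu.2).symm.trans (hreach v hv.2)
  · rintro e he ⟨v, hve, hvD⟩ ⟨w, hwe, hwS, hwD⟩
    have hne : v ≠ w := by
      rintro rfl
      exact hwD hvD
    have hes : e = s(v, w) := (Sym2.mem_and_mem_iff hne).1 ⟨hve, hwe⟩
    apply hwD
    refine ⟨hwS, hvD.2.trans (SimpleGraph.Adj.reachable ?_)⟩
    rw [SimpleGraph.fromEdgeSet_adj]
    refine ⟨⟨hes ▸ he, fun z hz => ?_⟩, hne⟩
    rcases Sym2.mem_iff.1 hz with rfl | rfl
    · exact hvD.1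
    · exact hwS

end Pool.Agent.Helper391.Lg
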