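import Pool.Agent.Helper391.Lg.Defs
import Pool.Agent.Helper391.Lg.P_comp_exists
import Pool.Agent.Helper391.Lg.P_cc_union
import Pool.Agent.Helper391.Lg.P_cc_one



namespace Pool.Agent.Helper391.Lg
open Set


theorem cc_two_mem {V : Type*} (G : SimpleGraph V) (S : Set V) (x c : V) (hx : x ∈ S)
    (h : (SimpleGraph.fromEdgeSet (ins G S)).Reachable x c) : c ∈ S := by
  obtain ⟨p⟩ := h
  induction p with
  | nil => exact hx
  | cons hadj p ih =>
    apply ih
    rw [SimpleGraph.fromEdgeSet_adj] at hadj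
    exact hadj.1.2 _ (Sym2.mem_mk_right _ _)

theorem cc_two_walk {V : Type*} (G : SimpleGraph V) (S D : Set V)
    (hD : ∀ e ∈ G.edgeSet, (∃ v ∈ e, v ∈ D) → ¬ ∃ v ∈ e, v ∈ S \ D) (x y : V) (hx : x ∈ S \ D)
    (h : (SimpleGraph.fromEdgeSet (ins G S)).Reachable x y) :
    (SimpleGraph.fromEdgeSet (ins G (S \ D))).Reachable x y := by
  obtain ⟨p⟩ := h
  induction p with
  | nil => exact SimpleGraph.Reachable.refl _
  | @cons u w v hadj p ih =>
    rw [SimpleGraph.fromEdgeSet_adj] at hadj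
    have hwS : w ∈ S := hadj.1.2 _ (Sym2.mem_mk_right _ _)
    have hwD : w ∉ D := fun hw =>
      hD _ hadj.1.1 ⟨w, Sym2.mem_mk_right _ _, hw⟩ ⟨u, Sym2.mem_mk_left _ _, hx⟩
    have hw : w ∈ S \ D := ⟨hwS, hwD⟩
    have hadj' : (SimpleGraph.fromEdgeSet (ins G (S \ D))).Adj u w := by
      rw [SimpleGraph.fromEdgeSet_adj]
      refine ⟨⟨hadj.1.1, ?_⟩, hadj.2⟩
      intro z hz
      rcases Sym2.mem_iff.1 hz with rfl | rfl
      · exact hx
      · exact hw
    exact hadj'.reachable.trans (ih hw)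

theorem cc_two {V : Type*} (G : SimpleGraph V) (hfin : ∀ v, (G.neighborSet v).Finite)
    (S : Set V) (hS : S.Finite) (c d : V)
    (hc : ∀ x ∈ S, (SimpleGraph.fromEdgeSet (ins G S)).Reachable x c ∨
      (SimpleGraph.fromEdgeSet (ins G S)).Reachable x d) :
    (S.ncard : ℤ) - rk chi (ins G S) ≤ 2 := by
  by_cases h1 : ∀ x ∈ S, (SimpleGraph.fromEdgeSet (ins G S)).Reachable x d
  · have := cc_one G hfin S hS d h1
    omega
  · push Not at h1
    obtain ⟨x1, hx1, hx1d⟩ := h1
    have hx1c := (hc x1 hx1).resolve_right hx1d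
    have hcS : c ∈ S := cc_two_mem G S x1 c hx1 hx1c
    obtain ⟨D, hDS, hcD, hconn, hsep, hiff⟩ := comp_exists G S c hcS
    have hSD : (S \ D) ∪ D = S := Set.sdiff_union_of_subset hDS
    have hu := cc_union G hfin (S \ D) D (hS.subset Set.sdiff_subset) (hS.subset hDS)
      Set.disjoint_sdiff_left
    rw [hSD] at hu
    have a1 := cc_one G hfin D (hS.subset hDS) c (fun x hx => hconn x hx c hcD)
    have a2 := cc_one G hfin (S \ D) (hS.subset Set.sdiff_subset) d (by
      intro x hx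
      have hnc : ¬ (SimpleGraph.fromEdgeSet (ins G S)).Reachable x c := by
        intro hr
        exact hx.2 ((hiff x).2 ⟨hx.1, hr.symm⟩)
      exact cc_two_walk G S D hsep x d hx ((hc x hx.1).resolve_left hnc))
    omega

end Pool.Agent.Helper391.Lg
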