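import Pool.Agent.Helper391.Lg.Defs



namespace Pool.Agent.Helper391.Lg
open Set


/-- if every vector of `T` has even intersection with the finite set `C` then so has every vector of
the span -/
theorem functional {E V : Type*} (f : E → V → ZMod 2) (T : Set E) (C : Finset V)
    (h : ∀ e ∈ T, ∑ v ∈ C, f e v = 0) (g : V → ZMod 2)
    (hg : g ∈ Submodule.span (ZMod 2) (f '' T)) : ∑ v ∈ C, g v = 0 := by
  induction hg using Submodule.span_induction with
  | mem x hx =>
    obtain ⟨e, he, rfl⟩ := hx
    exact h e he
  | zero => simp
  | add x y _ _ hx hy =>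
    simp only [Pi.add_apply, Finset.sum_add_distrib, hx, hy, add_zero]
  | smul c x _ hx =>
    simp only [Pi.smul_apply, smul_eq_mul, ← Finset.mul_sum, hx, mul_zero]

end Pool.Agent.Helper391.Lg
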