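import Pool.Agent.Helper391.Lg.Defs



namespace Pool.Agent.Helper391.Lg
open Set


theorem rk_congr {E M : Type*} [AddCommGroup M] [Module (ZMod 2) M] (f g : E → M) (T : Set E)
    (h : ∀ e ∈ T, f e = g e) : rk f T = rk g T := by
  unfold rk
  rw [Set.image_congr h]

end Pool.Agent.Helper391.Lg
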