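import Pool.Agent.Helper391.Lg.Defs



namespace Pool.Agent.Helper391.Lg
open Set


/-- vectors supported in a finite set `X` have rank at most `|X|` -/
theorem rk_supp {E V : Type*} (f : E → V → ZMod 2) (T : Set E) (X : Set V) (hX : X.Finite)
    (h : ∀ e ∈ T, ∀ v, v ∉ X → f e v = 0) : rk f T ≤ X.ncard := by
  haveI := hX.fintype
  have hsp : ∀ g ∈ Submodule.span (ZMod 2) (f '' T), ∀ v, v ∉ X → g v = 0 := by
    intro g hg
    induction hg using Submodule.span_induction with
    | mem x hx =>
      obtain ⟨e, he, rfl⟩ := hx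
      exact h e he
    | zero => intro v _; rfl
    | add x y _ _ hx hy => intro v hv; rw [Pi.add_apply, hx v hv, hy v hv, add_zero]
    | smul a x _ hx => intro v hv; rw [Pi.smul_apply, hx v hv, smul_zero]
  let res : Submodule.span (ZMod 2) (f '' T) →ₗ[ZMod 2] (X → ZMod 2) :=
    (LinearMap.funLeft (ZMod 2) (ZMod 2) (Subtype.val : X → V)).comp (Submodule.subtype _)
  have hinj : Function.Injective res := by
    rw [← LinearMap.ker_eq_bot, LinearMap.ker_eq_bot']
    intro g hg
    apply Subtype.ext
    funext v
    by_cases hv : v ∈ X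
    · exact congrFun hg ⟨v, hv⟩
    · exact hsp g.1 g.2 v hv
  have hle := LinearMap.finrank_le_finrank_of_injective hinj
  rw [Module.finrank_fintype_fun_eq_card] at hle
  unfold rk Set.finrank
  rw [Set.ncard_eq_toFinset_card', Set.toFinset_card]
  exact hle

end Pool.Agent.Helper391.Lg
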