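import Pool.Agent.Helper391.Lg.Defs
import Pool.Agent.Helper391.Lg.P_rk_mono
import Pool.Agent.Helper391.Lg.P_rk_congr
import Pool.Agent.Helper391.Lg.P_rk_supp
import Pool.Agent.Helper391.Lg.P_rk_disj
import Pool.Agent.Helper391.Lg.P_functional
import Pool.Agent.Helper391.Lg.P_inc_finite



namespace Pool.Agent.Helper391.Lg
open Set


private theorem j26586_two {V : Type*} [DecidableEq V] (X : Set V) (a b : V) (hab : a ≠ b)
    (ha : a ∈ X) (hb : b ∈ X) :
    vX X s(a, b) = Pi.single a 1 + Pi.single b 1 := by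
  funext v
  simp only [vX, Sym2.mem_iff, Pi.add_apply, Pi.single_apply]
  by_cases h1 : v = a
  · subst h1
    simp [hab, ha]
  · by_cases h2 : v = b
    · subst h2
      simp [h1, hb]
    · simp [h1, h2]

private theorem j26586_one {V : Type*} [DecidableEq V] (X : Set V) (a b : V)
    (ha : a ∈ X) (hb : b ∉ X) :
    vX X s(a, b) = Pi.single a 1 := by
  funext v
  simp only [vX, Sym2.mem_iff, Pi.single_apply]
  by_cases h1 : v = a
  · subst h1
    simp [ha]
  · by_cases h2 : v = b
    · subst h2
      simp [h1, hb]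
    · simp [h1, h2]

private theorem j26586_none {V : Type*} (X : Set V) (a b : V)
    (ha : a ∉ X) (hb : b ∉ X) :
    vX X s(a, b) = 0 := by
  funext v
  unfold vX
  refine if_neg ?_
  rintro ⟨h0, h2⟩
  rcases Sym2.mem_iff.mp h0 with h1 | h1
  · exact ha (h1 ▸ h2)
  · exact hb (h1 ▸ h2)

private theorem j26586_mem {V : Type*} [DecidableEq V] (G : SimpleGraph V) (X : Set V)
    (S : Submodule (ZMod 2) (V → ZMod 2)) (e : Sym2 V) (he : e ∈ G.edgeSet)
    (h : ∀ v ∈ e, v ∈ X → (Pi.single v 1 : V → ZMod 2) ∈ S) : vX X e ∈ S := by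
  induction e using Sym2.ind with
  | h a b =>
    have hab : a ≠ b := G.ne_of_adj he
    by_cases ha : a ∈ X
    · have h1 := h a (Sym2.mem_mk_left a b) ha
      by_cases hb : b ∈ X
      · rw [j26586_two X a b hab ha hb]
        exact S.add_mem h1 (h b (Sym2.mem_mk_right a b) hb)
      · rw [j26586_one X a b ha hb]; exact h1
    · by_cases hb : b ∈ X
      · rw [Sym2.eq_swap, j26586_one X b a hb ha]
        exact h b (Sym2.mem_mk_right a b) hb
      · rw [j26586_none X a b ha hb]; exact S.zero_mem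

/-- if `e` has both ends in `X` its coordinate sum over `X` is even -/
private theorem j26586_even {V : Type*} (G : SimpleGraph V) (X : Set V) (hX : X.Finite)
    (e : Sym2 V) (he : e ∈ G.edgeSet) (h : ∀ v ∈ e, v ∈ X) :
    ∑ v ∈ hX.toFinset, vX X e v = 0 := by
  classical
  induction e using Sym2.ind with
  | h a b =>
    have hab : a ≠ b := G.ne_of_adj he
    have ha := h a (Sym2.mem_mk_left a b)
    have hb := h b (Sym2.mem_mk_right a b)
    rw [j26586_two X a b hab ha hb]
    simp only [Pi.add_apply, Finset.sum_add_distrib, Finset.sum_pi_single', Set.Finite.mem_toFinset,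
      if_pos ha, if_pos hb]
    decide

/-- closure step -/
private theorem j26586_cl {V : Type*} [DecidableEq V] (G : SimpleGraph V) (X : Set V)
    (S : Submodule (ZMod 2) (V → ZMod 2)) (e : Sym2 V) (he : e ∈ G.edgeSet)
    (hv : vX X e ∈ S) (u : V) (hu : u ∈ e) (huX : u ∈ X)
    (huS : (Pi.single u 1 : V → ZMod 2) ∉ S) (w : V) (hw : w ∈ e) :
    w ∈ X ∧ (Pi.single w 1 : V → ZMod 2) ∉ S := by
  obtain ⟨r, rfl⟩ := Sym2.mem_iff_exists.mp hu
  have hab : u ≠ r := G.ne_of_adj he
  rcases Sym2.mem_iff.mp hw with hwu | hwr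
  · rw [hwu]; exact ⟨huX, huS⟩
  · rw [← hwr] at hab hv
    have hwX : w ∈ X := by
      by_contra hcon
      rw [j26586_one X u w huX hcon] at hv
      exact huS hv
    refine ⟨hwX, fun hc => huS ?_⟩
    rw [j26586_two X u w hab huX hwX] at hv
    have h3 := S.sub_mem hv hc
    rwa [add_sub_cancel_right] at h3

/-- projection killing the coordinates in `U` -/
private noncomputable def j26586_P {V : Type*} (U : Set V) : (V → ZMod 2) →ₗ[ZMod 2] (V → ZMod 2) :=
  open Classical in
  { toFun := fun g v => if v ∈ U then 0 else g v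
    map_add' := by
      intro g h; funext v; by_cases hv : v ∈ U <;> simp [hv]
    map_smul' := by
      intro c g; funext v; by_cases hv : v ∈ U <;> simp [hv] }

private theorem j26586_P_apply {V : Type*} (U : Set V) (g : V → ZMod 2) (v : V) :
    (v ∈ U → j26586_P U g v = 0) ∧ (v ∉ U → j26586_P U g v = g v) := by
  constructor
  · intro h; exact if_pos h
  · intro h; exact if_neg h

private theorem j26586_rank {E V : Type*} [DecidableEq V] (f : E → V → ZMod 2) (T : Set E)
    (hT : T.Finite) (Y : Set V) (hY : Y.Finite)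
    (h : ∀ v ∈ Y, (Pi.single v 1 : V → ZMod 2) ∈ Submodule.span (ZMod 2) (f '' T)) :
    Y.ncard ≤ rk f T := by
  classical
  have hfin : (f '' T).Finite := hT.image f
  have : FiniteDimensional (ZMod 2) (Submodule.span (ZMod 2) (f '' T)) :=
    FiniteDimensional.span_of_finite (ZMod 2) hfin
  let _ : Fintype Y := hY.fintype
  have hli0 : LinearIndependent (ZMod 2) (fun v : V => (Pi.single v (1 : ZMod 2) : V → ZMod 2)) :=
    Pi.linearIndependent_single_one V (ZMod 2)
  have hli1 : LinearIndependent (ZMod 2)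
      (fun v : Y => (Pi.single (v : V) (1 : ZMod 2) : V → ZMod 2)) :=
    hli0.comp (fun v : Y => (v : V)) Subtype.val_injective
  have hli2 : LinearIndependent (ZMod 2)
      (fun v : Y => (⟨(Pi.single (v : V) (1 : ZMod 2) : V → ZMod 2), h v v.2⟩ :
        Submodule.span (ZMod 2) (f '' T))) := by
    refine LinearIndependent.of_comp (Submodule.span (ZMod 2) (f '' T)).subtype ?_
    exact hli1
  have h3 := hli2.fintype_card_le_finrank
  have h4 : Y.ncard = Fintype.card Y := by
    rw [← Nat.card_coe_set_eq, Nat.card_eq_fintype_card]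
  rw [h4]
  exact h3

/-- structure of a closed edge set `T` of the layer `X` -/
theorem closed_structure {V : Type*} (G : SimpleGraph V) (hfin : ∀ v, (G.neighborSet v).Finite)
    (F X : Set V) (hX : X.Finite) (hXF : Disjoint X F) (T : Set (Sym2 V)) (hT : T ⊆ inc G F X)
    (hcl : ∀ e ∈ inc G F X, vX X e ∈ Submodule.span (ZMod 2) (vX X '' T) → e ∈ T) :
    ∃ U ⊆ X, T = (T ∩ ins G U) ∪ (inc G F X \ inc G F U) ∧ Closed T U ∧
      rk (vX X) T = (X \ U).ncard + rk chi (T ∩ ins G U) ∧
      (U ≠ X → ∃ e ∈ inc G F X, e ∉ inc G F U ∧ e ∉ ins G X) := by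
  classical
  obtain ⟨S, hS⟩ : ∃ S, S = Submodule.span (ZMod 2) (vX X '' T) := ⟨_, rfl⟩
  rw [← hS] at hcl
  have hTS : ∀ e ∈ T, vX X e ∈ S := by
    intro e he; rw [hS]; exact Submodule.subset_span ⟨e, he, rfl⟩
  obtain ⟨U, hU⟩ : ∃ U : Set V, U = {u | u ∈ X ∧ (Pi.single u 1 : V → ZMod 2) ∉ S} := ⟨_, rfl⟩
  have hUX : U ⊆ X := by rw [hU]; exact fun u hu => hu.1
  have hUS : ∀ u ∈ U, (Pi.single u 1 : V → ZMod 2) ∉ S := by rw [hU]; exact fun u hu => hu.2
  have hnU : ∀ u ∈ X, u ∉ U → (Pi.single u 1 : V → ZMod 2) ∈ S := by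
    intro u hu hu2
    by_contra hc
    apply hu2
    rw [hU]
    exact ⟨hu, hc⟩
  have hclosed : ∀ e ∈ T, (∃ v ∈ e, v ∈ U) → ∀ v ∈ e, v ∈ U := by
    rintro e he ⟨u, hue, huU⟩ w hw
    have h1 := j26586_cl G X S e (hT he).1 (hTS e he) u hue (hUX huU) (hUS u huU) w hw
    rw [hU]
    exact h1
  have hT2 : inc G F X \ inc G F U ⊆ T := by
    rintro e ⟨he, heU⟩
    refine hcl e he (j26586_mem G X S e he.1 fun v hv hvX => hnU v hvX fun hvU => ?_)
    exact heU ⟨he.1, he.2.1, v, hv, hvU⟩
  have hTeq : T = (T ∩ ins G U) ∪ (inc G F X \ inc G F U) := by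
    apply Set.Subset.antisymm
    · intro e he
      by_cases heU : e ∈ inc G F U
      · exact Or.inl ⟨he, (hT he).1, hclosed e he heU.2.2⟩
      · exact Or.inr ⟨hT he, heU⟩
    · rintro e (he | he)
      · exact he.1
      · exact hT2 he
  have hincfin := (inc_finite G hfin F X hX).1
  have hTfin : T.Finite := hincfin.subset hT
  have hT2fin : (inc G F X \ inc G F U).Finite := hincfin.subset (fun _ hx => hx.1)
  have hT1fin : (T ∩ ins G U).Finite := hTfin.subset Set.inter_subset_left
  have hd1 : ∀ e ∈ T ∩ ins G U, ∀ v, v ∉ U → vX X e v = 0 := by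
    intro e he v hv
    unfold vX
    rw [if_neg]
    rintro ⟨h1, -⟩
    exact hv (he.2.2 v h1)
  have hd2 : ∀ e ∈ inc G F X \ inc G F U, ∀ v, v ∈ U → vX X e v = 0 := by
    intro e he v hv
    unfold vX
    rw [if_neg]
    rintro ⟨h1, -⟩
    exact he.2 ⟨he.1.1, he.1.2.1, v, h1, hv⟩
  have hrk : rk (vX X) T = rk (vX X) (T ∩ ins G U) + rk (vX X) (inc G F X \ inc G F U) := by
    conv_lhs => rw [hTeq]
    exact rk_disj (vX X) _ _ hT1fin hT2fin U hd1 hd2
  have hrk1 : rk (vX X) (T ∩ ins G U) = rk chi (T ∩ ins G U) := by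
    refine rk_congr _ _ _ fun e he => ?_
    funext v
    unfold vX chi
    by_cases hv : v ∈ e
    · rw [if_pos ⟨hv, hUX (he.2.2 v hv)⟩, if_pos hv]
    · rw [if_neg (fun h => hv h.1), if_neg hv]
  have hXU : (X \ U).Finite := hX.subset (fun _ hx => hx.1)
  have hproj : ∀ g ∈ Submodule.span (ZMod 2) (vX X '' T), j26586_P U g ∈
      Submodule.span (ZMod 2) (vX X '' (inc G F X \ inc G F U)) := by
    intro g hg
    induction hg using Submodule.span_induction with
    | mem z hz =>
      obtain ⟨e, he, rfl⟩ := hz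
      rw [hTeq] at he
      rcases he with he | he
      · have h0 : j26586_P U (vX X e) = 0 := by
          funext v
          by_cases hv : v ∈ U
          · exact (j26586_P_apply U _ v).1 hv
          · rw [(j26586_P_apply U _ v).2 hv]; exact hd1 e he v hv
        rw [h0]; exact Submodule.zero_mem _
      · have h0 : j26586_P U (vX X e) = vX X e := by
          funext v
          by_cases hv : v ∈ U
          · rw [(j26586_P_apply U _ v).1 hv]; exact (hd2 e he v hv).symm
          · exact (j26586_P_apply U _ v).2 hv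
        rw [h0]; exact Submodule.subset_span ⟨e, he, rfl⟩
    | zero => rw [map_zero]; exact Submodule.zero_mem _
    | add a b _ _ ha hb => rw [map_add]; exact Submodule.add_mem _ ha hb
    | smul c a _ ha => rw [map_smul]; exact Submodule.smul_mem _ c ha
  have hrk2 : rk (vX X) (inc G F X \ inc G F U) = (X \ U).ncard := by
    apply le_antisymm
    · refine rk_supp _ _ _ hXU fun e he v hv => ?_
      by_cases hvU : v ∈ U
      · exact hd2 e he v hvU
      · unfold vX
        rw [if_neg]
        rintro ⟨-, h1⟩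
        exact hv ⟨h1, hvU⟩
    · refine j26586_rank (vX X) _ hT2fin _ hXU fun v hv => ?_
      have h1 : j26586_P U (Pi.single v 1 : V → ZMod 2) = Pi.single v 1 := by
        funext w
        by_cases hw : w ∈ U
        · have hwv : w ≠ v := fun h => hv.2 (h ▸ hw)
          rw [(j26586_P_apply U _ w).1 hw, Pi.single_eq_of_ne hwv]
        · exact (j26586_P_apply U _ w).2 hw
      rw [← h1]
      apply hproj
      have h2 := hnU v hv.1 hv.2
      rwa [hS] at h2
  refine ⟨U, hUX, hTeq, hclosed, ?_, ?_⟩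
  · rw [hrk, hrk1, hrk2, add_comm]
  · intro hne
    by_contra hcon
    push Not at hcon
    obtain ⟨v, hvX, hvU⟩ : ∃ v ∈ X, v ∉ U := by
      by_contra h
      push Not at h
      exact hne (Set.Subset.antisymm hUX h)
    have h1 := hnU v hvX hvU
    rw [hS] at h1
    have h2 := functional (vX X) T hX.toFinset (fun e he => ?_) _ h1
    · rw [Finset.sum_pi_single', if_pos (hX.mem_toFinset.mpr hvX)] at h2
      exact one_ne_zero h2
    · have he' := he
      rw [hTeq] at he'
      rcases he' with he' | he'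
      · exact j26586_even G X hX e (hT he).1 fun w hw => hUX (he'.2.2 w hw)
      · exact j26586_even G X hX e (hT he).1 (hcon e he'.1 he'.2).2

end Pool.Agent.Helper391.Lg
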