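import Pool.Agent.Helper391.Lg.Defs



namespace Pool.Agent.Helper391.Lg
open Set


theorem h_opt {V : Type*} (G : SimpleGraph V) (F U : Set V) (T : Set (Sym2 V)) (hT : Opt G U T) :
    h G F U = cost G F U T := by
  unfold h
  refine IsLeast.csInf_eq ⟨⟨T, hT.1, rfl⟩, ?_⟩
  rintro z ⟨T', hT', rfl⟩
  have := hT.2 T' hT'
  unfold cost
  linarith

end Pool.Agent.Helper391.Lg
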