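import Pool.Agent.Helper391.Lg.Defs
import Pool.Agent.Helper391.Lg.P_inc_finite



namespace Pool.Agent.Helper391.Lg
open Set


theorem opt_exists {V : Type*} (G : SimpleGraph V) (hfin : ∀ v, (G.neighborSet v).Finite)
    (U : Set V) (hU : U.Finite) : ∃ T, Opt G U T := by
  have hf : (ins G U).Finite := (inc_finite G hfin ∅ U hU).2.1
  obtain ⟨T, hT, hmax⟩ := Set.exists_max_image {T : Set (Sym2 V) | T ⊆ ins G U}
    (fun T => (T.ncard : ℤ) - 2 * rk chi T) hf.finite_subsets ⟨∅, Set.empty_subset _⟩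
  exact ⟨T, hT, fun T' hT' => hmax T' hT'⟩

end Pool.Agent.Helper391.Lg
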