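import Pool.Agent.Helper391.Lg.Defs
import Pool.Agent.Helper391.Lg.P_opt_exists
import Pool.Agent.Helper391.Lg.P_h_opt



namespace Pool.Agent.Helper391.Lg
open Set


theorem h_le {V : Type*} (G : SimpleGraph V) (hfin : ∀ v, (G.neighborSet v).Finite)
    (F U : Set V) (hU : U.Finite) (T : Set (Sym2 V)) (hT : T ⊆ ins G U) :
    h G F U ≤ cost G F U T := by
  obtain ⟨T0, hT0⟩ := opt_exists G hfin U hU
  rw [h_opt G F U T0 hT0]
  have h1 := hT0.2 T hT
  unfold cost
  linarith

end Pool.Agent.Helper391.Lg
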