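import Pool.Agent.Helper391.Lg.Defs



namespace Pool.Agent.Helper391.Lg
open Set


theorem rk_submod {E M : Type*} [AddCommGroup M] [Module (ZMod 2) M] (f : E → M) (T T' : Set E)
    (hT : T.Finite) (hT' : T'.Finite) : rk f (T ∪ T') + rk f (T ∩ T') ≤ rk f T + rk f T' := by
  unfold rk Set.finrank
  obtain ⟨A, hA⟩ : ∃ A, A = Submodule.span (ZMod 2) (f '' T) := ⟨_, rfl⟩
  obtain ⟨B, hB⟩ : ∃ B, B = Submodule.span (ZMod 2) (f '' T') := ⟨_, rfl⟩
  have hfA : FiniteDimensional (ZMod 2) A := by
    rw [hA]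
    exact FiniteDimensional.span_of_finite _ (hT.image f)
  have hfB : FiniteDimensional (ZMod 2) B := by
    rw [hB]
    exact FiniteDimensional.span_of_finite _ (hT'.image f)
  have h1 : Submodule.span (ZMod 2) (f '' (T ∪ T')) = A ⊔ B := by
    rw [Set.image_union, Submodule.span_union, hA, hB]
  have h2 : Submodule.span (ZMod 2) (f '' (T ∩ T')) ≤ A ⊓ B := by
    rw [hA, hB]
    exact le_inf (Submodule.span_mono (Set.image_mono Set.inter_subset_left))
      (Submodule.span_mono (Set.image_mono Set.inter_subset_right))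
  have h3 := Submodule.finrank_sup_add_finrank_inf_eq A B
  have h4 : Module.finrank (ZMod 2) (Submodule.span (ZMod 2) (f '' (T ∩ T'))) ≤
      Module.finrank (ZMod 2) (A ⊓ B : Submodule (ZMod 2) M) := Submodule.finrank_mono h2
  rw [h1, ← hA, ← hB]
  omega

end Pool.Agent.Helper391.Lg
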