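import Pool.Agent.Helper391.Lg.Defs
import Pool.Agent.Helper391.Lg.P_rk_mono
import Pool.Agent.Helper391.Lg.P_rk_submod



namespace Pool.Agent.Helper391.Lg
open Set


theorem packing_aux {E M : Type*} [AddCommGroup M] [Module (ZMod 2) M] (f g : E → M) (E0 : Set E)
    (hE : E0.Finite) (n : ℕ) (hf : rk f E0 ≤ n) (hg : rk g E0 ≤ n) :
    ∀ (k : ℕ) (A B : Set E), A ⊆ E0 → B ⊆ E0 → Disjoint A B → (E0 \ (A ∪ B)).ncard = k →
      (∀ T ⊆ E0 \ (A ∪ B), 2 * n ≤ ((E0 \ (A ∪ B)) \ T).ncard + rk f (A ∪ T) + rk g (B ∪ T)) →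
      ∃ B' ⊆ E0, rk f (E0 \ B') = n ∧ rk g B' = n := by
  classical
  intro k
  induction k with
  | zero =>
    intro A B hA hB hAB hk hs
    have hR : E0 \ (A ∪ B) = ∅ := (Set.ncard_eq_zero (hE.subset Set.diff_subset)).mp hk
    have h1 := hs ∅ (Set.empty_subset _)
    rw [hR, Set.empty_diff, Set.ncard_empty, Set.union_empty, Set.union_empty] at h1
    have h2 := rk_mono f A E0 hA hE
    have h3 := rk_mono g B E0 hB hE
    have h4 : E0 \ B = A := by
      ext x
      constructor
      · rintro ⟨hx, hxB⟩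
        by_contra hxA
        have : x ∈ E0 \ (A ∪ B) := ⟨hx, fun h => h.elim hxA hxB⟩
        rw [hR] at this
        exact this
      · intro hx
        exact ⟨hA hx, fun hxB => Set.disjoint_left.mp hAB hx hxB⟩
    refine ⟨B, hB, ?_, ?_⟩
    · rw [h4]; omega
    · omega
  | succ k ih =>
    intro A B hA hB hAB hk hs
    obtain ⟨R, hR⟩ : ∃ R, R = E0 \ (A ∪ B) := ⟨_, rfl⟩
    rw [← hR] at hk hs
    have hRfin : R.Finite := by rw [hR]; exact hE.subset Set.diff_subset
    obtain ⟨e, he⟩ : R.Nonempty := by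
      rw [← Set.ncard_pos hRfin]; omega
    have heE : e ∈ E0 := by rw [hR] at he; exact he.1
    have heA : e ∉ A := by rw [hR] at he; exact fun h => he.2 (Or.inl h)
    have heB : e ∉ B := by rw [hR] at he; exact fun h => he.2 (Or.inr h)
    obtain ⟨R1, hR1⟩ : ∃ R1, R1 = R \ {e} := ⟨_, rfl⟩
    have hR1fin : R1.Finite := by rw [hR1]; exact hRfin.subset Set.diff_subset
    have hR1a : E0 \ (insert e A ∪ B) = R1 := by
      rw [hR1, hR]; ext x
      simp only [Set.mem_diff, Set.mem_union, Set.mem_insert_iff, Set.mem_singleton_iff]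
      tauto
    have hR1b : E0 \ (A ∪ insert e B) = R1 := by
      rw [hR1, hR]; ext x
      simp only [Set.mem_diff, Set.mem_union, Set.mem_insert_iff, Set.mem_singleton_iff]
      tauto
    have hR1c : R1.ncard = k := by
      have := Set.ncard_diff_singleton_add_one he hRfin
      rw [← hR1, hk] at this
      omega
    by_cases hc1 : ∀ T ⊆ R1, 2 * n ≤ (R1 \ T).ncard + rk f (insert e A ∪ T) + rk g (B ∪ T)
    · exact ih (insert e A) B (Set.insert_subset heE hA) hB
        (Set.disjoint_insert_left.mpr ⟨heB, hAB⟩) (by rw [hR1a, hR1c]) (by rw [hR1a]; exact hc1)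
    by_cases hc2 : ∀ T ⊆ R1, 2 * n ≤ (R1 \ T).ncard + rk f (A ∪ T) + rk g (insert e B ∪ T)
    · exact ih A (insert e B) hA (Set.insert_subset heE hB)
        (Set.disjoint_insert_right.mpr ⟨heA, hAB⟩) (by rw [hR1b, hR1c]) (by rw [hR1b]; exact hc2)
    exfalso
    push Not at hc1 hc2
    obtain ⟨T1, hT1, hc1⟩ := hc1
    obtain ⟨T2, hT2, hc2⟩ := hc2
    have hR1R : R1 ⊆ R := by rw [hR1]; exact Set.diff_subset
    have hRE : R ⊆ E0 := by rw [hR]; exact Set.diff_subset
    have heR1 : e ∉ R1 := by rw [hR1]; simp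
    have hAf : A.Finite := hE.subset hA
    have hBf : B.Finite := hE.subset hB
    have hT1f : T1.Finite := hR1fin.subset hT1
    have hT2f : T2.Finite := hR1fin.subset hT2
    have s1 := rk_submod f (insert e A ∪ T1) (A ∪ T2) ((hAf.insert e).union hT1f) (hAf.union hT2f)
    have s2 := rk_submod g (B ∪ T1) (insert e B ∪ T2) (hBf.union hT1f) ((hBf.insert e).union hT2f)
    have u1 : (insert e A ∪ T1) ∪ (A ∪ T2) = A ∪ insert e (T1 ∪ T2) := by
      ext x; simp only [Set.mem_union, Set.mem_insert_iff]; tauto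
    have u2 : (B ∪ T1) ∪ (insert e B ∪ T2) = B ∪ insert e (T1 ∪ T2) := by
      ext x; simp only [Set.mem_union, Set.mem_insert_iff]; tauto
    have i1 : A ∪ (T1 ∩ T2) ⊆ (insert e A ∪ T1) ∩ (A ∪ T2) := by
      intro x hx
      simp only [Set.mem_union, Set.mem_inter_iff, Set.mem_insert_iff] at hx ⊢
      tauto
    have i2 : B ∪ (T1 ∩ T2) ⊆ (B ∪ T1) ∩ (insert e B ∪ T2) := by
      intro x hx
      simp only [Set.mem_union, Set.mem_inter_iff, Set.mem_insert_iff] at hx ⊢
      tauto
    have m1 := rk_mono f _ _ i1 (((hAf.insert e).union hT1f).subset Set.inter_subset_left)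
    have m2 := rk_mono g _ _ i2 ((hBf.union hT1f).subset Set.inter_subset_left)
    rw [u1] at s1
    rw [u2] at s2
    have c1 := hs (insert e (T1 ∪ T2)) (Set.insert_subset he
      (Set.union_subset (hT1.trans hR1R) (hT2.trans hR1R)))
    have c2 := hs (T1 ∩ T2) (Set.inter_subset_left.trans (hT1.trans hR1R))
    have n1 : R \ insert e (T1 ∪ T2) = (R1 \ T1) ∩ (R1 \ T2) := by
      rw [hR1]; ext x
      simp only [Set.mem_diff, Set.mem_union, Set.mem_inter_iff, Set.mem_insert_iff,
        Set.mem_singleton_iff]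
      tauto
    have n2 : R \ (T1 ∩ T2) = insert e ((R1 \ T1) ∪ (R1 \ T2)) := by
      ext x
      by_cases hxe : x = e
      · subst hxe
        simp only [Set.mem_diff, Set.mem_union, Set.mem_inter_iff, Set.mem_insert_iff, true_or,
          iff_true]
        exact ⟨he, fun h => heR1 (hT1 h.1)⟩
      · have hx1 : x ∈ R1 ↔ x ∈ R := by
          rw [hR1]; simp [hxe]
        simp only [Set.mem_diff, Set.mem_union, Set.mem_inter_iff, Set.mem_insert_iff, hxe,
          false_or, hx1]
        tauto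
    have hne : e ∉ (R1 \ T1) ∪ (R1 \ T2) := by
      rintro (h | h)
      · exact heR1 h.1
      · exact heR1 h.1
    have hf1 : (R1 \ T1).Finite := hR1fin.subset Set.diff_subset
    have hf2 : (R1 \ T2).Finite := hR1fin.subset Set.diff_subset
    have n3 := Set.ncard_union_add_ncard_inter (R1 \ T1) (R1 \ T2) hf1 hf2
    have n4 := Set.ncard_insert_of_notMem hne (hf1.union hf2)
    rw [← n2] at n4
    rw [← n1] at n3
    omega

/-- two disjoint bases (matroid union for two rank functions) -/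
theorem packing {E M : Type*} [AddCommGroup M] [Module (ZMod 2) M] (f g : E → M) (E0 : Set E)
    (hE : E0.Finite) (n : ℕ) (hf : rk f E0 ≤ n) (hg : rk g E0 ≤ n)
    (hc : ∀ T ⊆ E0, 2 * n ≤ (E0 \ T).ncard + rk f T + rk g T) :
    ∃ B ⊆ E0, rk f (E0 \ B) = n ∧ rk g B = n := by
  refine packing_aux f g E0 hE n hf hg _ ∅ ∅ (Set.empty_subset _) (Set.empty_subset _)
    (Set.disjoint_empty _) rfl ?_
  intro T hT
  rw [Set.union_empty, Set.diff_empty] at hT ⊢
  rw [Set.empty_union]
  exact hc T hT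

end Pool.Agent.Helper391.Lg
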