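import Pool.Agent.Helper391.Lg.Defs



namespace Pool.Agent.Helper391.Lg
open Set


theorem rk_le_card {E M : Type*} [AddCommGroup M] [Module (ZMod 2) M] (f : E → M) (T : Set E)
    (hT : T.Finite) : rk f T ≤ T.ncard := by
  classical
  unfold rk Set.finrank
  have hfin : (f '' T).Finite := hT.image f
  haveI : Fintype (f '' T) := hfin.fintype
  calc Module.finrank (ZMod 2) (Submodule.span (ZMod 2) (f '' T)) ≤ (f '' T).toFinset.card :=
        finrank_span_le_card _
    _ = (f '' T).ncard := (Set.ncard_eq_toFinset_card' _).symm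
    _ ≤ T.ncard := Set.ncard_image_le hT

end Pool.Agent.Helper391.Lg
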