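import Pool.Agent.Helper391.Lg.Defs
import Pool.Agent.Helper391.Lg.P_rk_submod
import Pool.Agent.Helper391.Lg.P_rk_le_card



namespace Pool.Agent.Helper391.Lg
open Set


theorem rk_union_card {E M : Type*} [AddCommGroup M] [Module (ZMod 2) M] (f : E → M) (T T' : Set E)
    (h : T ⊆ T') (hf : T'.Finite) : rk f T' ≤ rk f T + (T' \ T).ncard := by
  have hT : T.Finite := hf.subset h
  have hd : (T' \ T).Finite := hf.subset sdiff_subset
  have h1 := rk_submod f T (T' \ T) hT hd
  have h2 := rk_le_card f (T' \ T) hd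
  rw [union_sdiff_cancel h] at h1
  omega

end Pool.Agent.Helper391.Lg
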