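import Pool.Agent.Helper391.Lg.Defs
import Pool.Agent.Helper391.Lg.P_rk_mono
import Pool.Agent.Helper391.Lg.P_rk_submod
import Pool.Agent.Helper391.Lg.P_rk_union_card
import Pool.Agent.Helper391.Lg.P_packing



namespace Pool.Agent.Helper391.Lg
open Set


theorem packing_closed {E M : Type*} [AddCommGroup M] [Module (ZMod 2) M] (f g : E → M) (E0 : Set E)
    (hE : E0.Finite) (n : ℕ) (hf : rk f E0 ≤ n) (hg : rk g E0 ≤ n) (T0 : Set E) (hT0 : T0 ⊆ E0)
    (h0 : ∀ T' ⊆ T0, rk f T0 + rk g T0 + T'.ncard ≤ rk f T' + rk g T' + T0.ncard)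
    (hc : ∀ T ⊆ E0, T0 ⊆ T → (∀ e ∈ E0, g e ∈ Submodule.span (ZMod 2) (g '' T) → e ∈ T) →
      2 * n ≤ (E0 \ T).ncard + rk f T + rk g T) :
    ∃ B ⊆ E0, rk f (E0 \ B) = n ∧ rk g B = n := by
  refine packing f g E0 hE n hf hg ?_
  intro T hT
  have hTf : T.Finite := hE.subset hT
  have hT0f : T0.Finite := hE.subset hT0
  -- difference formula
  have diff : ∀ A B : Set E, A ⊆ B → B ⊆ E0 → (E0 \ A).ncard = (E0 \ B).ncard + (B \ A).ncard := by
    intro A B hAB hB
    rw [← Set.ncard_union_eq (by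
      rw [Set.disjoint_left]
      rintro x ⟨_, hx⟩ ⟨hx', _⟩
      exact hx hx') (hE.subset Set.diff_subset) ((hE.subset hB).subset Set.diff_subset)]
    congr 1
    ext x
    simp only [Set.mem_diff, Set.mem_union]
    constructor
    · rintro ⟨h1, h2⟩
      by_cases hx : x ∈ B
      · exact Or.inr ⟨hx, h2⟩
      · exact Or.inl ⟨h1, hx⟩
    · rintro (⟨h1, h2⟩ | ⟨h1, h2⟩)
      · exact ⟨h1, fun h => h2 (hAB h)⟩
      · exact ⟨hB h1, h2⟩
  have hT1 : T ∪ T0 ⊆ E0 := Set.union_subset hT hT0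
  have step1 : (E0 \ (T ∪ T0)).ncard + rk f (T ∪ T0) + rk g (T ∪ T0) ≤ (E0 \ T).ncard + rk f T + rk g T := by
    have a1 := rk_submod f T T0 hTf hT0f
    have a2 := rk_submod g T T0 hTf hT0f
    have a3 := h0 (T ∩ T0) Set.inter_subset_right
    have a4 := diff T (T ∪ T0) Set.subset_union_left hT1
    have a5 : ((T ∪ T0) \ T).ncard = (T0 \ T).ncard := by
      congr 1
      ext x
      simp only [Set.mem_diff, Set.mem_union]
      tauto
    have a6 : T0.ncard = (T0 \ T).ncard + (T ∩ T0).ncard := by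
      rw [← Set.ncard_union_eq (by
        rw [Set.disjoint_left]
        rintro x ⟨_, hx⟩ ⟨hx', _⟩
        exact hx hx') (hT0f.subset Set.diff_subset) (hT0f.subset Set.inter_subset_right)]
      congr 1
      ext x
      simp only [Set.mem_diff, Set.mem_union, Set.mem_inter_iff]
      tauto
    omega
  set T2 : Set E := {e | e ∈ E0 ∧ g e ∈ Submodule.span (ZMod 2) (g '' (T ∪ T0))} with hT2
  have h12 : T ∪ T0 ⊆ T2 := by
    intro e he
    exact ⟨hT1 he, Submodule.subset_span ⟨e, he, rfl⟩⟩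
  have h2E : T2 ⊆ E0 := fun e he => he.1
  have hspan : Submodule.span (ZMod 2) (g '' T2) = Submodule.span (ZMod 2) (g '' (T ∪ T0)) := by
    apply le_antisymm
    · rw [Submodule.span_le]
      rintro _ ⟨e, he, rfl⟩
      exact he.2
    · exact Submodule.span_mono (Set.image_mono h12)
  have hrkg : rk g T2 = rk g (T ∪ T0) := by
    unfold rk Set.finrank
    rw [hspan]
  have hrkf := rk_union_card f (T ∪ T0) T2 h12 (hE.subset h2E)
  have hd := diff (T ∪ T0) T2 h12 h2E
  have hfin := hc T2 h2E (Set.subset_union_right.trans h12) (by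
    intro e he hg'
    rw [hspan] at hg'
    exact ⟨he, hg'⟩)
  omega

end Pool.Agent.Helper391.Lg
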