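import Pool.Agent.Helper391.Lg.Defs
import Pool.Agent.Helper391.Lg.P_rk_supp
import Pool.Agent.Helper391.Lg.P_packing_closed
import Pool.Agent.Helper391.Lg.P_inc_finite
import Pool.Agent.Helper391.Lg.P_closed_structure
import Pool.Agent.Helper391.Lg.P_h_le



namespace Pool.Agent.Helper391.Lg
open Set


/-- free packing -/
theorem free_rank {V : Type*} (G : SimpleGraph V) (hfin : ∀ v, (G.neighborSet v).Finite)
    (F X : Set V) (hX : X.Finite) (hXF : Disjoint X F) (hI : ∀ U ⊆ X, 0 ≤ h G F U) :
    ∃ B ⊆ inc G F X, rk (vX X) (inc G F X \ B) = X.ncard ∧ rk (vX X) B = X.ncard := by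
  have hI0 : (inc G F X).Finite := (inc_finite G hfin F X hX).1
  have hrk : rk (vX X) (inc G F X) ≤ X.ncard := by
    refine rk_supp _ _ X hX fun e _ v hv => ?_
    unfold vX
    rw [if_neg fun hh => hv hh.2]
  refine packing_closed (vX X) (vX X) (inc G F X) hI0 X.ncard hrk hrk ∅ (Set.empty_subset _) ?_ ?_
  · intro T' hT'
    rw [Set.subset_empty_iff.1 hT']
  · intro T hT _ hcl
    obtain ⟨U, hUX, hTU, _, hrT, _⟩ := closed_structure G hfin F X hX hXF T hT hcl
    have hU : U.Finite := hX.subset hUX
    have h1 := h_le G hfin F U hU (T ∩ ins G U) Set.inter_subset_right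
    have h2 := hI U hUX
    unfold cost at h1
    have h3 : (inc G F U).ncard ≤ (inc G F X \ T).ncard + (T ∩ ins G U).ncard := by
      refine le_trans (Set.ncard_le_ncard ?_ ?_) (Set.ncard_union_le _ _)
      · intro e he
        have heI : e ∈ inc G F X := by
          obtain ⟨ha, hb, v, hv, hvU⟩ := he
          exact ⟨ha, hb, v, hv, hUX hvU⟩
        by_cases heT : e ∈ T
        · have h4 := heT
          rw [hTU] at h4
          rcases h4 with h4 | h4
          · exact Or.inr h4
          · exact absurd he h4.2
        · exact Or.inl ⟨heI, heT⟩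
      · exact (hI0.subset Set.diff_subset).union ((hI0.subset hT).subset Set.inter_subset_left)
    have h5 : (X \ U).ncard + U.ncard = X.ncard := Set.ncard_diff_add_ncard_of_subset hUX hX
    omega

end Pool.Agent.Helper391.Lg
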