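import Pool.Agent.Helper391.Lg.Defs



namespace Pool.Agent.Helper391.Lg
open Set


/-- rank `|X|` of vectors supported in `X` means that every vector supported in `X` is in the span -/
theorem rk_full {E V : Type*} (f : E → V → ZMod 2) (T : Set E) (hT : T.Finite) (X : Set V) (hX : X.Finite)
    (h : ∀ e ∈ T, ∀ v, v ∉ X → f e v = 0) (hr : rk f T = X.ncard) (g : V → ZMod 2)
    (hg : ∀ v, v ∉ X → g v = 0) : g ∈ Submodule.span (ZMod 2) (f '' T) := by
  classical
  let W : Submodule (ZMod 2) (V → ZMod 2) :=
    { carrier := {g | ∀ v, v ∉ X → g v = 0}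
      add_mem' := by
        intro a b ha hb v hv
        rw [Pi.add_apply, ha v hv, hb v hv, add_zero]
      zero_mem' := by
        intro v hv
        rfl
      smul_mem' := by
        intro c a ha v hv
        rw [Pi.smul_apply, ha v hv, smul_zero] }
  let R : W →ₗ[ZMod 2] (X → ZMod 2) :=
    { toFun := fun w x => w.1 x.1
      map_add' := fun a b => rfl
      map_smul' := fun c a => rfl }
  have hR : Function.Injective R := by
    intro a b hab
    apply Subtype.ext
    funext v
    by_cases hv : v ∈ X
    · exact congrFun hab ⟨v, hv⟩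
    · rw [a.2 v hv, b.2 v hv]
  haveI : Fintype X := hX.fintype
  haveI : FiniteDimensional (ZMod 2) W := FiniteDimensional.of_injective R hR
  have hle : Submodule.span (ZMod 2) (f '' T) ≤ W := by
    rw [Submodule.span_le]
    rintro _ ⟨e, he, rfl⟩
    exact fun v hv => h e he v hv
  have hfin : Module.finrank (ZMod 2) W ≤ X.ncard := by
    refine (LinearMap.finrank_le_finrank_of_injective hR).trans ?_
    rw [Module.finrank_fintype_fun_eq_card, Set.ncard_eq_toFinset_card', Set.toFinset_card]
  have heq : Submodule.span (ZMod 2) (f '' T) = W := by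
    apply Submodule.eq_of_le_of_finrank_le hle
    refine hfin.trans ?_
    rw [← hr]
    exact le_rfl
  rw [heq]
  exact hg

end Pool.Agent.Helper391.Lg
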