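import Pool.Agent.Helper391.Lg.Defs
import Pool.Agent.Helper391.Lg.P_rk_full
import Pool.Agent.Helper391.Lg.P_functional
import Pool.Agent.Helper391.Lg.P_inc_finite



namespace Pool.Agent.Helper391.Lg
open Set


theorem out_of_rank {V : Type*} (G : SimpleGraph V) (hfin : ∀ v, (G.neighborSet v).Finite)
    (F X : Set V) (hX : X.Finite) (B : Set (Sym2 V)) (hB : B ⊆ inc G F X)
    (hr : rk (vX X) B = X.ncard) : Out B X := by
  classical
  intro v hv
  by_contra hcon
  push Not at hcon
  have hreach : ∀ w, (SimpleGraph.fromEdgeSet B).Reachable v w → w ∈ X := by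
    intro w hw
    by_contra hwX
    exact hcon w hwX hw
  obtain ⟨C, hC⟩ : ∃ C : Finset V, ∀ w, w ∈ C ↔ (SimpleGraph.fromEdgeSet B).Reachable v w := by
    refine ⟨hX.toFinset.filter (fun w => (SimpleGraph.fromEdgeSet B).Reachable v w), ?_⟩
    intro w
    rw [Finset.mem_filter, Set.Finite.mem_toFinset]
    exact ⟨fun h => h.2, fun h => ⟨hreach w h, h⟩⟩
  have hBfin : B.Finite := (inc_finite G hfin F X hX).1.subset hB
  have hsum : ∀ e ∈ B, ∑ w ∈ C, vX X e w = 0 := by
    intro e he
    have heG : e ∈ G.edgeSet := (hB he).1
    induction e using Sym2.ind with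
    | _ a b =>
      have hadj : G.Adj a b := heG
      have hab : a ≠ b := hadj.ne
      have h1 : ∀ w ∈ C, vX X s(a, b) w = (if w = a then 1 else 0) + (if w = b then 1 else 0) := by
        intro w hw
        have hwX : w ∈ X := hreach w ((hC w).1 hw)
        unfold vX
        by_cases hwa : w = a
        · subst hwa
          have : w ∈ s(w, b) ∧ w ∈ X := ⟨Sym2.mem_mk_left _ _, hwX⟩
          rw [if_pos this, if_pos rfl, if_neg hab, add_zero]
        · by_cases hwb : w = b
          · subst hwb
            have : w ∈ s(a, w) ∧ w ∈ X := ⟨Sym2.mem_mk_right _ _, hwX⟩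
            rw [if_pos this, if_pos rfl, if_neg hwa, zero_add]
          · have : ¬ (w ∈ s(a, b) ∧ w ∈ X) := by
              rintro ⟨h, -⟩
              rcases Sym2.mem_iff.1 h with h | h
              · exact hwa h
              · exact hwb h
            rw [if_neg this, if_neg hwa, if_neg hwb, add_zero]
      rw [Finset.sum_congr rfl h1, Finset.sum_add_distrib, Finset.sum_ite_eq', Finset.sum_ite_eq']
      have hstep : (SimpleGraph.fromEdgeSet B).Adj a b := by
        rw [SimpleGraph.fromEdgeSet_adj]
        exact ⟨he, hab⟩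
      have hiff : a ∈ C ↔ b ∈ C := by
        rw [hC, hC]
        constructor
        · intro h
          exact h.trans hstep.reachable
        · intro h
          exact h.trans hstep.symm.reachable
      by_cases ha : a ∈ C
      · rw [if_pos ha, if_pos (hiff.1 ha)]
        decide
      · rw [if_neg ha, if_neg (fun h => ha (hiff.2 h)), add_zero]
  have hg := rk_full (vX X) B hBfin X hX (by
    intro e _ w hw
    unfold vX
    rw [if_neg (fun h => hw h.2)]) hr (Pi.single v 1) (by
    intro w hw
    have : w ≠ v := by
      rintro rfl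
      exact hw hv
    exact Pi.single_eq_of_ne this 1)
  have h2 := functional (vX X) B C hsum _ hg
  have hvC : v ∈ C := (hC v).2 (SimpleGraph.Reachable.refl v)
  rw [Finset.sum_eq_single v] at h2
  · rw [Pi.single_eq_same] at h2
    exact one_ne_zero h2
  · intro w _ hw
    exact Pi.single_eq_of_ne hw 1
  · intro h
    exact absurd hvC h

end Pool.Agent.Helper391.Lg
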