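import Pool.Agent.Helper391.Lg.Defs
import Pool.Agent.Helper391.Lg.P_free_rank
import Pool.Agent.Helper391.Lg.P_out_of_rank



namespace Pool.Agent.Helper391.Lg
open Set


theorem good_free {V : Type*} (G : SimpleGraph V) (hfin : ∀ v, (G.neighborSet v).Finite)
    (F L : Set V) (hL : L.Finite) (hLF : Disjoint L F) (hI : ∀ U ⊆ L, 0 ≤ h G F U) :
    ∃ B, Good G F L B := by
  obtain ⟨B, hB, h1, h2⟩ := free_rank G hfin F L hL hLF hI
  exact ⟨B, hB, out_of_rank G hfin F L hL B hB h2,
    out_of_rank G hfin F L hL (inc G F L \ B) Set.diff_subset h1⟩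

end Pool.Agent.Helper391.Lg
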