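import Pool.Agent.Helper391.Lg.Defs



namespace Pool.Agent.Helper391.Lg
open Set


theorem inc_split {V : Type*} (G : SimpleGraph V) (F L L' : Set V) (B B' : Set (Sym2 V))
    (hB : B ⊆ inc G F L) (hB' : B' ⊆ inc G (F ∪ L) L') :
    inc G F (L ∪ L') \ (B ∪ B') = (inc G F L \ B) ∪ (inc G (F ∪ L) L' \ B') ∧
    inc G F (L ∪ L') = inc G F L ∪ inc G (F ∪ L) L' ∧
    (∀ S ⊆ L, Disjoint S F → ins G S \ (B ∪ B') = ins G S \ B) ∧
    (∀ S ⊆ L', Disjoint S (F ∪ L) → ins G S \ (B ∪ B') = ins G S \ B') := by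
  have hBL : ∀ e ∈ B, ∃ v ∈ e, v ∈ L := fun e he => (hB he).2.2
  have hBL' : ∀ e ∈ B', ∀ v ∈ e, v ∉ L := fun e he v hv hvL => (hB' he).2.1 v hv (Or.inr hvL)
  have hx : ∀ e : Sym2 V, ∃ v, v ∈ e := fun e => by
    induction e using Sym2.ind with
    | _ a b => exact ⟨a, Sym2.mem_mk_left a b⟩
  have h2 : inc G F (L ∪ L') = inc G F L ∪ inc G (F ∪ L) L' := by
    ext e
    constructor
    · rintro ⟨h1, h3, v, hv, hvL⟩
      by_cases hc : ∃ w ∈ e, w ∈ L
      · exact Or.inl ⟨h1, h3, hc⟩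
      · push Not at hc
        refine Or.inr ⟨h1, ?_, v, hv, ?_⟩
        · rintro w hw (hwF | hwL)
          · exact h3 w hw hwF
          · exact hc w hw hwL
        · rcases hvL with h | h
          · exact absurd h (hc v hv)
          · exact h
    · rintro (⟨h1, h3, v, hv, hvL⟩ | ⟨h1, h3, v, hv, hvL⟩)
      · exact ⟨h1, h3, v, hv, Or.inl hvL⟩
      · exact ⟨h1, fun w hw hwF => h3 w hw (Or.inl hwF), v, hv, Or.inr hvL⟩
  refine ⟨?_, h2, ?_, ?_⟩
  · rw [h2]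
    ext e
    constructor
    · rintro ⟨h3 | h3, h4⟩
      · exact Or.inl ⟨h3, fun h5 => h4 (Or.inl h5)⟩
      · exact Or.inr ⟨h3, fun h5 => h4 (Or.inr h5)⟩
    · rintro (⟨h3, h4⟩ | ⟨h3, h4⟩)
      · refine ⟨Or.inl h3, ?_⟩
        rintro (h5 | h5)
        · exact h4 h5
        · obtain ⟨v, hv, hvL⟩ := h3.2.2
          exact hBL' e h5 v hv hvL
      · refine ⟨Or.inr h3, ?_⟩
        rintro (h5 | h5)
        · obtain ⟨v, hv, hvL⟩ := hBL e h5
          exact h3.2.1 v hv (Or.inr hvL)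
        · exact h4 h5
  · intro S hS _
    ext e
    constructor
    · rintro ⟨h3, h4⟩
      exact ⟨h3, fun h5 => h4 (Or.inl h5)⟩
    · rintro ⟨h3, h4⟩
      refine ⟨h3, ?_⟩
      rintro (h5 | h5)
      · exact h4 h5
      · obtain ⟨v, hv⟩ := hx e
        exact hBL' e h5 v hv (hS (h3.2 v hv))
  · intro S _ hd
    ext e
    constructor
    · rintro ⟨h3, h4⟩
      exact ⟨h3, fun h5 => h4 (Or.inr h5)⟩
    · rintro ⟨h3, h4⟩
      refine ⟨h3, ?_⟩
      rintro (h5 | h5)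
      · obtain ⟨v, hv, hvL⟩ := hBL e h5
        exact Set.disjoint_left.mp hd (h3.2 v hv) (Or.inr hvL)
      · exact h4 h5

end Pool.Agent.Helper391.Lg
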