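import Pool.Agent.Helper391.Lg.Defs
import Pool.Agent.Helper391.Lg.P_inc_split



namespace Pool.Agent.Helper391.Lg
open Set


theorem out_union_aux {V : Type*} {T1 T2 : Set (Sym2 V)} {L L' : Set V} (h1 : Out T1 L)
    (h2 : Out T2 L') (h : ∀ e ∈ T2, ∀ v ∈ e, v ∉ L) : Out (T1 ∪ T2) (L ∪ L') := by
  have m1 : SimpleGraph.fromEdgeSet T1 ≤ SimpleGraph.fromEdgeSet (T1 ∪ T2) :=
    SimpleGraph.fromEdgeSet_mono subset_union_left
  have m2 : SimpleGraph.fromEdgeSet T2 ≤ SimpleGraph.fromEdgeSet (T1 ∪ T2) :=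
    SimpleGraph.fromEdgeSet_mono subset_union_right
  have key : ∀ v ∈ L', ∃ w, w ∉ L ∪ L' ∧
      (SimpleGraph.fromEdgeSet (T1 ∪ T2)).Reachable v w := by
    intro v hv
    obtain ⟨w, hw, hr⟩ := h2 v hv
    refine ⟨w, ?_, hr.mono m2⟩
    rintro (hwL | hwL')
    · obtain ⟨q⟩ := hr.symm
      cases q with
      | nil => exact hw hv
      | cons hadj _ =>
        rw [SimpleGraph.fromEdgeSet_adj] at hadj
        exact h _ hadj.1 w (Sym2.mem_mk_left _ _) hwL
    · exact hw hwL'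
  rintro v (hv | hv)
  · obtain ⟨w, hw, hr⟩ := h1 v hv
    by_cases hw' : w ∈ L'
    · obtain ⟨w', hw'', hr'⟩ := key w hw'
      exact ⟨w', hw'', (hr.mono m1).trans hr'⟩
    · exact ⟨w, fun h => h.elim hw hw', hr.mono m1⟩
  · exact key v hv

theorem good_union {V : Type*} (G : SimpleGraph V) (F L L' : Set V) (B B' : Set (Sym2 V))
    (hLF : Disjoint L F) (hL' : Disjoint L' (F ∪ L)) (h1 : Good G F L B)
    (h2 : Good G (F ∪ L) L' B') : Good G F (L ∪ L') (B ∪ B') := by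
  obtain ⟨s1, s2, -, -⟩ := inc_split G F L L' B B' h1.sub h2.sub
  refine ⟨?_, ?_, ?_⟩
  · rw [s2]
    exact union_subset_union h1.sub h2.sub
  · exact out_union_aux h1.outB h2.outB fun e he v hv hvL => (h2.sub he).2.1 v hv (Or.inr hvL)
  · rw [s1]
    exact out_union_aux h1.outA h2.outA fun e he v hv hvL => he.1.2.1 v hv (Or.inr hvL)

end Pool.Agent.Helper391.Lg
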