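import Pool.Agent.Helper391.Lg.Defs
import Pool.Agent.Helper391.Lg.P_rk_submod
import Pool.Agent.Helper391.Lg.P_inc_finite
import Pool.Agent.Helper391.Lg.P_opt_exists
import Pool.Agent.Helper391.Lg.P_h_opt
import Pool.Agent.Helper391.Lg.P_h_le



namespace Pool.Agent.Helper391.Lg
open Set


theorem h_union {V : Type*} (G : SimpleGraph V) (hfin : ∀ v, (G.neighborSet v).Finite)
    (F X Y : Set V) (hX : X.Finite) (hY : Y.Finite) (hXY : Disjoint X Y) (hXF : Disjoint X F)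
    (hYF : Disjoint Y F) : h G F (X ∪ Y) ≤ h G F X + h G (F ∪ X) Y := by
  obtain ⟨T, hT⟩ := opt_exists G hfin X hX
  obtain ⟨S, hS⟩ := opt_exists G hfin Y hY
  rw [h_opt G F X T hT, h_opt G (F ∪ X) Y S hS]
  have hTf : T.Finite := (inc_finite G hfin F X hX).2.1.subset hT.1
  have hSf : S.Finite := (inc_finite G hfin F Y hY).2.1.subset hS.1
  have hsub : T ∪ S ⊆ ins G (X ∪ Y) := by
    rintro e (he | he)
    · exact ⟨(hT.1 he).1, fun v hv => Or.inl ((hT.1 he).2 v hv)⟩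
    · exact ⟨(hS.1 he).1, fun v hv => Or.inr ((hS.1 he).2 v hv)⟩
  refine (h_le G hfin F (X ∪ Y) (hX.union hY) (T ∪ S) hsub).trans ?_
  have hTS : Disjoint T S := by
    rw [Set.disjoint_left]
    intro e he he'
    have h1 := (hT.1 he).2 _ (Sym2.out_fst_mem e)
    have h2 := (hS.1 he').2 _ (Sym2.out_fst_mem e)
    exact Set.disjoint_left.1 hXY h1 h2
  have hinc : inc G F (X ∪ Y) = inc G F X ∪ inc G (F ∪ X) Y := by
    ext e
    constructor
    · rintro ⟨h1, h2, v, hv, hv'⟩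
      by_cases hx : ∃ w ∈ e, w ∈ X
      · exact Or.inl ⟨h1, h2, hx⟩
      · push Not at hx
        rcases hv' with hv' | hv'
        · exact absurd hv' (hx v hv)
        · refine Or.inr ⟨h1, ?_, v, hv, hv'⟩
          rintro w hw (hF | hX')
          · exact h2 w hw hF
          · exact hx w hw hX'
    · rintro (⟨h1, h2, v, hv, hv'⟩ | ⟨h1, h2, v, hv, hv'⟩)
      · exact ⟨h1, h2, v, hv, Or.inl hv'⟩
      · exact ⟨h1, fun w hw hF => h2 w hw (Or.inl hF), v, hv, Or.inr hv'⟩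
  have hdis : Disjoint (inc G F X) (inc G (F ∪ X) Y) := by
    rw [Set.disjoint_left]
    rintro e ⟨-, -, v, hv, hv'⟩ ⟨-, h2, -⟩
    exact h2 v hv (Or.inr hv')
  have c1 : (inc G F (X ∪ Y)).ncard = (inc G F X).ncard + (inc G (F ∪ X) Y).ncard := by
    rw [hinc]
    exact Set.ncard_union_eq hdis (inc_finite G hfin F X hX).1 (inc_finite G hfin (F ∪ X) Y hY).1
  have c2 : (T ∪ S).ncard = T.ncard + S.ncard := Set.ncard_union_eq hTS hTf hSf
  have c3 : (X ∪ Y).ncard = X.ncard + Y.ncard := Set.ncard_union_eq hXY hX hY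
  have c4 := rk_submod (chi (V := V)) T S hTf hSf
  unfold cost
  rw [c1, c2, c3]
  push_cast
  have c5 : (rk (chi (V := V)) (T ∪ S) : ℤ) ≤ rk (chi (V := V)) T + rk (chi (V := V)) S := by
    exact_mod_cast (Nat.le_add_right _ _).trans c4
  linarith

end Pool.Agent.Helper391.Lg
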