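import Pool.Agent.Helper391.Lg.Defs



namespace Pool.Agent.Helper391.Lg
open Set


theorem h_empty {V : Type*} (G : SimpleGraph V) (F : Set V) : h G F ∅ = 0 := by
  have hins : ins G (∅ : Set V) = ∅ := by
    ext e
    constructor
    · rintro ⟨-, he⟩
      induction e with
      | _ a b => exact (he a (Sym2.mem_mk_left a b)).elim
    · intro he
      exact he.elim
  have hinc : inc G F (∅ : Set V) = ∅ := by
    ext e
    constructor
    · rintro ⟨-, -, v, -, hv⟩
      exact hv.elim
    · intro he
      exact he.elim
  have hset : {z : ℤ | ∃ T ⊆ ins G (∅ : Set V), z = cost G F ∅ T} = {0} := by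
    ext z
    constructor
    · rintro ⟨T, hT, rfl⟩
      rw [hins] at hT
      have hT' : T = ∅ := Set.subset_empty_iff.mp hT
      subst hT'
      simp [cost, rk, hinc]
    · intro hz
      rw [Set.mem_singleton_iff] at hz
      refine ⟨∅, Set.empty_subset _, ?_⟩
      rw [hz]
      simp [cost, rk, hinc]
  unfold h
  rw [hset]
  exact csInf_singleton 0

end Pool.Agent.Helper391.Lg
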