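import Pool.Agent.Helper391.Lg.Defs
import Pool.Agent.Helper391.Lg.P_rk_disj
import Pool.Agent.Helper391.Lg.P_inc_finite



namespace Pool.Agent.Helper391.Lg
open Set


theorem opt_restrict_aux {V : Type*} (G : SimpleGraph V) (hfin : ∀ v, (G.neighborSet v).Finite)
    (X : Set V) (hX : X.Finite) (U : Set V) (hU : U ⊆ X) (A B : Set (Sym2 V))
    (hA : A ⊆ ins G U) (hB : B ⊆ ins G (X \ U)) :
    (A ∪ B).ncard = A.ncard + B.ncard ∧ rk chi (A ∪ B) = rk chi A + rk chi B := by
  classical
  have hAf : A.Finite := ((inc_finite G hfin ∅ U (hX.subset hU)).2.1).subset hA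
  have hBf : B.Finite :=
    ((inc_finite G hfin ∅ (X \ U) (hX.subset Set.diff_subset)).2.1).subset hB
  constructor
  · apply Set.ncard_union_eq _ hAf hBf
    rw [Set.disjoint_left]
    intro e he he'
    have h1 := (hA he).2
    have h2 := (hB he').2
    induction e using Sym2.ind with
    | _ a b => exact (h2 a (Sym2.mem_mk_left a b)).2 (h1 a (Sym2.mem_mk_left a b))
  · apply rk_disj chi A B hAf hBf U
    · intro e he v hv
      unfold chi
      rw [if_neg]
      intro hve
      exact hv ((hA he).2 v hve)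
    · intro e he v hv
      unfold chi
      rw [if_neg]
      intro hve
      exact ((hB he).2 v hve).2 hv

theorem opt_restrict {V : Type*} (G : SimpleGraph V) (hfin : ∀ v, (G.neighborSet v).Finite)
    (X : Set V) (hX : X.Finite) (T0 : Set (Sym2 V)) (hT0 : Opt G X T0) (U : Set V) (hU : U ⊆ X)
    (hcl : Closed T0 U) : Opt G U (T0 ∩ ins G U) := by
  classical
  refine ⟨Set.inter_subset_right, ?_⟩
  intro T' hT'
  have hsplit : T0 = (T0 ∩ ins G U) ∪ (T0 ∩ ins G (X \ U)) := by
    ext e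
    constructor
    · intro he
      by_cases h : ∃ v ∈ e, v ∈ U
      · exact Or.inl ⟨he, (hT0.1 he).1, hcl e he h⟩
      · push Not at h
        exact Or.inr ⟨he, (hT0.1 he).1, fun v hv => ⟨(hT0.1 he).2 v hv, h v hv⟩⟩
    · rintro (h | h)
      · exact h.1
      · exact h.1
  obtain ⟨c1, r1⟩ := opt_restrict_aux G hfin X hX U hU (T0 ∩ ins G U) (T0 ∩ ins G (X \ U))
    Set.inter_subset_right Set.inter_subset_right
  obtain ⟨c2, r2⟩ := opt_restrict_aux G hfin X hX U hU T' (T0 ∩ ins G (X \ U))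
    hT' Set.inter_subset_right
  have h3 := hT0.2 (T' ∪ (T0 ∩ ins G (X \ U))) (by
    rintro e (h | h)
    · exact ⟨(hT' h).1, fun v hv => hU ((hT' h).2 v hv)⟩
    · exact ⟨h.2.1, fun v hv => (h.2.2 v hv).1⟩)
  rw [← hsplit] at c1 r1
  rw [c2, r2, c1, r1] at h3
  push_cast at h3
  linarith

end Pool.Agent.Helper391.Lg
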