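import Pool.Agent.Helper391.Lg.Defs
import Pool.Agent.Helper391.Lg.P_rk_disj
import Pool.Agent.Helper391.Lg.P_inc_finite
import Pool.Agent.Helper391.Lg.P_h_opt
import Pool.Agent.Helper391.Lg.P_opt_restrict



namespace Pool.Agent.Helper391.Lg
open Set


theorem modular_split {V : Type*} (G : SimpleGraph V) (T0 : Set (Sym2 V)) (hT0 : T0.Finite) (P D : Set V)
    (hPD : Disjoint P D) (hP : Closed T0 P) (hD : Closed T0 D) :
    (T0 ∩ ins G (P ∪ D)).ncard = (T0 ∩ ins G P).ncard + (T0 ∩ ins G D).ncard ∧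
    rk chi (T0 ∩ ins G (P ∪ D)) = rk chi (T0 ∩ ins G P) + rk chi (T0 ∩ ins G D) := by
  have hex : ∀ e : Sym2 V, ∃ v, v ∈ e := fun e => by
    induction e using Sym2.ind with
    | _ x y => exact ⟨x, Sym2.mem_mk_left x y⟩
  have heq : T0 ∩ ins G (P ∪ D) = (T0 ∩ ins G P) ∪ (T0 ∩ ins G D) := by
    ext e
    constructor
    · rintro ⟨h1, h2, h3⟩
      obtain ⟨v, hv⟩ := hex e
      rcases h3 v hv with h4 | h4
      · left
        exact ⟨h1, h2, hP e h1 ⟨v, hv, h4⟩⟩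
      · right
        exact ⟨h1, h2, hD e h1 ⟨v, hv, h4⟩⟩
    · rintro (⟨h1, h2, h3⟩ | ⟨h1, h2, h3⟩)
      · exact ⟨h1, h2, fun v hv => Or.inl (h3 v hv)⟩
      · exact ⟨h1, h2, fun v hv => Or.inr (h3 v hv)⟩
  have hdisj : Disjoint (T0 ∩ ins G P) (T0 ∩ ins G D) := by
    rw [Set.disjoint_left]
    rintro e ⟨-, -, h3⟩ ⟨-, -, h4⟩
    obtain ⟨v, hv⟩ := hex e
    exact Set.disjoint_left.1 hPD (h3 v hv) (h4 v hv)
  have hf1 : (T0 ∩ ins G P).Finite := hT0.subset Set.inter_subset_left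
  have hf2 : (T0 ∩ ins G D).Finite := hT0.subset Set.inter_subset_left
  rw [heq]
  refine ⟨Set.ncard_union_eq hdisj hf1 hf2, ?_⟩
  apply rk_disj chi _ _ hf1 hf2 P
  · rintro e ⟨-, -, h3⟩ v hv
    unfold chi
    rw [if_neg]
    intro hve
    exact hv (h3 v hve)
  · rintro e ⟨-, -, h3⟩ v hv
    unfold chi
    rw [if_neg]
    intro hve
    exact Set.disjoint_left.1 hPD hv (h3 v hve)

theorem modular {V : Type*} (G : SimpleGraph V) (hfin : ∀ v, (G.neighborSet v).Finite)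
    (F X : Set V) (hX : X.Finite) (hXF : Disjoint X F) (T0 : Set (Sym2 V)) (hT0 : Opt G X T0)
    (U D : Set V) (hU : U ⊆ X) (hD : D ⊆ X) (hUD : Disjoint U D) (hUcl : Closed T0 U) (hDcl : Closed T0 D)
    (hna : ∀ e ∈ G.edgeSet, (∃ v ∈ e, v ∈ D) → ¬ ∃ v ∈ e, v ∈ X \ (U ∪ D)) :
    h G F U + h G F X = h G F (U ∪ D) + h G F (X \ D) := by
  
  have hT0X := hT0.1
  have hfinI := inc_finite G hfin F X hX
  have hT0fin : T0.Finite := hfinI.2.1.subset hT0X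
  have hXcl : Closed T0 X := fun e he _ v hv => (hT0X he).2 v hv
  have hUDcl : Closed T0 (U ∪ D) := by
    rintro e he ⟨v, hv, hv' | hv'⟩ w hw
    · exact Or.inl (hUcl e he ⟨v, hv, hv'⟩ w hw)
    · exact Or.inr (hDcl e he ⟨v, hv, hv'⟩ w hw)
  have hXDcl : Closed T0 (X \ D) := by
    rintro e he ⟨v, hv, hv1, hv2⟩ w hw
    refine ⟨(hT0X he).2 w hw, fun hwD => hv2 (hDcl e he ⟨w, hw, hwD⟩ v hv)⟩
  have hUDX : U ∪ D ⊆ X := Set.union_subset hU hD
  have c1 := h_opt G F U _ (opt_restrict G hfin X hX T0 hT0 U hU hUcl)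
  have c2 := h_opt G F X _ (opt_restrict G hfin X hX T0 hT0 X subset_rfl hXcl)
  have c3 := h_opt G F (U ∪ D) _ (opt_restrict G hfin X hX T0 hT0 (U ∪ D) hUDX hUDcl)
  have c4 := h_opt G F (X \ D) _ (opt_restrict G hfin X hX T0 hT0 (X \ D) Set.diff_subset hXDcl)
  have s1 := modular_split G T0 hT0fin U D hUD hUcl hDcl
  have s2 := modular_split G T0 hT0fin (X \ D) D Set.disjoint_sdiff_left hXDcl hDcl
  rw [Set.diff_union_of_subset hD] at s2
  have hUfin := hX.subset hU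
  have hDfin := hX.subset hD
  have n1 : (U ∪ D).ncard = U.ncard + D.ncard := Set.ncard_union_eq hUD hUfin hDfin
  have n2 : X.ncard = (X \ D).ncard + D.ncard := (Set.ncard_diff_add_ncard_of_subset hD hX).symm
  have iU : inc G F U ⊆ inc G F (U ∪ D) := by
    rintro e ⟨h1, h2, v, hv, hv'⟩
    exact ⟨h1, h2, v, hv, Or.inl hv'⟩
  have iX : inc G F (X \ D) ⊆ inc G F X := by
    rintro e ⟨h1, h2, v, hv, hv'⟩
    exact ⟨h1, h2, v, hv, hv'.1⟩
  have iUDf : (inc G F (U ∪ D)).Finite := (inc_finite G hfin F (U ∪ D) (hX.subset hUDX)).1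
  have hA : inc G F (U ∪ D) \ inc G F U = inc G F X \ inc G F (X \ D) := by
    ext e
    constructor
    · rintro ⟨⟨h1, h2, v, hv, hv'⟩, h3⟩
      have hvD : v ∈ D := by
        rcases hv' with h | h
        · exact absurd ⟨h1, h2, v, hv, h⟩ h3
        · exact h
      refine ⟨⟨h1, h2, v, hv, hD hvD⟩, ?_⟩
      rintro ⟨-, -, w, hw, hw1, hw2⟩
      apply hna e h1 ⟨v, hv, hvD⟩
      refine ⟨w, hw, hw1, ?_⟩
      rintro (h | h)
      · exact h3 ⟨h1, h2, w, hw, h⟩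
      · exact hw2 h
    · rintro ⟨⟨h1, h2, v, hv, hv'⟩, h3⟩
      have hvD : v ∈ D := by
        by_contra h
        exact h3 ⟨h1, h2, v, hv, hv', h⟩
      refine ⟨⟨h1, h2, v, hv, Or.inr hvD⟩, ?_⟩
      rintro ⟨-, -, w, hw, hwU⟩
      exact h3 ⟨h1, h2, w, hw, hU hwU, fun hwD => Set.disjoint_left.1 hUD hwU hwD⟩
  have m1 := Set.ncard_diff_add_ncard_of_subset iU iUDf
  have m2 := Set.ncard_diff_add_ncard_of_subset iX hfinI.1
  rw [hA] at m1
  rw [c1, c2, c3, c4]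
  unfold cost
  rw [s1.1, s1.2, s2.1, s2.2, n1, n2, ← m1, ← m2]
  push_cast
  ring

end Pool.Agent.Helper391.Lg
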