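import Pool.Agent.Helper391.Lg.Defs
import Pool.Agent.Helper391.Lg.P_opt_exists
import Pool.Agent.Helper391.Lg.P_h_empty
import Pool.Agent.Helper391.Lg.P_modular
import Pool.Agent.Helper391.Lg.P_comp_exists



namespace Pool.Agent.Helper391.Lg
open Set


theorem conn_of_min {V : Type*} (G : SimpleGraph V) (hfin : ∀ v, (G.neighborSet v).Finite)
    (F X : Set V) (hX : X.Finite) (hXF : Disjoint X F) (x₁ : V) (hx₁ : x₁ ∈ X)
    (hz : ∀ U ⊆ X, U.Nonempty → x₁ ∉ U → 1 ≤ h G F U)
    (hm : ∀ D ⊆ X, x₁ ∈ D → h G F X ≤ h G F D) : Conn (ins G X) X := by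
  obtain ⟨D, hDX, hxD, hconn, hno, -⟩ := comp_exists G X x₁ hx₁
  by_cases hne : (X \ D).Nonempty
  · exfalso
    obtain ⟨T0, hT0⟩ := opt_exists G hfin X hX
    have h1 := modular G hfin F X hX hXF T0 hT0 ∅ D (Set.empty_subset _) hDX
      (Set.empty_disjoint _) (by
        rintro e he ⟨v, _, hv⟩
        exact absurd hv (Set.notMem_empty v)) (by
        intro e he hex v hv
        by_contra hvD
        have h2 := hT0.1 he
        exact hno e h2.1 hex ⟨v, hv, h2.2 v hv, hvD⟩) (by
        intro e he hex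
        rw [Set.empty_union]
        exact hno e he hex)
    rw [h_empty, Set.empty_union] at h1
    have h2 := hm D hDX hxD
    have h3 := hz (X \ D) Set.diff_subset hne (fun h => h.2 hxD)
    linarith
  · have h1 : X ⊆ D := by
      intro v hv
      by_contra hvD
      exact hne ⟨v, hv, hvD⟩
    have h2 : D = X := Set.Subset.antisymm hDX h1
    rw [h2] at hconn
    exact hconn

end Pool.Agent.Helper391.Lg
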