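import Pool.Agent.Helper391.Lg.Defs
import Pool.Agent.Helper391.Lg.P_modular
import Pool.Agent.Helper391.Lg.P_comp_exists
import Pool.Agent.Helper391.Lg.P_cc_union
import Pool.Agent.Helper391.Lg.P_cc_one



namespace Pool.Agent.Helper391.Lg
open Set


theorem core_bound {V : Type*} (G : SimpleGraph V) (hfin : ∀ v, (G.neighborSet v).Finite)
    (F X : Set V) (hX : X.Finite) (hXF : Disjoint X F) (T0 : Set (Sym2 V)) (hT0 : Opt G X T0)
    (C : Set V) (hmin : ∀ D ⊆ X, D.Nonempty → Disjoint D C → h G F X + 1 ≤ h G F (X \ D))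
    (U : Set V) (hU : U ⊆ X) (hUcl : Closed T0 U) :
    ∃ U', U ⊆ U' ∧ U' ⊆ X ∧ (∀ c ∈ C, c ∈ U' → c ∈ U) ∧
      (∀ x ∈ X \ U', ∃ c ∈ C, c ∈ X \ U' ∧ (SimpleGraph.fromEdgeSet (ins G (X \ U'))).Reachable x c) ∧
      ((X \ U).ncard : ℤ) - rk chi (ins G (X \ U)) - h G F U ≤
        ((X \ U').ncard : ℤ) - rk chi (ins G (X \ U')) - h G F U' := by
  obtain ⟨n, hn⟩ : ∃ n : ℕ, (X \ U).ncard = n := ⟨_, rfl⟩
  induction n using Nat.strong_induction_on generalizing U with
  | _ n ih =>
    by_cases hA : ∀ x ∈ X \ U, ∃ c ∈ C, c ∈ X \ U ∧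
        (SimpleGraph.fromEdgeSet (ins G (X \ U))).Reachable x c
    · exact ⟨U, Set.Subset.rfl, hU, fun c _ h => h, hA, le_rfl⟩
    · push Not at hA
      obtain ⟨x, hx, hxC⟩ := hA
      obtain ⟨D, hDS, hxD, hDconn, hDna, hDmem⟩ := comp_exists G (X \ U) x hx
      have hDX : D ⊆ X := fun v hv => (hDS hv).1
      have hDU : Disjoint U D := Set.disjoint_left.2 fun v hv hv' => (hDS hv').2 hv
      have hDC : Disjoint D C := by
        refine Set.disjoint_left.2 fun v hv hv' => ?_
        obtain ⟨h1, h2⟩ := (hDmem v).1 hv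
        exact hxC v hv' h1 h2
      have hDcl : Closed T0 D := by
        rintro e he ⟨v, hve, hvD⟩ w hwe
        by_contra hwD
        have heX := hT0.1 he
        have hwX : w ∈ X := heX.2 w hwe
        have hwU : w ∉ U := fun hwU => (hDS hvD).2 (hUcl e he ⟨w, hwe, hwU⟩ v hve)
        exact hDna e heX.1 ⟨v, hve, hvD⟩ ⟨w, hwe, ⟨hwX, hwU⟩, hwD⟩
      have hcl : Closed T0 (U ∪ D) := by
        rintro e he ⟨v, hve, hv⟩ w hwe
        rcases hv with hv | hv
        · exact Or.inl (hUcl e he ⟨v, hve, hv⟩ w hwe)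
        · exact Or.inr (hDcl e he ⟨v, hve, hv⟩ w hwe)
      have hset : X \ (U ∪ D) = (X \ U) \ D := Set.diff_diff.symm
      have hmod := modular G hfin F X hX hXF T0 hT0 U D hU hDX hDU hUcl hDcl (by
        intro e he hv
        rw [hset]
        exact hDna e he hv)
      have hm := hmin D hDX ⟨x, hxD⟩ hDC
      have hfinS : (X \ (U ∪ D)).Finite := hX.subset Set.diff_subset
      have hfinD : D.Finite := hX.subset hDX
      have hfinXU : (X \ U).Finite := hX.subset Set.diff_subset
      have hdisj : Disjoint (X \ (U ∪ D)) D :=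
        Set.disjoint_left.2 fun v hv hv' => hv.2 (Or.inr hv')
      have hun : X \ (U ∪ D) ∪ D = X \ U := by
        rw [hset]
        exact Set.diff_union_of_subset hDS
      have h1 := cc_union G hfin (X \ (U ∪ D)) D hfinS hfinD hdisj
      rw [hun] at h1
      have h2 := cc_one G hfin D hfinD x (fun y hy => hDconn y hy x hxD)
      have hlt : (X \ (U ∪ D)).ncard < n := by
        rw [← hn]
        refine Set.ncard_lt_ncard ?_ hfinXU
        rw [Set.ssubset_iff_of_subset (Set.diff_subset_diff_right Set.subset_union_left)]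
        exact ⟨x, hx, fun h => h.2 (Or.inr hxD)⟩
      obtain ⟨U', a1, a2, a3, a4, a5⟩ := ih _ hlt (U ∪ D) (Set.union_subset hU hDX) hcl rfl
      refine ⟨U', Set.subset_union_left.trans a1, a2, ?_, a4, ?_⟩
      · intro c hc hcU
        rcases a3 c hc hcU with h | h
        · exact h
        · exact absurd hc (Set.disjoint_left.1 hDC h)
      · linarith

end Pool.Agent.Helper391.Lg
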