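import Pool.Agent.Helper391.Lg.Defs
import Pool.Agent.Helper391.Lg.P_rk_full
import Pool.Agent.Helper391.Lg.P_functional
import Pool.Agent.Helper391.Lg.P_inc_finite



namespace Pool.Agent.Helper391.Lg
open Set


theorem rr_chi {V : Type*} (u w : V) (huw : u ≠ w) (C : Finset V) (hC : u ∈ C ↔ w ∈ C) :
    ∑ v ∈ C, chi s(u, w) v = 0 := by
  classical
  have h1 : ∀ v, chi s(u, w) v = (if v = u then (1 : ZMod 2) else 0) + (if v = w then (1 : ZMod 2) else 0) := by
    intro v
    unfold chi
    by_cases h1 : v = u
    · have h2 : v ≠ w := by rw [h1]; exact huw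
      rw [if_pos (by rw [Sym2.mem_iff]; exact Or.inl h1), if_pos h1, if_neg h2, add_zero]
    · by_cases h2 : v = w
      · rw [if_pos (by rw [Sym2.mem_iff]; exact Or.inr h2), if_neg h1, if_pos h2, zero_add]
      · rw [if_neg (by rw [Sym2.mem_iff]; push Not; exact ⟨h1, h2⟩), if_neg h1, if_neg h2, add_zero]
  simp only [h1]
  rw [Finset.sum_add_distrib, Finset.sum_ite_eq', Finset.sum_ite_eq']
  by_cases h : u ∈ C
  · rw [if_pos h, if_pos (hC.mp h)]; decide
  · rw [if_neg h, if_neg (fun h' => h (hC.mpr h'))]; simp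

theorem ring_of_rank {V : Type*} (G : SimpleGraph V) (hfin : ∀ v, (G.neighborSet v).Finite)
    (F X : Set V) (hX : X.Finite) (A : Set (Sym2 V)) (hA : A ⊆ inc G F X)
    (Φ : Set (Sym2 V)) (hΦ : ∀ e ∈ Φ, e ∈ inc G F X ∧ e ∉ ins G X) (x : V) (hx : x ∈ X)
    (hr : rk (vA X Φ x) A = X.ncard) : Conn (ins G X ∩ A) X ∧ ∃ f ∈ Φ, f ∈ A := by
  classical
  have hAf : A.Finite := (inc_finite G hfin F X hX).1.subset hA
  have hsupp : ∀ e ∈ A, ∀ v, v ∉ X → vA X Φ x e v = 0 := by
    intro e _ v hv
    unfold vA
    split_ifs with h1 h2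
    · unfold chi
      rw [if_neg]
      intro hve
      exact hv (h1 v hve)
    · simp only
      rw [if_neg]
      rintro rfl
      exact hv hx
    · rfl
  have hspan : ∀ y ∈ X, (fun v => if v = y then (1 : ZMod 2) else 0) ∈
      Submodule.span (ZMod 2) (vA X Φ x '' A) := by
    intro y hy
    apply rk_full (vA X Φ x) A hAf X hX hsupp hr
    intro v hv
    rw [if_neg]
    rintro rfl
    exact hv hy
  have hgen : ∀ C : Finset V, (∀ v ∈ C, v ∈ X) →
      (∀ e ∈ A, (∀ v ∈ e, v ∈ X) → ∀ u w, e = s(u, w) → (u ∈ C ↔ w ∈ C)) →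
      (∀ e ∈ A, ¬ (∀ v ∈ e, v ∈ X) → e ∈ Φ → x ∉ C) → ∀ y ∈ C, False := by
    intro C hCX h1 h2 y hy
    have hfun := functional (vA X Φ x) A C (by
      intro e he
      by_cases hin : ∀ v ∈ e, v ∈ X
      · have e1 : vA X Φ x e = chi e := by unfold vA; rw [if_pos hin]
        rw [e1]
        have hG : e ∈ G.edgeSet := (hA he).1
        have h3 := h1 e he hin
        clear e1 hin he
        induction e using Sym2.ind with
        | _ u w =>
          have huw : u ≠ w := by
            rw [SimpleGraph.mem_edgeSet] at hG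
            exact hG.ne
          exact rr_chi u w huw C (h3 u w rfl)
      · by_cases hp : e ∈ Φ
        · have e1 : vA X Φ x e = (fun v => if v = x then 1 else 0) := by
            unfold vA; rw [if_neg hin, if_pos hp]
          rw [e1]
          simp only
          rw [Finset.sum_ite_eq', if_neg (h2 e he hin hp)]
        · have e1 : vA X Φ x e = 0 := by
            unfold vA; rw [if_neg hin, if_neg hp]
          rw [e1]
          simp)
      (fun v => if v = y then (1 : ZMod 2) else 0) (hspan y (hCX y hy))
    rw [Finset.sum_ite_eq', if_pos hy] at hfun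
    exact one_ne_zero hfun
  constructor
  · have hreach : ∀ y ∈ X, (SimpleGraph.fromEdgeSet (ins G X ∩ A)).Reachable x y := by
      intro y hy
      by_contra hny
      refine hgen (hX.toFinset.filter (fun v => ¬ (SimpleGraph.fromEdgeSet (ins G X ∩ A)).Reachable x v))
        ?_ ?_ ?_ y ?_
      · intro v hv
        rw [Finset.mem_filter, Set.Finite.mem_toFinset] at hv
        exact hv.1
      · intro e he hin u w hew
        subst hew
        have hG : s(u, w) ∈ G.edgeSet := (hA he).1
        have huw : u ≠ w := by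
          rw [SimpleGraph.mem_edgeSet] at hG
          exact hG.ne
        have hadj : (SimpleGraph.fromEdgeSet (ins G X ∩ A)).Adj u w := by
          rw [SimpleGraph.fromEdgeSet_adj]
          exact ⟨⟨⟨hG, hin⟩, he⟩, huw⟩
        have hu : u ∈ X := hin u (by simp)
        have hw : w ∈ X := hin w (by simp)
        rw [Finset.mem_filter, Finset.mem_filter, Set.Finite.mem_toFinset, Set.Finite.mem_toFinset]
        constructor
        · rintro ⟨_, h⟩
          exact ⟨hw, fun h' => h (h'.trans hadj.symm.reachable)⟩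
        · rintro ⟨_, h⟩
          exact ⟨hu, fun h' => h (h'.trans hadj.reachable)⟩
      · intro e _ _ _ hxC
        rw [Finset.mem_filter] at hxC
        exact hxC.2 (SimpleGraph.Reachable.refl x)
      · rw [Finset.mem_filter, Set.Finite.mem_toFinset]
        exact ⟨hy, hny⟩
    intro u hu v hv
    exact (hreach u hu).symm.trans (hreach v hv)
  · by_contra hno
    push Not at hno
    refine hgen hX.toFinset ?_ ?_ ?_ x ?_
    · intro v hv
      rwa [Set.Finite.mem_toFinset] at hv
    · intro e he hin u w hew
      subst hew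
      rw [Set.Finite.mem_toFinset, Set.Finite.mem_toFinset]
      exact ⟨fun _ => hin w (by simp), fun _ => hin u (by simp)⟩
    · intro e he _ hp
      exact absurd he (hno e hp)
    · rw [Set.Finite.mem_toFinset]; exact hx

end Pool.Agent.Helper391.Lg
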