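import Pool.Agent.Helper391.Lg.Defs
import Pool.Agent.Helper391.Lg.P_rk_congr



namespace Pool.Agent.Helper391.Lg
open Set


/-- an optimal set satisfies the reduction hypothesis of `packing_closed` -/
theorem opt_sigma {V : Type*} (G : SimpleGraph V) (hfin : ∀ v, (G.neighborSet v).Finite)
    (X : Set V) (hX : X.Finite) (T0 : Set (Sym2 V)) (hT0 : Opt G X T0) (Φ : Set (Sym2 V)) (x : V) :
    ∀ T' ⊆ T0, rk (vA X Φ x) T0 + rk (vX X) T0 + T'.ncard ≤ rk (vA X Φ x) T' + rk (vX X) T' + T0.ncard := by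
  intro T' hT'
  obtain ⟨hsub, hopt⟩ := hT0
  have hA : ∀ e ∈ T0, vA X Φ x e = chi e := by
    intro e he
    unfold vA
    rw [if_pos (hsub he).2]
  have hXX : ∀ e ∈ T0, vX X e = chi e := by
    intro e he
    have h1 := (hsub he).2
    funext v
    unfold vX chi
    by_cases hv : v ∈ e
    · simp [hv, h1 v hv]
    · simp [hv]
  rw [rk_congr (vA X Φ x) chi T0 hA, rk_congr (vX X) chi T0 hXX,
    rk_congr (vA X Φ x) chi T' (fun e he => hA e (hT' he)),
    rk_congr (vX X) chi T' (fun e he => hXX e (hT' he))]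
  have h2 := hopt T' (hT'.trans hsub)
  omega

end Pool.Agent.Helper391.Lg
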