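import Pool.Agent.Helper391.Lg.Defs



namespace Pool.Agent.Helper391.Lg
open Set


/-- adding vectors of the form: one vector outside of the span of `T` -/
theorem rk_zero_or_one {E M : Type*} [AddCommGroup M] [Module (ZMod 2) M] (f : E → M) (T T' : Set E)
    (h : T ⊆ T') (hf : T'.Finite) (e : E) (he : e ∈ T') (hn : f e ∉ Submodule.span (ZMod 2) (f '' T)) :
    rk f T + 1 ≤ rk f T' := by
  have hle : Submodule.span (ZMod 2) (f '' T) ≤ Submodule.span (ZMod 2) (f '' T') :=
    Submodule.span_mono (Set.image_mono h)
  have hmem : f e ∈ Submodule.span (ZMod 2) (f '' T') :=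
    Submodule.subset_span ⟨e, he, rfl⟩
  have hlt : Submodule.span (ZMod 2) (f '' T) < Submodule.span (ZMod 2) (f '' T') := by
    refine lt_of_le_of_ne hle ?_
    intro heq
    rw [heq] at hn
    exact hn hmem
  have hfd : FiniteDimensional (ZMod 2) (Submodule.span (ZMod 2) (f '' T')) :=
    FiniteDimensional.span_of_finite (ZMod 2) (hf.image f)
  exact Submodule.finrank_lt_finrank_of_lt hlt

end Pool.Agent.Helper391.Lg
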