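import Pool.Agent.Helper391.Lg.Defs
import Pool.Agent.Helper391.Lg.P_rk_mono
import Pool.Agent.Helper391.Lg.P_rk_congr
import Pool.Agent.Helper391.Lg.P_rk_disj
import Pool.Agent.Helper391.Lg.P_functional
import Pool.Agent.Helper391.Lg.P_rk_zero_or_one
import Pool.Agent.Helper391.Lg.P_inc_finite



namespace Pool.Agent.Helper391.Lg
open Set


theorem ring_rank_sum {V : Type*} (G : SimpleGraph V) (C : Finset V) (e : Sym2 V)
    (he : e ∈ G.edgeSet) (hC : ∀ v ∈ e, v ∈ C) : ∑ v ∈ C, chi e v = 0 := by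
  classical
  induction e using Sym2.ind with
  | _ a b =>
    have hab : a ≠ b := by
      rw [SimpleGraph.mem_edgeSet] at he
      exact he.ne
    have ha : a ∈ C := hC a (Sym2.mem_mk_left a b)
    have hb : b ∈ C := hC b (Sym2.mem_mk_right a b)
    have h1 : ∀ v, chi s(a, b) v = (if v = a then (1 : ZMod 2) else 0) +
        (if v = b then (1 : ZMod 2) else 0) := by
      intro v
      unfold chi
      by_cases h1 : v = a
      · subst h1
        simp [hab]
      · by_cases h2 : v = b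
        · subst h2
          simp [h1]
        · simp [h1, h2]
    rw [Finset.sum_congr rfl (fun v _ => h1 v), Finset.sum_add_distrib,
      Finset.sum_ite_eq' C a (fun _ => (1 : ZMod 2)), Finset.sum_ite_eq' C b (fun _ => (1 : ZMod 2)),
      if_pos ha, if_pos hb]
    rfl

/-- lower bound of the ring rank of the closed set `T` -/
theorem ring_rank {V : Type*} (G : SimpleGraph V) (hfin : ∀ v, (G.neighborSet v).Finite)
    (F X U : Set V) (hX : X.Finite) (hXF : Disjoint X F) (hU : U ⊆ X) (T : Set (Sym2 V))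
    (hT : T = (T ∩ ins G U) ∪ (inc G F X \ inc G F U)) (Φ : Set (Sym2 V))
    (hΦ : ∀ e ∈ Φ, e ∈ inc G F X ∧ e ∉ ins G X) (x : V) (hx : x ∈ X) :
    rk chi (T ∩ ins G U) + rk chi (ins G (X \ U)) ≤ rk (vA X Φ x) T ∧
    ((∃ f ∈ Φ, f ∉ inc G F U) →
      rk chi (T ∩ ins G U) + rk chi (ins G (X \ U)) + 1 ≤ rk (vA X Φ x) T) := by
  classical
  have hUf : U.Finite := hX.subset hU
  have hS : ins G (X \ U) ⊆ T := by
    intro e he
    rw [hT]
    refine Or.inr ⟨⟨he.1, fun v hv hvF => ?_, ?_⟩, ?_⟩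
    · exact Set.disjoint_left.1 hXF (he.2 v hv).1 hvF
    · obtain ⟨v, hv⟩ : ∃ v, v ∈ e := ⟨_, e.out_fst_mem⟩
      exact ⟨v, hv, (he.2 v hv).1⟩
    · rintro ⟨-, -, v, hv, hvU⟩
      exact (he.2 v hv).2 hvU
  have hTfin : T.Finite := by
    rw [hT]
    exact ((inc_finite G hfin F U hUf).2.1.subset Set.inter_subset_right).union
      ((inc_finite G hfin F X hX).1.subset Set.sdiff_subset)
  have hsub : (T ∩ ins G U) ∪ ins G (X \ U) ⊆ T := Set.union_subset Set.inter_subset_left hS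
  have hin : ∀ e ∈ (T ∩ ins G U) ∪ ins G (X \ U), e ∈ ins G X := by
    rintro e (he | he)
    · exact ⟨he.2.1, fun v hv => hU (he.2.2 v hv)⟩
    · exact ⟨he.1, fun v hv => (he.2 v hv).1⟩
  have hvA : ∀ e ∈ (T ∩ ins G U) ∪ ins G (X \ U), vA X Φ x e = chi e := by
    intro e he
    unfold vA
    rw [if_pos (hin e he).2]
  have hrk : rk (vA X Φ x) ((T ∩ ins G U) ∪ ins G (X \ U)) =
      rk chi (T ∩ ins G U) + rk chi (ins G (X \ U)) := by
    rw [rk_congr _ _ _ hvA]
    refine rk_disj chi _ _ (hTfin.subset Set.inter_subset_left) (hTfin.subset hS) U ?_ ?_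
    · intro e he v hv
      unfold chi
      rw [if_neg (fun hve => hv (he.2.2 v hve))]
    · intro e he v hv
      unfold chi
      rw [if_neg (fun hve => (he.2 v hve).2 hv)]
  refine ⟨?_, ?_⟩
  · rw [← hrk]
    exact rk_mono _ _ _ hsub hTfin
  · rintro ⟨f, hfΦ, hfU⟩
    obtain ⟨hf1, hf2⟩ := hΦ f hfΦ
    have hfT : f ∈ T := by
      rw [hT]
      exact Or.inr ⟨hf1, hfU⟩
    have hfX : ¬ ∀ v ∈ f, v ∈ X := fun hc => hf2 ⟨hf1.1, hc⟩
    have hvf : vA X Φ x f = fun v => if v = x then (1 : ZMod 2) else 0 := by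
      unfold vA
      rw [if_neg hfX, if_pos hfΦ]
    have hn : vA X Φ x f ∉ Submodule.span (ZMod 2)
        (vA X Φ x '' ((T ∩ ins G U) ∪ ins G (X \ U))) := by
      intro hmem
      have h0 := functional (vA X Φ x) ((T ∩ ins G U) ∪ ins G (X \ U)) hX.toFinset
        (fun e he => by
          rw [hvA e he]
          exact ring_rank_sum G hX.toFinset e (hin e he).1
            (fun v hv => hX.mem_toFinset.2 ((hin e he).2 v hv))) _ hmem
      rw [hvf, Finset.sum_ite_eq' hX.toFinset x (fun _ => (1 : ZMod 2)),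
        if_pos (hX.mem_toFinset.2 hx)] at h0
      exact one_ne_zero h0
    rw [← hrk]
    exact rk_zero_or_one _ _ _ hsub hTfin f hfT hn

end Pool.Agent.Helper391.Lg
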