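import Pool.Agent.Helper391.Lg.Defs
import Pool.Agent.Helper391.Lg.P_rk_supp
import Pool.Agent.Helper391.Lg.P_packing_closed
import Pool.Agent.Helper391.Lg.P_inc_finite
import Pool.Agent.Helper391.Lg.P_closed_structure
import Pool.Agent.Helper391.Lg.P_ring_rank
import Pool.Agent.Helper391.Lg.P_h_le
import Pool.Agent.Helper391.Lg.P_opt_sigma



namespace Pool.Agent.Helper391.Lg
open Set


/-- ring packing -/
theorem ring_pack {V : Type*} (G : SimpleGraph V) (hfin : ∀ v, (G.neighborSet v).Finite)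
    (F X : Set V) (hX : X.Finite) (hXF : Disjoint X F) (T0 : Set (Sym2 V)) (hT0 : Opt G X T0)
    (Φ : Set (Sym2 V)) (hΦ : ∀ e ∈ Φ, e ∈ inc G F X ∧ e ∉ ins G X) (x : V) (hx : x ∈ X)
    (hXpos : 0 ≤ h G F X)
    (hc1 : ∀ U ⊆ X, U ≠ X → Closed T0 U → (∃ f ∈ Φ, f ∉ inc G F U) →
      ((X \ U).ncard : ℤ) - rk chi (ins G (X \ U)) - 1 ≤ h G F U)
    (hc2 : ∀ U ⊆ X, U ≠ X → Closed T0 U → (∀ f ∈ Φ, f ∈ inc G F U) →
      (∃ e ∈ inc G F X, e ∉ inc G F U ∧ e ∉ ins G X) →
      ((X \ U).ncard : ℤ) - rk chi (ins G (X \ U)) ≤ h G F U) :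
    ∃ B ⊆ inc G F X, rk (vA X Φ x) (inc G F X \ B) = X.ncard ∧ rk (vX X) B = X.ncard := by
  classical
  have hsub : ∀ U ⊆ X, ins G U ⊆ inc G F U := by
    intro U hU e he
    refine ⟨he.1, fun v hv hvF => Set.disjoint_left.1 hXF (hU (he.2 v hv)) hvF, ?_⟩
    exact ⟨e.out.1, e.out_fst_mem, he.2 _ e.out_fst_mem⟩
  have hmono : ∀ U ⊆ X, inc G F U ⊆ inc G F X := by
    intro U hU e he
    obtain ⟨v, hv, hvU⟩ := he.2.2
    exact ⟨he.1, he.2.1, v, hv, hU hvU⟩
  apply packing_closed (vA X Φ x) (vX X) (inc G F X) (inc_finite G hfin F X hX).1 X.ncard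
    (rk_supp _ _ X hX ?_) (rk_supp _ _ X hX ?_) T0 (hT0.1.trans (hsub X subset_rfl))
    (opt_sigma G hfin X hX T0 hT0 Φ x)
  · intro T hT hT0T hcl
    obtain ⟨U, hUX, hTU, hclU, hrk, hex⟩ := closed_structure G hfin F X hX hXF T hT hcl
    obtain ⟨r1, r2⟩ := ring_rank G hfin F X U hX hXF hUX T hTU Φ hΦ x hx
    have hUfin : U.Finite := hX.subset hUX
    have hle := h_le G hfin F U hUfin (T ∩ ins G U) Set.inter_subset_right
    have hcl0 : Closed T0 U := fun e he => hclU e (hT0T he)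
    have hset : inc G F X \ T = inc G F U \ (T ∩ ins G U) := by
      ext e
      constructor
      · rintro ⟨h1, h2⟩
        refine ⟨?_, fun h3 => h2 h3.1⟩
        by_contra h3
        apply h2
        rw [hTU]
        exact Or.inr ⟨h1, h3⟩
      · rintro ⟨h1, h2⟩
        refine ⟨hmono U hUX h1, fun h3 => ?_⟩
        rw [hTU] at h3
        rcases h3 with h3 | h3
        · exact h2 h3
        · exact h3.2 h1
    have hincU : (inc G F U).Finite := (inc_finite G hfin F U hUfin).1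
    have hTsub : T ∩ ins G U ⊆ inc G F U := Set.inter_subset_right.trans (hsub U hUX)
    have hc : (inc G F X \ T).ncard + (T ∩ ins G U).ncard = (inc G F U).ncard := by
      rw [hset]
      exact Set.ncard_diff_add_ncard_of_subset hTsub hincU
    have hXU : (X \ U).ncard + U.ncard = X.ncard := Set.ncard_diff_add_ncard_of_subset hUX hX
    unfold cost at hle
    by_cases hUeq : U = X
    · subst hUeq
      rw [Set.sdiff_self, Set.ncard_empty] at hXU hrk
      omega
    · by_cases hf : ∃ f ∈ Φ, f ∉ inc G F U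
      · have h1 := hc1 U hUX hUeq hcl0 hf
        have h2 := r2 hf
        omega
      · push Not at hf
        have h1 := hc2 U hUX hUeq hcl0 hf (hex hUeq)
        omega
  · intro e he v hv
    unfold vA
    by_cases h1 : ∀ v ∈ e, v ∈ X
    · rw [if_pos h1]
      unfold chi
      rw [if_neg (fun h2 => hv (h1 v h2))]
    · rw [if_neg h1]
      by_cases h2 : e ∈ Φ
      · rw [if_pos h2]
        show (if v = x then (1 : ZMod 2) else 0) = 0
        rw [if_neg (fun h3 => hv (by rw [h3]; exact hx))]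
      · rw [if_neg h2]
        rfl
  · intro e he v hv
    unfold vX
    rw [if_neg (fun h2 => hv h2.2)]

end Pool.Agent.Helper391.Lg
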