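import Pool.Agent.Helper391.Lg.Defs
import Pool.Agent.Helper391.Lg.P_ring_pack
import Pool.Agent.Helper391.Lg.P_out_of_rank
import Pool.Agent.Helper391.Lg.P_ring_of_rank



namespace Pool.Agent.Helper391.Lg
open Set


theorem good_ring {V : Type*} (G : SimpleGraph V) (hfin : ∀ v, (G.neighborSet v).Finite)
    (F X : Set V) (hX : X.Finite) (hXF : Disjoint X F) (T0 : Set (Sym2 V)) (hT0 : Opt G X T0)
    (Φ : Set (Sym2 V)) (hΦ : ∀ e ∈ Φ, e ∈ inc G F X ∧ e ∉ ins G X) (x : V) (hx : x ∈ X)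
    (hXpos : 0 ≤ h G F X)
    (hc1 : ∀ U ⊆ X, U ≠ X → Closed T0 U → (∃ f ∈ Φ, f ∉ inc G F U) →
      ((X \ U).ncard : ℤ) - rk chi (ins G (X \ U)) - 1 ≤ h G F U)
    (hc2 : ∀ U ⊆ X, U ≠ X → Closed T0 U → (∀ f ∈ Φ, f ∈ inc G F U) →
      (∃ e ∈ inc G F X, e ∉ inc G F U ∧ e ∉ ins G X) →
      ((X \ U).ncard : ℤ) - rk chi (ins G (X \ U)) ≤ h G F U) :
    ∃ B, Good G F X B ∧ Conn (ins G X \ B) X ∧ ∃ f ∈ Φ, f ∉ B := by
  obtain ⟨B, hB, hr1, hr2⟩ := ring_pack G hfin F X hX hXF T0 hT0 Φ hΦ x hx hXpos hc1 hc2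
  have hOutB := out_of_rank G hfin F X hX B hB hr2
  obtain ⟨hconn, f, hfΦ, hfA⟩ := ring_of_rank G hfin F X hX (inc G F X \ B)
    (fun e he => he.1) Φ hΦ x hx hr1
  have hins : ins G X ⊆ inc G F X := by
    rintro e ⟨h1, h2⟩
    refine ⟨h1, fun v hv hvF => Set.disjoint_left.mp hXF (h2 v hv) hvF, ?_⟩
    induction e using Sym2.ind with
    | _ a b => exact ⟨a, Sym2.mem_mk_left a b, h2 a (Sym2.mem_mk_left a b)⟩
  have hset : ins G X ∩ (inc G F X \ B) = ins G X \ B := by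
    ext e
    constructor
    · rintro ⟨h1, h2, h3⟩
      exact ⟨h1, h3⟩
    · rintro ⟨h1, h3⟩
      exact ⟨h1, hins h1, h3⟩
  rw [hset] at hconn
  refine ⟨B, ⟨hB, hOutB, ?_⟩, hconn, f, hfΦ, hfA.2⟩
  intro v hv
  obtain ⟨h1, h2, a, haf, haX⟩ := hfA.1
  have hnot : ¬ ∀ w ∈ f, w ∈ X := fun hall => (hΦ f hfΦ).2 ⟨h1, hall⟩
  push Not at hnot
  obtain ⟨w, hwf, hwX⟩ := hnot
  have haw : a ≠ w := by
    rintro rfl
    exact hwX haX
  have hfe : f = s(a, w) := (Sym2.mem_and_mem_iff haw).mp ⟨haf, hwf⟩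
  refine ⟨w, hwX, ?_⟩
  have hr := (hconn v hv a haX).mono (SimpleGraph.fromEdgeSet_mono
    (show ins G X \ B ⊆ inc G F X \ B from fun e he => ⟨hins he.1, he.2⟩))
  refine hr.trans ?_
  apply SimpleGraph.Adj.reachable
  rw [SimpleGraph.fromEdgeSet_adj]
  refine ⟨?_, haw⟩
  rw [← hfe]
  exact hfA

end Pool.Agent.Helper391.Lg
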