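import Pool.Agent.Helper391.Lg.Defs
import Pool.Agent.Helper391.Lg.P_opt_exists
import Pool.Agent.Helper391.Lg.P_h_empty
import Pool.Agent.Helper391.Lg.P_good_ring
import Pool.Agent.Helper391.Lg.P_cc_one
import Pool.Agent.Helper391.Lg.P_cc_two
import Pool.Agent.Helper391.Lg.P_core_bound
import Pool.Agent.Helper391.Lg.P_conn_of_min



namespace Pool.Agent.Helper391.Lg
open Set


theorem ring_b {V : Type*} (G : SimpleGraph V) (hfin : ∀ v, (G.neighborSet v).Finite)
    (F X : Set V) (hX : X.Finite) (hXF : Disjoint X F) (x₁ : V) (hx₁ : x₁ ∈ X) (a : V) (ha : a ∈ X)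
    (w : V) (hw : w ∉ X) (hwF : w ∉ F) (haw : G.Adj a w)
    (hI : ∀ U ⊆ X, 0 ≤ h G F U)
    (hz : ∀ U ⊆ X, U.Nonempty → x₁ ∉ U → 1 ≤ h G F U)
    (hm : ∀ D ⊆ X, x₁ ∈ D → h G F X ≤ h G F D)
    (hmin : ∀ D ⊆ X, D.Nonempty → x₁ ∉ D → a ∉ D → h G F X + 1 ≤ h G F (X \ D)) :
    ∃ B, Good G F X B ∧ Conn (ins G X \ B) X ∧ s(a, w) ∉ B := by
  obtain ⟨T0, hT0⟩ := opt_exists G hfin X hX
  have hconn : Conn (ins G X) X := conn_of_min G hfin F X hX hXF x₁ hx₁ hz hm
  have core := core_bound G hfin F X hX hXF T0 hT0 {x₁, a} (fun D hD hne hdis =>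
    hmin D hD hne
      (fun h => Set.disjoint_left.mp hdis h (Set.mem_insert _ _))
      (fun h => Set.disjoint_left.mp hdis h (Set.mem_insert_of_mem _ rfl)))
  have haF : a ∉ F := fun h => Set.disjoint_left.mp hXF ha h
  have hedge : ∀ U : Set V, a ∈ U → s(a, w) ∈ inc G F U := by
    intro U haU
    refine ⟨haw, fun v hv => ?_, a, Sym2.mem_mk_left a w, haU⟩
    rcases Sym2.mem_iff.mp hv with rfl | rfl
    · exact haF
    · exact hwF
  obtain ⟨B, hB1, hB2, f, hf, hfB⟩ := good_ring G hfin F X hX hXF T0 hT0 {s(a, w)} (by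
      intro e he
      rw [Set.mem_singleton_iff] at he
      subst he
      exact ⟨hedge X ha, fun h => hw (h.2 w (Sym2.mem_mk_right a w))⟩) x₁ hx₁ (hI X subset_rfl)
    (by
      intro U hU hUX hUcl ⟨f, hf, hfU⟩
      rw [Set.mem_singleton_iff] at hf
      subst hf
      have haU : a ∉ U := fun h => hfU (hedge U h)
      obtain ⟨U', hUU', hU'X, hC, hreach, hle⟩ := core U hU hUcl
      have haU' : a ∉ U' := fun h => haU (hC a (Set.mem_insert_of_mem _ rfl) h)
      have hSf : (X \ U').Finite := hX.subset Set.sdiff_subset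
      suffices hs : ((X \ U').ncard : ℤ) - rk chi (ins G (X \ U')) - h G F U' ≤ 1 by linarith
      by_cases hx : x₁ ∈ U'
      · have h1 := cc_one G hfin (X \ U') hSf a (by
          intro x hx'
          obtain ⟨c, hc, hcX, hr⟩ := hreach x hx'
          rcases hc with rfl | hc
          · exact absurd hx hcX.2
          · rw [Set.mem_singleton_iff] at hc
            rw [← hc]; exact hr)
        have h2 := hI U' hU'X
        linarith
      · by_cases hne : U' = ∅
        · subst hne
          rw [Set.sdiff_empty, h_empty]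
          have h1 := cc_one G hfin X hX x₁ (fun x hx' => hconn x hx' x₁ hx₁)
          linarith
        · have h1 := hz U' hU'X (Set.nonempty_iff_ne_empty.mpr hne) hx
          have h2 := cc_two G hfin (X \ U') hSf x₁ a (by
            intro x hx'
            obtain ⟨c, hc, hcX, hr⟩ := hreach x hx'
            rcases hc with rfl | hc
            · exact Or.inl hr
            · rw [Set.mem_singleton_iff] at hc
              rw [← hc]; exact Or.inr hr)
          linarith)
    (by
      intro U hU hUX hUcl hf he
      have hfU := hf s(a, w) rfl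
      have haU : a ∈ U := by
        obtain ⟨v, hv, hvU⟩ := hfU.2.2
        rcases Sym2.mem_iff.mp hv with rfl | rfl
        · exact hvU
        · exact absurd (hU hvU) hw
      obtain ⟨U', hUU', hU'X, hC, hreach, hle⟩ := core U hU hUcl
      have haU' : a ∈ U' := hUU' haU
      have hSf : (X \ U').Finite := hX.subset Set.sdiff_subset
      suffices hs : ((X \ U').ncard : ℤ) - rk chi (ins G (X \ U')) - h G F U' ≤ 0 by linarith
      by_cases hx : x₁ ∈ U'
      · have hem : X \ U' = ∅ := by
          rw [Set.eq_empty_iff_forall_notMem]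
          intro x hx'
          obtain ⟨c, hc, hcX, hr⟩ := hreach x hx'
          rcases hc with rfl | hc
          · exact hcX.2 hx
          · rw [Set.mem_singleton_iff] at hc
            rw [hc] at hcX
            exact hcX.2 haU'
        rw [hem, Set.ncard_empty]
        have h2 := hI U' hU'X
        push_cast
        have h3 : (0 : ℤ) ≤ rk chi (ins G (∅ : Set V)) := Int.natCast_nonneg _
        linarith
      · have h1 := hz U' hU'X ⟨a, haU'⟩ hx
        have h2 := cc_one G hfin (X \ U') hSf x₁ (by
          intro x hx'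
          obtain ⟨c, hc, hcX, hr⟩ := hreach x hx'
          rcases hc with rfl | hc
          · exact hr
          · rw [Set.mem_singleton_iff] at hc
            rw [hc] at hcX
            exact absurd haU' hcX.2)
        linarith)
  rw [Set.mem_singleton_iff] at hf
  subst hf
  exact ⟨B, hB1, hB2, hfB⟩

end Pool.Agent.Helper391.Lg
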