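import Pool.Agent.Helper391.Lg.Defs
import Pool.Agent.Helper391.Lg.P_h_union
import Pool.Agent.Helper391.Lg.P_good_free
import Pool.Agent.Helper391.Lg.P_inc_split
import Pool.Agent.Helper391.Lg.P_good_union
import Pool.Agent.Helper391.Lg.P_ring_b



namespace Pool.Agent.Helper391.Lg
open Set


/-- case: `W` is an inclusion-maximal minimizer (among sets containing `x₁`) avoiding `x₂` -/
theorem clean_a {V : Type*} (G : SimpleGraph V) (hfin : ∀ v, (G.neighborSet v).Finite)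
    (F L : Set V) (hL : L.Finite) (hLF : Disjoint L F) (x₁ x₂ : V)
    (hI : ∀ U ⊆ L, 0 ≤ h G F U)
    (hz : ∀ U ⊆ L, U.Nonempty → x₁ ∉ U → x₂ ∉ U → 1 ≤ h G F U)
    (W : Set V) (hW : W ⊆ L) (h1 : x₁ ∈ W) (h2 : x₂ ∉ W) (hWmin : ∀ X ⊆ L, x₁ ∈ X → h G F W ≤ h G F X)
    (a : V) (ha : a ∈ W) (w : V) (hw : w ∈ L \ W) (haw : G.Adj a w) :
    ∃ B, Good G F W B ∧ (SimpleGraph.fromEdgeSet (ins G W \ B)).Reachable x₁ a ∧ s(a, w) ∉ B := by
  classical
  have hWfin : W.Finite := hL.subset hW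
  obtain ⟨n, hn⟩ : ∃ n : ℕ, ∃ X ⊆ W, x₁ ∈ X ∧ a ∈ X ∧ h G F X = h G F W ∧ X.ncard = n :=
    ⟨W.ncard, W, subset_rfl, h1, ha, rfl, rfl⟩
  have hex : ∃ n : ℕ, ∃ X ⊆ W, x₁ ∈ X ∧ a ∈ X ∧ h G F X = h G F W ∧ X.ncard = n := ⟨n, hn⟩
  obtain ⟨W', hW'W, hx₁', ha', hhW', hcard'⟩ := Nat.find_spec hex
  have hminimal : ∀ X ⊆ W, x₁ ∈ X → a ∈ X → h G F X = h G F W → W'.ncard ≤ X.ncard := by
    intro X hX hx hxa hh
    rw [hcard']
    exact Nat.find_min' hex ⟨X, hX, hx, hxa, hh, rfl⟩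
  have hW'fin : W'.Finite := hWfin.subset hW'W
  have hW'L : W' ⊆ L := hW'W.trans hW
  have hW'F : Disjoint W' F := Disjoint.mono_left hW'L hLF
  obtain ⟨B1, hB1, hB1c, hB1a⟩ := ring_b G hfin F W' hW'fin hW'F x₁ hx₁' a ha' w
    (fun hc => hw.2 (hW'W hc)) (fun hc => Set.disjoint_left.mp hLF hw.1 hc) haw
    (fun U hU => hI U (hU.trans hW'L))
    (fun U hU hUne hUx => hz U (hU.trans hW'L) hUne hUx (fun hc => h2 (hW'W (hU hc))))
    (fun D hD hDx => by
      rw [hhW']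
      exact hWmin D (hD.trans hW'L) hDx)
    (fun D hD hDne hDx hDa => by
      have hs : W' \ D ⊆ W := Set.diff_subset.trans hW'W
      have hle : h G F W ≤ h G F (W' \ D) := hWmin _ (hs.trans hW) ⟨hx₁', hDx⟩
      rw [hhW']
      rcases lt_or_eq_of_le hle with hlt | heq
      · omega
      · exfalso
        have hc1 := hminimal (W' \ D) hs ⟨hx₁', hDx⟩ ⟨ha', hDa⟩ heq.symm
        have hc2 : (W' \ D).ncard < W'.ncard := by
          apply Set.ncard_lt_ncard _ hW'fin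
          refine ⟨Set.diff_subset, ?_⟩
          intro hcon
          obtain ⟨d, hd⟩ := hDne
          exact (hcon (hD hd)).2 hd
        omega)
  obtain ⟨B2, hB2⟩ := good_free G hfin (F ∪ W') (W \ W') (hWfin.subset Set.diff_subset)
    (by
      rw [Set.disjoint_left]
      rintro x ⟨hxW, hxW'⟩ (hxF | hxW'')
      · exact Set.disjoint_left.mp hLF (hW hxW) hxF
      · exact hxW' hxW'')
    (by
      intro Y hY
      have hYL : Y ⊆ L := (hY.trans Set.diff_subset).trans hW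
      have hu := h_union G hfin F W' Y hW'fin (hL.subset hYL)
        (Set.disjoint_left.mpr fun x hx hxY => (hY hxY).2 hx) hW'F
        (Disjoint.mono_left hYL hLF)
      have hge := hWmin (W' ∪ Y) (Set.union_subset hW'L hYL) (Or.inl hx₁')
      rw [hhW'] at hu
      linarith)
  have hdis2 : Disjoint (W \ W') (F ∪ W') := by
    rw [Set.disjoint_left]
    rintro x ⟨hxW, hxW'⟩ (hxF | hxW'')
    · exact Set.disjoint_left.mp hLF (hW hxW) hxF
    · exact hxW' hxW''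
  have hgood := good_union G F W' (W \ W') B1 B2 hW'F hdis2 hB1 hB2
  have hWeq : W' ∪ (W \ W') = W := Set.union_diff_cancel hW'W
  rw [hWeq] at hgood
  refine ⟨B1 ∪ B2, hgood, ?_, ?_⟩
  · have hr := hB1c x₁ hx₁' a ha'
    apply hr.mono
    apply SimpleGraph.fromEdgeSet_mono
    have hsp := (inc_split G F W' (W \ W') B1 B2 hB1.sub hB2.sub).2.2.1 W' subset_rfl hW'F
    rw [← hsp]
    intro e he
    exact ⟨⟨he.1.1, fun v hv => hW'W (he.1.2 v hv)⟩, he.2⟩
  · rintro (hc | hc)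
    · exact hB1a hc
    · exact (hB2.sub hc).2.1 a (Sym2.mem_mk_left a w) (Or.inr ha')

end Pool.Agent.Helper391.Lg
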