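import Pool.Agent.Helper391.Lg.Defs
import Pool.Agent.Helper391.Lg.P_opt_exists
import Pool.Agent.Helper391.Lg.P_good_ring
import Pool.Agent.Helper391.Lg.P_cc_one
import Pool.Agent.Helper391.Lg.P_core_bound



namespace Pool.Agent.Helper391.Lg
open Set


theorem ring_a {V : Type*} (G : SimpleGraph V) (hfin : ∀ v, (G.neighborSet v).Finite)
    (F X : Set V) (hX : X.Finite) (hXF : Disjoint X F) (x₁ : V) (hx₁ : x₁ ∈ X)
    (hI : ∀ U ⊆ X, 0 ≤ h G F U)
    (hmin : ∀ D ⊆ X, D.Nonempty → x₁ ∉ D → h G F X + 1 ≤ h G F (X \ D)) :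
    ∃ B, Good G F X B ∧ Conn (ins G X \ B) X := by
  obtain ⟨T0, hT0⟩ := opt_exists G hfin X hX
  obtain ⟨B, hB, hC, -⟩ := good_ring G hfin F X hX hXF T0 hT0
    {e | e ∈ inc G F X ∧ e ∉ ins G X} (fun e he => he) x₁ hx₁ (hI X subset_rfl)
    (by
      intro U hU _ hcl _
      obtain ⟨U', hUU', hU'X, -, hreach, hle⟩ := core_bound G hfin F X hX hXF T0 hT0 {x₁}
        (fun D hD hne hdis => hmin D hD hne (fun hx => Set.disjoint_left.mp hdis hx rfl)) U hU hcl
      have h1 := cc_one G hfin (X \ U') (hX.subset Set.sdiff_subset) x₁ (by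
        intro x hx
        obtain ⟨c, hc, -, hr⟩ := hreach x hx
        rw [Set.mem_singleton_iff] at hc
        rw [← hc]
        exact hr)
      have h2 := hI U' hU'X
      linarith)
    (by
      rintro U hU _ hcl hall ⟨e, he, hne, hni⟩
      exact absurd (hall e ⟨he, hni⟩) hne)
  exact ⟨B, hB, hC⟩

end Pool.Agent.Helper391.Lg
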