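import Pool.Agent.Helper391.Lg.Defs
import Pool.Agent.Helper391.Lg.P_h_union
import Pool.Agent.Helper391.Lg.P_good_free
import Pool.Agent.Helper391.Lg.P_inc_split
import Pool.Agent.Helper391.Lg.P_good_union
import Pool.Agent.Helper391.Lg.P_ring_a



namespace Pool.Agent.Helper391.Lg
open Set


/-- case: no minimizer containing `x₁` avoids `x₂` -/
theorem clean_b {V : Type*} (G : SimpleGraph V) (hfin : ∀ v, (G.neighborSet v).Finite)
    (F L : Set V) (hL : L.Finite) (hLF : Disjoint L F) (x₁ x₂ : V) (h1 : x₁ ∈ L) (h2 : x₂ ∈ L)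
    (hI : ∀ U ⊆ L, 0 ≤ h G F U)
    (hno : ∀ X ⊆ L, x₁ ∈ X → x₂ ∉ X → ∃ X' ⊆ L, x₁ ∈ X' ∧ h G F X' < h G F X) :
    ∃ B, Good G F L B ∧ (SimpleGraph.fromEdgeSet (ins G L \ B)).Reachable x₁ x₂ := by
  classical
  have hS : {X : Set V | X ⊆ L ∧ x₁ ∈ X}.Finite := hL.finite_subsets.subset fun X hX => hX.1
  obtain ⟨X₀, hX₀, hX₀m⟩ := Set.exists_min_image {X : Set V | X ⊆ L ∧ x₁ ∈ X}
    (fun X => h G F X) hS ⟨L, subset_rfl, h1⟩
  have hS' : {X : Set V | (X ⊆ L ∧ x₁ ∈ X) ∧ h G F X = h G F X₀}.Finite :=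
    hS.subset fun X hX => hX.1
  obtain ⟨X, ⟨⟨hXL, hx₁⟩, hXe⟩, hXm⟩ := Set.exists_min_image
    {X : Set V | (X ⊆ L ∧ x₁ ∈ X) ∧ h G F X = h G F X₀}
    (fun X => X.ncard) hS' ⟨X₀, hX₀, rfl⟩
  have hm : ∀ X' ⊆ L, x₁ ∈ X' → h G F X ≤ h G F X' := by
    intro X' hX' hx'
    rw [hXe]
    exact hX₀m X' ⟨hX', hx'⟩
  have hc : ∀ X' ⊆ L, x₁ ∈ X' → h G F X' = h G F X → X.ncard ≤ X'.ncard := by
    intro X' hX' hx' he
    exact hXm X' ⟨⟨hX', hx'⟩, he.trans hXe⟩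
  have hx₂ : x₂ ∈ X := by
    by_contra hcon
    obtain ⟨X', hX', hx', hlt⟩ := hno X hXL hx₁ hcon
    exact absurd (hm X' hX' hx') (not_le.2 hlt)
  have hXf : X.Finite := hL.subset hXL
  have hXF : Disjoint X F := hLF.mono_left hXL
  obtain ⟨B1, hB1, hconn⟩ := ring_a G hfin F X hXf hXF x₁ hx₁
    (fun U hU => hI U (hU.trans hXL)) (by
      intro D hD hDne hxD
      have hsub : X \ D ⊆ L := diff_subset.trans hXL
      have hmem : x₁ ∈ X \ D := ⟨hx₁, hxD⟩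
      have h3 := hm _ hsub hmem
      rcases lt_or_eq_of_le h3 with h4 | h4
      · exact h4
      · exfalso
        have h5 := hc _ hsub hmem h4.symm
        have h6 : X \ D ⊂ X := by
          refine ⟨diff_subset, fun hcon => ?_⟩
          obtain ⟨y, hy⟩ := hDne
          exact (hcon (hD hy)).2 hy
        exact absurd (Set.ncard_lt_ncard h6 hXf) (not_lt.2 h5))
  have hdis : Disjoint (L \ X) (F ∪ X) := by
    rw [disjoint_union_right]
    exact ⟨hLF.mono_left diff_subset, disjoint_sdiff_left⟩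
  obtain ⟨B2, hB2⟩ := good_free G hfin (F ∪ X) (L \ X) (hL.subset diff_subset) hdis (by
    intro U hU
    have hUL : U ⊆ L := hU.trans diff_subset
    have h3 := h_union G hfin F X U hXf (hL.subset hUL)
      (disjoint_left.2 fun a ha hb => (hU hb).2 ha) hXF (hLF.mono_left hUL)
    have h4 := hm (X ∪ U) (union_subset hXL hUL) (Or.inl hx₁)
    linarith)
  have hgood := good_union G F X (L \ X) B1 B2 hXF hdis hB1 hB2
  rw [union_diff_cancel hXL] at hgood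
  refine ⟨B1 ∪ B2, hgood, ?_⟩
  have hsplit := (inc_split G F X (L \ X) B1 B2 hB1.sub hB2.sub).2.2.1 X subset_rfl hXF
  have hr := hconn x₁ hx₁ x₂ hx₂
  rw [← hsplit] at hr
  refine hr.mono (SimpleGraph.fromEdgeSet_mono ?_)
  intro e he
  exact ⟨⟨he.1.1, fun v hv => hXL (he.1.2 v hv)⟩, he.2⟩

end Pool.Agent.Helper391.Lg
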