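import Pool.Agent.Helper391.Lg.Defs



namespace Pool.Agent.Helper391.Lg
open Set


theorem exit_edge_aux {V : Type*} (G : SimpleGraph V) (L W : Set V) (u x₂ : V)
    (p : (SimpleGraph.fromEdgeSet (ins G L)).Walk u x₂) (h2 : x₂ ∈ L) (h2' : x₂ ∉ W) :
    (u ∈ L ∧ u ∉ W ∧ (SimpleGraph.fromEdgeSet (ins G (L \ W))).Reachable u x₂) ∨
    ∃ a ∈ W, ∃ w ∈ L \ W, G.Adj a w ∧
      (SimpleGraph.fromEdgeSet (ins G (L \ W))).Reachable w x₂ := by
  induction p with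
  | nil => exact Or.inl ⟨h2, h2', SimpleGraph.Reachable.refl _⟩
  | @cons u v w hadj p ih =>
    rw [SimpleGraph.fromEdgeSet_adj] at hadj
    obtain ⟨⟨he, hin⟩, hne⟩ := hadj
    have hG : G.Adj u v := he
    have huL : u ∈ L := hin u (Sym2.mem_mk_left u v)
    rcases ih h2 h2' with ⟨hv, hvW, hr⟩ | h
    · by_cases huW : u ∈ W
      · exact Or.inr ⟨u, huW, v, ⟨hv, hvW⟩, hG, hr⟩
      · refine Or.inl ⟨huL, huW, SimpleGraph.Reachable.trans ?_ hr⟩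
        apply SimpleGraph.Adj.reachable
        rw [SimpleGraph.fromEdgeSet_adj]
        refine ⟨⟨he, ?_⟩, hne⟩
        intro z hz
        rw [Sym2.mem_iff] at hz
        rcases hz with rfl | rfl
        · exact ⟨huL, huW⟩
        · exact ⟨hv, hvW⟩
    · exact Or.inr h

theorem exit_edge {V : Type*} (G : SimpleGraph V) (L W : Set V) (hW : W ⊆ L) (x₁ x₂ : V)
    (h1 : x₁ ∈ W) (h2 : x₂ ∈ L) (h2' : x₂ ∉ W) (hr : (SimpleGraph.fromEdgeSet (ins G L)).Reachable x₁ x₂) :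
    ∃ a ∈ W, ∃ w ∈ L \ W, G.Adj a w ∧ (SimpleGraph.fromEdgeSet (ins G (L \ W))).Reachable w x₂ := by
  obtain ⟨p⟩ := hr
  rcases exit_edge_aux G L W x₁ x₂ p h2 h2' with ⟨-, h, -⟩ | h
  · exact absurd h1 h
  · exact h

end Pool.Agent.Helper391.Lg
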