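import Pool.Agent.Helper391.Lg.Defs
import Pool.Agent.Helper391.Lg.P_h_union
import Pool.Agent.Helper391.Lg.P_good_free
import Pool.Agent.Helper391.Lg.P_inc_split
import Pool.Agent.Helper391.Lg.P_good_union
import Pool.Agent.Helper391.Lg.P_exit_edge
import Pool.Agent.Helper391.Lg.P_clean_b
import Pool.Agent.Helper391.Lg.P_clean_a



namespace Pool.Agent.Helper391.Lg
open Set


theorem clean {V : Type*} (G : SimpleGraph V) (hfin : ∀ v, (G.neighborSet v).Finite) :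
    ∀ (n : ℕ) (F L : Set V) (x₁ x₂ : V), L.Finite → L.ncard = n → Disjoint L F → x₁ ∈ L → x₂ ∈ L →
      (∀ U ⊆ L, 0 ≤ h G F U) →
      (∀ U ⊆ L, U.Nonempty → x₁ ∉ U → x₂ ∉ U → 1 ≤ h G F U) →
      (SimpleGraph.fromEdgeSet (ins G L)).Reachable x₁ x₂ →
      ∃ B, Good G F L B ∧ (SimpleGraph.fromEdgeSet (ins G L \ B)).Reachable x₁ x₂ := by
  intro n
  induction n using Nat.strong_induction_on with
  | _ n ih =>
    intro F L x₁ x₂ hL hn hLF h1 h2 hI hz hr
    by_cases hx : x₁ = x₂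
    · obtain ⟨B, hB⟩ := good_free G hfin F L hL hLF hI
      refine ⟨B, hB, ?_⟩
      rw [hx]
    have hfs : ({X : Set V | X ⊆ L ∧ x₁ ∈ X}).Finite :=
      hL.finite_subsets.subset (fun X hX => hX.1)
    obtain ⟨X0, ⟨hX0L, hX0x⟩, hX0min⟩ := Set.exists_min_image {X : Set V | X ⊆ L ∧ x₁ ∈ X}
      (fun X => h G F X) hfs ⟨L, Set.Subset.refl L, h1⟩
    by_cases hex : ∃ X : Set V, X ⊆ L ∧ x₁ ∈ X ∧ x₂ ∉ X ∧ h G F X = h G F X0
    swap
    · apply clean_b G hfin F L hL hLF x₁ x₂ h1 h2 hI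
      intro X hXL hX1 hX2
      refine ⟨X0, hX0L, hX0x, lt_of_le_of_ne (hX0min X ⟨hXL, hX1⟩) ?_⟩
      intro heq
      exact hex ⟨X, hXL, hX1, hX2, heq.symm⟩
    obtain ⟨X1, hX1⟩ := hex
    have hfs2 : ({X : Set V | X ⊆ L ∧ x₁ ∈ X ∧ x₂ ∉ X ∧ h G F X = h G F X0}).Finite :=
      hL.finite_subsets.subset (fun X hX => hX.1)
    obtain ⟨W, ⟨hWL, hW1, hW2, hWm⟩, hWmax⟩ := Set.exists_max_image
      {X : Set V | X ⊆ L ∧ x₁ ∈ X ∧ x₂ ∉ X ∧ h G F X = h G F X0}
      (fun X => X.ncard) hfs2 ⟨X1, hX1⟩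
    have hWmin : ∀ X ⊆ L, x₁ ∈ X → h G F W ≤ h G F X := by
      intro X hX hx1
      rw [hWm]
      exact hX0min X ⟨hX, hx1⟩
    obtain ⟨a, ha, w, hw, haw, hwx⟩ := exit_edge G L W hWL x₁ x₂ hW1 h2 hW2 hr
    obtain ⟨B1, hB1, hB1r, hB1e⟩ := clean_a G hfin F L hL hLF x₁ x₂ hI hz W hWL hW1 hW2 hWmin
      a ha w hw haw
    have hWfin : W.Finite := hL.subset hWL
    have hWF : Disjoint W F := hLF.mono_left hWL
    have hdis : Disjoint (L \ W) (F ∪ W) := by
      rw [Set.disjoint_union_right]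
      exact ⟨hLF.mono_left Set.diff_subset, Set.disjoint_sdiff_left⟩
    have hcard : (L \ W).ncard < n := by
      rw [← hn]
      apply Set.ncard_lt_ncard _ hL
      refine ⟨Set.diff_subset, fun hsub => ?_⟩
      exact (hsub h1).2 hW1
    have hstep : ∀ U ⊆ L \ W, h G F (W ∪ U) ≤ h G F W + h G (F ∪ W) U := by
      intro U hU
      apply h_union G hfin F W U hWfin (hL.subset (hU.trans Set.diff_subset)) _ hWF _
      · exact (Set.disjoint_sdiff_right).mono_right hU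
      · exact hLF.mono_left (hU.trans Set.diff_subset)
    have hI' : ∀ U ⊆ L \ W, 0 ≤ h G (F ∪ W) U := by
      intro U hU
      have e1 := hstep U hU
      have e2 := hWmin (W ∪ U) (Set.union_subset hWL (hU.trans Set.diff_subset)) (Or.inl hW1)
      linarith
    have hz' : ∀ U ⊆ L \ W, U.Nonempty → w ∉ U → x₂ ∉ U → 1 ≤ h G (F ∪ W) U := by
      intro U hU hne _ hx2
      by_contra hlt
      push Not at hlt
      have e0 : h G (F ∪ W) U ≤ 0 := by omega
      have e1 := hstep U hU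
      have hUL : W ∪ U ⊆ L := Set.union_subset hWL (hU.trans Set.diff_subset)
      have e2 := hWmin (W ∪ U) hUL (Or.inl hW1)
      have e3 : h G F (W ∪ U) = h G F X0 := by
        rw [← hWm]; omega
      have e4 := hWmax (W ∪ U) ⟨hUL, Or.inl hW1, by
        rintro (h5 | h5)
        · exact hW2 h5
        · exact hx2 h5, e3⟩
      obtain ⟨y, hy⟩ := hne
      have e5 : W.ncard < (W ∪ U).ncard := by
        apply Set.ncard_lt_ncard _ (hL.subset hUL)
        refine ⟨Set.subset_union_left, fun hsub => ?_⟩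
        exact (hU hy).2 (hsub (Or.inr hy))
      have e6 : (W ∪ U).ncard ≤ W.ncard := e4
      omega
    obtain ⟨B2, hB2, hB2r⟩ := ih (L \ W).ncard hcard (F ∪ W) (L \ W) w x₂
      (hL.subset Set.diff_subset) rfl hdis hw ⟨h2, hW2⟩ hI' hz' hwx
    have hgood := good_union G F W (L \ W) B1 B2 hWF hdis hB1 hB2
    rw [Set.union_diff_cancel hWL] at hgood
    obtain ⟨_, _, hs3, hs4⟩ := inc_split G F W (L \ W) B1 B2 hB1.sub hB2.sub
    refine ⟨B1 ∪ B2, hgood, ?_⟩
    have hinsmono : ∀ S : Set V, S ⊆ L → ins G S \ (B1 ∪ B2) ⊆ ins G L \ (B1 ∪ B2) := by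
      intro S hS e he
      exact ⟨⟨he.1.1, fun v hv => hS (he.1.2 v hv)⟩, he.2⟩
    have p1 : (SimpleGraph.fromEdgeSet (ins G L \ (B1 ∪ B2))).Reachable x₁ a := by
      refine hB1r.mono (SimpleGraph.fromEdgeSet_mono ?_)
      rw [← hs3 W (Set.Subset.refl W) hWF]
      exact hinsmono W hWL
    have p3 : (SimpleGraph.fromEdgeSet (ins G L \ (B1 ∪ B2))).Reachable w x₂ := by
      refine hB2r.mono (SimpleGraph.fromEdgeSet_mono ?_)
      rw [← hs4 (L \ W) (Set.Subset.refl _) hdis]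
      exact hinsmono (L \ W) Set.diff_subset
    have p2 : (SimpleGraph.fromEdgeSet (ins G L \ (B1 ∪ B2))).Adj a w := by
      rw [SimpleGraph.fromEdgeSet_adj]
      refine ⟨⟨⟨haw, ?_⟩, ?_⟩, haw.ne⟩
      · intro v hv
        rw [Sym2.mem_iff] at hv
        rcases hv with rfl | rfl
        · exact hWL ha
        · exact hw.1
      · rintro (h5 | h5)
        · exact hB1e h5
        · exact (hB2.sub h5).2.1 a (Sym2.mem_mk_left a w) (Or.inr ha)
    exact p1.trans (p2.reachable.trans p3)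

end Pool.Agent.Helper391.Lg
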