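import Pool.Agent.Helper391.Lg.Defs
import Pool.Agent.Helper391.Lg.P_inc_finite



namespace Pool.Agent.Helper391.Lg
open Set


theorem conn4 {V : Type*} [Infinite V] (G : SimpleGraph V) (hfin : ∀ v, (G.neighborSet v).Finite)
    (h : G.IsEdgeConnected 4) (P : Set V) (hP : P.Finite) (hne : P.Nonempty) :
    4 ≤ (bd G P).ncard := by
  by_contra hlt
  push Not at hlt
  have hf : (bd G P).Finite := (inc_finite G hfin P P hP).2.2
  have henc : (bd G P).encard < 4 := by
    rw [← hf.cast_ncard_eq]
    exact_mod_cast hlt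
  obtain ⟨u, hu⟩ := hne
  obtain ⟨v, hv⟩ := hP.infinite_compl.nonempty
  have hr := h u v henc
  have key : ∀ y, (G.deleteEdges (bd G P)).Reachable u y → y ∈ P := by
    intro y hy
    rw [SimpleGraph.reachable_iff_reflTransGen] at hy
    induction hy with
    | refl => exact hu
    | tail _ hbc ih =>
      rename_i b c _
      by_contra hc
      rw [SimpleGraph.deleteEdges_adj] at hbc
      apply hbc.2
      exact ⟨hbc.1, ⟨b, Sym2.mem_mk_left b c, ih⟩, ⟨c, Sym2.mem_mk_right b c, hc⟩⟩
  exact hv (key v hr)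

end Pool.Agent.Helper391.Lg
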