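import Pool.Agent.Helper391.Lg.Defs



namespace Pool.Agent.Helper391.Lg
open Set


theorem conn4_inf {V : Type*} (G : SimpleGraph V) (h : G.IsEdgeConnected 4) (P : Set V)
    (hP : P.Nonempty) (hP' : Pᶜ.Nonempty) (hfinb : (bd G P).Finite) : 4 ≤ (bd G P).ncard := by
  by_contra hcon
  push Not at hcon
  obtain ⟨u, hu⟩ := hP
  obtain ⟨v, hv⟩ := hP'
  have henc : (bd G P).encard < 4 := by
    rw [← hfinb.cast_ncard_eq]
    exact_mod_cast hcon
  have hr : (G.deleteEdges (bd G P)).Reachable u v := h u v henc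
  obtain ⟨w⟩ := hr
  have key : ∀ (a b : V) (_ : (G.deleteEdges (bd G P)).Walk a b), a ∈ P → b ∈ P := by
    intro a b w
    induction w with
    | nil => exact id
    | @cons a b c hab w ih =>
      intro ha
      apply ih
      by_contra hb
      rw [SimpleGraph.deleteEdges_adj] at hab
      apply hab.2
      exact ⟨hab.1, ⟨a, Sym2.mem_mk_left a b, ha⟩, ⟨b, Sym2.mem_mk_right a b, hb⟩⟩
  exact hv (key u v w hu)

end Pool.Agent.Helper391.Lg
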