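import Pool.Agent.Helper391.Lg.Defs
import Pool.Agent.Helper391.Lg.P_rk_supp
import Pool.Agent.Helper391.Lg.P_rk_disj
import Pool.Agent.Helper391.Lg.P_rk_full
import Pool.Agent.Helper391.Lg.P_functional



namespace Pool.Agent.Helper391.Lg
open Set


theorem cc_sum {V : Type*} {k : ℕ} (φ : V → (V ⊕ Fin k) → ZMod 2) (π : V → V ⊕ Fin k)
    (h1 : ∀ x, φ x (π x) = 1) (h0 : ∀ x z, z ≠ π x → φ x z = 0) (Z : Finset (V ⊕ Fin k)) (x : V) :
    (π x ∈ Z → ∑ z ∈ Z, φ x z = 1) ∧ (π x ∉ Z → ∑ z ∈ Z, φ x z = 0) := by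
  constructor
  · intro h
    rw [Finset.sum_eq_single_of_mem (π x) h (fun b _ hb => h0 x b hb), h1]
  · intro h
    exact Finset.sum_eq_zero (fun z hz => h0 x z (fun he => h (he ▸ hz)))

theorem cc_edge {V : Type*} {k : ℕ} (φ : V → (V ⊕ Fin k) → ZMod 2) (π : V → V ⊕ Fin k)
    (h1 : ∀ x, φ x (π x) = 1) (h0 : ∀ x z, z ≠ π x → φ x z = 0)
    (f : Sym2 V → (V ⊕ Fin k) → ZMod 2) (hf : ∀ u v, f s(u, v) = φ u + φ v)
    (Z : Finset (V ⊕ Fin k)) (x y : V) (h : π x ∈ Z ↔ π y ∈ Z) :
    ∑ z ∈ Z, f s(x, y) z = 0 := by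
  have e : ∑ z ∈ Z, f s(x, y) z = (∑ z ∈ Z, φ x z) + ∑ z ∈ Z, φ y z := by
    rw [hf, ← Finset.sum_add_distrib]
    rfl
  rw [e]
  by_cases hx : π x ∈ Z
  · rw [(cc_sum φ π h1 h0 Z x).1 hx, (cc_sum φ π h1 h0 Z y).1 (h.1 hx)]
    decide
  · rw [(cc_sum φ π h1 h0 Z x).2 hx, (cc_sum φ π h1 h0 Z y).2 (fun hh => hx (h.2 hh)), add_zero]

/-- full rank means connected (regions contracted) -/
theorem core_conn {V : Type*} [DecidableEq V] (G : SimpleGraph V) (hfin : ∀ v, (G.neighborSet v).Finite)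
    (F : Set V) (hne : F.Nonempty) {k : ℕ} (C : Fin k → Set V) (hR : Reg G F C)
    (φ : V → (V ⊕ Fin k) → ZMod 2)
    (hφF : ∀ v ∈ F, ∀ x, φ v x = if x = Sum.inl v then 1 else 0)
    (hφC : ∀ i, ∀ v ∈ C i, ∀ x, φ v x = if x = Sum.inr i then 1 else 0)
    (f : Sym2 V → (V ⊕ Fin k) → ZMod 2) (hf : ∀ u v, f s(u, v) = φ u + φ v)
    (T : Set (Sym2 V)) (hT : T ⊆ {e | e ∈ G.edgeSet ∧ ∃ v ∈ e, v ∈ F}) :
    rk f T ≤ F.ncard + k - 1 ∧ (rk f T = F.ncard + k - 1 →
    ∀ u v, (SimpleGraph.fromEdgeSet (T ∪ {e | ∃ i, ∀ x ∈ e, x ∈ C i})).Reachable u v) := by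
  classical
  have hπ' : ∀ x, ∃ p : V ⊕ Fin k, (x ∈ F ∧ p = Sum.inl x) ∨ (∃ i, x ∈ C i ∧ p = Sum.inr i) := by
    intro x
    rcases hR.cover x with h | ⟨i, h⟩
    · exact ⟨Sum.inl x, Or.inl ⟨h, rfl⟩⟩
    · exact ⟨Sum.inr i, Or.inr ⟨i, h, rfl⟩⟩
  choose π hπ using hπ'
  have h1 : ∀ x, φ x (π x) = 1 := by
    intro x
    rcases hπ x with ⟨hx, he⟩ | ⟨i, hx, he⟩
    · rw [hφF x hx, if_pos he]
    · rw [hφC i x hx, if_pos he]
  have h0 : ∀ x z, z ≠ π x → φ x z = 0 := by
    intro x z hz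
    rcases hπ x with ⟨hx, he⟩ | ⟨i, hx, he⟩
    · rw [hφF x hx, if_neg (he ▸ hz)]
    · rw [hφC i x hx, if_neg (he ▸ hz)]
  have hTfin : T.Finite := by
    refine Set.Finite.subset ?_ hT
    refine Set.Finite.subset (hR.finF.biUnion (fun v _ => (hfin v).image (fun w => s(v, w)))) ?_
    rintro e ⟨he, v, hve, hvF⟩
    obtain ⟨w, rfl⟩ := hve
    exact Set.mem_biUnion hvF ⟨w, he, rfl⟩
  obtain ⟨W, hW⟩ : ∃ W : Set (V ⊕ Fin k), W = Sum.inl '' F ∪ Set.range Sum.inr := ⟨_, rfl⟩
  have hWfin : W.Finite := by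
    rw [hW]
    exact (hR.finF.image _).union (Set.finite_range _)
  have hWc : W.ncard = F.ncard + k := by
    rw [hW, Set.ncard_union_eq ?_ (hR.finF.image _) (Set.finite_range _),
      Set.ncard_image_of_injective _ Sum.inl_injective]
    · congr 1
      rw [← Set.image_univ, Set.ncard_image_of_injective _ Sum.inr_injective, Set.ncard_univ,
        Nat.card_eq_fintype_card, Fintype.card_fin]
    · rw [Set.disjoint_left]
      rintro x ⟨a, -, rfl⟩ ⟨b, hb⟩
      exact Sum.inr_ne_inl hb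
  have hFpos : 0 < F.ncard := (Set.ncard_pos hR.finF).2 hne
  have hπW : ∀ x, π x ∈ W := by
    intro x
    rw [hW]
    rcases hπ x with ⟨hx, he⟩ | ⟨i, hx, he⟩
    · exact Or.inl ⟨x, hx, he.symm⟩
    · exact Or.inr ⟨i, he.symm⟩
  have h0W : ∀ x z, z ∉ W → φ x z = 0 := fun x z hz => h0 x z (fun he => hz (he ▸ hπW x))
  have hsupp : ∀ e ∈ T, ∀ z, z ∉ W → f e z = 0 := by
    intro e _ z hz
    induction e using Sym2.ind with
    | _ x y => rw [hf, Pi.add_apply, h0W x z hz, h0W y z hz, add_zero]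
  constructor
  · have hle := rk_supp f T W hWfin hsupp
    have hlt : rk f T ≠ W.ncard := by
      intro heq
      obtain ⟨v0, hv0⟩ := hne
      have hg := rk_full f T hTfin W hWfin hsupp heq (φ v0) (fun z hz => h0W v0 z hz)
      have h2 := functional f T hWfin.toFinset (fun e he => by
        induction e using Sym2.ind with
        | _ x y => exact cc_edge φ π h1 h0 f hf _ x y
                    ⟨fun _ => hWfin.mem_toFinset.2 (hπW y), fun _ => hWfin.mem_toFinset.2 (hπW x)⟩)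
        (φ v0) hg
      rw [(cc_sum φ π h1 h0 _ v0).1 (hWfin.mem_toFinset.2 (hπW v0))] at h2
      exact one_ne_zero h2
    omega
  · intro hrk u v
    obtain ⟨H, hH⟩ : ∃ H : SimpleGraph V,
      H = SimpleGraph.fromEdgeSet (T ∪ {e | ∃ i, ∀ x ∈ e, x ∈ C i}) := ⟨_, rfl⟩
    rw [← hH]
    by_contra hnr
    have hadj : ∀ x y, s(x, y) ∈ T ∪ {e : Sym2 V | ∃ i, ∀ x ∈ e, x ∈ C i} → H.Reachable x y := by
      intro x y hxy
      by_cases he : x = y
      · rw [he]
      · apply SimpleGraph.Adj.reachable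
        rw [hH, SimpleGraph.fromEdgeSet_adj]
        exact ⟨hxy, he⟩
    have hDisj : ∀ x y, π x = π y → H.Reachable x y := by
      intro x y hxy
      rcases hπ x with ⟨hx, he⟩ | ⟨i, hx, he⟩ <;> rcases hπ y with ⟨hy, he'⟩ | ⟨j, hy, he'⟩
      · rw [he, he'] at hxy
        rw [Sum.inl_injective hxy]
      · rw [he, he'] at hxy
        exact absurd hxy Sum.inl_ne_inr
      · rw [he, he'] at hxy
        exact absurd hxy Sum.inr_ne_inl
      · rw [he, he'] at hxy
        have hij := Sum.inr_injective hxy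
        subst hij
        apply hadj
        right
        refine ⟨i, fun z hz => ?_⟩
        rcases Sym2.mem_iff.1 hz with h | h
        · rw [h]; exact hx
        · rw [h]; exact hy
    have hZfin : (π '' {x | ¬ H.Reachable u x}).Finite :=
      hWfin.subset (by rintro _ ⟨x, -, rfl⟩; exact hπW x)
    have hmemZ : ∀ x, π x ∈ hZfin.toFinset ↔ ¬ H.Reachable u x := by
      intro x
      rw [hZfin.mem_toFinset]
      constructor
      · rintro ⟨y, hy, he⟩ hr
        exact hy (hr.trans (hDisj x y he.symm))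
      · intro h
        exact ⟨x, h, rfl⟩
    obtain ⟨f', hf'⟩ : ∃ f' : Option (Sym2 V) → (V ⊕ Fin k) → ZMod 2,
      f' = fun o => o.elim (φ u) f := ⟨_, rfl⟩
    obtain ⟨T', hT'⟩ : ∃ T' : Set (Option (Sym2 V)), T' = insert none (some '' T) := ⟨_, rfl⟩
    have himg : f' '' T' = insert (φ u) (f '' T) := by
      rw [hT', Set.image_insert_eq, Set.image_image, hf']
      rfl
    have hT'fin : T'.Finite := by
      rw [hT']
      exact (hTfin.image _).insert _
    have hsupp' : ∀ e ∈ T', ∀ z, z ∉ W → f' e z = 0 := by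
      intro e he z hz
      rw [hT'] at he
      rcases he with rfl | ⟨e, he, rfl⟩
      · rw [hf']
        exact h0W u z hz
      · rw [hf']
        exact hsupp e he z hz
    have hnot : φ u ∉ Submodule.span (ZMod 2) (f '' T) := by
      intro hg
      have h2 := functional f T hWfin.toFinset (fun e he => by
        induction e using Sym2.ind with
        | _ x y => exact cc_edge φ π h1 h0 f hf _ x y
                    ⟨fun _ => hWfin.mem_toFinset.2 (hπW y), fun _ => hWfin.mem_toFinset.2 (hπW x)⟩)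
        (φ u) hg
      rw [(cc_sum φ π h1 h0 _ u).1 (hWfin.mem_toFinset.2 (hπW u))] at h2
      exact one_ne_zero h2
    have hlt : rk f T < rk f' T' := by
      unfold rk Set.finrank
      rw [himg]
      have hfd : FiniteDimensional (ZMod 2) (Submodule.span (ZMod 2) (insert (φ u) (f '' T))) :=
        FiniteDimensional.span_of_finite _ ((hTfin.image f).insert _)
      apply Submodule.finrank_lt_finrank_of_lt
      refine lt_of_le_of_ne (Submodule.span_mono (Set.subset_insert _ _)) ?_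
      intro he
      apply hnot
      rw [he]
      exact Submodule.subset_span (Set.mem_insert _ _)
    have hle' := rk_supp f' T' W hWfin hsupp'
    have heq : rk f' T' = W.ncard := by omega
    have hg := rk_full f' T' hT'fin W hWfin hsupp' heq (φ v) (fun z hz => h0W v z hz)
    have h2 := functional f' T' hZfin.toFinset (fun e he => by
        rw [hT'] at he
        rcases he with rfl | ⟨e, he, rfl⟩
        · rw [hf']
          refine (cc_sum φ π h1 h0 _ u).2 (fun hh => ?_)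
          exact (hmemZ u).1 hh (SimpleGraph.Reachable.refl u)
        · rw [hf']
          induction e using Sym2.ind with
          | _ x y =>
            refine cc_edge φ π h1 h0 f hf _ x y ?_
            rw [hmemZ, hmemZ]
            have hxy := hadj x y (Or.inl he)
            exact ⟨fun h hh => h (hh.trans hxy.symm), fun h hh => h (hh.trans hxy)⟩) (φ v) hg
    rw [(cc_sum φ π h1 h0 _ v).1 ((hmemZ v).2 hnr)] at h2
    exact one_ne_zero h2

end Pool.Agent.Helper391.Lg
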