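import Pool.Agent.Helper391.Lg.Defs



namespace Pool.Agent.Helper391.Lg
open Set


/-- counting condition for the packing of the finite core -/
theorem core_rank {V : Type*} [DecidableEq V] (G : SimpleGraph V) (hfin : ∀ v, (G.neighborSet v).Finite)
    (h4 : ∀ P : Set V, P.Nonempty → Pᶜ.Nonempty → (bd G P).Finite → 4 ≤ (bd G P).ncard)
    (F : Set V) (hne : F.Nonempty) {k : ℕ} (C : Fin k → Set V) (hR : Reg G F C)
    (φ : V → (V ⊕ Fin k) → ZMod 2)
    (hφF : ∀ v ∈ F, ∀ x, φ v x = if x = Sum.inl v then 1 else 0)
    (hφC : ∀ i, ∀ v ∈ C i, ∀ x, φ v x = if x = Sum.inr i then 1 else 0)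
    (f : Sym2 V → (V ⊕ Fin k) → ZMod 2) (hf : ∀ u v, f s(u, v) = φ u + φ v)
    (T : Set (Sym2 V)) (hT : T ⊆ {e | e ∈ G.edgeSet ∧ ∃ v ∈ e, v ∈ F}) :
    2 * (F.ncard + k - 1) ≤ ({e | e ∈ G.edgeSet ∧ ∃ v ∈ e, v ∈ F} \ T).ncard + rk f T + rk f T := by
  classical
  set E : Set (Sym2 V) := {e | e ∈ G.edgeSet ∧ ∃ v ∈ e, v ∈ F} with hE
  have hEfin : E.Finite := by
    have h1 : E ⊆ ⋃ v ∈ F, (fun u => s(v, u)) '' (G.neighborSet v) := by
      rintro e ⟨he, v, hv, hvF⟩
      simp only [Set.mem_iUnion, exists_prop]
      refine ⟨v, hvF, Sym2.Mem.other hv, ?_, Sym2.other_spec hv⟩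
      rw [SimpleGraph.mem_neighborSet, ← SimpleGraph.mem_edgeSet, Sym2.other_spec hv]
      exact he
    exact (hR.finF.biUnion fun v _ => (hfin v).image _).subset h1
  have hTfin : T.Finite := hEfin.subset hT
  haveI : Fintype F := hR.finF.fintype
  have hq : ∀ v, ∃ w : F ⊕ Fin k, (∀ h : v ∈ F, w = Sum.inl ⟨v, h⟩) ∧
      (∀ i, v ∈ C i → w = Sum.inr i) := by
    intro v
    rcases hR.cover v with h | ⟨i, h⟩
    · refine ⟨Sum.inl ⟨v, h⟩, fun _ => rfl, fun i hi => ?_⟩
      exact absurd h (Set.disjoint_left.1 (hR.disjF i) hi)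
    · refine ⟨Sum.inr i, fun hF => ?_, fun j hj => ?_⟩
      · exact absurd hF (Set.disjoint_left.1 (hR.disjF i) h)
      · by_contra hne'
        have hij : i ≠ j := fun h' => hne' (by rw [h'])
        exact Set.disjoint_left.1 (hR.disj i j hij) h hj
  choose q hqF hqC using hq
  let emb : F ⊕ Fin k → V ⊕ Fin k := Sum.map Subtype.val id
  have hemb : Function.Injective emb := Sum.map_injective.2 ⟨Subtype.val_injective, Function.injective_id⟩
  let e : F ⊕ Fin k → (V ⊕ Fin k) → ZMod 2 := fun w => Pi.single (emb w) 1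
  have hφ : ∀ v, φ v = e (q v) := by
    intro v
    funext x
    rcases hR.cover v with h | ⟨i, h⟩
    · rw [hφF v h, hqF v h]
      simp only [e, emb, Sum.map_inl, Pi.single_apply]
      split_ifs <;> rfl
    · rw [hφC i v h, hqC v i h]
      simp only [e, emb, Sum.map_inr, Pi.single_apply, id]
      split_ifs <;> rfl
  let r : F ⊕ Fin k → F ⊕ Fin k → Prop := fun a b => ∃ u v, s(u, v) ∈ T ∧ q u = a ∧ q v = b
  have hspan : ∀ a b, Relation.EqvGen r a b → e a - e b ∈ Submodule.span (ZMod 2) (f '' T) := by
    intro a b hab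
    induction hab with
    | rel a b h =>
      obtain ⟨u, v, huv, rfl, rfl⟩ := h
      apply Submodule.subset_span
      refine ⟨s(u, v), huv, ?_⟩
      rw [hf, hφ, hφ]
      funext x
      simp only [Pi.add_apply, Pi.sub_apply]
      generalize e (q u) x = s
      generalize e (q v) x = t
      revert s t
      decide
    | refl a => rw [sub_self]; exact Submodule.zero_mem _
    | symm a b _ ih =>
      have : e b - e a = -(e a - e b) := by abel
      rw [this]
      exact Submodule.neg_mem _ ih
    | trans a b c _ _ ih1 ih2 =>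
      have : e a - e c = (e a - e b) + (e b - e c) := by abel
      rw [this]
      exact Submodule.add_mem _ ih1 ih2
  haveI : Fintype (Quot r) := Fintype.ofFinite _
  have hcard : Fintype.card (F ⊕ Fin k) = F.ncard + k := by
    rw [Fintype.card_sum, Fintype.card_fin, Fintype.card_eq_nat_card, Nat.card_coe_set_eq]
  have hli : LinearIndependent (ZMod 2) e :=
    (Pi.linearIndependent_single_one (V ⊕ Fin k) (ZMod 2)).comp emb hemb
  have hrk : F.ncard + k ≤ rk f T + Fintype.card (Quot r) := by
    rw [← hcard, ← finrank_span_eq_card hli]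
    have hle : Submodule.span (ZMod 2) (Set.range e) ≤ Submodule.span (ZMod 2) (f '' T) ⊔
        Submodule.span (ZMod 2) (Set.range fun D : Quot r => e D.out) := by
      rw [Submodule.span_le]
      rintro _ ⟨w, rfl⟩
      have h1 : e w = (e w - e (Quot.mk r w).out) + e (Quot.mk r w).out := by abel
      rw [h1]
      apply Submodule.add_mem_sup
      · apply hspan
        apply Quot.eqvGen_exact
        rw [Quot.out_eq]
      · exact Submodule.subset_span ⟨Quot.mk r w, rfl⟩
    haveI : FiniteDimensional (ZMod 2) (Submodule.span (ZMod 2) (f '' T)) :=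
      FiniteDimensional.span_of_finite _ (hTfin.image f)
    haveI : FiniteDimensional (ZMod 2) (Submodule.span (ZMod 2)
        (Set.range fun D : Quot r => e D.out)) :=
      FiniteDimensional.span_of_finite _ (Set.finite_range _)
    refine (Submodule.finrank_mono hle).trans ?_
    refine (Submodule.finrank_add_le_finrank_add_finrank _ _).trans ?_
    apply Nat.add_le_add
    · exact le_rfl
    · exact finrank_range_le_card _
  by_cases hc : Fintype.card (Quot r) ≤ 1
  · omega
  · push Not at hc
    have hBfin : (E \ T).Finite := hEfin.subset Set.diff_subset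
    have hsub : ∀ D : Quot r, bd G {v | Quot.mk r (q v) = D} ⊆ E \ T := by
      rintro D e' ⟨he, ⟨u, hu, huD⟩, v, hv, hvD⟩
      have huv : u ≠ v := by
        rintro rfl
        exact hvD huD
      have he' : e' = s(u, v) := (Sym2.mem_and_mem_iff huv).1 ⟨hu, hv⟩
      simp only [Set.mem_setOf_eq] at huD hvD
      refine ⟨⟨he, ?_⟩, ?_⟩
      · by_contra hF
        push Not at hF
        rcases hR.cover u with h | ⟨i, h⟩
        · exact hF u hu h
        · have h2 := hR.noedge i e' he ⟨u, hu, h⟩ v hv
          rcases h2 with h2 | h2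
          · exact hF v hv h2
          · apply hvD
            rw [← huD, hqC u i h, hqC v i h2]
      · intro heT
        apply hvD
        rw [← huD]
        exact (Quot.sound ⟨u, v, he' ▸ heT, rfl, rfl⟩).symm
    have hP : ∀ D : Quot r, ({v | Quot.mk r (q v) = D} : Set V).Nonempty := by
      intro D
      obtain ⟨w, rfl⟩ := Quot.exists_rep D
      rcases w with ⟨v, hv⟩ | i
      · exact ⟨v, by simp only [Set.mem_setOf_eq]; rw [hqF v hv]⟩
      · obtain ⟨v, hv⟩ := (hR.inf i).nonempty
        exact ⟨v, by simp only [Set.mem_setOf_eq]; rw [hqC v i hv]⟩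
    have hb4 : ∀ D : Quot r, 4 ≤ (bd G {v | Quot.mk r (q v) = D}).ncard := by
      intro D
      apply h4 _ (hP D)
      · haveI : Nontrivial (Quot r) := Fintype.one_lt_card_iff_nontrivial.1 hc
        obtain ⟨D', hD'⟩ := exists_ne D
        obtain ⟨v, hv⟩ := hP D'
        refine ⟨v, fun h => ?_⟩
        simp only [Set.mem_setOf_eq] at hv h
        exact hD' (hv.symm.trans h)
      · exact hBfin.subset (hsub D)
    have hcount := Finset.card_mul_le_card_mul
      (fun (D : Quot r) (e' : Sym2 V) => e' ∈ bd G {v | Quot.mk r (q v) = D})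
      (s := Finset.univ) (t := hBfin.toFinset) (m := 4) (n := 2) (by
        intro D _
        have h1 : (hBfin.toFinset.bipartiteAbove
            (fun (D : Quot r) (e' : Sym2 V) => e' ∈ bd G {v | Quot.mk r (q v) = D}) D : Set (Sym2 V)) =
            bd G {v | Quot.mk r (q v) = D} := by
          ext e'
          simp only [Finset.mem_coe, Finset.mem_bipartiteAbove, Set.Finite.mem_toFinset]
          exact ⟨fun h => h.2, fun h => ⟨hsub D h, h⟩⟩
        rw [← Set.ncard_coe_finset, h1]
        exact hb4 D) (by
        intro e' _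
        induction e' with
        | _ u v =>
          have h1 : Finset.bipartiteBelow
              (fun (D : Quot r) (e' : Sym2 V) => e' ∈ bd G {v | Quot.mk r (q v) = D})
              Finset.univ s(u, v) ⊆ {Quot.mk r (q u), Quot.mk r (q v)} := by
            intro D hD
            rw [Finset.mem_bipartiteBelow] at hD
            obtain ⟨_, _, ⟨x, hx, hxD⟩, _⟩ := hD
            simp only [Set.mem_setOf_eq] at hxD
            rw [Sym2.mem_iff] at hx
            rw [Finset.mem_insert, Finset.mem_singleton]
            rcases hx with rfl | rfl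
            · exact Or.inl hxD.symm
            · exact Or.inr hxD.symm
          exact (Finset.card_le_card h1).trans (Finset.card_le_two))
    rw [Finset.card_univ, ← Set.ncard_eq_toFinset_card (E \ T) hBfin] at hcount
    omega

end Pool.Agent.Helper391.Lg
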