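import Pool.Agent.Helper391.Lg.Defs
import Pool.Agent.Helper391.Lg.P_packing
import Pool.Agent.Helper391.Lg.P_core_rank
import Pool.Agent.Helper391.Lg.P_core_conn



namespace Pool.Agent.Helper391.Lg
open Set


theorem core_pack {V : Type*} (G : SimpleGraph V) (hfin : ∀ v, (G.neighborSet v).Finite)
    (h4 : ∀ P : Set V, P.Nonempty → Pᶜ.Nonempty → (bd G P).Finite → 4 ≤ (bd G P).ncard)
    (F : Set V) (hne : F.Nonempty) {k : ℕ} (C : Fin k → Set V) (hR : Reg G F C) :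
    ∃ A B : Set (Sym2 V), A ∪ B = {e | e ∈ G.edgeSet ∧ ∃ v ∈ e, v ∈ F} ∧ Disjoint A B ∧
      (∀ u v, (SimpleGraph.fromEdgeSet (A ∪ {e | ∃ i, ∀ x ∈ e, x ∈ C i})).Reachable u v) ∧
      (∀ u v, (SimpleGraph.fromEdgeSet (B ∪ {e | ∃ i, ∀ x ∈ e, x ∈ C i})).Reachable u v) := by
  letI : DecidableEq V := Classical.decEq V
  have hex : ∀ v, ∃ w : (V ⊕ Fin k) → ZMod 2,
      (v ∈ F → ∀ x, w x = if x = Sum.inl v then 1 else 0) ∧
      (∀ i, v ∈ C i → ∀ x, w x = if x = Sum.inr i then 1 else 0) := by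
    intro v
    by_cases hv : v ∈ F
    · refine ⟨fun x => if x = Sum.inl v then 1 else 0, fun _ x => rfl, fun i hi => ?_⟩
      exact absurd hv (Set.disjoint_left.mp (hR.disjF i) hi)
    · obtain ⟨i, hi⟩ := (hR.cover v).resolve_left hv
      refine ⟨fun x => if x = Sum.inr i then 1 else 0, fun h => absurd h hv, fun j hj x => ?_⟩
      have hij : i = j := by
        by_contra hne'
        exact Set.disjoint_left.mp (hR.disj i j hne') hi hj
      rw [hij]
  choose φ hφF' hφC' using hex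
  have hφF : ∀ v ∈ F, ∀ x, φ v x = if x = Sum.inl v then 1 else 0 := fun v hv => hφF' v hv
  have hφC : ∀ i, ∀ v ∈ C i, ∀ x, φ v x = if x = Sum.inr i then 1 else 0 :=
    fun i v hv => hφC' v i hv
  obtain ⟨f, hf⟩ : ∃ f : Sym2 V → (V ⊕ Fin k) → ZMod 2, ∀ u v, f s(u, v) = φ u + φ v :=
    ⟨Sym2.lift ⟨fun u v => φ u + φ v, fun u v => add_comm _ _⟩, fun u v => rfl⟩
  set E0 : Set (Sym2 V) := {e | e ∈ G.edgeSet ∧ ∃ v ∈ e, v ∈ F} with hE0
  have hE0fin : E0.Finite := by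
    have h1 : (⋃ v ∈ F, (fun w => s(v, w)) '' G.neighborSet v).Finite :=
      hR.finF.biUnion (fun v _ => (hfin v).image _)
    refine h1.subset ?_
    rintro e ⟨he, v, hve, hvF⟩
    obtain ⟨w, rfl⟩ := hve
    exact Set.mem_biUnion hvF ⟨w, he, rfl⟩
  obtain ⟨B, hBE, hB1, hB2⟩ := packing f f E0 hE0fin (F.ncard + k - 1)
    (core_conn G hfin F hne C hR φ hφF hφC f hf E0 subset_rfl).1
    (core_conn G hfin F hne C hR φ hφF hφC f hf E0 subset_rfl).1
    (fun T hT => core_rank G hfin h4 F hne C hR φ hφF hφC f hf T hT)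
  refine ⟨E0 \ B, B, Set.diff_union_of_subset hBE, Set.disjoint_sdiff_left, ?_, ?_⟩
  · exact (core_conn G hfin F hne C hR φ hφF hφC f hf (E0 \ B) Set.diff_subset).2 hB1
  · exact (core_conn G hfin F hne C hR φ hφF hφC f hf B hBE).2 hB2

end Pool.Agent.Helper391.Lg
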