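import Pool.Agent.Helper391.Lg.Defs
import Pool.Agent.Helper391.Lg.P_inc_finite
import Pool.Agent.Helper391.Lg.P_rk_lower



namespace Pool.Agent.Helper391.Lg
open Set


theorem cost_single {V : Type*} (G : SimpleGraph V) (hfin : ∀ v, (G.neighborSet v).Finite)
    (h4 : ∀ P : Set V, P.Finite → P.Nonempty → 4 ≤ (bd G P).ncard)
    (F P : Set V) (hF : F.Finite) (hP : P.Finite) (hne : P.Nonempty) (hPF : Disjoint P F)
    (T : Set (Sym2 V)) (hT : T ⊆ ins G P) (hc : Conn T P) :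
    ((bd G (F ∪ P)).ncard : ℤ) - (bd G F).ncard ≤ 2 * cost G F P T := by
  have hdis : ∀ v, v ∈ P → v ∉ F := fun v h1 h2 => Set.disjoint_left.1 hPF h1 h2
  let βs : Set (Sym2 V) := {e | e ∈ G.edgeSet ∧ (∃ v ∈ e, v ∈ P) ∧ ∃ v ∈ e, v ∉ F ∧ v ∉ P}
  let γs : Set (Sym2 V) := {e | e ∈ G.edgeSet ∧ (∃ v ∈ e, v ∈ P) ∧ ∃ v ∈ e, v ∈ F}
  obtain ⟨finc, fins, fbdP⟩ := inc_finite G hfin F P hP
  obtain ⟨-, -, fbdF⟩ := inc_finite G hfin F F hF
  have hβ1 : βs ⊆ bd G P := by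
    rintro e ⟨h1, h2, w, hw, h3, h4⟩
    exact ⟨h1, h2, w, hw, h4⟩
  have hγ1 : γs ⊆ bd G P := by
    rintro e ⟨h1, h2, w, hw, h3⟩
    exact ⟨h1, h2, w, hw, fun h => hdis w h h3⟩
  have hγ2 : γs ⊆ bd G F := by
    rintro e ⟨h1, ⟨v, hv, hvP⟩, w, hw, h3⟩
    exact ⟨h1, ⟨w, hw, h3⟩, v, hv, hdis v hvP⟩
  have hβf : βs.Finite := fbdP.subset hβ1
  have hγf : γs.Finite := fbdP.subset hγ1
  have hTf : T.Finite := fins.subset hT
  -- the boundary of `P`
  have e1 : 4 ≤ βs.ncard + γs.ncard := by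
    have hsub : bd G P ⊆ βs ∪ γs := by
      rintro e ⟨h1, h2, w, hw, h3⟩
      by_cases h : w ∈ F
      · exact Or.inr ⟨h1, h2, w, hw, h⟩
      · exact Or.inl ⟨h1, h2, w, hw, h, h3⟩
    calc 4 ≤ (bd G P).ncard := h4 P hP hne
      _ ≤ (βs ∪ γs).ncard := Set.ncard_le_ncard hsub (hβf.union hγf)
      _ ≤ βs.ncard + γs.ncard := Set.ncard_union_le _ _
  -- the boundary of `F ∪ P`
  have e2 : (bd G (F ∪ P)).ncard + γs.ncard ≤ (bd G F).ncard + βs.ncard := by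
    have hsub : bd G (F ∪ P) ⊆ (bd G F \ γs) ∪ βs := by
      rintro e ⟨h1, ⟨v, hv, hvU⟩, w, hw, hwU⟩
      have hwF : w ∉ F := fun h => hwU (Or.inl h)
      have hwP : w ∉ P := fun h => hwU (Or.inr h)
      rcases hvU with hvF | hvP
      · left
        refine ⟨⟨h1, ⟨v, hv, hvF⟩, w, hw, hwF⟩, ?_⟩
        rintro ⟨-, ⟨x, hx, hxP⟩, -⟩
        have hvw : v ≠ w := fun h => hwF (h ▸ hvF)
        have he : e = s(v, w) := (Sym2.mem_and_mem_iff hvw).1 ⟨hv, hw⟩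
        rw [he, Sym2.mem_iff] at hx
        rcases hx with hx | hx
        · exact hdis x hxP (hx ▸ hvF)
        · exact hwP (hx ▸ hxP)
      · right
        exact ⟨h1, ⟨v, hv, hvP⟩, w, hw, hwF, hwP⟩
    have h1 : (bd G (F ∪ P)).ncard ≤ (bd G F \ γs).ncard + βs.ncard :=
      (Set.ncard_le_ncard hsub ((fbdF.subset Set.diff_subset).union hβf)).trans
        (Set.ncard_union_le _ _)
    have h2 : (bd G F \ γs).ncard + γs.ncard = (bd G F).ncard :=
      Set.ncard_diff_add_ncard_of_subset hγ2 fbdF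
    omega
  -- the incident edges
  have e3 : T.ncard + βs.ncard ≤ (inc G F P).ncard := by
    have hd : Disjoint T βs := by
      rw [Set.disjoint_left]
      rintro e h1 ⟨-, -, w, hw, -, hwP⟩
      exact hwP ((hT h1).2 w hw)
    rw [← Set.ncard_union_eq hd hTf hβf]
    refine Set.ncard_le_ncard ?_ finc
    rintro e (he | he)
    · obtain ⟨h1, h2⟩ := hT he
      refine ⟨h1, fun v hv => hdis v (h2 v hv), ?_⟩
      induction e with
      | _ a b => exact ⟨a, Sym2.mem_mk_left a b, h2 a (Sym2.mem_mk_left a b)⟩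
    · obtain ⟨h1, ⟨v, hv, hvP⟩, w, hw, hwF, hwP⟩ := he
      refine ⟨h1, ?_, v, hv, hvP⟩
      intro u hu
      have hvw : v ≠ w := fun h => hwP (h ▸ hvP)
      have he : e = s(v, w) := (Sym2.mem_and_mem_iff hvw).1 ⟨hv, hw⟩
      rw [he, Sym2.mem_iff] at hu
      rcases hu with hu | hu
      · rw [hu]; exact hdis v hvP
      · rw [hu]; exact hwF
  have e4 := rk_lower G hfin P hP T hT hc
  rw [cost]
  omega

end Pool.Agent.Helper391.Lg
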