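import Pool.Agent.Helper391.Lg.Defs
import Pool.Agent.Helper391.Lg.P_rk_disj
import Pool.Agent.Helper391.Lg.P_inc_finite
import Pool.Agent.Helper391.Lg.P_cost_single



namespace Pool.Agent.Helper391.Lg
open Set


theorem cbd_ins_empty {V : Type*} (G : SimpleGraph V) : ins G (∅ : Set V) = ∅ := by
  ext e
  refine Sym2.ind (fun a b => ?_) e
  simp only [ins, Set.mem_empty_iff_false, iff_false]
  rintro ⟨-, h⟩
  exact (h a (Sym2.mem_mk_left a b))

theorem cbd_inc_empty {V : Type*} (G : SimpleGraph V) (F : Set V) : inc G F (∅ : Set V) = ∅ := by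
  ext e
  simp only [inc, Set.mem_empty_iff_false, iff_false]
  rintro ⟨-, -, v, -, h⟩
  exact h

theorem cbd_cost_empty {V : Type*} (G : SimpleGraph V) (F : Set V) :
    cost G F (∅ : Set V) (∅ : Set (Sym2 V)) = 0 := by
  unfold cost rk
  rw [cbd_inc_empty, Set.image_empty, Set.finrank_empty, Set.ncard_empty, Set.ncard_empty]
  norm_num

theorem cbd_conn {V : Type*} (T : Set (Sym2 V)) (U : Set V) (v : V)
    (hT : ∀ e ∈ T, ∀ x ∈ e, x ∈ U) (TP : Set (Sym2 V))
    (hTP : ∀ e ∈ T, (∀ x ∈ e, x ∈ {u ∈ U | (SimpleGraph.fromEdgeSet T).Reachable v u}) → e ∈ TP)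
    (u : V) (hu : (SimpleGraph.fromEdgeSet T).Reachable v u) :
    (SimpleGraph.fromEdgeSet TP).Reachable v u := by
  rw [SimpleGraph.reachable_iff_reflTransGen] at hu
  induction hu with
  | refl => exact SimpleGraph.Reachable.refl v
  | @tail b c hb hbc ih =>
    refine ih.trans ?_
    rw [← SimpleGraph.reachable_iff_reflTransGen] at hb
    have h1 := (SimpleGraph.fromEdgeSet_adj _).1 hbc
    have h2 : (SimpleGraph.fromEdgeSet T).Reachable v c := hb.trans hbc.reachable
    have h3 : (SimpleGraph.fromEdgeSet TP).Adj b c := by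
      rw [SimpleGraph.fromEdgeSet_adj]
      refine ⟨hTP _ h1.1 ?_, h1.2⟩
      intro x hx
      refine ⟨hT _ h1.1 x hx, ?_⟩
      rcases Sym2.mem_iff.1 hx with rfl | rfl
      · exact hb
      · exact h2
    exact h3.reachable

theorem cost_bd {V : Type*} (G : SimpleGraph V) (hfin : ∀ v, (G.neighborSet v).Finite)
    (h4 : ∀ P : Set V, P.Finite → P.Nonempty → 4 ≤ (bd G P).ncard)
    (F U : Set V) (hF : F.Finite) (hU : U.Finite) (hUF : Disjoint U F)
    (T : Set (Sym2 V)) (hT : T ⊆ ins G U) :
    ((bd G (F ∪ U)).ncard : ℤ) - (bd G F).ncard ≤ 2 * cost G F U T := by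
  induction hn : U.ncard using Nat.strong_induction_on generalizing F U T with
  | _ n IH =>
  rcases U.eq_empty_or_nonempty with rfl | ⟨v, hv⟩
  · have hTe : T = ∅ := by
      rw [cbd_ins_empty] at hT
      exact Set.subset_empty_iff.1 hT
    rw [hTe, cbd_cost_empty, Set.union_empty]
    norm_num
  · set P : Set V := {u ∈ U | (SimpleGraph.fromEdgeSet T).Reachable v u} with hP
    have hPU : P ⊆ U := fun u hu => hu.1
    have hvP : v ∈ P := ⟨hv, SimpleGraph.Reachable.refl v⟩
    have hPfin : P.Finite := hU.subset hPU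
    set U' : Set V := U \ P with hU'
    have hU'fin : U'.Finite := hU.subset Set.sdiff_subset
    have hcardU : U.ncard = U'.ncard + P.ncard := by
      rw [hU', Set.ncard_sdiff_add_ncard_of_subset hPU hU]
    have hTU : ∀ e ∈ T, ∀ x ∈ e, x ∈ U := fun e he x hx => (hT he).2 x hx
    have hTfin : T.Finite := (inc_finite G hfin F U hU).2.1.subset hT
    -- T-edges do not leave P
    have hcl : ∀ e ∈ T, (∃ x ∈ e, x ∈ P) → ∀ x ∈ e, x ∈ P := by
      intro e
      refine Sym2.ind (fun a b => ?_) e
      intro he hex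
      have hadj : (SimpleGraph.fromEdgeSet T).Adj a b := by
        rw [SimpleGraph.fromEdgeSet_adj]
        refine ⟨he, ?_⟩
        have := (hT he).1
        rw [SimpleGraph.mem_edgeSet] at this
        exact this.ne
      have ha : a ∈ U := hTU _ he a (Sym2.mem_mk_left a b)
      have hb : b ∈ U := hTU _ he b (Sym2.mem_mk_right a b)
      have hab : a ∈ P ↔ b ∈ P := by
        constructor
        · intro h
          exact ⟨hb, h.2.trans hadj.reachable⟩
        · intro h
          exact ⟨ha, h.2.trans hadj.symm.reachable⟩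
      obtain ⟨x, hx, hxP⟩ := hex
      have haP : a ∈ P := by
        rcases Sym2.mem_iff.1 hx with rfl | rfl
        · exact hxP
        · exact hab.2 hxP
      intro y hy
      rcases Sym2.mem_iff.1 hy with rfl | rfl
      · exact haP
      · exact hab.1 haP
    set TP : Set (Sym2 V) := T ∩ ins G P with hTP
    set T' : Set (Sym2 V) := T ∩ ins G U' with hT'
    have hTsplit : T = TP ∪ T' := by
      ext e
      constructor
      · intro he
        by_cases h : ∃ x ∈ e, x ∈ P
        · exact Or.inl ⟨he, (hT he).1, hcl e he h⟩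
        · push Not at h
          exact Or.inr ⟨he, (hT he).1, fun x hx => ⟨hTU e he x hx, h x hx⟩⟩
      · rintro (h | h)
        · exact h.1
        · exact h.1
    have hTdisj : Disjoint TP T' := by
      rw [Set.disjoint_left]
      intro e h1 h2
      revert h1 h2
      refine Sym2.ind (fun a b => ?_) e
      intro h1 h2
      exact (h2.2.2 a (Sym2.mem_mk_left a b)).2 (h1.2.2 a (Sym2.mem_mk_left a b))
    have hTPfin : TP.Finite := hTfin.subset Set.inter_subset_left
    have hT'fin : T'.Finite := hTfin.subset Set.inter_subset_left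
    have hcardT : T.ncard = TP.ncard + T'.ncard := by
      conv_lhs => rw [hTsplit]
      exact Set.ncard_union_eq hTdisj hTPfin hT'fin
    have hrk : rk chi T = rk chi TP + rk chi T' := by
      conv_lhs => rw [hTsplit]
      refine rk_disj chi TP T' hTPfin hT'fin P ?_ ?_
      · intro e he w hw
        unfold chi
        rw [if_neg]
        intro hwe
        exact hw (he.2.2 w hwe)
      · intro e he w hw
        unfold chi
        rw [if_neg]
        intro hwe
        exact (he.2.2 w hwe).2 hw
    have hUF' : ∀ x ∈ U, x ∉ F := fun x hx hxF => Set.disjoint_left.1 hUF hx hxF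
    have hinc : inc G F U = inc G F U' ∪ inc G (F ∪ U') P := by
      ext e
      constructor
      · rintro ⟨he, hF', x, hx, hxU⟩
        by_cases h : ∃ y ∈ e, y ∈ U'
        · exact Or.inl ⟨he, hF', h⟩
        · push Not at h
          refine Or.inr ⟨he, ?_, x, hx, ?_⟩
          · rintro y hy (h1 | h1)
            · exact hF' y hy h1
            · exact h y hy h1
          · by_contra hxP
            exact h x hx ⟨hxU, hxP⟩
      · rintro (⟨he, hF', x, hx, hxU⟩ | ⟨he, hF', x, hx, hxU⟩)
        · exact ⟨he, hF', x, hx, hxU.1⟩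
        · exact ⟨he, fun y hy h1 => hF' y hy (Or.inl h1), x, hx, hPU hxU⟩
    have hincd : Disjoint (inc G F U') (inc G (F ∪ U') P) := by
      rw [Set.disjoint_left]
      rintro e ⟨-, -, x, hx, hxU⟩ ⟨-, h2, -⟩
      exact h2 x hx (Or.inr hxU)
    have hcardinc : (inc G F U).ncard = (inc G F U').ncard + (inc G (F ∪ U') P).ncard := by
      rw [hinc]
      exact Set.ncard_union_eq hincd (inc_finite G hfin F U' hU'fin).1
        (inc_finite G hfin (F ∪ U') P hPfin).1
    have hcost : cost G F U T = cost G F U' T' + cost G (F ∪ U') P TP := by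
      unfold cost
      rw [hcardinc, hcardT, hrk, hcardU]
      push_cast
      ring
    have hlt : U'.ncard < n := by
      have h1 : 0 < P.ncard := (Set.ncard_pos hPfin).2 ⟨v, hvP⟩
      omega
    have hU'F : Disjoint U' F := hUF.mono_left Set.sdiff_subset
    have h1 := IH U'.ncard hlt F U' hF hU'fin hU'F T' Set.inter_subset_right rfl
    have hPd : Disjoint P (F ∪ U') := by
      rw [Set.disjoint_left]
      rintro x hx (h1 | h1)
      · exact hUF' x (hPU hx) h1
      · exact h1.2 hx
    have hconn : Conn TP P := by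
      have hc : ∀ u ∈ P, (SimpleGraph.fromEdgeSet TP).Reachable v u := by
        intro u hu
        refine cbd_conn T U v hTU TP ?_ u hu.2
        intro e he hx
        exact ⟨he, (hT he).1, hx⟩
      intro a ha b hb
      exact (hc a ha).symm.trans (hc b hb)
    have h2 := cost_single G hfin h4 (F ∪ U') P (hF.union hU'fin) hPfin ⟨v, hvP⟩ hPd TP
      Set.inter_subset_right hconn
    have h3 : F ∪ U' ∪ P = F ∪ U := by
      rw [Set.union_assoc, hU', Set.sdiff_union_of_subset hPU]
    rw [h3] at h2
    rw [hcost]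
    linarith

end Pool.Agent.Helper391.Lg
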