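import Pool.Agent.Helper391.Lg.Defs



namespace Pool.Agent.Helper391.Lg
open Set


/-- balls -/
def coc_ball {V : Type*} (G : SimpleGraph V) (v₀ : V) : ℕ → Set V
  | 0 => {v₀}
  | n + 1 => coc_ball G v₀ n ∪ ⋃ v ∈ coc_ball G v₀ n, G.neighborSet v

theorem countable_of_conn {V : Type*} (G : SimpleGraph V) (hfin : ∀ v, (G.neighborSet v).Finite)
    (hconn : ∀ u v, G.Reachable u v) : Countable V := by
  rcases isEmpty_or_nonempty V with hV | ⟨⟨v₀⟩⟩
  · infer_instance
  · have hf : ∀ n, (coc_ball G v₀ n).Finite := by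
      intro n
      induction n with
      | zero => exact Set.finite_singleton v₀
      | succ n ih => exact ih.union (ih.biUnion fun v _ => hfin v)
    have hc : (⋃ n, coc_ball G v₀ n).Countable := Set.countable_iUnion fun n => (hf n).countable
    have hu : (⋃ n, coc_ball G v₀ n) = Set.univ := by
      rw [Set.eq_univ_iff_forall]
      intro v
      have h := (SimpleGraph.reachable_iff_reflTransGen v₀ v).1 (hconn v₀ v)
      induction h with
      | refl => exact Set.mem_iUnion.2 ⟨0, rfl⟩
      | tail _ hbc ih =>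
        obtain ⟨n, hn⟩ := Set.mem_iUnion.1 ih
        exact Set.mem_iUnion.2 ⟨n + 1, Or.inr (Set.mem_biUnion hn hbc)⟩
    rw [hu] at hc
    exact Set.countable_univ_iff.1 hc

end Pool.Agent.Helper391.Lg
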