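import Pool.Agent.Helper391.Lg.Defs



namespace Pool.Agent.Helper391.Lg
open Set


theorem out_first {V : Type*} (G : SimpleGraph V) (F L : Set V) (T : Set (Sym2 V))
    (hT : T ⊆ inc G F L) (hO : Out T L) (v : V) (hv : v ∈ L) :
    ∃ a ∈ L, ∃ w, w ∉ L ∧ w ∉ F ∧ s(a, w) ∈ T ∧ (SimpleGraph.fromEdgeSet (T ∩ ins G L)).Reachable v a := by
  obtain ⟨w₀, hw₀, ⟨p⟩⟩ := hO v hv
  induction p with
  | nil => exact absurd hv hw₀
  | @cons u x y hadj p ih =>
    rw [SimpleGraph.fromEdgeSet_adj] at hadj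
    obtain ⟨hux, hne⟩ := hadj
    have hinc := hT hux
    by_cases hx : x ∈ L
    · obtain ⟨a, ha, w, hw1, hw2, hw3, hr⟩ := ih hx hw₀
      refine ⟨a, ha, w, hw1, hw2, hw3, ?_⟩
      refine SimpleGraph.Reachable.trans (SimpleGraph.Adj.reachable ?_) hr
      rw [SimpleGraph.fromEdgeSet_adj]
      refine ⟨⟨hux, hinc.1, ?_⟩, hne⟩
      intro z hz
      rcases Sym2.mem_iff.mp hz with rfl | rfl
      · exact hv
      · exact hx
    · exact ⟨u, hv, x, hx, hinc.2.1 x (Sym2.mem_mk_right u x), hux, SimpleGraph.Reachable.refl _⟩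

end Pool.Agent.Helper391.Lg
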