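import Pool.Agent.Helper391.Lg.Defs
import Pool.Agent.Helper391.Lg.P_out_first



namespace Pool.Agent.Helper391.Lg
open Set


/-- leaving `F n` with edges of the layers `m, …, n - 1` (general starting set `F 0`) -/
theorem reach_out_reg {V : Type*} (G : SimpleGraph V) (F : ℕ → Set V) (T : ℕ → Set (Sym2 V))
    (hmono : ∀ n, F n ⊆ F (n + 1))
    (hT : ∀ n, T n ⊆ inc G (F n) (F (n + 1) \ F n)) (hO : ∀ n, Out (T n) (F (n + 1) \ F n))
    (hnb : ∀ n, ∀ u, u ∉ F n → (∃ a ∈ F n, G.Adj a u) → u ∈ F (n + 1))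
    (m n : ℕ) (v : V) (hv : v ∈ F n) (hvm : v ∉ F m) :
    ∃ w, w ∉ F n ∧ (∃ a ∈ F n, G.Adj a w) ∧
      (SimpleGraph.fromEdgeSet {e | (∃ i, e ∈ T i) ∧ ∀ x ∈ e, x ∉ F m}).Reachable v w := by
  have hM : Monotone F := monotone_nat_of_le_succ hmono
  induction n with
  | zero => exact absurd (hM (Nat.zero_le m) hv) hvm
  | succ n ih =>
    have hmn : m ≤ n := by
      by_contra hcon
      exact hvm (hM (show n + 1 ≤ m by omega) hv)
    obtain ⟨w, hw, hvw⟩ : ∃ w, w ∈ F (n + 1) \ F n ∧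
        (SimpleGraph.fromEdgeSet {e | (∃ i, e ∈ T i) ∧ ∀ x ∈ e, x ∉ F m}).Reachable v w := by
      by_cases hvn : v ∈ F n
      · obtain ⟨w, hw1, hw2, hw3⟩ := ih hvn
        exact ⟨w, ⟨hnb n w hw1 hw2, hw1⟩, hw3⟩
      · exact ⟨v, ⟨hv, hvn⟩, SimpleGraph.Reachable.refl v⟩
    obtain ⟨a, ha, w', hw'1, hw'2, hw'3, hwa⟩ :=
      out_first G (F n) (F (n + 1) \ F n) (T n) (hT n) (hO n) w hw
    have hsub : T n ⊆ {e | (∃ i, e ∈ T i) ∧ ∀ x ∈ e, x ∉ F m} := by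
      intro e he
      exact ⟨⟨n, he⟩, fun x hx hxm => (hT n he).2.1 x hx (hM hmn hxm)⟩
    refine ⟨w', fun hc => hw'1 ⟨hc, hw'2⟩, ⟨a, ha.1, ?_⟩, ?_⟩
    · exact (SimpleGraph.mem_edgeSet G).mp (hT n hw'3).1
    · refine hvw.trans ((hwa.mono (SimpleGraph.fromEdgeSet_mono
        (Set.inter_subset_left.trans hsub))).trans (SimpleGraph.Adj.reachable ?_))
      rw [SimpleGraph.fromEdgeSet_adj]
      refine ⟨hsub hw'3, ?_⟩
      rintro rfl
      exact hw'1 ha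

end Pool.Agent.Helper391.Lg
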