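import Pool.Agent.Helper391.Lg.Defs



namespace Pool.Agent.Helper391.Lg
open Set


theorem reg_mono {V : Type*} (G : SimpleGraph V) (F : Set V) {k : ℕ} (C : Fin k → Set V)
    (hR : Reg G F C) (L : Set V) (hL : L.Finite) : Reg G (F ∪ L) (fun i => C i \ L) where
  finF := hR.finF.union hL
  cover := by
    intro v
    by_cases hv : v ∈ L
    · exact Or.inl (Or.inr hv)
    · rcases hR.cover v with h | ⟨i, h⟩
      · exact Or.inl (Or.inl h)
      · exact Or.inr ⟨i, h, hv⟩
  disjF := by
    intro i
    rw [Set.disjoint_left]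
    rintro v ⟨h1, h2⟩ (h3 | h3)
    · exact Set.disjoint_left.1 (hR.disjF i) h1 h3
    · exact h2 h3
  disj := by
    intro i j hij
    exact (hR.disj i j hij).mono Set.diff_subset Set.diff_subset
  inf := fun i => (hR.inf i).diff hL
  noedge := by
    rintro i e he ⟨v, hv, hvC⟩ w hw
    have h1 := hR.noedge i e he ⟨v, hv, hvC.1⟩ w hw
    by_cases hwL : w ∈ L
    · exact Or.inl (Or.inr hwL)
    · rcases h1 with h | h
      · exact Or.inl (Or.inl h)
      · exact Or.inr ⟨h, hwL⟩
  one := by
    intro i Z hZ hb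
    rcases hR.one i Z (hZ.trans Set.diff_subset) hb with h | h
    · exact Or.inl h
    · exact Or.inr (h.subset (Set.diff_subset_diff_left Set.diff_subset))

end Pool.Agent.Helper391.Lg
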