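import Pool.Agent.Helper391.Lg.Defs
import Pool.Agent.Helper391.Lg.P_h_union



namespace Pool.Agent.Helper391.Lg
open Set


theorem extend {V : Type*} (G : SimpleGraph V) (hfin : ∀ v, (G.neighborSet v).Finite)
    (F : Set V) (hF : F.Finite) (hI : Ipos G F) (K : Set V) (hK : K.Finite) (hKF : Disjoint K F) :
    ∃ L : Set V, L.Finite ∧ K ⊆ L ∧ Disjoint L F ∧ Ipos G (F ∪ L) := by
  classical
  have hne : ∃ n : ℕ, ∃ L : Set V, L.Finite ∧ K ⊆ L ∧ Disjoint L F ∧ (h G F L).toNat = n :=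
    ⟨_, K, hK, subset_rfl, hKF, rfl⟩
  obtain ⟨L, hL, hKL, hLF, hLn⟩ := Nat.find_spec hne
  refine ⟨L, hL, hKL, hLF, ?_⟩
  intro Y hY hYd
  have hYF : Disjoint Y F := hYd.mono_right subset_union_left
  have hYL : Disjoint Y L := hYd.mono_right subset_union_right
  have h1 := h_union G hfin F L Y hL hY hYL.symm hLF hYF
  have h2 : Nat.find hne ≤ (h G F (L ∪ Y)).toNat :=
    Nat.find_min' hne ⟨L ∪ Y, hL.union hY, hKL.trans subset_union_left,
      Set.disjoint_union_left.2 ⟨hLF, hYF⟩, rfl⟩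
  have h3 := hI L hL hLF
  have h4 := hI (L ∪ Y) (hL.union hY) (Set.disjoint_union_left.2 ⟨hLF, hYF⟩)
  rw [← hLn] at h2
  omega

end Pool.Agent.Helper391.Lg
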