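import Pool.Agent.Helper391.Lg.Defs
import Pool.Agent.Helper391.Lg.P_h_empty
import Pool.Agent.Helper391.Lg.P_h_union
import Pool.Agent.Helper391.Lg.P_good_free
import Pool.Agent.Helper391.Lg.P_inc_split
import Pool.Agent.Helper391.Lg.P_good_union
import Pool.Agent.Helper391.Lg.P_clean



namespace Pool.Agent.Helper391.Lg
open Set


theorem lemX {V : Type*} (G : SimpleGraph V) (hfin : ∀ v, (G.neighborSet v).Finite)
    (F L : Set V) (hL : L.Finite) (hLF : Disjoint L F) (x₁ x₂ : V) (h1 : x₁ ∈ L) (h2 : x₂ ∈ L)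
    (hI : ∀ U ⊆ L, 0 ≤ h G F U)
    (hsep : ∀ U ⊆ L, x₁ ∉ U → x₂ ∉ U → h G F U = 0 →
      (SimpleGraph.fromEdgeSet (ins G (L \ U))).Reachable x₁ x₂) :
    ∃ B, Good G F L B ∧ (SimpleGraph.fromEdgeSet (ins G L \ B)).Reachable x₁ x₂ := by
  have hfinS : {U : Set V | U ⊆ L ∧ x₁ ∉ U ∧ x₂ ∉ U ∧ h G F U = 0}.Finite :=
    hL.finite_subsets.subset (fun U hU => hU.1)
  obtain ⟨U, ⟨hUL, hU1, hU2, hU0⟩, hmax⟩ := Set.exists_max_image
    {U : Set V | U ⊆ L ∧ x₁ ∉ U ∧ x₂ ∉ U ∧ h G F U = 0} Set.ncard hfinS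
    ⟨∅, empty_subset _, notMem_empty _, notMem_empty _, h_empty G F⟩
  have hUfin : U.Finite := hL.subset hUL
  have hUF : Disjoint U F := hLF.mono_left hUL
  obtain ⟨B1, hB1⟩ := good_free G hfin F U hUfin hUF (fun W hW => hI W (hW.trans hUL))
  have hL'fin : (L \ U).Finite := hL.subset sdiff_subset
  have hL'F : Disjoint (L \ U) F := hLF.mono_left sdiff_subset
  have hL'U : Disjoint (L \ U) U := disjoint_sdiff_left
  have hL'FU : Disjoint (L \ U) (F ∪ U) := Disjoint.sup_right hL'F hL'U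
  have key : ∀ Y ⊆ L \ U, h G F (U ∪ Y) ≤ h G (F ∪ U) Y ∧ 0 ≤ h G F (U ∪ Y) := by
    intro Y hY
    have hYfin : Y.Finite := hL'fin.subset hY
    have := h_union G hfin F U Y hUfin hYfin (hL'U.mono_left hY).symm hUF (hL'F.mono_left hY)
    rw [hU0, zero_add] at this
    exact ⟨this, hI _ (union_subset hUL (hY.trans sdiff_subset))⟩
  obtain ⟨B2, hB2, hR⟩ := clean G hfin (L \ U).ncard (F ∪ U) (L \ U) x₁ x₂ hL'fin rfl hL'FU
    ⟨h1, hU1⟩ ⟨h2, hU2⟩ (fun Y hY => (key Y hY).2.trans (key Y hY).1) (by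
      intro Y hY hYne hY1 hY2
      by_contra hlt
      push Not at hlt
      obtain ⟨k1, k2⟩ := key Y hY
      have hYfin : Y.Finite := hL'fin.subset hY
      have h0 : h G F (U ∪ Y) = 0 := by omega
      have hmem := hmax (U ∪ Y) ⟨union_subset hUL (hY.trans sdiff_subset),
        fun h => h.elim hU1 hY1, fun h => h.elim hU2 hY2, h0⟩
      rw [Set.ncard_union_eq (hL'U.mono_left hY).symm hUfin hYfin] at hmem
      have : 0 < Y.ncard := (Set.ncard_pos hYfin).mpr hYne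
      omega) (hsep U hUL hU1 hU2 hU0)
  have hgood := good_union G F U (L \ U) B1 B2 hUF hL'FU hB1 hB2
  rw [Set.union_sdiff_cancel hUL] at hgood
  refine ⟨B1 ∪ B2, hgood, ?_⟩
  refine hR.mono (SimpleGraph.fromEdgeSet_mono ?_)
  have hs := (inc_split G F U (L \ U) B1 B2 hB1.sub hB2.sub).2.2.2 (L \ U) Subset.rfl hL'FU
  rw [← hs]
  intro e he
  exact ⟨⟨he.1.1, fun v hv => (he.1.2 v hv).1⟩, he.2⟩

end Pool.Agent.Helper391.Lg
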