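import Pool.Agent.Helper391.Lg.Defs
import Pool.Agent.Helper391.Lg.P_opt_exists
import Pool.Agent.Helper391.Lg.P_h_opt
import Pool.Agent.Helper391.Lg.P_cost_bd



namespace Pool.Agent.Helper391.Lg
open Set


theorem h_bd {V : Type*} (G : SimpleGraph V) (hfin : ∀ v, (G.neighborSet v).Finite)
    (h4 : ∀ P : Set V, P.Finite → P.Nonempty → 4 ≤ (bd G P).ncard)
    (F U : Set V) (hF : F.Finite) (hU : U.Finite) (hUF : Disjoint U F) :
    ((bd G (F ∪ U)).ncard : ℤ) - (bd G F).ncard ≤ 2 * h G F U := by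
  obtain ⟨T, hT⟩ := opt_exists G hfin U hU
  rw [h_opt G F U T hT]
  exact cost_bd G hfin h4 F U hF hU hUF T hT.1

end Pool.Agent.Helper391.Lg
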