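import Pool.Agent.Helper391.Lg.Defs
import Pool.Agent.Helper391.Lg.P_inc_finite



namespace Pool.Agent.Helper391.Lg
open Set


/-- limit of a family of finite sets along an ultrafilter -/
theorem limit_set {V : Type*} (G : SimpleGraph V) (hfin : ∀ v, (G.neighborSet v).Finite)
    (F : Set V) (hF : F.Finite) (𝒰 : Ultrafilter (Finset V)) (U : Finset V → Set V) (N : ℕ)
    (hU : ∀ K, (U K).Finite) (hN : ∀ K, (bd G (F ∪ U K)).ncard ≤ N) :
    (bd G (F ∪ {v | ∀ᶠ K in 𝒰, v ∈ U K})).Finite := by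
  by_contra hinf
  obtain ⟨s, hs, hc⟩ := Set.Infinite.exists_subset_card_eq hinf (N + 1)
  have hev : ∀ e ∈ s, ∀ᶠ K in (𝒰 : Filter (Finset V)), e ∈ bd G (F ∪ U K) := by
    intro e he
    obtain ⟨hG, ⟨v, hv, hvU⟩, ⟨w, hw, hwU⟩⟩ := hs he
    have h1 : ∀ᶠ K in (𝒰 : Filter (Finset V)), v ∈ F ∪ U K := by
      rcases hvU with h | h
      · exact Filter.Eventually.of_forall fun K => Or.inl h
      · exact Filter.Eventually.mono h fun K hK => Or.inr hK
    have h2 : ∀ᶠ K in (𝒰 : Filter (Finset V)), w ∉ F ∪ U K := by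
      have h3 : w ∉ F := fun h => hwU (Or.inl h)
      have h4 : ¬ ∀ᶠ K in (𝒰 : Filter (Finset V)), w ∈ U K := fun h => hwU (Or.inr h)
      have h5 := Ultrafilter.eventually_not.2 h4
      exact h5.mono fun K hK h => h.elim h3 hK
    filter_upwards [h1, h2] with K hK1 hK2
    exact ⟨hG, ⟨v, hv, hK1⟩, ⟨w, hw, hK2⟩⟩
  obtain ⟨K, hK⟩ := ((Filter.eventually_all_finset s).2 hev).exists
  have hsub : (s : Set (Sym2 V)) ⊆ bd G (F ∪ U K) := fun e he => hK e he
  have hfinK : (bd G (F ∪ U K)).Finite := (inc_finite G hfin F (F ∪ U K) (hF.union (hU K))).2.2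
  have h6 := Set.ncard_le_ncard hsub hfinK
  rw [Set.ncard_coe_finset, hc] at h6
  have h7 := hN K
  omega

end Pool.Agent.Helper391.Lg

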