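import Pool.Agent.Helper391.Lg.Defs
import Pool.Agent.Helper391.Lg.P_rk_supp
import Pool.Agent.Helper391.Lg.P_rk_full
import Pool.Agent.Helper391.Lg.P_functional



namespace Pool.Agent.Helper391.Lg
open Set


/-- the incidence vector of an edge inside `D` has sum `0` over `D` -/
theorem rk_upper_sum {V : Type*} (G : SimpleGraph V) (C : Finset V) (e : Sym2 V)
    (he : e ∈ G.edgeSet) (hC : ∀ v ∈ e, v ∈ C) : ∑ v ∈ C, chi e v = 0 := by
  classical
  induction e using Sym2.ind with
  | _ a b =>
    have hab : a ≠ b := G.ne_of_adj he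
    have ha : a ∈ C := hC a (Sym2.mem_mk_left a b)
    have hb : b ∈ C := hC b (Sym2.mem_mk_right a b)
    have h1 : ∀ v, chi s(a, b) v = if v ∈ ({a, b} : Finset V) then 1 else 0 := by
      intro v
      unfold chi
      simp [Sym2.mem_iff]
    simp only [h1]
    rw [Finset.sum_ite_mem]
    have h2 : C ∩ {a, b} = {a, b} := by
      apply Finset.inter_eq_right.mpr
      intro v hv
      rcases Finset.mem_insert.mp hv with rfl | hv
      · exact ha
      · rw [Finset.mem_singleton.mp hv]; exact hb
    rw [h2, Finset.sum_pair hab]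
    decide

/-- edges inside a nonempty finite set have rank at most `|D| - 1` -/
theorem rk_upper {V : Type*} (G : SimpleGraph V) (D : Set V) (hD : D.Finite) (hne : D.Nonempty)
    (T : Set (Sym2 V)) (hT : T ⊆ ins G D) : rk chi T + 1 ≤ D.ncard := by
  classical
  have hfin : T.Finite := by
    apply ((hD.prod hD).image (fun p : V × V => s(p.1, p.2))).subset
    intro e he
    have h1 := (hT he).2
    induction e using Sym2.ind with
    | _ a b =>
      exact ⟨(a, b), ⟨h1 a (Sym2.mem_mk_left a b), h1 b (Sym2.mem_mk_right a b)⟩, rfl⟩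
  have hsupp : ∀ e ∈ T, ∀ v, v ∉ D → chi e v = 0 := by
    intro e he v hv
    unfold chi
    rw [if_neg]
    exact fun h => hv ((hT he).2 v h)
  have hle := rk_supp chi T D hD hsupp
  rcases Nat.lt_or_ge (rk chi T) D.ncard with h | h
  · exact h
  · exfalso
    obtain ⟨d, hd⟩ := hne
    have hr : rk chi T = D.ncard := le_antisymm hle h
    have hg := rk_full chi T hfin D hD hsupp hr (fun v => if v = d then 1 else 0) (by
      intro v hv
      rw [if_neg]
      rintro rfl
      exact hv hd)
    have h2 := functional chi T hD.toFinset (by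
      intro e he
      apply rk_upper_sum G hD.toFinset e (hT he).1
      intro v hv
      exact hD.mem_toFinset.mpr ((hT he).2 v hv)) _ hg
    rw [Finset.sum_ite_eq' hD.toFinset d (fun _ => (1 : ZMod 2)),
      if_pos (hD.mem_toFinset.mpr hd)] at h2
    exact absurd h2 (by decide)

end Pool.Agent.Helper391.Lg
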