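import Pool.Agent.Helper391.Lg.Defs
import Pool.Agent.Helper391.Lg.P_h_le
import Pool.Agent.Helper391.Lg.P_h_union
import Pool.Agent.Helper391.Lg.P_rk_upper



namespace Pool.Agent.Helper391.Lg
open Set


theorem pocket {V : Type*} (G : SimpleGraph V) (hfin : ∀ v, (G.neighborSet v).Finite)
    (F U C : Set V) (hI : Ipos G F) (hU : U.Finite) (hUF : Disjoint U F) (h0 : h G F U = 0)
    (hC : C.Finite) (hne : C.Nonempty) (hCF : Disjoint C (F ∪ U))
    (hbd : ∀ e ∈ G.edgeSet, (∃ v ∈ e, v ∈ C) → ∀ v ∈ e, v ∈ F ∪ U ∪ C) : False := by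
  have hCF' : Disjoint C F := hCF.mono_right subset_union_left
  have hCU : Disjoint U C := (hCF.mono_right subset_union_right).symm
  have h1 : 0 ≤ h G F (U ∪ C) :=
    hI _ (hU.union hC) (Set.disjoint_union_left.mpr ⟨hUF, hCF'⟩)
  have h2 := h_union G hfin F U C hU hC hCU hUF hCF'
  have h3 := h_le G hfin (F ∪ U) C hC (ins G C) (le_refl _)
  have h4 : inc G (F ∪ U) C = ins G C := by
    ext e
    constructor
    · rintro ⟨he, h5, h6⟩
      refine ⟨he, fun v hv => ?_⟩
      rcases hbd e he h6 v hv with h7 | h7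
      · exact absurd h7 (h5 v hv)
      · exact h7
    · rintro ⟨he, h5⟩
      refine ⟨he, fun v hv hvF => Set.disjoint_left.mp hCF (h5 v hv) hvF, ?_⟩
      induction e using Sym2.ind with
      | _ a b => exact ⟨a, Sym2.mem_mk_left a b, h5 a (Sym2.mem_mk_left a b)⟩
  have h5 := rk_upper G C hC hne (ins G C) (le_refl _)
  unfold cost at h3
  rw [h4] at h3
  omega

end Pool.Agent.Helper391.Lg
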