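import Pool.Agent.Helper391.Lg.Defs
import Pool.Agent.Helper391.Lg.P_inc_finite
import Pool.Agent.Helper391.Lg.P_comp_exists
import Pool.Agent.Helper391.Lg.P_h_bd
import Pool.Agent.Helper391.Lg.P_pocket
import Pool.Agent.Helper391.Lg.P_limit_set



namespace Pool.Agent.Helper391.Lg
open Set


theorem reach_inv {V : Type*} (T : Set (Sym2 V)) (P : V → Prop)
    (hstep : ∀ a b, s(a, b) ∈ T → a ≠ b → P a → P b) {x y : V}
    (h : (SimpleGraph.fromEdgeSet T).Reachable x y) (hx : P x) : P y := by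
  obtain ⟨w⟩ := h
  induction w with
  | nil => exact hx
  | cons hadj _ ih =>
    rw [SimpleGraph.fromEdgeSet_adj] at hadj
    exact ih (hstep _ _ hadj.1 hadj.2 hx)

theorem sep_reg {V : Type*} (G : SimpleGraph V) (hfin : ∀ v, (G.neighborSet v).Finite)
    (h4 : ∀ P : Set V, P.Finite → P.Nonempty → 4 ≤ (bd G P).ncard)
    (F : Set V) (hF : F.Finite) (hI : Ipos G F) (C : Set V) (hCF : Disjoint C F) (hCinf : C.Infinite)
    (hCone : ∀ Z ⊆ C, (bd G Z).Finite → Z.Finite ∨ (C \ Z).Finite)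
    (hCe : ∀ e ∈ G.edgeSet, (∃ v ∈ e, v ∈ C) → ∀ v ∈ e, v ∈ F ∪ C)
    (x₁ x₂ : V) (h1 : x₁ ∈ C) (h2 : x₂ ∈ C) :
    ∃ K : Set V, K.Finite ∧ Disjoint K F ∧ ∀ L : Set V, L.Finite → K ⊆ L → Disjoint L F →
      ∀ U ⊆ L, x₁ ∉ U → x₂ ∉ U → h G F U = 0 →
        (SimpleGraph.fromEdgeSet (ins G (L \ U))).Reachable x₁ x₂ := by
  classical
  by_contra hcon
  push Not at hcon
  have hK0 : ∀ K : Finset V, ∃ L : Set V, L.Finite ∧ ((K : Set V) \ F) ⊆ L ∧ Disjoint L F ∧
      ∃ U, U ⊆ L ∧ x₁ ∉ U ∧ x₂ ∉ U ∧ h G F U = 0 ∧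
        ¬ (SimpleGraph.fromEdgeSet (ins G (L \ U))).Reachable x₁ x₂ := by
    intro K
    obtain ⟨L, hL1, hL2, hL3, U, hU⟩ := hcon ((K : Set V) \ F) (K.finite_toSet.subset diff_subset)
      disjoint_sdiff_left
    exact ⟨L, hL1, hL2, hL3, U, hU⟩
  choose L hLfin hKL hLF U hUL hx1 hx2 hh hnr using hK0
  have hUfin : ∀ K, (U K).Finite := fun K => (hLfin K).subset (hUL K)
  have hUF : ∀ K, Disjoint (U K) F := fun K => (hLF K).mono_left (hUL K)
  have hN : ∀ K, (bd G (F ∪ U K)).ncard ≤ (bd G F).ncard := by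
    intro K
    have := h_bd G hfin h4 F (U K) hF (hUfin K) (hUF K)
    rw [hh K] at this
    omega
  let 𝒰 : Ultrafilter (Finset V) := Ultrafilter.of Filter.atTop
  have h𝒰 : (𝒰 : Filter (Finset V)) ≤ Filter.atTop := Ultrafilter.of_le _
  have hlim := limit_set G hfin F hF 𝒰 U _ hUfin hN
  set Ui : Set V := {v | ∀ᶠ K in (𝒰 : Filter (Finset V)), v ∈ U K} with hUi
  have hUi_not : ∀ v, v ∉ Ui → ∀ᶠ K in (𝒰 : Filter (Finset V)), v ∉ U K := by
    intro v hv
    exact (Ultrafilter.eventually_not).mpr hv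
  have hxU : ∀ x, (∀ K, x ∉ U K) → x ∉ Ui := by
    intro x hx hxm
    obtain ⟨K, hK⟩ := Filter.Eventually.exists (f := (𝒰 : Filter (Finset V))) hxm
    exact hx K hK
  have hx1F : x₁ ∉ F := fun hf => Set.disjoint_left.mp hCF h1 hf
  have hx2F : x₂ ∉ F := fun hf => Set.disjoint_left.mp hCF h2 hf
  set R : Set V := (F ∪ Ui)ᶜ with hR
  have hx1R : x₁ ∈ R := by
    intro hm
    rcases hm with hm | hm
    · exact hx1F hm
    · exact hxU x₁ hx1 hm
  have hx2R : x₂ ∈ R := by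
    intro hm
    rcases hm with hm | hm
    · exact hx2F hm
    · exact hxU x₂ hx2 hm
  obtain ⟨D₁, hD1R, hx1D, -, hno1, hD1⟩ := comp_exists G R x₁ hx1R
  obtain ⟨D₂, hD2R, hx2D, -, hno2, hD2⟩ := comp_exists G R x₂ hx2R
  have hmemC : ∀ x, x ∈ C → ∀ v, (SimpleGraph.fromEdgeSet (ins G R)).Reachable x v → v ∈ C := by
    intro x hx v hv
    refine reach_inv (ins G R) (fun v => v ∈ C) ?_ hv hx
    intro a b hab _ ha
    have hb := hCe s(a, b) hab.1 ⟨a, by simp, ha⟩ b (by simp)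
    have hbR : b ∈ R := hab.2 b (by simp)
    rcases hb with hb | hb
    · exact absurd (Or.inl hb) hbR
    · exact hb
  have hD1C : D₁ ⊆ C := fun v hv => hmemC x₁ h1 v ((hD1 v).mp hv).2
  have hD2C : D₂ ⊆ C := fun v hv => hmemC x₂ h2 v ((hD2 v).mp hv).2
  have hmemL : ∀ v, v ∉ F → ∀ᶠ K in (𝒰 : Filter (Finset V)), v ∈ L K := by
    intro v hv
    have : ∀ᶠ K in (Filter.atTop : Filter (Finset V)), v ∈ L K := by
      filter_upwards [Filter.eventually_ge_atTop ({v} : Finset V)] with K hK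
      exact hKL K ⟨by
        have : v ∈ K := hK (Finset.mem_singleton_self v)
        exact_mod_cast this, hv⟩
    exact h𝒰 this
  have hnot : ¬ (SimpleGraph.fromEdgeSet (ins G R)).Reachable x₁ x₂ := by
    intro hr
    have : ∀ᶠ K in (𝒰 : Filter (Finset V)),
        (SimpleGraph.fromEdgeSet (ins G (L K \ U K))).Reachable x₁ x₂ := by
      refine reach_inv (ins G R) (fun v => ∀ᶠ K in (𝒰 : Filter (Finset V)),
        (SimpleGraph.fromEdgeSet (ins G (L K \ U K))).Reachable x₁ v) ?_ hr ?_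
      · intro a b hab hne ha
        have haR : a ∈ R := hab.2 a (by simp)
        have hbR : b ∈ R := hab.2 b (by simp)
        have haF : a ∉ F := fun hf => haR (Or.inl hf)
        have hbF : b ∉ F := fun hf => hbR (Or.inl hf)
        have haU : a ∉ Ui := fun hf => haR (Or.inr hf)
        have hbU : b ∉ Ui := fun hf => hbR (Or.inr hf)
        filter_upwards [ha, hmemL a haF, hmemL b hbF, hUi_not a haU, hUi_not b hbU] with
          K h1 h2 h3 h4 h5
        refine h1.trans (SimpleGraph.Adj.reachable ?_)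
        rw [SimpleGraph.fromEdgeSet_adj]
        refine ⟨⟨hab.1, ?_⟩, hne⟩
        intro v hv
        rcases Sym2.mem_iff.mp hv with rfl | rfl
        · exact ⟨h2, h4⟩
        · exact ⟨h3, h5⟩
      · exact Filter.Eventually.of_forall fun K => SimpleGraph.Reachable.refl _
    obtain ⟨K, hK⟩ := this.exists
    exact hnr K hK
  have hdisj : Disjoint D₁ D₂ := by
    rw [Set.disjoint_left]
    intro v hv1 hv2
    exact hnot (((hD1 v).mp hv1).2.trans ((hD2 v).mp hv2).2.symm)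
  have hbdsub : ∀ D : Set V, D ⊆ R →
      (∀ e ∈ G.edgeSet, (∃ v ∈ e, v ∈ D) → ¬ ∃ v ∈ e, v ∈ R \ D) → bd G D ⊆ bd G (F ∪ Ui) := by
    rintro D hDR hno e ⟨he, ⟨v, hve, hvD⟩, w, hwe, hwD⟩
    refine ⟨he, ⟨w, hwe, ?_⟩, v, hve, hDR hvD⟩
    by_contra hw
    exact hno e he ⟨v, hve, hvD⟩ ⟨w, hwe, hw, hwD⟩
  have key : ∀ D : Set V, D.Finite → D.Nonempty → D ⊆ R →
      (∀ e ∈ G.edgeSet, (∃ v ∈ e, v ∈ D) → ¬ ∃ v ∈ e, v ∈ R \ D) → False := by
    intro D hDfin hDne hDR hno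
    have hW : (⋃ v ∈ D, G.neighborSet v).Finite := hDfin.biUnion fun v _ => hfin v
    have e1 : ∀ᶠ K in (𝒰 : Filter (Finset V)), ∀ v ∈ D, v ∉ U K := by
      rw [Filter.eventually_all_finite hDfin]
      intro v hv
      exact hUi_not v fun hf => hDR hv (Or.inr hf)
    have e2 : ∀ᶠ K in (𝒰 : Filter (Finset V)), ∀ w ∈ (⋃ v ∈ D, G.neighborSet v),
        w ∉ D → w ∉ F → w ∈ U K := by
      rw [Filter.eventually_all_finite hW]
      intro w hw
      by_cases hwD : w ∈ D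
      · exact Filter.Eventually.of_forall fun K hn => absurd hwD hn
      by_cases hwF : w ∈ F
      · exact Filter.Eventually.of_forall fun K _ hn => absurd hwF hn
      simp only [Set.mem_iUnion, SimpleGraph.mem_neighborSet] at hw
      obtain ⟨v, hv, hadj⟩ := hw
      have hwU : w ∈ Ui := by
        by_contra hwU
        refine hno s(v, w) hadj ⟨v, by simp, hv⟩ ⟨w, by simp, ?_, hwD⟩
        rintro (hm | hm)
        · exact hwF hm
        · exact hwU hm
      have hwU' : ∀ᶠ K in (𝒰 : Filter (Finset V)), w ∈ U K := hwU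
      filter_upwards [hwU'] with K hK _ _ using hK
    obtain ⟨K, hK1, hK2⟩ := (e1.and e2).exists
    refine pocket G hfin F (U K) D hI (hUfin K) (hUF K) (hh K) hDfin hDne ?_ ?_
    · rw [Set.disjoint_left]
      rintro v hv (hm | hm)
      · exact hDR hv (Or.inl hm)
      · exact hK1 v hv hm
    · rintro e he ⟨v, hve, hvD⟩ w hwe
      by_cases hwD : w ∈ D
      · exact Or.inr hwD
      by_cases hwF : w ∈ F
      · exact Or.inl (Or.inl hwF)
      refine Or.inl (Or.inr (hK2 w ?_ hwD hwF))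
      have hvw : v ≠ w := fun hvw => hwD (hvw ▸ hvD)
      have hevw : e = s(v, w) := ((Sym2.mem_and_mem_iff hvw).mp ⟨hve, hwe⟩)
      simp only [Set.mem_iUnion, SimpleGraph.mem_neighborSet]
      refine ⟨v, hvD, ?_⟩
      rw [hevw] at he
      exact he
  by_cases hfin1 : D₁.Finite
  · exact key D₁ hfin1 ⟨x₁, hx1D⟩ hD1R hno1
  · have hc := hCone D₁ hD1C (hlim.subset (hbdsub D₁ hD1R hno1))
    rcases hc with hc | hc
    · exact hfin1 hc
    · refine key D₂ (hc.subset ?_) ⟨x₂, hx2D⟩ hD2R hno2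
      intro v hv
      exact ⟨hD2C hv, fun hv1 => Set.disjoint_left.mp hdisj hv1 hv⟩

end Pool.Agent.Helper391.Lg
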