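import Pool.Agent.Helper391.Lg.Defs
import Pool.Agent.Helper391.Lg.P_lemX
import Pool.Agent.Helper391.Lg.P_extend
import Pool.Agent.Helper391.Lg.P_sep_reg



namespace Pool.Agent.Helper391.Lg
open Set


theorem pair_reg {V : Type*} (G : SimpleGraph V) (hfin : ∀ v, (G.neighborSet v).Finite)
    (h4 : ∀ P : Set V, P.Finite → P.Nonempty → 4 ≤ (bd G P).ncard)
    (F : Set V) (hF : F.Finite) (hI : Ipos G F) (C : Set V) (hCF : Disjoint C F) (hCinf : C.Infinite)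
    (hCone : ∀ Z ⊆ C, (bd G Z).Finite → Z.Finite ∨ (C \ Z).Finite)
    (hCe : ∀ e ∈ G.edgeSet, (∃ v ∈ e, v ∈ C) → ∀ v ∈ e, v ∈ F ∪ C)
    (K : Set V) (hK : K.Finite) (hKF : Disjoint K F) (x₁ x₂ : V) (h1 : x₁ ∈ C) (h2 : x₂ ∈ C) :
    ∃ L : Set V, L.Finite ∧ K ⊆ L ∧ x₁ ∈ L ∧ x₂ ∈ L ∧ Disjoint L F ∧ Ipos G (F ∪ L) ∧
      ∃ B, Good G F L B ∧ (SimpleGraph.fromEdgeSet (ins G L \ B)).Reachable x₁ x₂ := by
  obtain ⟨K', hK', hK'F, hsep⟩ := sep_reg G hfin h4 F hF hI C hCF hCinf hCone hCe x₁ x₂ h1 h2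
  have hx₁ : x₁ ∉ F := fun hx => Set.disjoint_left.1 hCF h1 hx
  have hx₂ : x₂ ∉ F := fun hx => Set.disjoint_left.1 hCF h2 hx
  have hfinU : (K ∪ K' ∪ {x₁, x₂}).Finite :=
    (hK.union hK').union ((Set.finite_singleton x₂).insert x₁)
  have hdisj : Disjoint (K ∪ K' ∪ {x₁, x₂}) F := by
    rw [Set.disjoint_left]
    rintro v ((hv | hv) | hv) hvF
    · exact Set.disjoint_left.1 hKF hv hvF
    · exact Set.disjoint_left.1 hK'F hv hvF
    · rcases hv with rfl | hv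
      · exact hx₁ hvF
      · rw [Set.mem_singleton_iff] at hv
        rw [hv] at hvF
        exact hx₂ hvF
  obtain ⟨L, hL, hKL, hLF, hIL⟩ := extend G hfin F hF hI (K ∪ K' ∪ {x₁, x₂}) hfinU hdisj
  have hx₁L : x₁ ∈ L := hKL (Or.inr (Or.inl rfl))
  have hx₂L : x₂ ∈ L := hKL (Or.inr (Or.inr rfl))
  refine ⟨L, hL, fun v hv => hKL (Or.inl (Or.inl hv)), hx₁L, hx₂L, hLF, hIL, ?_⟩
  apply lemX G hfin F L hL hLF x₁ x₂ hx₁L hx₂L
  · intro U hU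
    exact hI U (hL.subset hU) (Set.disjoint_of_subset_left hU hLF)
  · exact hsep L hL (fun v hv => hKL (Or.inl (Or.inr hv))) hLF

end Pool.Agent.Helper391.Lg
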