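import Pool.Agent.Helper391.Lg.Defs
import Pool.Agent.Helper391.Lg.P_inc_split
import Pool.Agent.Helper391.Lg.P_good_union
import Pool.Agent.Helper391.Lg.P_out_first
import Pool.Agent.Helper391.Lg.P_pair_reg
import Pool.Agent.Helper391.Lg.P_reg_mono



namespace Pool.Agent.Helper391.Lg
open Set


theorem sr_reach_mono {V : Type*} {T T' : Set (Sym2 V)} (h : T ⊆ T') {u v : V}
    (hr : (SimpleGraph.fromEdgeSet T).Reachable u v) :
    (SimpleGraph.fromEdgeSet T').Reachable u v :=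
  hr.mono (SimpleGraph.fromEdgeSet_mono h)

theorem sr_ins_mono {V : Type*} (G : SimpleGraph V) {X Y : Set V} (h : X ⊆ Y) :
    ins G X ⊆ ins G Y := fun _ he => ⟨he.1, fun v hv => h (he.2 v hv)⟩

/-- paths avoiding `F` stay in the region -/
theorem sr_stay {V : Type*} (G : SimpleGraph V) (F C : Set V) (T : Set (Sym2 V))
    (hCe : ∀ e ∈ G.edgeSet, (∃ v ∈ e, v ∈ C) → ∀ v ∈ e, v ∈ F ∪ C)
    (hT : ∀ e ∈ T, e ∈ G.edgeSet ∧ ∀ v ∈ e, v ∉ F) {u v : V}
    (hr : (SimpleGraph.fromEdgeSet T).Reachable u v) (hu : u ∈ C) : v ∈ C := by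
  obtain ⟨p⟩ := hr
  induction p with
  | nil => exact hu
  | @cons a b c hab p ih =>
    apply ih
    rw [SimpleGraph.fromEdgeSet_adj] at hab
    obtain ⟨h1, h2⟩ := hT _ hab.1
    have h3 := hCe _ h1 ⟨a, Sym2.mem_mk_left a b, hu⟩ b (Sym2.mem_mk_right a b)
    rcases h3 with h3 | h3
    · exact absurd h3 (h2 b (Sym2.mem_mk_right a b))
    · exact h3

/-- leaving `L` inside the region -/
theorem sr_exit {V : Type*} (G : SimpleGraph V) (F C L : Set V) (B : Set (Sym2 V))
    (hCe : ∀ e ∈ G.edgeSet, (∃ v ∈ e, v ∈ C) → ∀ v ∈ e, v ∈ F ∪ C)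
    (hg : Good G F L B) (v : V) (hv : v ∈ L) (hvC : v ∈ C) :
    ∃ a ∈ L, ∃ w, w ∉ L ∧ w ∈ C ∧ s(a, w) ∈ inc G F L \ B ∧
      (SimpleGraph.fromEdgeSet (ins G L \ B)).Reachable v a := by
  obtain ⟨a, ha, w, hw, hwF, he, hr⟩ := out_first G F L (inc G F L \ B) Set.sdiff_subset hg.outA v hv
  have haC : a ∈ C := by
    refine sr_stay G F C _ hCe ?_ hr hvC
    rintro e ⟨⟨⟨h1, h2, -⟩, -⟩, -⟩
    exact ⟨h1, h2⟩
  refine ⟨a, ha, w, hw, ?_, he, ?_⟩
  · rcases hCe _ he.1.1 ⟨a, Sym2.mem_mk_left a w, haC⟩ w (Sym2.mem_mk_right a w) with h | h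
    · exact absurd h hwF
    · exact h
  · refine sr_reach_mono (T := (inc G F L \ B) ∩ ins G L) ?_ hr
    rintro e ⟨⟨-, h1⟩, h2⟩
    exact ⟨h2, h1⟩

theorem stage_reg {V : Type*} (G : SimpleGraph V) (hfin : ∀ v, (G.neighborSet v).Finite)
    (h4 : ∀ P : Set V, P.Finite → P.Nonempty → 4 ≤ (bd G P).ncard)
    (F : Set V) {k : ℕ} (C : Fin k → Set V) (hR : Reg G F C) (hI : Ipos G F)
    (S : Set V) (hS : S.Finite) (hSF : Disjoint S F) :
    ∃ L : Set V, L.Finite ∧ S ⊆ L ∧ Disjoint L F ∧ Ipos G (F ∪ L) ∧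
      ∃ B, Good G F L B ∧ ∀ i, ∀ u ∈ S, u ∈ C i → ∀ v ∈ S, v ∈ C i →
        (SimpleGraph.fromEdgeSet (ins G L \ B)).Reachable u v := by
  classical
  revert hSF
  refine Set.Finite.induction_on S hS ?_ ?_
  · intro _
    refine ⟨∅, finite_empty, subset_rfl, by simp, by rwa [union_empty], ∅,
      ⟨empty_subset _, ?_, ?_⟩, ?_⟩
    · intro v hv; exact absurd hv (notMem_empty v)
    · intro v hv; exact absurd hv (notMem_empty v)
    · intro i u hu; exact absurd hu (notMem_empty u)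
  · intro s S' hs hS' ih hSF
    have hsF : s ∉ F := fun h => (Set.disjoint_left.1 hSF) (mem_insert s S') h
    have hS'F : Disjoint S' F := hSF.mono_left (subset_insert s S')
    obtain ⟨L1, hL1f, hSL1, hL1F, hI1, B1, hg1, hr1⟩ := ih hS'F
    obtain ⟨i, hi⟩ : ∃ i, s ∈ C i := by
      rcases hR.cover s with h | h
      · exact absurd h hsF
      · exact h
    have huniq : ∀ j, s ∈ C j → j = i := by
      intro j hj
      by_contra hne
      exact (Set.disjoint_left.1 (hR.disj j i hne)) hj hi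
    have hR1 := reg_mono G F C hR L1 hL1f
    have hCe1 : ∀ e ∈ G.edgeSet, (∃ v ∈ e, v ∈ C i) → ∀ v ∈ e, v ∈ F ∪ C i := hR.noedge i
    -- the common construction
    have hpair : ∀ x₁ x₂, x₁ ∈ C i \ L1 → x₂ ∈ C i \ L1 →
        ∃ L2 : Set V, L2.Finite ∧ x₁ ∈ L2 ∧ x₂ ∈ L2 ∧ Disjoint L2 (F ∪ L1) ∧
          Ipos G ((F ∪ L1) ∪ L2) ∧ ∃ B2, Good G (F ∪ L1) L2 B2 ∧
            (SimpleGraph.fromEdgeSet (ins G L2 \ B2)).Reachable x₁ x₂ := by
      intro x₁ x₂ hx1 hx2
      obtain ⟨L2, h1, -, h2, h3, h4', h5, B2, h6, h7⟩ := pair_reg G hfin h4 (F ∪ L1)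
        (hR.finF.union hL1f) hI1 (C i \ L1) (hR1.disjF i) (hR1.inf i) (hR1.one i) (hR1.noedge i)
        ∅ finite_empty (by simp) x₁ x₂ hx1 hx2
      exact ⟨L2, h1, h2, h3, h4', h5, B2, h6, h7⟩
    by_cases hex : ∃ s₀ ∈ S', s₀ ∈ C i
    · -- connect `s` to `s₀`
      obtain ⟨s₀, hs0, hs0C⟩ := hex
      obtain ⟨a₀, ha0, w₀, hw0, hw0C, he0, hra0⟩ := sr_exit G F (C i) L1 B1 hCe1 hg1 s₀
        (hSL1 hs0) hs0C
      -- the second point
      obtain ⟨w₁, hw1, hsw⟩ : ∃ w₁, w₁ ∈ C i \ L1 ∧ ∀ (L2 : Set V) (B2 : Set (Sym2 V)),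
          w₁ ∈ L2 → Disjoint L2 (F ∪ L1) → Good G (F ∪ L1) L2 B2 →
          (SimpleGraph.fromEdgeSet (ins G (L1 ∪ L2) \ (B1 ∪ B2))).Reachable w₁ s := by
        by_cases hsL : s ∈ L1
        · obtain ⟨a₁, ha1, w₁, hw1, hw1C, he1, hra1⟩ := sr_exit G F (C i) L1 B1 hCe1 hg1 s hsL hi
          refine ⟨w₁, ⟨hw1C, hw1⟩, ?_⟩
          intro L2 B2 hwL2 hd hg2
          obtain ⟨-, -, h3, -⟩ := inc_split G F L1 L2 B1 B2 hg1.sub hg2.sub
          have h5 : ins G L1 \ B1 ⊆ ins G (L1 ∪ L2) \ (B1 ∪ B2) := by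
            rw [← h3 L1 subset_rfl hL1F]
            exact Set.sdiff_subset_sdiff_left (sr_ins_mono G subset_union_left)
          have h6 : s(a₁, w₁) ∈ ins G (L1 ∪ L2) \ (B1 ∪ B2) := by
            refine ⟨⟨he1.1.1, ?_⟩, ?_⟩
            · intro v hv
              rcases Sym2.mem_iff.1 hv with rfl | rfl
              · exact Or.inl ha1
              · exact Or.inr hwL2
            · rintro (hb | hb)
              · exact he1.2 hb
              · exact (hg2.sub hb).2.1 a₁ (Sym2.mem_mk_left _ _) (Or.inr ha1)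
          have h7 : (SimpleGraph.fromEdgeSet (ins G (L1 ∪ L2) \ (B1 ∪ B2))).Adj a₁ w₁ := by
            rw [SimpleGraph.fromEdgeSet_adj]
            exact ⟨h6, fun h => hw1 (h ▸ ha1)⟩
          exact h7.reachable.symm.trans (sr_reach_mono h5 hra1).symm
        · exact ⟨s, ⟨hi, hsL⟩, fun _ _ _ _ _ => SimpleGraph.Reachable.refl _⟩
      obtain ⟨L2, hL2f, hw0L, hw1L, hd2, hI2, B2, hg2, hr2⟩ := hpair w₀ w₁ ⟨hw0C, hw0⟩ hw1
      obtain ⟨-, -, h3, h3'⟩ := inc_split G F L1 L2 B1 B2 hg1.sub hg2.sub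
      have h5 : ins G L1 \ B1 ⊆ ins G (L1 ∪ L2) \ (B1 ∪ B2) := by
        rw [← h3 L1 subset_rfl hL1F]
        exact Set.sdiff_subset_sdiff_left (sr_ins_mono G subset_union_left)
      have h5' : ins G L2 \ B2 ⊆ ins G (L1 ∪ L2) \ (B1 ∪ B2) := by
        rw [← h3' L2 subset_rfl hd2]
        exact Set.sdiff_subset_sdiff_left (sr_ins_mono G subset_union_right)
      have h6 : s(a₀, w₀) ∈ ins G (L1 ∪ L2) \ (B1 ∪ B2) := by
        refine ⟨⟨he0.1.1, ?_⟩, ?_⟩
        · intro v hv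
          rcases Sym2.mem_iff.1 hv with rfl | rfl
          · exact Or.inl ha0
          · exact Or.inr hw0L
        · rintro (hb | hb)
          · exact he0.2 hb
          · exact (hg2.sub hb).2.1 a₀ (Sym2.mem_mk_left _ _) (Or.inr ha0)
      have h7 : (SimpleGraph.fromEdgeSet (ins G (L1 ∪ L2) \ (B1 ∪ B2))).Adj a₀ w₀ := by
        rw [SimpleGraph.fromEdgeSet_adj]
        exact ⟨h6, fun h => hw0 (h ▸ ha0)⟩
      have hs0s : (SimpleGraph.fromEdgeSet (ins G (L1 ∪ L2) \ (B1 ∪ B2))).Reachable s₀ s :=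
        ((sr_reach_mono h5 hra0).trans h7.reachable).trans
          ((sr_reach_mono h5' hr2).trans (hsw L2 B2 hw1L hd2 hg2))
      -- `s ∈ L1 ∪ L2`
      have hsL : s ∈ L1 ∪ L2 := by
        by_contra hsn
        obtain ⟨p⟩ := hs0s.symm
        cases p with
        | nil => exact hsn (Or.inl (hSL1 hs0))
        | cons hab _ =>
          rw [SimpleGraph.fromEdgeSet_adj] at hab
          exact hsn (hab.1.1.2 s (Sym2.mem_mk_left _ _))
      refine ⟨L1 ∪ L2, hL1f.union hL2f, ?_, ?_, ?_, B1 ∪ B2,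
        good_union G F L1 L2 B1 B2 hL1F hd2 hg1 hg2, ?_⟩
      · exact insert_subset hsL (hSL1.trans subset_union_left)
      · rw [disjoint_union_left]
        exact ⟨hL1F, hd2.mono_right subset_union_left⟩
      · rwa [← union_assoc]
      · have hall : ∀ v ∈ insert s S', v ∈ C i →
            (SimpleGraph.fromEdgeSet (ins G (L1 ∪ L2) \ (B1 ∪ B2))).Reachable s₀ v := by
          intro v hv hvC
          rcases mem_insert_iff.1 hv with rfl | hv
          · exact hs0s
          · exact sr_reach_mono h5 (hr1 i s₀ hs0 hs0C v hv hvC)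
        intro j u hu huC v hv hvC
        rcases mem_insert_iff.1 hu with hu' | hu'
        · have hj : j = i := huniq j (hu' ▸ huC)
          subst hj
          exact (hall u hu huC).symm.trans (hall v hv hvC)
        · rcases mem_insert_iff.1 hv with hv' | hv'
          · have hj : j = i := huniq j (hv' ▸ hvC)
            subst hj
            exact (hall u hu huC).symm.trans (hall v hv hvC)
          · exact sr_reach_mono h5 (hr1 j u hu' huC v hv' hvC)
    · -- no other vertex in the region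
      have hno : ∀ v ∈ insert s S', v ∈ C i → v = s := by
        intro v hv hvC
        rcases mem_insert_iff.1 hv with h | h
        · exact h
        · exact absurd ⟨v, h, hvC⟩ hex
      by_cases hsL : s ∈ L1
      · refine ⟨L1, hL1f, insert_subset hsL hSL1, hL1F, hI1, B1, hg1, ?_⟩
        intro j u hu huC v hv hvC
        rcases mem_insert_iff.1 hu with hu' | hu'
        · have hj : j = i := huniq j (hu' ▸ huC)
          subst hj
          rw [hno u hu huC, hno v hv hvC]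
        · rcases mem_insert_iff.1 hv with hv' | hv'
          · have hj : j = i := huniq j (hv' ▸ hvC)
            subst hj
            rw [hno u hu huC, hno v hv hvC]
          · exact hr1 j u hu' huC v hv' hvC
      · obtain ⟨L2, hL2f, hsL2, -, hd2, hI2, B2, hg2, -⟩ := hpair s s ⟨hi, hsL⟩ ⟨hi, hsL⟩
        obtain ⟨-, -, h3, -⟩ := inc_split G F L1 L2 B1 B2 hg1.sub hg2.sub
        have h5 : ins G L1 \ B1 ⊆ ins G (L1 ∪ L2) \ (B1 ∪ B2) := by
          rw [← h3 L1 subset_rfl hL1F]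
          exact Set.sdiff_subset_sdiff_left (sr_ins_mono G subset_union_left)
        refine ⟨L1 ∪ L2, hL1f.union hL2f, ?_, ?_, ?_, B1 ∪ B2,
          good_union G F L1 L2 B1 B2 hL1F hd2 hg1 hg2, ?_⟩
        · exact insert_subset (Or.inr hsL2) (hSL1.trans subset_union_left)
        · rw [disjoint_union_left]
          exact ⟨hL1F, hd2.mono_right subset_union_left⟩
        · rwa [← union_assoc]
        · intro j u hu huC v hv hvC
          rcases mem_insert_iff.1 hu with hu' | hu'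
          · have hj : j = i := huniq j (hu' ▸ huC)
            subst hj
            rw [hno u hu huC, hno v hv hvC]
          · rcases mem_insert_iff.1 hv with hv' | hv'
            · have hj : j = i := huniq j (hv' ▸ hvC)
              subst hj
              rw [hno u hu huC, hno v hv hvC]
            · exact sr_reach_mono h5 (hr1 j u hu' huC v hv' hvC)

end Pool.Agent.Helper391.Lg
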