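import Pool.Agent.Helper391.Lg.Defs
import Pool.Agent.Helper391.Lg.P_reg_mono
import Pool.Agent.Helper391.Lg.P_stage_reg



namespace Pool.Agent.Helper391.Lg
open Set


theorem stages_step {V : Type*} (G : SimpleGraph V) (hfin : ∀ v, (G.neighborSet v).Finite)
    (h4 : ∀ P : Set V, P.Finite → P.Nonempty → 4 ≤ (bd G P).ncard)
    (F₀ : Set V) {k : ℕ} (C : Fin k → Set V)
    (hR : Reg G F₀ C) (F : Set V) (hF : F.Finite) (h0 : F₀ ⊆ F) (hI : Ipos G F) :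
    ∃ (F' : Set V) (B : Set (Sym2 V)), F'.Finite ∧ F₀ ⊆ F' ∧ Ipos G F' ∧ F ⊆ F' ∧
      Good G F (F' \ F) B ∧ (∀ u, u ∉ F → (∃ a ∈ F, G.Adj a u) → u ∈ F') ∧
      (∀ i, ∀ u ∈ C i, ∀ v ∈ C i, u ∉ F → v ∉ F → (∃ a ∈ F, G.Adj a u) →
        (∃ a ∈ F, G.Adj a v) →
        (SimpleGraph.fromEdgeSet (ins G (F' \ F) \ B)).Reachable u v) := by
  have hR' := reg_mono G F₀ C hR F hF
  rw [Set.union_eq_right.mpr h0] at hR'
  have hSfin : {u | u ∉ F ∧ ∃ a ∈ F, G.Adj a u}.Finite := by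
    refine (hF.biUnion (fun a _ => hfin a)).subset ?_
    rintro u ⟨-, a, ha, hau⟩
    exact Set.mem_biUnion ha hau
  have hSF : Disjoint {u | u ∉ F ∧ ∃ a ∈ F, G.Adj a u} F := by
    rw [Set.disjoint_left]
    rintro u ⟨hu, -⟩ hu'
    exact hu hu'
  obtain ⟨L, hL, hSL, hLF, hIL, B, hB, hreach⟩ := stage_reg G hfin h4 F _ hR' hI _ hSfin hSF
  have hdiff : (F ∪ L) \ F = L := by
    rw [Set.union_sdiff_left]
    exact hLF.sdiff_eq_left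
  refine ⟨F ∪ L, B, hF.union hL, h0.trans Set.subset_union_left, hIL, Set.subset_union_left, ?_, ?_, ?_⟩
  · rw [hdiff]; exact hB
  · intro u hu ha
    exact Or.inr (hSL ⟨hu, ha⟩)
  · intro i u hu v hv huF hvF hau hav
    rw [hdiff]
    exact hreach i u ⟨huF, hau⟩ ⟨hu, huF⟩ v ⟨hvF, hav⟩ ⟨hv, hvF⟩

theorem stages_reg {V : Type*} (G : SimpleGraph V) (hfin : ∀ v, (G.neighborSet v).Finite)
    (h4 : ∀ P : Set V, P.Finite → P.Nonempty → 4 ≤ (bd G P).ncard)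
    (hconn : ∀ u v, G.Reachable u v) (F₀ : Set V) (hne : F₀.Nonempty) {k : ℕ} (C : Fin k → Set V)
    (hR : Reg G F₀ C) (hI : Ipos G F₀) :
    ∃ (F : ℕ → Set V) (B : ℕ → Set (Sym2 V)), F 0 = F₀ ∧ (∀ n, (F n).Finite) ∧
      (∀ n, F n ⊆ F (n + 1)) ∧ (∀ v, ∃ n, v ∈ F n) ∧
      (∀ n, Good G (F n) (F (n + 1) \ F n) (B n)) ∧
      (∀ n, ∀ u, u ∉ F n → (∃ a ∈ F n, G.Adj a u) → u ∈ F (n + 1)) ∧
      (∀ n i, ∀ u ∈ C i, ∀ v ∈ C i, u ∉ F n → v ∉ F n → (∃ a ∈ F n, G.Adj a u) →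
        (∃ a ∈ F n, G.Adj a v) →
        (SimpleGraph.fromEdgeSet (ins G (F (n + 1) \ F n) \ B n)).Reachable u v) := by
  classical
  let St := {F : Set V // F.Finite ∧ F₀ ⊆ F ∧ Ipos G F}
  have hstep : ∀ s : St, ∃ (s' : St) (B : Set (Sym2 V)), s.1 ⊆ s'.1 ∧
      Good G s.1 (s'.1 \ s.1) B ∧ (∀ u, u ∉ s.1 → (∃ a ∈ s.1, G.Adj a u) → u ∈ s'.1) ∧
      (∀ i, ∀ u ∈ C i, ∀ v ∈ C i, u ∉ s.1 → v ∉ s.1 → (∃ a ∈ s.1, G.Adj a u) →
        (∃ a ∈ s.1, G.Adj a v) →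
        (SimpleGraph.fromEdgeSet (ins G (s'.1 \ s.1) \ B)).Reachable u v) := by
    intro s
    obtain ⟨F', B, a1, a2, a3, a4, a5, a6, a7⟩ :=
      stages_step G hfin h4 F₀ C hR s.1 s.2.1 s.2.2.1 s.2.2.2
    exact ⟨⟨F', a1, a2, a3⟩, B, a4, a5, a6, a7⟩
  choose f B h1 h2 h3 h5 using hstep
  let st : ℕ → St := fun n => Nat.rec ⟨F₀, hR.finF, subset_rfl, hI⟩ (fun _ s => f s) n
  have hst : ∀ n, st (n + 1) = f (st n) := fun n => rfl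
  refine ⟨fun n => (st n).1, fun n => B (st n), rfl, fun n => (st n).2.1, fun n => h1 (st n), ?_,
    fun n => h2 (st n), fun n => h3 (st n), fun n => h5 (st n)⟩
  obtain ⟨v0, hv0⟩ := hne
  have key : ∀ u v : V, G.Walk u v → (∃ n, u ∈ (st n).1) → ∃ n, v ∈ (st n).1 := by
    intro u v p
    induction p with
    | nil => exact id
    | cons hadj p ih =>
      rename_i a b c
      rintro ⟨n, hn⟩
      apply ih
      by_cases hb : b ∈ (st n).1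
      · exact ⟨n, hb⟩
      · exact ⟨n + 1, h3 (st n) b hb ⟨a, hn, hadj⟩⟩
  intro v
  obtain ⟨p⟩ := hconn v0 v
  exact key v0 v p ⟨0, hv0⟩

end Pool.Agent.Helper391.Lg
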