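import Pool.Agent.Helper391.Lg.Defs
import Pool.Agent.Helper391.Lg.P_stages_reg
import Pool.Agent.Helper391.Lg.P_reach_out_reg



namespace Pool.Agent.Helper391.Lg
open Set


theorem dreg_stay {V : Type*} (G : SimpleGraph V) (F₀ : Set V) {k : ℕ} (C : Fin k → Set V)
    (hR : Reg G F₀ C) (i : Fin k) (T : Set (Sym2 V)) (hT : ∀ e ∈ T, e ∈ G.edgeSet ∧ ∀ x ∈ e, x ∉ F₀)
    (u w : V) (hu : u ∈ C i) (h : (SimpleGraph.fromEdgeSet T).Reachable u w) : w ∈ C i := by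
  obtain ⟨p⟩ := h
  induction p with
  | nil => exact hu
  | cons hadj p ih =>
    apply ih
    rw [SimpleGraph.fromEdgeSet_adj] at hadj
    have h1 := hT _ hadj.1
    have h2 := hR.noedge i _ h1.1 ⟨_, Sym2.mem_mk_left _ _, hu⟩ _ (Sym2.mem_mk_right _ _)
    rcases h2 with h2 | h2
    · exact absurd h2 (h1.2 _ (Sym2.mem_mk_right _ _))
    · exact h2

theorem dreg_reach_mono {V : Type*} (T T' : Set (Sym2 V)) (h : T ⊆ T') (u v : V)
    (hr : (SimpleGraph.fromEdgeSet T).Reachable u v) : (SimpleGraph.fromEdgeSet T').Reachable u v :=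
  hr.mono (SimpleGraph.fromEdgeSet_mono h)

theorem dreg_fin {V : Type*} (F : ℕ → Set V) (hmono : ∀ n, F n ⊆ F (n + 1)) (hex : ∀ v, ∃ n, v ∈ F n)
    (S : Set V) (hS : S.Finite) : ∃ n, S ⊆ F n := by
  have hm : Monotone F := monotone_nat_of_le_succ hmono
  induction S, hS using Set.Finite.induction_on with
  | empty => exact ⟨0, Set.empty_subset _⟩
  | insert _ _ ih =>
    obtain ⟨n, hn⟩ := ih
    rename_i a s _ _
    obtain ⟨m, hm'⟩ := hex a
    refine ⟨max n m, ?_⟩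
    intro x hx
    rcases hx with rfl | hx
    · exact hm (le_max_right n m) hm'
    · exact hm (le_max_left n m) (hn hx)

theorem decomp_reg {V : Type*} (G : SimpleGraph V) (hfin : ∀ v, (G.neighborSet v).Finite)
    (h4 : ∀ P : Set V, P.Finite → P.Nonempty → 4 ≤ (bd G P).ncard)
    (hconn : ∀ u v, G.Reachable u v) (F₀ : Set V) (hne : F₀.Nonempty) {k : ℕ} (C : Fin k → Set V)
    (hR : Reg G F₀ C) (hI : Ipos G F₀) :
    ∃ A B : Set (Sym2 V), A ∪ B = {e | e ∈ G.edgeSet ∧ ∀ x ∈ e, x ∉ F₀} ∧ Disjoint A B ∧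
      (∀ v, v ∉ F₀ → ∀ S : Set V, S.Finite → ∃ w, w ∉ S ∧ (SimpleGraph.fromEdgeSet B).Reachable v w) ∧
      (∀ i, ∀ u ∈ C i, ∀ v ∈ C i, (SimpleGraph.fromEdgeSet A).Reachable u v) ∧
      (∀ i, ∀ S : Set V, S.Finite → ∃ K : Set V, K.Finite ∧ S ⊆ K ∧ ∀ u ∈ C i \ K, ∀ v ∈ C i \ K,
        (SimpleGraph.fromEdgeSet {e | e ∈ A ∧ ∀ x ∈ e, x ∉ K}).Reachable u v) := by
  obtain ⟨F, B, h0, hfinF, hmono, hex, hgood, hnb, hcn⟩ := stages_reg G hfin h4 hconn F₀ hne C hR hI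
  have hm : Monotone F := monotone_nat_of_le_succ hmono
  have hF0 : ∀ n, F₀ ⊆ F n := fun n => by rw [← h0]; exact hm (Nat.zero_le n)
  -- disjointness of the layers
  have hlay : ∀ n m e, n < m → e ∈ inc G (F n) (F (n + 1) \ F n) →
      e ∈ inc G (F m) (F (m + 1) \ F m) → False := by
    intro n m e hnm h1 h2
    obtain ⟨v, hv, hv2⟩ := h1.2.2
    exact h2.2.1 v hv (hm (Nat.succ_le_of_lt hnm) hv2.1)
  have hnotB : ∀ n e, e ∈ inc G (F n) (F (n + 1) \ F n) → e ∉ B n → e ∉ ⋃ m, B m := by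
    intro n e he hnB hU
    rw [Set.mem_iUnion] at hU
    obtain ⟨m, hmB⟩ := hU
    have hmI := (hgood m).sub hmB
    rcases lt_trichotomy n m with h | h | h
    · exact hlay n m e h he hmI
    · subst h; exact hnB hmB
    · exact hlay m n e h hmI he
  set A : Set (Sym2 V) := {e | (e ∈ G.edgeSet ∧ ∀ x ∈ e, x ∉ F₀) ∧ e ∉ ⋃ m, B m} with hA
  have hIA : ∀ n e, e ∈ inc G (F n) (F (n + 1) \ F n) \ B n → e ∈ A := by
    intro n e he
    refine ⟨⟨he.1.1, fun x hx hx2 => he.1.2.1 x hx (hF0 n hx2)⟩, hnotB n e he.1 he.2⟩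
  have hinsA : ∀ n e, e ∈ ins G (F (n + 1) \ F n) \ B n → e ∈ A := by
    intro n e he
    apply hIA n e
    refine ⟨⟨he.1.1, fun v hv => (he.1.2 v hv).2, ?_⟩, he.2⟩
    induction e using Sym2.ind with
    | _ a b => exact ⟨a, Sym2.mem_mk_left a b, he.1.2 a (Sym2.mem_mk_left a b)⟩
  refine ⟨A, ⋃ m, B m, ?_, ?_, ?_, ?_, ?_⟩
  · ext e
    constructor
    · rintro (h | h)
      · exact h.1
      · rw [Set.mem_iUnion] at h
        obtain ⟨m, hmB⟩ := h
        have hmI := (hgood m).sub hmB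
        exact ⟨hmI.1, fun x hx hx2 => hmI.2.1 x hx (hF0 m hx2)⟩
    · intro h
      by_cases hB : e ∈ ⋃ m, B m
      · exact Or.inr hB
      · exact Or.inl ⟨h, hB⟩
  · rw [Set.disjoint_left]
    intro e h1 h2
    exact h1.2 h2
  · intro v hv S hS
    obtain ⟨n, hn⟩ := dreg_fin F hmono hex (insert v S) (hS.insert v)
    obtain ⟨w, hw, _, hr⟩ := reach_out_reg G F B hmono (fun n => (hgood n).sub)
      (fun n => (hgood n).outB) hnb 0 n v (hn (Set.mem_insert v S)) (by rw [h0]; exact hv)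
    refine ⟨w, fun hwS => hw (hn (Set.mem_insert_of_mem v hwS)), ?_⟩
    apply dreg_reach_mono _ _ _ _ _ hr
    rintro e ⟨⟨i, hi⟩, _⟩
    exact Set.mem_iUnion.mpr ⟨i, hi⟩
  · intro i u hu v hv
    obtain ⟨n, hn⟩ := dreg_fin F hmono hex {u, v} (by simp)
    have hu0 : u ∉ F 0 := by
      rw [h0]; exact fun h => Set.disjoint_left.mp (hR.disjF i) hu h
    have hv0 : v ∉ F 0 := by
      rw [h0]; exact fun h => Set.disjoint_left.mp (hR.disjF i) hv h
    have hsub : {e | (∃ j, e ∈ inc G (F j) (F (j + 1) \ F j) \ B j) ∧ ∀ x ∈ e, x ∉ F 0} ⊆ A := by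
      rintro e ⟨⟨j, hj⟩, _⟩
      exact hIA j e hj
    have hAT : ∀ e ∈ A, e ∈ G.edgeSet ∧ ∀ x ∈ e, x ∉ F₀ := fun e he => he.1
    obtain ⟨wu, hwu, hau, hru⟩ := reach_out_reg G F (fun j => inc G (F j) (F (j + 1) \ F j) \ B j) hmono
      (fun n => Set.diff_subset) (fun n => (hgood n).outA) hnb 0 n u (hn (by simp)) hu0
    obtain ⟨wv, hwv, hav, hrv⟩ := reach_out_reg G F (fun j => inc G (F j) (F (j + 1) \ F j) \ B j) hmono
      (fun n => Set.diff_subset) (fun n => (hgood n).outA) hnb 0 n v (hn (by simp)) hv0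
    have hru' := dreg_reach_mono _ _ hsub _ _ hru
    have hrv' := dreg_reach_mono _ _ hsub _ _ hrv
    have hwuC := dreg_stay G F₀ C hR i A hAT u wu hu hru'
    have hwvC := dreg_stay G F₀ C hR i A hAT v wv hv hrv'
    have h1 := hcn n i wu hwuC wv hwvC hwu hwv hau hav
    have h2 := dreg_reach_mono _ A (fun e he => hinsA n e he) _ _ h1
    exact (hru'.trans h2).trans hrv'.symm
  · intro i S hS
    obtain ⟨m, hSm⟩ := dreg_fin F hmono hex S hS
    refine ⟨F m, hfinF m, hSm, ?_⟩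
    intro u hu v hv
    obtain ⟨n', hn'⟩ := dreg_fin F hmono hex {u, v} (by simp)
    obtain ⟨n, hmn, hn⟩ : ∃ n, m ≤ n ∧ {u, v} ⊆ F n :=
      ⟨max m n', le_max_left _ _, hn'.trans (hm (le_max_right _ _))⟩
    have hsub : {e | (∃ j, e ∈ inc G (F j) (F (j + 1) \ F j) \ B j) ∧ ∀ x ∈ e, x ∉ F m} ⊆
        {e | e ∈ A ∧ ∀ x ∈ e, x ∉ F m} := by
      rintro e ⟨⟨j, hj⟩, h2⟩
      exact ⟨hIA j e hj, h2⟩
    have hAT : ∀ e ∈ {e | e ∈ A ∧ ∀ x ∈ e, x ∉ F m}, e ∈ G.edgeSet ∧ ∀ x ∈ e, x ∉ F₀ :=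
      fun e he => he.1.1
    obtain ⟨wu, hwu, hau, hru⟩ := reach_out_reg G F (fun j => inc G (F j) (F (j + 1) \ F j) \ B j) hmono
      (fun n => Set.diff_subset) (fun n => (hgood n).outA) hnb m n u (hn (by simp)) hu.2
    obtain ⟨wv, hwv, hav, hrv⟩ := reach_out_reg G F (fun j => inc G (F j) (F (j + 1) \ F j) \ B j) hmono
      (fun n => Set.diff_subset) (fun n => (hgood n).outA) hnb m n v (hn (by simp)) hv.2
    have hru' := dreg_reach_mono _ _ hsub _ _ hru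
    have hrv' := dreg_reach_mono _ _ hsub _ _ hrv
    have hwuC := dreg_stay G F₀ C hR i _ hAT u wu hu.1 hru'
    have hwvC := dreg_stay G F₀ C hR i _ hAT v wv hv.1 hrv'
    have h1 := hcn n i wu hwuC wv hwvC hwu hwv hau hav
    have h2 := dreg_reach_mono _ {e | e ∈ A ∧ ∀ x ∈ e, x ∉ F m}
      (fun e he => ⟨hinsA n e he, fun x hx hx2 => (he.1.2 x hx).2 (hm hmn hx2)⟩) _ _ h1
    exact (hru'.trans h2).trans hrv'.symm

end Pool.Agent.Helper391.Lg
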