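import Pool.Agent.Helper391.Lg.Defs
import Pool.Agent.Helper391.Lg.P_out_first



namespace Pool.Agent.Helper391.Lg
open Set


/-- leaving `F n` with edges of the layers `m, …, n - 1` -/
theorem reach_out {V : Type*} (G : SimpleGraph V) (F : ℕ → Set V) (T : ℕ → Set (Sym2 V))
    (hF0 : F 0 = ∅) (hmono : ∀ n, F n ⊆ F (n + 1))
    (hT : ∀ n, T n ⊆ inc G (F n) (F (n + 1) \ F n)) (hO : ∀ n, Out (T n) (F (n + 1) \ F n))
    (hnb : ∀ n, ∀ u, u ∉ F n → (∃ a ∈ F n, G.Adj a u) → u ∈ F (n + 1))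
    (m n : ℕ) (v : V) (hv : v ∈ F n) (hvm : v ∉ F m) :
    ∃ w, w ∉ F n ∧ (∃ a ∈ F n, G.Adj a w) ∧
      (SimpleGraph.fromEdgeSet {e | (∃ i, e ∈ T i) ∧ ∀ x ∈ e, x ∉ F m}).Reachable v w := by
  have hm : ∀ i j, i ≤ j → F i ⊆ F j := fun i j hij => monotone_nat_of_le_succ hmono hij
  induction n generalizing v with
  | zero =>
    rw [hF0] at hv
    exact absurd hv (Set.notMem_empty v)
  | succ n ih =>
    have hmn : m ≤ n := by
      by_contra h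
      exact hvm (hm (n + 1) m (by omega) hv)
    have key : ∃ w ∈ F (n + 1) \ F n, (SimpleGraph.fromEdgeSet
        {e | (∃ i, e ∈ T i) ∧ ∀ x ∈ e, x ∉ F m}).Reachable v w := by
      by_cases hvn : v ∈ F n
      · obtain ⟨w, hw, hadj, hr⟩ := ih v hvn hvm
        exact ⟨w, ⟨hnb n w hw hadj, hw⟩, hr⟩
      · exact ⟨v, ⟨hv, hvn⟩, SimpleGraph.Reachable.refl v⟩
    obtain ⟨w, hw, hr⟩ := key
    obtain ⟨a, ha, w', hw', hw'F, he, hr'⟩ :=
      out_first G (F n) (F (n + 1) \ F n) (T n) (hT n) (hO n) w hw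
    have hinc := hT n he
    have hadj : G.Adj a w' := hinc.1
    refine ⟨w', fun h => hw' ⟨h, hw'F⟩, ⟨a, ha.1, hadj⟩, ?_⟩
    have h1 : (SimpleGraph.fromEdgeSet
        {e | (∃ i, e ∈ T i) ∧ ∀ x ∈ e, x ∉ F m}).Reachable w a := by
      refine hr'.mono (SimpleGraph.fromEdgeSet_mono ?_)
      intro e he'
      exact ⟨⟨n, he'.1⟩, fun x hx hxm => (he'.2.2 x hx).2 (hm m n hmn hxm)⟩
    have h2 : (SimpleGraph.fromEdgeSet
        {e | (∃ i, e ∈ T i) ∧ ∀ x ∈ e, x ∉ F m}).Adj a w' := by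
      rw [SimpleGraph.fromEdgeSet_adj]
      refine ⟨⟨⟨n, he⟩, fun x hx hxm => hinc.2.1 x hx (hm m n hmn hxm)⟩, hadj.ne⟩
    exact (hr.trans h1).trans h2.reachable

end Pool.Agent.Helper391.Lg
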