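import Pool.Agent.Helper391.Lg.Defs
import Pool.Agent.Helper391.Lg.P_h_bd



namespace Pool.Agent.Helper391.Lg
open Set


theorem ipos_empty {V : Type*} (G : SimpleGraph V) (hfin : ∀ v, (G.neighborSet v).Finite)
    (h4 : ∀ P : Set V, P.Finite → P.Nonempty → 4 ≤ (bd G P).ncard) : Ipos G ∅ := by
  intro U hU _
  have h1 := h_bd G hfin h4 ∅ U Set.finite_empty hU (Set.disjoint_empty U)
  have h2 : bd G ∅ = ∅ := by
    ext e
    simp [bd]
  rw [h2, Set.ncard_empty] at h1
  have h3 : (0 : ℤ) ≤ ((bd G (∅ ∪ U)).ncard : ℤ) := Int.natCast_nonneg _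
  push_cast at h1
  linarith

end Pool.Agent.Helper391.Lg
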