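import Pool.Agent.Helper391.Lg.Defs



namespace Pool.Agent.Helper391.Lg
open Set


theorem h940_finmem' {V : Type*} (e : Sym2 V) : {v | v ∈ e}.Finite := by
  induction e using Sym2.ind with
  | _ a b =>
    have : {v | v ∈ s(a, b)} = {a, b} := by
      ext v; simp
    rw [this]
    exact Set.toFinite _

theorem dichotomy {V : Type*} (G : SimpleGraph V) (hone : OneEnd G) (Z : Set V)
    (hZ : (bd G Z).Finite) : Z.Finite ∨ Zᶜ.Finite := by
  have hS : (⋃ e ∈ bd G Z, {v | v ∈ e}).Finite := hZ.biUnion fun e _ => h940_finmem' e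
  obtain ⟨K, hK, hSK, hreach⟩ := hone _ hS
  have hstep : ∀ a b, (SimpleGraph.fromEdgeSet {e | e ∈ G.edgeSet ∧
      ∀ x ∈ e, x ∉ ⋃ e ∈ bd G Z, {v | v ∈ e}}).Adj a b → (a ∈ Z ↔ b ∈ Z) := by
    intro a b hab
    rw [SimpleGraph.fromEdgeSet_adj] at hab
    obtain ⟨⟨he, hx⟩, hne⟩ := hab
    have key : s(a, b) ∉ bd G Z := by
      intro hbd
      refine hx a (Sym2.mem_mk_left a b) ?_
      rw [mem_iUnion₂]
      exact ⟨s(a, b), hbd, Sym2.mem_mk_left a b⟩
    constructor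
    · intro ha
      by_contra hb
      exact key ⟨he, ⟨a, Sym2.mem_mk_left a b, ha⟩, ⟨b, Sym2.mem_mk_right a b, hb⟩⟩
    · intro hb
      by_contra ha
      exact key ⟨he, ⟨b, Sym2.mem_mk_right a b, hb⟩, ⟨a, Sym2.mem_mk_left a b, ha⟩⟩
  have hwalk : ∀ a b, (SimpleGraph.fromEdgeSet {e | e ∈ G.edgeSet ∧
      ∀ x ∈ e, x ∉ ⋃ e ∈ bd G Z, {v | v ∈ e}}).Reachable a b → (a ∈ Z ↔ b ∈ Z) := by
    rintro a b ⟨w⟩
    induction w with
    | nil => exact Iff.rfl
    | cons h _ ih => exact (hstep _ _ h).trans ih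
  by_cases hex : ∃ u, u ∉ K ∧ u ∈ Z
  · right
    obtain ⟨u, hu, huZ⟩ := hex
    refine hK.subset ?_
    intro v hv
    by_contra hvK
    exact hv ((hwalk u v (hreach u hu v hvK)).1 huZ)
  · left
    refine hK.subset ?_
    intro v hv
    by_contra hvK
    exact hex ⟨v, hvK, hv⟩

end Pool.Agent.Helper391.Lg
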