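import Pool.Agent.Helper391.Lg.Defs
import Pool.Agent.Helper391.Lg.P_inc_finite
import Pool.Agent.Helper391.Lg.P_comp_exists
import Pool.Agent.Helper391.Lg.P_h_bd
import Pool.Agent.Helper391.Lg.P_pocket
import Pool.Agent.Helper391.Lg.P_dichotomy
import Pool.Agent.Helper391.Lg.P_limit_set



namespace Pool.Agent.Helper391.Lg
open Set


theorem sep_claim_fin {V : Type*} (G : SimpleGraph V) (hfin : ∀ v, (G.neighborSet v).Finite)
    (F : Set V) (hI : Ipos G F) (𝒰 : Ultrafilter (Finset V)) (U : Finset V → Set V)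
    (hU : ∀ K, (U K).Finite) (hUF : ∀ K, Disjoint (U K) F) (hh : ∀ K, h G F (U K) = 0)
    (C : Set V) (hC : C.Finite) (hne : C.Nonempty)
    (hCS : C ⊆ (F ∪ {v | ∀ᶠ K in 𝒰, v ∈ U K})ᶜ)
    (hedge : ∀ e ∈ G.edgeSet, (∃ v ∈ e, v ∈ C) →
      ¬ ∃ v ∈ e, v ∈ (F ∪ {v | ∀ᶠ K in 𝒰, v ∈ U K})ᶜ \ C) : False := by
  classical
  let W : Set V := {w | w ∉ C ∧ ∃ c ∈ C, G.Adj c w}
  have hW : W.Finite := by
    refine (hC.biUnion (t := fun c => G.neighborSet c) (fun c _ => hfin c)).subset ?_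
    rintro w ⟨_, c, hc, hcw⟩
    exact Set.mem_biUnion hc hcw
  have hWin : ∀ w ∈ W, w ∈ F ∪ {v | ∀ᶠ K in 𝒰, v ∈ U K} := by
    rintro w ⟨hwC, c, hc, hcw⟩
    by_contra hw
    exact hedge s(c, w) hcw ⟨c, Sym2.mem_mk_left c w, hc⟩ ⟨w, Sym2.mem_mk_right c w, hw, hwC⟩
  have e1 : ∀ᶠ K in (𝒰 : Filter (Finset V)), ∀ v ∈ C, v ∉ U K := by
    rw [Filter.eventually_all_finite hC]
    intro v hv
    have h1 : v ∉ {v | ∀ᶠ K in 𝒰, v ∈ U K} := fun hh => hCS hv (Or.inr hh)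
    exact Ultrafilter.eventually_not.mpr h1
  have e2 : ∀ᶠ K in (𝒰 : Filter (Finset V)), ∀ w ∈ W, w ∈ F ∪ U K := by
    rw [Filter.eventually_all_finite hW]
    intro w hw
    rcases hWin w hw with h1 | h1
    · exact Filter.Eventually.of_forall fun K => Or.inl h1
    · have h2 : ∀ᶠ K in (𝒰 : Filter (Finset V)), w ∈ U K := h1
      exact h2.mono fun K hK => Or.inr hK
  obtain ⟨K, hK1, hK2⟩ := (e1.and e2).exists
  refine pocket G hfin F (U K) C hI (hU K) (hUF K) (hh K) hC hne ?_ ?_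
  · rw [Set.disjoint_left]
    intro v hv hv2
    rcases hv2 with hv2 | hv2
    · exact hCS hv (Or.inl hv2)
    · exact hK1 v hv hv2
  · intro e he hv v hve
    obtain ⟨c, hce, hc⟩ := hv
    by_cases hvC : v ∈ C
    · exact Or.inr hvC
    · have hcv : c ≠ v := fun h => hvC (h ▸ hc)
      have hes : e = s(c, v) := (Sym2.mem_and_mem_iff hcv).mp ⟨hce, hve⟩
      have hadj : G.Adj c v := by rw [hes] at he; exact he
      exact Or.inl (hK2 v ⟨hvC, c, hc, hadj⟩)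

theorem sep_claim {V : Type*} [Infinite V] (G : SimpleGraph V) (hfin : ∀ v, (G.neighborSet v).Finite)
    (h4 : ∀ P : Set V, P.Finite → P.Nonempty → 4 ≤ (bd G P).ncard) (hone : OneEnd G)
    (F : Set V) (hF : F.Finite) (hI : Ipos G F) (x₁ x₂ : V) (h1 : x₁ ∉ F) (h2 : x₂ ∉ F) :
    ∃ K : Set V, K.Finite ∧ Disjoint K F ∧ ∀ L : Set V, L.Finite → K ⊆ L → Disjoint L F →
      ∀ U ⊆ L, x₁ ∉ U → x₂ ∉ U → h G F U = 0 →
        (SimpleGraph.fromEdgeSet (ins G (L \ U))).Reachable x₁ x₂ := by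
  classical
  by_contra hcon
  have hc : ∀ K : Finset V, ∃ L : Set V, L.Finite ∧ (↑K \ F : Set V) ⊆ L ∧ Disjoint L F ∧
      ∃ U ⊆ L, x₁ ∉ U ∧ x₂ ∉ U ∧ h G F U = 0 ∧
        ¬ (SimpleGraph.fromEdgeSet (ins G (L \ U))).Reachable x₁ x₂ := by
    intro K
    by_contra hK
    apply hcon
    refine ⟨(↑K \ F : Set V), K.finite_toSet.subset Set.diff_subset, Set.disjoint_sdiff_left, ?_⟩
    intro L hL hKL hLF U hUL hx1 hx2 hh
    by_contra hr
    exact hK ⟨L, hL, hKL, hLF, U, hUL, hx1, hx2, hh, hr⟩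
  choose L hLf hKL hLF U hUL hx1 hx2 hh hnr using hc
  have hUf : ∀ K, (U K).Finite := fun K => (hLf K).subset (hUL K)
  have hUF : ∀ K, Disjoint (U K) F := fun K => (hLF K).mono_left (hUL K)
  have hN : ∀ K, (bd G (F ∪ U K)).ncard ≤ (bd G F).ncard := by
    intro K
    have := h_bd G hfin h4 F (U K) hF (hUf K) (hUF K)
    rw [hh K] at this
    omega
  let 𝒰 : Ultrafilter (Finset V) := Ultrafilter.of (Filter.atTop : Filter (Finset V))
  have h𝒰 : (𝒰 : Filter (Finset V)) ≤ Filter.atTop := Ultrafilter.of_le _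
  have hlim := limit_set G hfin F hF 𝒰 U (bd G F).ncard hUf hN
  have hx1R : x₁ ∈ (F ∪ {v | ∀ᶠ K in 𝒰, v ∈ U K})ᶜ := by
    rintro (h | h)
    · exact h1 h
    · have h' : ∀ᶠ K in (𝒰 : Filter (Finset V)), x₁ ∈ U K := h
      obtain ⟨K, hK⟩ := h'.exists
      exact hx1 K hK
  have hx2R : x₂ ∈ (F ∪ {v | ∀ᶠ K in 𝒰, v ∈ U K})ᶜ := by
    rintro (h | h)
    · exact h2 h
    · have h' : ∀ᶠ K in (𝒰 : Filter (Finset V)), x₂ ∈ U K := h
      obtain ⟨K, hK⟩ := h'.exists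
      exact hx2 K hK
  set R : Set V := (F ∪ {v | ∀ᶠ K in 𝒰, v ∈ U K})ᶜ with hR
  have hev : ∀ v ∈ R, ∀ᶠ K in (𝒰 : Filter (Finset V)), v ∈ L K \ U K := by
    intro v hv
    have hvF : v ∉ F := fun h => hv (Or.inl h)
    have e1 : ∀ᶠ K in (𝒰 : Filter (Finset V)), v ∈ L K := by
      apply h𝒰
      filter_upwards [Filter.eventually_ge_atTop ({v} : Finset V)] with K hK
      exact hKL K ⟨hK (Finset.mem_singleton_self v), hvF⟩
    have e2 : ∀ᶠ K in (𝒰 : Filter (Finset V)), v ∉ U K := by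
      have h1 : v ∉ {v | ∀ᶠ K in 𝒰, v ∈ U K} := fun hh => hv (Or.inr hh)
      exact Ultrafilter.eventually_not.mpr h1
    exact e1.and e2
  have hreach : ∀ u v, (SimpleGraph.fromEdgeSet (ins G R)).Reachable u v →
      ∀ᶠ K in (𝒰 : Filter (Finset V)),
        (SimpleGraph.fromEdgeSet (ins G (L K \ U K))).Reachable u v := by
    intro u v huv
    obtain ⟨p⟩ := huv
    induction p with
    | nil => exact Filter.Eventually.of_forall fun K => SimpleGraph.Reachable.refl _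
    | cons hadj p ih =>
      rename_i a b c
      rw [SimpleGraph.fromEdgeSet_adj] at hadj
      obtain ⟨⟨hG, hin⟩, hne⟩ := hadj
      have ha := hev a (hin a (Sym2.mem_mk_left a b))
      have hb := hev b (hin b (Sym2.mem_mk_right a b))
      filter_upwards [ha, hb, ih] with K hKa hKb hK
      refine SimpleGraph.Reachable.trans (SimpleGraph.Adj.reachable ?_) hK
      rw [SimpleGraph.fromEdgeSet_adj]
      refine ⟨⟨hG, ?_⟩, hne⟩
      intro x hx
      rcases Sym2.mem_iff.mp hx with rfl | rfl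
      · exact hKa
      · exact hKb
  obtain ⟨C1, hC1S, hx1C, -, hedge1, hmem1⟩ := comp_exists G R x₁ hx1R
  obtain ⟨C2, hC2S, hx2C, -, hedge2, hmem2⟩ := comp_exists G R x₂ hx2R
  have hnot : ¬ (SimpleGraph.fromEdgeSet (ins G R)).Reachable x₁ x₂ := by
    intro hr
    obtain ⟨K, hK⟩ := (hreach x₁ x₂ hr).exists
    exact hnr K hK
  have hdisj : Disjoint C1 C2 := by
    rw [Set.disjoint_left]
    intro y hy1 hy2
    have r1 := ((hmem1 y).mp hy1).2
    have r2 := ((hmem2 y).mp hy2).2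
    exact hnot (r1.trans r2.symm)
  have hb : ∀ C : Set V, C ⊆ R → (∀ e ∈ G.edgeSet, (∃ v ∈ e, v ∈ C) → ¬ ∃ v ∈ e, v ∈ R \ C) →
      (bd G C).Finite := by
    intro C hCR hedge
    refine hlim.subset ?_
    rintro e ⟨he, ⟨v, hve, hvC⟩, ⟨w, hwe, hwC⟩⟩
    refine ⟨he, ⟨w, hwe, ?_⟩, ⟨v, hve, hCR hvC⟩⟩
    by_contra hw
    exact hedge e he ⟨v, hve, hvC⟩ ⟨w, hwe, hw, hwC⟩
  have hfinal : ∀ C : Set V, C.Finite → C.Nonempty → C ⊆ R →
      (∀ e ∈ G.edgeSet, (∃ v ∈ e, v ∈ C) → ¬ ∃ v ∈ e, v ∈ R \ C) → False :=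
    fun C hC hne hCR hedge => sep_claim_fin G hfin F hI 𝒰 U hUf hUF hh C hC hne hCR hedge
  rcases dichotomy G hone C1 (hb C1 hC1S hedge1) with hf1 | hf1
  · exact hfinal C1 hf1 ⟨x₁, hx1C⟩ hC1S hedge1
  · rcases dichotomy G hone C2 (hb C2 hC2S hedge2) with hf2 | hf2
    · exact hfinal C2 hf2 ⟨x₂, hx2C⟩ hC2S hedge2
    · have : (Set.univ : Set V).Finite := by
        refine (hf1.union hf2).subset ?_
        intro y _
        by_cases hy : y ∈ C1
        · exact Or.inr fun hy2 => (Set.disjoint_left.mp hdisj hy) hy2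
        · exact Or.inl hy
      exact Set.infinite_univ this

end Pool.Agent.Helper391.Lg
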