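import Pool.Agent.Helper391.Lg.Defs
import Pool.Agent.Helper391.Lg.P_lemX
import Pool.Agent.Helper391.Lg.P_extend
import Pool.Agent.Helper391.Lg.P_sep_claim



namespace Pool.Agent.Helper391.Lg
open Set


theorem pair_lemma {V : Type*} [Infinite V] (G : SimpleGraph V) (hfin : ∀ v, (G.neighborSet v).Finite)
    (h4 : ∀ P : Set V, P.Finite → P.Nonempty → 4 ≤ (bd G P).ncard) (hone : OneEnd G)
    (F : Set V) (hF : F.Finite) (hI : Ipos G F) (K : Set V) (hK : K.Finite) (hKF : Disjoint K F)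
    (x₁ x₂ : V) (h1 : x₁ ∉ F) (h2 : x₂ ∉ F) :
    ∃ L : Set V, L.Finite ∧ K ⊆ L ∧ x₁ ∈ L ∧ x₂ ∈ L ∧ Disjoint L F ∧ Ipos G (F ∪ L) ∧
      ∃ B, Good G F L B ∧ (SimpleGraph.fromEdgeSet (ins G L \ B)).Reachable x₁ x₂ := by
  obtain ⟨K', hK'f, hK'F, hsep⟩ := sep_claim G hfin h4 hone F hF hI x₁ x₂ h1 h2
  have hfin2 : (K ∪ K' ∪ {x₁, x₂}).Finite := (hK.union hK'f).union ((Set.finite_singleton x₂).insert x₁)
  have hdis : Disjoint (K ∪ K' ∪ {x₁, x₂}) F := by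
    rw [Set.disjoint_left]
    rintro v hv hvF
    rcases hv with (hv | hv) | hv
    · exact Set.disjoint_left.1 hKF hv hvF
    · exact Set.disjoint_left.1 hK'F hv hvF
    · rcases hv with hv | hv
      · rw [hv] at hvF; exact h1 hvF
      · rw [Set.mem_singleton_iff.1 hv] at hvF; exact h2 hvF
  obtain ⟨L, hL, hKL, hLF, hIL⟩ := extend G hfin F hF hI _ hfin2 hdis
  have hx1 : x₁ ∈ L := hKL (Or.inr (Or.inl rfl))
  have hx2 : x₂ ∈ L := hKL (Or.inr (Or.inr rfl))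
  refine ⟨L, hL, fun v hv => hKL (Or.inl (Or.inl hv)), hx1, hx2, hLF, hIL, ?_⟩
  refine lemX G hfin F L hL hLF x₁ x₂ hx1 hx2 ?_ ?_
  · intro U hU
    exact hI U (hL.subset hU) (hLF.mono_left hU)
  · intro U hU hU1 hU2 h0
    exact hsep L hL (fun v hv => hKL (Or.inl (Or.inr hv))) hLF U hU hU1 hU2 h0

end Pool.Agent.Helper391.Lg
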