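import Pool.Agent.Helper391.Lg.Defs
import Pool.Agent.Helper391.Lg.P_inc_split
import Pool.Agent.Helper391.Lg.P_good_union
import Pool.Agent.Helper391.Lg.P_out_first
import Pool.Agent.Helper391.Lg.P_pair_lemma



namespace Pool.Agent.Helper391.Lg
open Set


theorem stage_lemma {V : Type*} [Infinite V] (G : SimpleGraph V) (hfin : ∀ v, (G.neighborSet v).Finite)
    (h4 : ∀ P : Set V, P.Finite → P.Nonempty → 4 ≤ (bd G P).ncard) (hone : OneEnd G)
    (F : Set V) (hF : F.Finite) (hI : Ipos G F) (S : Set V) (hS : S.Finite) (hSF : Disjoint S F) :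
    ∃ L : Set V, L.Finite ∧ S ⊆ L ∧ Disjoint L F ∧ Ipos G (F ∪ L) ∧
      ∃ B, Good G F L B ∧ ∀ u ∈ S, ∀ v ∈ S, (SimpleGraph.fromEdgeSet (ins G L \ B)).Reachable u v := by
  induction S, hS using Set.Finite.induction_on with
  | empty =>
    refine ⟨∅, Set.finite_empty, Set.empty_subset _, Set.empty_disjoint _, ?_, ∅, ?_, ?_⟩
    · rw [Set.union_empty]
      exact hI
    · exact ⟨Set.empty_subset _, fun v hv => absurd hv (Set.notMem_empty v),
        fun v hv => absurd hv (Set.notMem_empty v)⟩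
    · intro u hu
      exact absurd hu (Set.notMem_empty u)
  | @insert s S' hsS' hS'fin ih =>
    have hsF : s ∉ F := fun h => Set.disjoint_left.mp hSF (Set.mem_insert s S') h
    have hS'F : Disjoint S' F := hSF.mono_left (Set.subset_insert s S')
    rcases S'.eq_empty_or_nonempty with hemp | ⟨s₀, hs₀⟩
    · obtain ⟨L, hLfin, -, hsL, -, hLF, hIL, B, hB, -⟩ :=
        pair_lemma G hfin h4 hone F hF hI ∅ Set.finite_empty (Set.empty_disjoint _) s s hsF hsF
      refine ⟨L, hLfin, ?_, hLF, hIL, B, hB, ?_⟩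
      · rw [hemp]
        intro x hx
        simp only [insert_empty_eq, Set.mem_singleton_iff] at hx
        rw [hx]
        exact hsL
      · rw [hemp]
        intro u hu v hv
        simp only [insert_empty_eq, Set.mem_singleton_iff] at hu hv
        rw [hu, hv]
    · obtain ⟨L1, hL1fin, hS'L1, hL1F, hI1, B1, hG1, hconn1⟩ := ih hS'F
      have hs₀L1 := hS'L1 hs₀
      obtain ⟨a₀, ha₀, w₀, hw₀L, hw₀F, he₀, hr₀⟩ :=
        out_first G F L1 (inc G F L1 \ B1) Set.sdiff_subset hG1.outA s₀ hs₀L1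
      -- the exit of `s`
      have hex : ∃ w₁, w₁ ∉ L1 ∧ w₁ ∉ F ∧ ((s ∉ L1 ∧ w₁ = s) ∨ (s ∈ L1 ∧ ∃ a₁ ∈ L1,
          s(a₁, w₁) ∈ inc G F L1 \ B1 ∧
          (SimpleGraph.fromEdgeSet ((inc G F L1 \ B1) ∩ ins G L1)).Reachable s a₁)) := by
        by_cases hsL1 : s ∈ L1
        · obtain ⟨a₁, ha₁, w₁, hw₁L, hw₁F, he₁, hr₁⟩ :=
            out_first G F L1 (inc G F L1 \ B1) Set.sdiff_subset hG1.outA s hsL1
          exact ⟨w₁, hw₁L, hw₁F, Or.inr ⟨hsL1, a₁, ha₁, he₁, hr₁⟩⟩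
        · exact ⟨s, hsL1, hsF, Or.inl ⟨hsL1, rfl⟩⟩
      obtain ⟨w₁, hw₁L, hw₁F, hw₁⟩ := hex
      obtain ⟨L2, hL2fin, -, hw₀L2, hw₁L2, hL2F, hI2, B2, hG2, hr2⟩ :=
        pair_lemma G hfin h4 hone (F ∪ L1) (hF.union hL1fin) hI1 ∅ Set.finite_empty
          (Set.empty_disjoint _) w₀ w₁ (fun h => h.elim hw₀F hw₀L) (fun h => h.elim hw₁F hw₁L)
      obtain ⟨-, -, hsp1, hsp2⟩ := inc_split G F L1 L2 B1 B2 hG1.sub hG2.sub
      have hsub1 : ins G L1 \ B1 ⊆ ins G (L1 ∪ L2) \ (B1 ∪ B2) := by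
        rw [← hsp1 L1 (Set.Subset.refl _) hL1F]
        intro e he
        exact ⟨⟨he.1.1, fun v hv => Or.inl (he.1.2 v hv)⟩, he.2⟩
      have hsub2 : ins G L2 \ B2 ⊆ ins G (L1 ∪ L2) \ (B1 ∪ B2) := by
        rw [← hsp2 L2 (Set.Subset.refl _) hL2F]
        intro e he
        exact ⟨⟨he.1.1, fun v hv => Or.inr (he.1.2 v hv)⟩, he.2⟩
      have hsub3 : (inc G F L1 \ B1) ∩ ins G L1 ⊆ ins G (L1 ∪ L2) \ (B1 ∪ B2) :=
        fun e he => hsub1 ⟨he.2, he.1.2⟩
      have hstep : ∀ a w, a ∈ L1 → w ∉ L1 → w ∈ L2 → s(a, w) ∈ inc G F L1 \ B1 →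
          (SimpleGraph.fromEdgeSet (ins G (L1 ∪ L2) \ (B1 ∪ B2))).Reachable a w := by
        intro a w ha hw hw2 he
        apply SimpleGraph.Adj.reachable
        rw [SimpleGraph.fromEdgeSet_adj]
        refine ⟨⟨⟨he.1.1, ?_⟩, ?_⟩, ?_⟩
        · intro v hv
          rw [Sym2.mem_iff] at hv
          rcases hv with rfl | rfl
          · exact Or.inl ha
          · exact Or.inr hw2
        · rintro (h | h)
          · exact he.2 h
          · exact (hG2.sub h).2.1 a (Sym2.mem_mk_left a w) (Or.inr ha)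
        · rintro rfl
          exact hw ha
      have hmono : ∀ {T T' : Set (Sym2 V)}, T ⊆ T' → ∀ {x y : V},
          (SimpleGraph.fromEdgeSet T).Reachable x y →
          (SimpleGraph.fromEdgeSet T').Reachable x y :=
        fun hTT' _ _ h => h.mono (SimpleGraph.fromEdgeSet_mono hTT')
      have hs0w1 : (SimpleGraph.fromEdgeSet (ins G (L1 ∪ L2) \ (B1 ∪ B2))).Reachable s₀ w₁ :=
        ((hmono hsub3 hr₀).trans (hstep a₀ w₀ ha₀ hw₀L hw₀L2 he₀)).trans (hmono hsub2 hr2)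
      have hs0s : (SimpleGraph.fromEdgeSet (ins G (L1 ∪ L2) \ (B1 ∪ B2))).Reachable s₀ s := by
        rcases hw₁ with ⟨-, h⟩ | ⟨-, a₁, ha₁, he₁, hr₁⟩
        · rw [← h]
          exact hs0w1
        · exact hs0w1.trans ((hmono hsub3 hr₁).trans (hstep a₁ w₁ ha₁ hw₁L hw₁L2 he₁)).symm
      have hall : ∀ x ∈ insert s S',
          (SimpleGraph.fromEdgeSet (ins G (L1 ∪ L2) \ (B1 ∪ B2))).Reachable s₀ x := by
        intro x hx
        rcases hx with rfl | hx
        · exact hs0s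
        · exact hmono hsub1 (hconn1 s₀ hs₀ x hx)
      refine ⟨L1 ∪ L2, hL1fin.union hL2fin, ?_, ?_, ?_, B1 ∪ B2,
        good_union G F L1 L2 B1 B2 hL1F hL2F hG1 hG2,
        fun u hu v hv => (hall u hu).symm.trans (hall v hv)⟩
      · intro x hx
        rcases hx with rfl | hx
        · rcases hw₁ with ⟨-, h⟩ | ⟨h, -⟩
          · rw [← h]
            exact Or.inr hw₁L2
          · exact Or.inl h
        · exact Or.inl (hS'L1 hx)
      · exact Set.disjoint_union_left.mpr ⟨hL1F, hL2F.mono_right Set.subset_union_left⟩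
      · rw [← Set.union_assoc]
        exact hI2

end Pool.Agent.Helper391.Lg
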