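import Pool.Agent.Helper391.Lg.Defs
import Pool.Agent.Helper391.Lg.P_ipos_empty
import Pool.Agent.Helper391.Lg.P_stage_lemma



namespace Pool.Agent.Helper391.Lg
open Set


theorem stages {V : Type*} [Infinite V] (G : SimpleGraph V) (hfin : ∀ v, (G.neighborSet v).Finite)
    (h4 : ∀ P : Set V, P.Finite → P.Nonempty → 4 ≤ (bd G P).ncard) (hone : OneEnd G)
    (hconn : ∀ u v, G.Reachable u v) :
    ∃ (F : ℕ → Set V) (B : ℕ → Set (Sym2 V)), F 0 = ∅ ∧ (∀ n, (F n).Finite) ∧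
      (∀ n, F n ⊆ F (n + 1)) ∧ (∀ v, ∃ n, v ∈ F n) ∧
      (∀ n, Good G (F n) (F (n + 1) \ F n) (B n)) ∧
      (∀ n, ∀ u v, u ∉ F n → v ∉ F n → (∃ a ∈ F n, G.Adj a u) → (∃ a ∈ F n, G.Adj a v) →
        u ∈ F (n + 1) ∧ v ∈ F (n + 1) ∧
        (SimpleGraph.fromEdgeSet (ins G (F (n + 1) \ F n) \ B n)).Reachable u v) := by
  classical
  obtain ⟨v₀⟩ : Nonempty V := inferInstance
  have step : ∀ F : {F : Set V // F.Finite ∧ Ipos G F},
      ∃ (p : {F : Set V // F.Finite ∧ Ipos G F}) (B : Set (Sym2 V)),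
      F.1 ⊆ p.1 ∧ (v₀ ∈ p.1) ∧ Good G F.1 (p.1 \ F.1) B ∧
      (∀ a ∈ F.1, ∀ u, G.Adj a u → u ∈ p.1) ∧
      (∀ u v, u ∉ F.1 → v ∉ F.1 → (∃ a ∈ F.1, G.Adj a u) → (∃ a ∈ F.1, G.Adj a v) →
        (SimpleGraph.fromEdgeSet (ins G (p.1 \ F.1) \ B)).Reachable u v) := by
    rintro ⟨F, hF, hI⟩
    have hS : ({u | u ∉ F ∧ ∃ a ∈ F, G.Adj a u} ∪ ({v₀} \ F) : Set V).Finite := by
      refine Set.Finite.union ?_ ((Set.finite_singleton v₀).subset diff_subset)
      refine (hF.biUnion (fun a _ => hfin a)).subset ?_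
      rintro u ⟨_, a, ha, hau⟩
      exact mem_biUnion ha hau
    have hSF : Disjoint ({u | u ∉ F ∧ ∃ a ∈ F, G.Adj a u} ∪ ({v₀} \ F) : Set V) F := by
      rw [Set.disjoint_left]
      rintro u (hu | hu)
      · exact hu.1
      · exact hu.2
    obtain ⟨L, hL, hSL, hLF, hI', B, hB, hr⟩ := stage_lemma G hfin h4 hone F hF hI _ hS hSF
    have hdiff : (F ∪ L) \ F = L := by
      ext x
      constructor
      · rintro ⟨h1 | h1, h2⟩
        · exact absurd h1 h2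
        · exact h1
      · intro h1
        exact ⟨Or.inr h1, fun h2 => (Set.disjoint_left.mp hLF) h1 h2⟩
    refine ⟨⟨F ∪ L, hF.union hL, hI'⟩, B, subset_union_left, ?_, ?_, ?_, ?_⟩
    · by_cases h : v₀ ∈ F
      · exact Or.inl h
      · exact Or.inr (hSL (Or.inr ⟨rfl, h⟩))
    · show Good G F ((F ∪ L) \ F) B
      rw [hdiff]
      exact hB
    · intro a ha u hau
      by_cases h : u ∈ F
      · exact Or.inl h
      · exact Or.inr (hSL (Or.inl ⟨h, a, ha, hau⟩))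
    · intro u v hu hv hau hav
      show (SimpleGraph.fromEdgeSet (ins G ((F ∪ L) \ F) \ B)).Reachable u v
      rw [hdiff]
      exact hr u (Or.inl ⟨hu, hau⟩) v (Or.inl ⟨hv, hav⟩)
  choose nx nB h1 h2 h3 h4' h5 using step
  let f : ℕ → {F : Set V // F.Finite ∧ Ipos G F} := fun n =>
    Nat.rec ⟨∅, finite_empty, ipos_empty G hfin h4⟩ (fun _ F => nx F) n
  refine ⟨fun n => (f n).1, fun n => nB (f n), rfl, fun n => (f n).2.1, fun n => h1 (f n), ?_,
    fun n => h3 (f n), ?_⟩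
  · intro v
    obtain ⟨w⟩ := hconn v₀ v
    have key : ∀ (u v : V) (w : G.Walk u v), (∃ n, u ∈ (f n).1) → ∃ n, v ∈ (f n).1 := by
      intro u v w
      induction w with
      | nil => exact id
      | cons h p ih =>
        rintro ⟨n, hn⟩
        exact ih ⟨n + 1, h4' (f n) _ hn _ h⟩
    exact key v₀ v w ⟨1, h2 (f 0)⟩
  · intro n u v hu hv hau hav
    refine ⟨?_, ?_, h5 (f n) u v hu hv hau hav⟩
    · obtain ⟨a, ha, hadj⟩ := hau
      exact h4' (f n) a ha u hadj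
    · obtain ⟨a, ha, hadj⟩ := hav
      exact h4' (f n) a ha v hadj

end Pool.Agent.Helper391.Lg
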