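import Pool.Agent.Helper391.Lg.Defs
import Pool.Agent.Helper391.Lg.P_stages
import Pool.Agent.Helper391.Lg.P_reach_out



namespace Pool.Agent.Helper391.Lg
open Set


theorem decomposition {V : Type*} [Infinite V] (G : SimpleGraph V) (hfin : ∀ v, (G.neighborSet v).Finite)
    (h4 : ∀ P : Set V, P.Finite → P.Nonempty → 4 ≤ (bd G P).ncard) (hone : OneEnd G)
    (hconn : ∀ u v, G.Reachable u v) :
    ∃ A B : Set (Sym2 V), A ∪ B = G.edgeSet ∧ Disjoint A B ∧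
      (∀ U : Set V, U.Finite → U.Nonempty → ∃ e ∈ B, (∃ v ∈ e, v ∈ U) ∧ ∃ v ∈ e, v ∉ U) ∧
      (∀ u v, (SimpleGraph.fromEdgeSet A).Reachable u v) ∧
      (∀ S : Set V, S.Finite → ∃ K : Set V, K.Finite ∧ S ⊆ K ∧ ∀ u, u ∉ K → ∀ v, v ∉ K →
        (SimpleGraph.fromEdgeSet {e | e ∈ A ∧ ∀ x ∈ e, x ∉ K}).Reachable u v) := by
  obtain ⟨F, B, hF0, hFf, hmono, hcov, hgood, hring⟩ := stages G hfin h4 hone hconn
  have hmon : Monotone F := monotone_nat_of_le_succ hmono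
  have hnb : ∀ n, ∀ u, u ∉ F n → (∃ a ∈ F n, G.Adj a u) → u ∈ F (n + 1) :=
    fun n u hu ha => (hring n u u hu hu ha ha).1
  have hfinsub : ∀ U : Set V, U.Finite → ∃ n, U ⊆ F n := by
    intro U hU
    induction U, hU using Set.Finite.induction_on with
    | empty => exact ⟨0, Set.empty_subset _⟩
    | @insert a s _ _ ih =>
      obtain ⟨n, hn⟩ := ih
      obtain ⟨k, hk⟩ := hcov a
      refine ⟨max n k, ?_⟩
      intro x hx
      rcases Set.mem_insert_iff.1 hx with rfl | hx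
      · exact hmon (le_max_right _ _) hk
      · exact hmon (le_max_left _ _) (hn hx)
  have hTA : ∀ i, ∀ e ∈ inc G (F i) (F (i + 1) \ F i) \ B i, e ∈ G.edgeSet \ ⋃ n, B n := by
    rintro i e ⟨⟨he1, he2, x, hxe, hx⟩, heB⟩
    refine ⟨he1, ?_⟩
    intro hmem
    obtain ⟨j, hj⟩ := Set.mem_iUnion.1 hmem
    obtain ⟨_, hj2, y, hye, hy⟩ := (hgood j).sub hj
    rcases lt_trichotomy i j with h | h | h
    · exact hj2 x hxe (hmon h hx.1)
    · subst h; exact heB hj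
    · exact he2 y hye (hmon h hy.1)
  have hins : ∀ n, ∀ e ∈ ins G (F (n + 1) \ F n) \ B n,
      e ∈ inc G (F n) (F (n + 1) \ F n) \ B n := by
    rintro n e ⟨⟨he1, he2⟩, heB⟩
    refine ⟨⟨he1, fun v hv => (he2 v hv).2, ?_⟩, heB⟩
    induction e using Sym2.ind with
    | _ x y => exact ⟨x, Sym2.mem_mk_left x y, he2 x (Sym2.mem_mk_left x y)⟩
  have hmonoR : ∀ (A1 A2 : Set (Sym2 V)), A1 ⊆ A2 → ∀ u v,
      (SimpleGraph.fromEdgeSet A1).Reachable u v → (SimpleGraph.fromEdgeSet A2).Reachable u v :=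
    fun A1 A2 hA u v huv => huv.mono (SimpleGraph.fromEdgeSet_mono hA)
  have main : ∀ m n u v, u ∈ F n → v ∈ F n → u ∉ F m → v ∉ F m →
      (SimpleGraph.fromEdgeSet {e | e ∈ G.edgeSet \ ⋃ n, B n ∧ ∀ x ∈ e, x ∉ F m}).Reachable u v := by
    intro m n u v hu hv hum hvm
    have hmn : m ≤ n := by
      by_contra hlt
      exact hum (hmon (by omega) hu)
    have hr : ∀ z ∈ F n, z ∉ F m → ∃ w, w ∉ F n ∧ (∃ a ∈ F n, G.Adj a w) ∧
        (SimpleGraph.fromEdgeSet {e | e ∈ G.edgeSet \ ⋃ n, B n ∧ ∀ x ∈ e, x ∉ F m}).Reachable z w := by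
      intro z hz hzm
      obtain ⟨w, hw1, hw2, hw3⟩ := reach_out G F
        (fun i => inc G (F i) (F (i + 1) \ F i) \ B i) hF0 hmono (fun _ => Set.sdiff_subset)
        (fun i => (hgood i).outA) hnb m n z hz hzm
      refine ⟨w, hw1, hw2, hmonoR _ _ ?_ _ _ hw3⟩
      rintro e ⟨⟨i, hi⟩, he⟩
      exact ⟨hTA i e hi, he⟩
    obtain ⟨w1, h11, h12, h13⟩ := hr u hu hum
    obtain ⟨w2, h21, h22, h23⟩ := hr v hv hvm
    have h3 := (hring n w1 w2 h11 h21 h12 h22).2.2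
    have h4 : (SimpleGraph.fromEdgeSet
        {e | e ∈ G.edgeSet \ ⋃ n, B n ∧ ∀ x ∈ e, x ∉ F m}).Reachable w1 w2 := by
      refine hmonoR _ _ ?_ _ _ h3
      intro e he
      refine ⟨hTA n e (hins n e he), fun x hx hxm => ?_⟩
      exact (he.1.2 x hx).2 (hmon hmn hxm)
    exact (h13.trans h4).trans h23.symm
  refine ⟨G.edgeSet \ ⋃ n, B n, ⋃ n, B n, ?_, Set.disjoint_sdiff_left, ?_, ?_, ?_⟩
  · rw [Set.sdiff_union_self]
    apply Set.union_eq_self_of_subset_right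
    intro e he
    obtain ⟨n, hn⟩ := Set.mem_iUnion.1 he
    exact ((hgood n).sub hn).1
  · rintro U hU ⟨v, hv⟩
    obtain ⟨n, hn⟩ := hfinsub U hU
    obtain ⟨w, hw1, _, ⟨p⟩⟩ := reach_out G F B hF0 hmono (fun i => (hgood i).sub)
      (fun i => (hgood i).outB) hnb 0 n v (hn hv) (by rw [hF0]; exact Set.notMem_empty v)
    obtain ⟨d, _, hd1, hd2⟩ := p.exists_boundary_dart U hv (fun h => hw1 (hn h))
    have hadj := d.adj
    rw [SimpleGraph.fromEdgeSet_adj] at hadj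
    obtain ⟨⟨⟨i, hi⟩, _⟩, _⟩ := hadj
    exact ⟨s(d.fst, d.snd), Set.mem_iUnion.2 ⟨i, hi⟩, ⟨d.fst, Sym2.mem_mk_left _ _, hd1⟩,
      ⟨d.snd, Sym2.mem_mk_right _ _, hd2⟩⟩
  · intro u v
    obtain ⟨n, hn⟩ := hfinsub {u, v} (Set.toFinite _)
    have h0 : ∀ z, z ∉ F 0 := by intro z; rw [hF0]; exact Set.notMem_empty z
    refine hmonoR _ _ ?_ _ _ (main 0 n u v (hn (by simp)) (hn (by simp)) (h0 _) (h0 _))
    intro e he
    exact he.1
  · intro S hS
    obtain ⟨m, hm⟩ := hfinsub S hS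
    refine ⟨F m, hFf m, hm, fun u hu v hv => ?_⟩
    obtain ⟨n, hn⟩ := hfinsub {u, v} (Set.toFinite _)
    exact main m n u v (hn (by simp)) (hn (by simp)) hu hv

end Pool.Agent.Helper391.Lg
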