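import Pool.Agent.Helper391.Lg.Defs



namespace Pool.Agent.Helper391.Lg
open Set


theorem tr_reach {E V : Type*} (ends : E → Sym2 V) (R : Set E) (l : List E) (a b : V)
    (h : Tr ends a l b) (hR : ∀ e ∈ l, e ∈ R) : (Gr ends R).Reachable a b ∧
    ∀ e ∈ l, ∀ x ∈ ends e, (Gr ends R).Reachable a x := by
  induction l generalizing a with
  | nil =>
    have h' : a = b := h
    subst h'
    refine ⟨SimpleGraph.Reachable.refl _, ?_⟩
    intro e he
    simp at he
  | cons e l ih =>
    obtain ⟨c, hc, ht⟩ := h
    have h1 : (Gr ends R).Reachable a c := by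
      by_cases hac : a = c
      · rw [hac]
      · have hadj : (Gr ends R).Adj a c := by
          unfold Gr
          rw [SimpleGraph.fromEdgeSet_adj]
          refine ⟨⟨e, hR e (by simp), hc⟩, hac⟩
        exact hadj.reachable
    obtain ⟨i1, i2⟩ := ih c ht (fun f hf => hR f (by simp [hf]))
    refine ⟨h1.trans i1, ?_⟩
    intro f hf x hx
    rcases List.mem_cons.mp hf with rfl | hf
    · rw [hc, Sym2.mem_iff] at hx
      rcases hx with rfl | rfl
      · exact SimpleGraph.Reachable.refl _
      · exact h1
    · exact h1.trans (i2 f hf x hx)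

end Pool.Agent.Helper391.Lg
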