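import Pool.Agent.Helper391.Lg.Defs
import Pool.Agent.Helper391.Lg.P_tr_reach



namespace Pool.Agent.Helper391.Lg
open Set


theorem touch_aux {E V : Type*} (ends : E → Sym2 V) (T P : List E) (I : Set E) (hcov : ∀ e, e ∈ I ↔ e ∉ T ++ P)
    {u b : V} (w : (Gr ends {e | e ∉ T}).Walk u b) (hb : ∃ e ∈ P, b ∈ ends e)
    (hu : ∃ f ∈ I, u ∈ ends f) :
    ∃ p, (∃ e ∈ P, p ∈ ends e) ∧ ∃ f ∈ I, p ∈ ends f := by
  induction w with
  | nil => exact ⟨_, hb, hu⟩
  | @cons u v b h w ih =>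
    have h' := h
    unfold Gr at h'
    rw [SimpleGraph.fromEdgeSet_adj] at h'
    obtain ⟨⟨e, he, hee⟩, hne⟩ := h'
    have he' : e ∉ T := he
    by_cases heP : e ∈ P
    · exact ⟨u, ⟨e, heP, by rw [hee]; exact Sym2.mem_mk_left _ _⟩, hu⟩
    · apply ih hb
      refine ⟨e, (hcov e).mpr ?_, by rw [hee]; exact Sym2.mem_mk_right _ _⟩
      rw [List.mem_append]
      tauto

/-- a vertex of the trail `P` on an edge of `I` -/
theorem touch {E V : Type*} (ends : E → Sym2 V) (T P : List E) (a b c : V) (hinv : Inv ends T a b)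
    (hP : Tr ends b P c) (hPne : P ≠ []) (hPT : ∀ e ∈ P, e ∉ T)
    (I : Set E) (hI : I.Nonempty) (hcov : ∀ e, e ∈ I ↔ e ∉ T ++ P) :
    ∃ p, (∃ e ∈ P, p ∈ ends e) ∧ ∃ f ∈ I, p ∈ ends f := by
  obtain ⟨f, hf⟩ := hI
  cases P with
  | nil => exact absurd rfl hPne
  | cons e0 P' =>
    obtain ⟨c', hc', -⟩ := hP
    have hbe : b ∈ ends e0 := by rw [hc']; exact Sym2.mem_mk_left _ _
    have hfT : f ∉ T := by
      have := (hcov f).mp hf
      rw [List.mem_append] at this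
      tauto
    obtain ⟨w⟩ := hinv.conn f hfT e0 (hPT e0 (by simp)) (ends f).out.1 (Sym2.out_fst_mem _) b hbe
    exact touch_aux ends T (e0 :: P') I hcov w ⟨e0, by simp, hbe⟩ ⟨f, hf, Sym2.out_fst_mem _⟩

end Pool.Agent.Helper391.Lg
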