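import Pool.Agent.Helper391.Lg.Defs
import Pool.Agent.Helper391.Lg.P_tr_append
import Pool.Agent.Helper391.Lg.P_tr_parity
import Pool.Agent.Helper391.Lg.P_tr_split
import Pool.Agent.Helper391.Lg.P_touch



namespace Pool.Agent.Helper391.Lg
open Set


theorem finish_deg {E V : Type*} (ends : E → Sym2 V) (hE : Eul ends) (L : List E) (I : Set E)
    (hcov : ∀ e, e ∈ I ↔ e ∉ L) (v : V) :
    dg ends Set.univ v = dg ends {e | e ∈ L} v + dg ends I v := by
  unfold dg
  have f1 : {e | e ∈ {e | e ∈ L} ∧ v ∈ ends e ∧ ¬ (ends e).IsDiag}.Finite :=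
    (hE.fin v).subset fun e he => he.2.1
  have f2 : {e | e ∈ I ∧ v ∈ ends e ∧ ¬ (ends e).IsDiag}.Finite :=
    (hE.fin v).subset fun e he => he.2.1
  have hd : Disjoint {e | e ∈ {e | e ∈ L} ∧ v ∈ ends e ∧ ¬ (ends e).IsDiag}
      {e | e ∈ I ∧ v ∈ ends e ∧ ¬ (ends e).IsDiag} := by
    rw [Set.disjoint_left]
    rintro e ⟨h1, -⟩ ⟨h2, -⟩
    exact (hcov e).1 h2 h1
  rw [← Set.ncard_union_eq hd f1 f2]
  congr 1
  ext e
  simp only [Set.mem_ofPred_eq, Set.mem_univ, true_and, Set.mem_union]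
  by_cases h : e ∈ L
  · simp [h, hcov]
  · simp [h, hcov]

theorem finish_end {E V : Type*} (ends : E → Sym2 V) (hE : Eul ends) (L : List E) (hL : L.Nodup)
    (I : Set E) (hcov : ∀ e, e ∈ I ↔ e ∉ L) (a c v : V) (hac : a ≠ c) (h : Tr ends a L c)
    (hv : v = a ∨ v = c) : ∃ e ∈ I, v ∈ ends e := by
  classical
  have h1 := tr_parity ends L a c v h hL
  have h2 : (dg ends {e | e ∈ L} v : ZMod 2) = 1 := by
    rw [h1]
    rcases hv with rfl | rfl
    · simp [hac]
    · simp [hac.symm]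
  have h3 := finish_deg ends hE L I hcov v
  have h4 : ((dg ends Set.univ v : ℕ) : ZMod 2) = 0 := by
    rw [ZMod.natCast_eq_zero_iff]
    exact (hE.even v).two_dvd
  rw [h3] at h4
  push_cast at h4
  rw [h2] at h4
  have h5 : dg ends I v ≠ 0 := by
    intro h0
    rw [h0] at h4
    simp at h4
  have h6 := Set.nonempty_of_ncard_ne_zero h5
  obtain ⟨e, he⟩ := h6
  exact ⟨e, he.1, he.2.1⟩

/-- the last part of the step -/
theorem finish {E V : Type*} (ends : E → Sym2 V) (hE : Eul ends)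
    (T P : List E) (a b c : V) (hinv : Inv ends T a b)
    (hP : Tr ends b P c) (hPne : P ≠ []) (hPn : P.Nodup) (hPT : ∀ e ∈ P, e ∉ T)
    (I : Set E) (hI : I.Nonempty) (hcov : ∀ e, e ∈ I ↔ e ∉ T ++ P)
    (hcon : ∀ e ∈ I, ∀ f ∈ I, ∀ x ∈ ends e, ∀ y ∈ ends f, (Gr ends I).Reachable x y) :
    ∃ (X Y : List E) (a' b' : V), Inv ends (X ++ T ++ Y) a' b' ∧ Tr ends a' X a ∧ Tr ends b Y b' ∧
      ∀ e ∈ P, e ∈ X ++ T ++ Y := by
  have htr : Tr ends a (T ++ P) c := (tr_append ends T P a c).2 ⟨b, hinv.tr, hP⟩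
  have hnd : (T ++ P).Nodup := by
    rw [List.nodup_append]
    refine ⟨hinv.nd, hPn, ?_⟩
    intro x hx y hy hxy
    subst hxy
    exact hPT x hy hx
  by_cases hcase : (∃ e ∈ I, a ∈ ends e) ∧ (∃ e ∈ I, c ∈ ends e)
  · obtain ⟨⟨e1, he1, ha1⟩, ⟨e2, he2, hc2⟩⟩ := hcase
    have hset : {e | e ∉ [] ++ T ++ P} = I := by
      ext e
      rw [hcov]
      simp
    refine ⟨[], P, a, c, ⟨?_, ?_, ?_, ?_, ?_⟩, rfl, hP, ?_⟩
    · simpa using htr
    · simpa using hnd
    · intro e he f hf x hx y hy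
      rw [hset]
      exact hcon e (by rw [← hset]; exact he) f (by rw [← hset]; exact hf) x hx y hy
    · exact ⟨e1, by simpa using (hcov e1).1 he1, ha1⟩
    · exact ⟨e2, by simpa using (hcov e2).1 he2, hc2⟩
    · intro e he
      simp [he]
  · have hac : a = c := by
      by_contra hne
      exact hcase ⟨finish_end ends hE (T ++ P) hnd I hcov a c a hne htr (Or.inl rfl),
        finish_end ends hE (T ++ P) hnd I hcov a c c hne htr (Or.inr rfl)⟩
    subst hac
    obtain ⟨p, ⟨e, heP, hpe⟩, f, hfI, hpf⟩ := touch ends T P a b a hinv hP hPne hPT I hI hcov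
    obtain ⟨Q1, Q2, hQ, hQ1, hQ2⟩ := tr_split ends P b a p hP e heP hpe
    have hset : {e | e ∉ Q2 ++ T ++ Q1} = I := by
      ext e
      rw [hcov, hQ]
      simp
      tauto
    have hmem : ∀ e, e ∈ I → e ∉ Q2 ++ T ++ Q1 := by
      intro e he
      rw [← hset] at he
      exact he
    refine ⟨Q2, Q1, p, p, ⟨?_, ?_, ?_, ?_, ?_⟩, hQ2, hQ1, ?_⟩
    · rw [tr_append]
      refine ⟨b, ?_, hQ1⟩
      rw [tr_append]
      exact ⟨a, hQ2, hinv.tr⟩
    · have hperm : (Q2 ++ T ++ Q1).Perm (T ++ P) := by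
        rw [hQ]
        calc (Q2 ++ T ++ Q1).Perm (T ++ Q2 ++ Q1) := List.Perm.append_right _ List.perm_append_comm
          _ = T ++ (Q2 ++ Q1) := by rw [List.append_assoc]
          List.Perm _ (T ++ (Q1 ++ Q2)) := List.Perm.append_left _ List.perm_append_comm
      exact hperm.nodup_iff.2 hnd
    · intro e he f hf x hx y hy
      rw [hset]
      exact hcon e (by rw [← hset]; exact he) f (by rw [← hset]; exact hf) x hx y hy
    · exact ⟨f, hmem f hfI, hpf⟩
    · exact ⟨f, hmem f hfI, hpf⟩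
    · intro e he
      rw [hQ] at he
      simp at he ⊢
      tauto

end Pool.Agent.Helper391.Lg
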