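import Pool.Agent.Helper391.Lg.Defs



namespace Pool.Agent.Helper391.Lg
open Set


/-- structure of the residual after deleting a finite edge set `X`: the finite part `Z` and the
infinite connected part `I`, which have no common end vertex -/
theorem residual {E V : Type*} [Infinite E] (ends : E → Sym2 V) (hE : Eul ends) (X : Set E) (hX : X.Finite) :
    ∃ Z I : Set E, Z.Finite ∧ I.Nonempty ∧ (∀ e, (e ∈ Z ∨ e ∈ I) ↔ e ∉ X) ∧ Disjoint Z I ∧
      (∀ e ∈ Z, ∀ f ∈ I, ∀ x ∈ ends e, x ∉ ends f) ∧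
      (∀ e ∈ I, ∀ f ∈ I, ∀ x ∈ ends e, ∀ y ∈ ends f, (Gr ends I).Reachable x y) := by
  obtain ⟨K, hK, hKc⟩ := hE.one X hX
  have hfin : {e : E | ∃ v ∈ K, v ∈ ends e}.Finite := by
    have : {e : E | ∃ v ∈ K, v ∈ ends e} = ⋃ v ∈ K, {e | v ∈ ends e} := by
      ext e; simp
    rw [this]
    exact hK.biUnion (fun v _ => hE.fin v)
  obtain ⟨e0, he0⟩ := (hfin.union hX).infinite_compl.nonempty
  have he0X : e0 ∉ X := fun h => he0 (Or.inr h)
  have he0K : ∀ v ∈ K, v ∉ ends e0 := fun v hv h => he0 (Or.inl ⟨v, hv, h⟩)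
  have hend : ∀ e : E, ∃ x, x ∈ ends e := by
    intro e
    exact ⟨(Quot.out (ends e)).1, Sym2.out_fst_mem _⟩
  obtain ⟨z, hz⟩ := hend e0
  have hzK : z ∉ K := fun h => he0K z h hz
  have hadj : ∀ e, e ∉ X → ∀ x ∈ ends e, ∀ y ∈ ends e, (Gr ends Xᶜ).Reachable x y := by
    intro e he x hx y hy
    by_cases hxy : x = y
    · rw [hxy]
    · have hs : ends e = s(x, y) := (Sym2.mem_and_mem_iff hxy).mp ⟨hx, hy⟩
      apply SimpleGraph.Adj.reachable
      unfold Gr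
      rw [SimpleGraph.fromEdgeSet_adj]
      exact ⟨⟨e, he, hs⟩, hxy⟩
  have key : ∀ u w, (Gr ends Xᶜ).Walk u w → (Gr ends Xᶜ).Reachable z u →
      (Gr ends {e | e ∉ X ∧ ∃ x ∈ ends e, (Gr ends Xᶜ).Reachable z x}).Reachable u w := by
    intro u w p
    induction p with
    | nil => intro _; exact SimpleGraph.Reachable.refl _
    | cons h p ih =>
      intro hzu
      have hr := ih (hzu.trans h.reachable)
      refine SimpleGraph.Reachable.trans ?_ hr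
      apply SimpleGraph.Adj.reachable
      unfold Gr at h ⊢
      rw [SimpleGraph.fromEdgeSet_adj] at h ⊢
      obtain ⟨⟨e, he, hs⟩, hne⟩ := h
      refine ⟨⟨e, ⟨he, _, ?_, hzu⟩, hs⟩, hne⟩
      rw [hs]
      exact Sym2.mem_mk_left _ _
  refine ⟨{e | e ∉ X ∧ ¬ ∃ x ∈ ends e, (Gr ends Xᶜ).Reachable z x},
    {e | e ∉ X ∧ ∃ x ∈ ends e, (Gr ends Xᶜ).Reachable z x}, ?_, ?_, ?_, ?_, ?_, ?_⟩
  · refine hfin.subset ?_
    rintro e ⟨heX, hne⟩
    obtain ⟨x, hx⟩ := hend e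
    by_contra hcon
    have hxK : x ∉ K := fun h => hcon ⟨x, h, hx⟩
    exact hne ⟨x, hx, hKc z hzK x hxK⟩
  · exact ⟨e0, he0X, z, hz, SimpleGraph.Reachable.refl _⟩
  · intro e
    constructor
    · rintro (h | h)
      · exact h.1
      · exact h.1
    · intro h
      by_cases hc : ∃ x ∈ ends e, (Gr ends Xᶜ).Reachable z x
      · exact Or.inr ⟨h, hc⟩
      · exact Or.inl ⟨h, hc⟩
  · rw [Set.disjoint_left]
    rintro e ⟨_, h1⟩ ⟨_, h2⟩
    exact h1 h2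
  · rintro e ⟨heX, hne⟩ f ⟨hfX, y, hy, hzy⟩ x hx hxf
    exact hne ⟨x, hx, hzy.trans (hadj f hfX y hy x hxf)⟩
  · rintro e ⟨heX, x', hx', hzx'⟩ f ⟨hfX, y', hy', hzy'⟩ x hx y hy
    have h1 : (Gr ends Xᶜ).Reachable z x := hzx'.trans (hadj e heX x' hx' x hx)
    have h2 : (Gr ends Xᶜ).Reachable z y := hzy'.trans (hadj f hfX y' hy' y hy)
    obtain ⟨p⟩ := h1.symm.trans h2
    exact key x y p h1

end Pool.Agent.Helper391.Lg
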