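import Pool.Agent.Helper391.Lg.Defs



namespace Pool.Agent.Helper391.Lg
open Set


theorem walk_to_list {E V : Type*} (ends : E → Sym2 V) (R : Set E) {a b : V}
    (p : (Gr ends R).Walk a b) :
    ∃ l : List E, l.map ends = p.edges ∧ (∀ e ∈ l, e ∈ R) ∧ Tr ends a l b := by
  induction p with
  | nil => exact ⟨[], by simp, by simp, rfl⟩
  | @cons u v w hadj p ih =>
    obtain ⟨l, h1, h2, h3⟩ := ih
    have h4 : s(u, v) ∈ ends '' R := by
      have h5 := hadj
      simp only [Gr, SimpleGraph.fromEdgeSet_adj] at h5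
      exact h5.1
    obtain ⟨e, he, hee⟩ := h4
    refine ⟨e :: l, ?_, ?_, ?_⟩
    · rw [List.map_cons, h1, hee, SimpleGraph.Walk.edges_cons]
    · intro f hf
      rcases List.mem_cons.1 hf with rfl | hf
      · exact he
      · exact h2 f hf
    · exact ⟨v, hee, h3⟩

theorem tr_of_reachable {E V : Type*} (ends : E → Sym2 V) (R : Set E) (a b : V)
    (h : (Gr ends R).Reachable a b) : ∃ l : List E, l.Nodup ∧ (∀ e ∈ l, e ∈ R) ∧ Tr ends a l b := by
  classical
  obtain ⟨p, hp⟩ := h.exists_isPath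
  obtain ⟨l, h1, h2, h3⟩ := walk_to_list ends R p
  refine ⟨l, ?_, h2, h3⟩
  apply List.Nodup.of_map ends
  rw [h1]
  exact hp.isTrail.edges_nodup

end Pool.Agent.Helper391.Lg
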