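import Pool.Agent.Helper391.Lg.Defs
import Pool.Agent.Helper391.Lg.P_tr_append
import Pool.Agent.Helper391.Lg.P_tr_of_reachable



namespace Pool.Agent.Helper391.Lg
open Set


theorem tr_through {E V : Type*} (ends : E → Sym2 V) (R : Set E) (b : V) (e₀ : E) (he₀ : e₀ ∈ R)
    (h : ∀ x ∈ ends e₀, (Gr ends R).Reachable b x) :
    ∃ (l : List E) (c : V), l.Nodup ∧ (∀ e ∈ l, e ∈ R) ∧ Tr ends b l c ∧ e₀ ∈ l := by
  classical
  obtain ⟨x, y, hxy⟩ : ∃ x y, ends e₀ = s(x, y) := by
    induction hq : ends e₀ using Sym2.ind with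
    | _ x y => exact ⟨x, y, rfl⟩
  have hx : x ∈ ends e₀ := by rw [hxy]; exact Sym2.mem_mk_left x y
  obtain ⟨l, hnd, hl, htr⟩ := tr_of_reachable ends R b x (h x hx)
  by_cases hm : e₀ ∈ l
  · exact ⟨l, x, hnd, hl, htr, hm⟩
  · refine ⟨l ++ [e₀], y, ?_, ?_, ?_, ?_⟩
    · rw [List.nodup_append]
      refine ⟨hnd, List.nodup_singleton _, ?_⟩
      intro a ha b' hb'
      rw [List.mem_singleton] at hb'
      subst hb'
      intro hab
      subst hab
      exact hm ha
    · intro e he
      rw [List.mem_append, List.mem_singleton] at he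
      rcases he with he | he
      · exact hl e he
      · rw [he]; exact he₀
    · rw [tr_append]
      exact ⟨x, htr, y, hxy, rfl⟩
    · simp

end Pool.Agent.Helper391.Lg
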