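import Pool.Agent.Helper391.Lg.Defs
import Pool.Agent.Helper391.Lg.P_tr_parity



namespace Pool.Agent.Helper391.Lg
open Set


theorem zp_dg_union {E V : Type*} (ends : E → Sym2 V) (X Y : Set E) (v : V)
    (hfin : {e | v ∈ ends e}.Finite) (hd : Disjoint X Y) :
    dg ends (X ∪ Y) v = dg ends X v + dg ends Y v := by
  unfold dg
  rw [← Set.ncard_union_eq ?_ (hfin.subset fun e he => he.2.1) (hfin.subset fun e he => he.2.1)]
  · congr 1
    ext e
    simp only [Set.mem_union, Set.mem_ofPred_eq]
    tauto
  · rw [Set.disjoint_left]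
    intro e h1 h2
    exact Set.disjoint_left.mp hd h1.1 h2.1

theorem zp_dg_zero {E V : Type*} (ends : E → Sym2 V) (X : Set E) (v : V)
    (h : ∀ e ∈ X, v ∉ ends e) : dg ends X v = 0 := by
  unfold dg
  have : {e | e ∈ X ∧ v ∈ ends e ∧ ¬ (ends e).IsDiag} = ∅ := by
    ext e
    simp only [Set.mem_ofPred_eq, Set.mem_empty_iff_false, iff_false]
    intro he
    exact h e he.1 he.2.1
  rw [this, Set.ncard_empty]

open Classical in
theorem zp_handshake {E V : Type*} (ends : E → Sym2 V) (Z : Set E) (hZ : Z.Finite)
    (A : Finset V) : ∃ W : Finset V, A ⊆ W ∧ ∑ v ∈ W, (dg ends Z v : ZMod 2) = 0 := by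
  refine ⟨A ∪ hZ.toFinset.biUnion (fun e => (ends e).toFinset), Finset.subset_union_left, ?_⟩
  generalize hW : A ∪ hZ.toFinset.biUnion (fun e => (ends e).toFinset) = W
  have hWe : ∀ e ∈ Z, ∀ v ∈ ends e, v ∈ W := by
    intro e he v hv
    rw [← hW]
    refine Finset.mem_union_right _ (Finset.mem_biUnion.mpr ⟨e, hZ.mem_toFinset.mpr he, ?_⟩)
    exact Sym2.mem_toFinset.mpr hv
  have h1 : ∀ v, (dg ends Z v : ZMod 2) =
      ∑ e ∈ hZ.toFinset, if (v ∈ ends e ∧ ¬ (ends e).IsDiag) then (1 : ZMod 2) else 0 := by
    intro v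
    have h2 : {e | e ∈ Z ∧ v ∈ ends e ∧ ¬ (ends e).IsDiag} =
        ((hZ.toFinset.filter (fun e => v ∈ ends e ∧ ¬ (ends e).IsDiag) : Finset E) : Set E) := by
      ext e
      simp only [Set.mem_ofPred_eq, Finset.coe_filter, Set.Finite.mem_toFinset]
    unfold dg
    rw [h2, Set.ncard_coe_finset, Finset.card_filter]
    push_cast
    rfl
  rw [Finset.sum_congr rfl (fun v _ => h1 v), Finset.sum_comm]
  refine Finset.sum_eq_zero fun e he => ?_
  have heZ : e ∈ Z := hZ.mem_toFinset.mp he
  have hWe' := hWe e heZ
  by_cases hdiag : (ends e).IsDiag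
  · refine Finset.sum_eq_zero fun v _ => ?_
    rw [if_neg (fun h => h.2 hdiag)]
  · generalize ends e = z at hWe' hdiag
    induction z using Sym2.ind with
    | _ x y =>
      rw [Sym2.mk_isDiag_iff] at hdiag
      have hsub : ({x, y} : Finset V) ⊆ W := by
        intro v hv
        rw [Finset.mem_insert, Finset.mem_singleton] at hv
        exact hWe' v (Sym2.mem_iff.mpr hv)
      rw [← Finset.sum_subset hsub]
      · rw [Finset.sum_pair hdiag]
        rw [if_pos ⟨Sym2.mem_mk_left x y, by rw [Sym2.mk_isDiag_iff]; exact hdiag⟩,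
          if_pos ⟨Sym2.mem_mk_right x y, by rw [Sym2.mk_isDiag_iff]; exact hdiag⟩]
        decide
      · intro v _ hv
        rw [if_neg]
        intro h3
        apply hv
        rw [Finset.mem_insert, Finset.mem_singleton]
        exact Sym2.mem_iff.mp h3.1

/-- parity of the finite part -/
theorem z_parity {E V : Type*} [DecidableEq V] (ends : E → Sym2 V) (hfin : ∀ v, {e | v ∈ ends e}.Finite)
    (hev : ∀ v, Even (dg ends Set.univ v))
    (T P : List E) (a b c : V) (hT : Tr ends a T b) (hP : Tr ends b P c) (hn : (T ++ P).Nodup)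
    (Z I : Set E) (hZ : Z.Finite) (hcov : ∀ e, (e ∈ Z ∨ e ∈ I) ↔ e ∉ T ++ P) (hd : Disjoint Z I)
    (hsep : ∀ e ∈ Z, ∀ f ∈ I, ∀ x ∈ ends e, x ∉ ends f) :
    (∀ v, Even (dg ends Z v)) ∨
    (a ≠ c ∧ ∀ v, (dg ends Z v : ZMod 2) = (if v = a then 1 else 0) + (if v = c then 1 else 0)) := by
  have hTn : T.Nodup := (List.nodup_append.mp hn).1
  have hPn : P.Nodup := (List.nodup_append.mp hn).2.1
  have hTP : Disjoint {e | e ∈ T} {e | e ∈ P} := by
    rw [Set.disjoint_left]
    intro e h1 h2
    exact (List.nodup_append.mp hn).2.2 e h1 e h2 rfl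
  have hrest : Disjoint ({e | e ∈ T} ∪ {e | e ∈ P}) (Z ∪ I) := by
    rw [Set.disjoint_left]
    intro e h1 h2
    exact (hcov e).mp h2 (List.mem_append.mpr h1)
  have huniv : (Set.univ : Set E) = ({e | e ∈ T} ∪ {e | e ∈ P}) ∪ (Z ∪ I) := by
    ext e
    simp only [Set.mem_univ, true_iff]
    by_cases he : e ∈ T ++ P
    · exact Or.inl (List.mem_append.mp he)
    · exact Or.inr ((hcov e).mpr he)
  have hdeg : ∀ v, (dg ends Z v : ZMod 2) + dg ends I v =
      (if v = a then 1 else 0) + (if v = c then 1 else 0) := by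
    intro v
    have h1 := (ZMod.natCast_eq_zero_iff_even).mpr (hev v)
    rw [huniv, zp_dg_union ends _ _ v (hfin v) hrest, zp_dg_union ends _ _ v (hfin v) hTP,
      zp_dg_union ends _ _ v (hfin v) hd] at h1
    push_cast at h1
    rw [tr_parity ends T a b v hT hTn, tr_parity ends P b c v hP hPn] at h1
    generalize (if v = a then (1 : ZMod 2) else 0) = p at h1 ⊢
    generalize (if v = b then (1 : ZMod 2) else 0) = q at h1 ⊢
    generalize (if v = c then (1 : ZMod 2) else 0) = r at h1 ⊢
    generalize (dg ends Z v : ZMod 2) = y at h1 ⊢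
    generalize (dg ends I v : ZMod 2) = z at h1 ⊢
    revert p q r y z
    decide
  have hZv : ∀ v, (dg ends Z v : ZMod 2) = 0 ∨ (dg ends Z v : ZMod 2) =
      (if v = a then 1 else 0) + (if v = c then 1 else 0) := by
    intro v
    by_cases hv : ∃ e ∈ Z, v ∈ ends e
    · right
      obtain ⟨e, he, hve⟩ := hv
      have h2 : dg ends I v = 0 := zp_dg_zero ends I v fun f hf => hsep e he f hf v hve
      have h3 := hdeg v
      rw [h2, Nat.cast_zero, add_zero] at h3
      exact h3
    · left
      push Not at hv
      rw [zp_dg_zero ends Z v hv, Nat.cast_zero]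
  by_cases hac : a = c
  · left
    intro v
    rw [← ZMod.natCast_eq_zero_iff_even]
    rcases hZv v with h | h
    · exact h
    · rw [h, ← hac]
      generalize (if v = a then (1 : ZMod 2) else 0) = p
      revert p
      decide
  · obtain ⟨W, hW, hsum⟩ := zp_handshake ends Z hZ {a, c}
    rw [← Finset.sum_subset hW, Finset.sum_pair hac] at hsum
    · have hva := hZv a
      have hvc := hZv c
      rw [if_pos rfl, if_neg hac, add_zero] at hva
      rw [if_neg (Ne.symm hac), if_pos rfl, zero_add] at hvc
      have hother : ∀ v, v ≠ a → v ≠ c → (dg ends Z v : ZMod 2) = 0 := by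
        intro v h1 h2
        rcases hZv v with h | h
        · exact h
        · rw [h, if_neg h1, if_neg h2, add_zero]
      rcases hva with h1 | h1
      · left
        intro v
        rw [← ZMod.natCast_eq_zero_iff_even]
        by_cases h2 : v = a
        · rw [h2]
          exact h1
        · by_cases h3 : v = c
          · rw [h3]
            rw [h1, zero_add] at hsum
            exact hsum
          · exact hother v h2 h3
      · right
        refine ⟨hac, fun v => ?_⟩
        by_cases h2 : v = a
        · subst h2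
          rw [if_pos rfl, if_neg hac, add_zero]
          exact h1
        · by_cases h3 : v = c
          · subst h3
            rw [if_neg h2, if_pos rfl, zero_add]
            rcases hvc with h4 | h4
            · rw [h1, h4, add_zero] at hsum
              exact absurd hsum (by decide)
            · exact h4
          · rw [if_neg h2, if_neg h3, add_zero]
            exact hother v h2 h3
    · intro v _ hv
      rw [Finset.mem_insert, Finset.mem_singleton] at hv
      push Not at hv
      rcases hZv v with h | h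
      · exact h
      · rw [h, if_neg hv.1, if_neg hv.2, add_zero]

end Pool.Agent.Helper391.Lg
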