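import Pool.Agent.Helper391.Lg.Defs
import Pool.Agent.Helper391.Lg.P_tr_reach



namespace Pool.Agent.Helper391.Lg
open Set


theorem z_reach_mono {E V : Type*} (ends : E → Sym2 V) (R R' : Set E) (h : R ⊆ R') {u v : V}
    (hr : (Gr ends R).Reachable u v) : (Gr ends R').Reachable u v := by
  refine hr.mono ?_
  unfold Gr
  exact SimpleGraph.fromEdgeSet_mono (Set.image_mono h)

theorem z_reach_walk {E V : Type*} (ends : E → Sym2 V) (T P : List E) (b c : V)
    (hP : Tr ends b P c)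
    (Z I : Set E) (hcov : ∀ e, (e ∈ Z ∨ e ∈ I) ↔ e ∉ T ++ P)
    (hsep : ∀ e ∈ Z, ∀ f ∈ I, ∀ x ∈ ends e, x ∉ ends f) (x b' : V)
    (w : (Gr ends {e | e ∉ T}).Walk x b') (hb' : b' = b) (hx : ∃ e ∈ Z, x ∈ ends e) :
    (Gr ends (Z ∪ {e | e ∈ P})).Reachable b x := by
  induction w with
  | nil =>
    rw [hb']
  | @cons u v w' hadj p ih =>
    obtain ⟨e, heZ, hue⟩ := hx
    have hadj' : s(u, v) ∈ ends '' {e | e ∉ T} ∧ u ≠ v := by
      simpa [Gr] using hadj
    obtain ⟨⟨f, hfT, hf⟩, hne⟩ := hadj'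
    have huf : u ∈ ends f := by rw [hf]; exact Sym2.mem_mk_left u v
    by_cases hfP : f ∈ P
    · have h1 := (tr_reach ends {e | e ∈ P} P b c hP (fun e he => he)).2 f hfP u huf
      exact z_reach_mono ends _ _ Set.subset_union_right h1
    · have hfTP : f ∉ T ++ P := by
        rw [List.mem_append]
        rintro (h | h)
        · exact hfT h
        · exact hfP h
      rcases (hcov f).2 hfTP with hfZ | hfI
      · have hvf : v ∈ ends f := by rw [hf]; exact Sym2.mem_mk_right u v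
        have h1 := ih hb' ⟨f, hfZ, hvf⟩
        refine h1.trans (SimpleGraph.Adj.reachable ?_)
        have : s(v, u) ∈ ends '' (Z ∪ {e | e ∈ P}) ∧ v ≠ u :=
          ⟨⟨f, Or.inl hfZ, by rw [hf, Sym2.eq_swap]⟩, hne.symm⟩
        simpa [Gr] using this
      · exact absurd huf (hsep e heZ f hfI u hue)

/-- each edge of the finite part is connected to `b` inside `Z ∪ P` -/
theorem z_reach {E V : Type*} (ends : E → Sym2 V) (T P : List E) (a b c : V) (hinv : Inv ends T a b)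
    (hP : Tr ends b P c) (hPne : P ≠ []) (hPT : ∀ e ∈ P, e ∉ T)
    (Z I : Set E) (hcov : ∀ e, (e ∈ Z ∨ e ∈ I) ↔ e ∉ T ++ P)
    (hsep : ∀ e ∈ Z, ∀ f ∈ I, ∀ x ∈ ends e, x ∉ ends f) :
    ∀ e ∈ Z, ∀ x ∈ ends e, (Gr ends (Z ∪ {e | e ∈ P})).Reachable b x := by
  intro e he x hx
  match P, hP, hPne with
  | f0 :: P', hP, _ =>
    obtain ⟨c', hc', hP'⟩ := hP
    have hf0 : f0 ∉ T := hPT f0 (List.mem_cons_self)
    have heT : e ∉ T := by
      intro h
      exact (hcov e).1 (Or.inl he) (List.mem_append.2 (Or.inl h))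
    have hb : b ∈ ends f0 := by rw [hc']; exact Sym2.mem_mk_left b c'
    obtain ⟨w⟩ := hinv.conn e heT f0 hf0 x hx b hb
    exact z_reach_walk ends T (f0 :: P') b c ⟨c', hc', hP'⟩ Z I hcov hsep x b w rfl ⟨e, he, hx⟩

end Pool.Agent.Helper391.Lg
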