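import Pool.Agent.Helper391.Lg.Defs
import Pool.Agent.Helper391.Lg.P_tr_append
import Pool.Agent.Helper391.Lg.P_tr_through
import Pool.Agent.Helper391.Lg.P_absorb
import Pool.Agent.Helper391.Lg.P_absorb_odd
import Pool.Agent.Helper391.Lg.P_residual
import Pool.Agent.Helper391.Lg.P_z_parity
import Pool.Agent.Helper391.Lg.P_z_reach
import Pool.Agent.Helper391.Lg.P_finish



namespace Pool.Agent.Helper391.Lg
open Set


theorem step {E V : Type*} [Infinite E] (ends : E → Sym2 V) (hE : Eul ends)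
    (T : List E) (a b : V) (hinv : Inv ends T a b) (e₀ : E) :
    ∃ (X Y : List E) (a' b' : V), Inv ends (X ++ T ++ Y) a' b' ∧ Tr ends a' X a ∧ Tr ends b Y b' ∧
      e₀ ∈ X ++ T ++ Y := by
  classical
  by_cases he₀ : e₀ ∈ T
  · exact ⟨[], [], a, b, by simpa using hinv, rfl, rfl, by simpa using he₀⟩
  have hreach : ∀ x ∈ ends e₀, (Gr ends {e | e ∉ T}).Reachable b x := by
    intro x hx
    obtain ⟨e, he, hbe⟩ := hinv.hb
    exact hinv.conn e he e₀ he₀ b hbe x hx
  obtain ⟨P, c, hPn, hPR, hP, he₀P⟩ := tr_through ends {e | e ∉ T} b e₀ he₀ hreach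
  have hPT : ∀ e ∈ P, e ∉ T := fun e he => hPR e he
  have hPne : P ≠ [] := List.ne_nil_of_mem he₀P
  obtain ⟨Z, I, hZ, hI, hcov, hd, hsep, hIcon⟩ := residual ends hE {e | e ∈ T ++ P}
    (List.finite_toSet (T ++ P))
  have hcov : ∀ e, (e ∈ Z ∨ e ∈ I) ↔ e ∉ T ++ P := hcov
  have hn : (T ++ P).Nodup := by
    rw [List.nodup_append]
    refine ⟨hinv.nd, hPn, ?_⟩
    intro x hx y hy hxy
    subst hxy
    exact hPT x hy hx
  have hdis : ∀ e ∈ P, e ∉ Z := by
    intro e he hz
    exact (hcov e).1 (Or.inl hz) (List.mem_append_right _ he)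
  have hcon := z_reach ends T P a b c hinv hP hPne hPT Z I hcov hsep
  have key : ∀ (P' : List E) (c' : V), Tr ends b P' c' → P'.Nodup →
      (∀ e, e ∈ P' ↔ (e ∈ P ∨ e ∈ Z)) →
      ∃ (X Y : List E) (a' b' : V), Inv ends (X ++ T ++ Y) a' b' ∧ Tr ends a' X a ∧
        Tr ends b Y b' ∧ e₀ ∈ X ++ T ++ Y := by
    intro P' c' hP' hP'n hmem
    have he₀' : e₀ ∈ P' := (hmem e₀).2 (Or.inl he₀P)
    have hP'T : ∀ e ∈ P', e ∉ T := by
      intro e he
      rcases (hmem e).1 he with h | h
      · exact hPT e h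
      · intro hT
        exact (hcov e).1 (Or.inl h) (List.mem_append_left _ hT)
    have hcov' : ∀ e, e ∈ I ↔ e ∉ T ++ P' := by
      intro e
      constructor
      · intro h hm
        have h1 := (hcov e).1 (Or.inr h)
        rcases List.mem_append.1 hm with h2 | h2
        · exact h1 (List.mem_append_left _ h2)
        · rcases (hmem e).1 h2 with h3 | h3
          · exact h1 (List.mem_append_right _ h3)
          · exact Set.disjoint_left.1 hd h3 h
      · intro h
        have h1 : e ∉ T ++ P := by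
          intro hm
          rcases List.mem_append.1 hm with h2 | h2
          · exact h (List.mem_append_left _ h2)
          · exact h (List.mem_append_right _ ((hmem e).2 (Or.inl h2)))
        rcases (hcov e).2 h1 with h2 | h2
        · exact absurd (List.mem_append_right _ ((hmem e).2 (Or.inr h2))) h
        · exact h2
    obtain ⟨X, Y, a', b', h1, h2, h3, h4⟩ := finish ends hE T P' a b c' hinv hP'
      (List.ne_nil_of_mem he₀') hP'n hP'T I hI hcov' hIcon
    exact ⟨X, Y, a', b', h1, h2, h3, h4 e₀ he₀'⟩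
  rcases z_parity ends hE.fin hE.even T P a b c hinv.tr hP hn Z I hZ hcov hd hsep with hev | ⟨hac, hev⟩
  · obtain ⟨P', h1, h2, h3⟩ := absorb ends Z hZ hev P b c hP hPn hdis hcon
    exact key P' c h1 h2 h3
  · obtain ⟨P', h1, h2, h3⟩ := absorb_odd ends Z hZ a b c hac hev P hP hPn hdis hcon
    exact key P' a h1 h2 h3

end Pool.Agent.Helper391.Lg
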