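import Pool.Agent.Helper391.Lg.Defs



namespace Pool.Agent.Helper391.Lg
open Set


theorem tr_chain {E V : Type*} (ends : E → Sym2 V) (l : List E) (a b : V)
    (h : Tr ends a l b) : l.IsChain (fun e f => ∃ x, x ∈ ends e ∧ x ∈ ends f) := by
  induction l generalizing a with
  | nil => exact List.IsChain.nil
  | cons e l ih =>
    cases l with
    | nil => exact List.IsChain.singleton e
    | cons f l =>
      obtain ⟨c, hc, hcl⟩ := h
      have h1 := ih c hcl
      obtain ⟨d, hd, -⟩ := hcl
      rw [List.isChain_cons_cons]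
      refine ⟨⟨c, ?_, ?_⟩, h1⟩
      · rw [hc]; exact Sym2.mem_mk_right a c
      · rw [hd]; exact Sym2.mem_mk_left c d

end Pool.Agent.Helper391.Lg
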