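import Pool.Agent.Helper391.Lg.Defs



namespace Pool.Agent.Helper391.Lg
open Set


theorem zline_grow {E : Type*} (W : ℕ → List E) (hW : ∀ n, ∃ m ≥ n, W m ≠ []) (k : ℕ) :
    ∃ n, ∀ m, n ≤ m → k ≤ ∑ i ∈ Finset.range m, (W i).length := by
  have hmono : ∀ a b, a ≤ b → ∑ i ∈ Finset.range a, (W i).length ≤
      ∑ i ∈ Finset.range b, (W i).length := by
    intro a b hab
    exact Finset.sum_le_sum_of_subset (Finset.range_mono hab)
  induction k with
  | zero => exact ⟨0, fun m _ => Nat.zero_le _⟩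
  | succ k ih =>
    obtain ⟨n, hn⟩ := ih
    obtain ⟨m, hm, hWm⟩ := hW n
    refine ⟨m + 1, fun m' hm' => ?_⟩
    have h1 := hmono (m + 1) m' hm'
    rw [Finset.sum_range_succ] at h1
    have h2 : 0 < (W m).length := List.length_pos_iff.mpr hWm
    have h3 := hn m hm
    omega

theorem zline {E : Type*} (R : E → E → Prop) (T X Y : ℕ → List E)
    (hT : ∀ n, T (n + 1) = X n ++ T n ++ Y n) (hnd : ∀ n, (T n).Nodup)
    (hch : ∀ n, (T n).IsChain R) (hcov : ∀ e, ∃ n, e ∈ T n)
    (hX : ∀ n, ∃ m ≥ n, X m ≠ []) (hY : ∀ n, ∃ m ≥ n, Y m ≠ []) :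
    ∃ f : ℤ → E, Function.Bijective f ∧ ∀ z, R (f z) (f (z + 1)) := by
  obtain ⟨s, hs⟩ : ∃ s : ℕ → ℕ, s = fun n => ∑ i ∈ Finset.range n, (X i).length := ⟨_, rfl⟩
  obtain ⟨r, hr⟩ : ∃ r : ℕ → ℕ, r = fun n => ∑ i ∈ Finset.range n, (Y i).length := ⟨_, rfl⟩
  have hs1 : ∀ n, s (n + 1) = s n + (X n).length := by
    intro n; rw [hs]; exact Finset.sum_range_succ _ _
  have hr1 : ∀ n, r (n + 1) = r n + (Y n).length := by
    intro n; rw [hr]; exact Finset.sum_range_succ _ _
  have hs0 : s 0 = 0 := by rw [hs]; simp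
  have hr0 : r 0 = 0 := by rw [hr]; simp
  have hlen : ∀ n, (T n).length = s n + (T 0).length + r n := by
    intro n
    induction n with
    | zero => rw [hs0, hr0]; omega
    | succ n ih =>
      rw [hT, List.length_append, List.length_append, hs1, hr1]
      omega
  obtain ⟨P, hP⟩ : ∃ P : ℕ → ℤ → E → Prop, P = fun n z e => ∃ i : ℕ, (i : ℤ) = z + s n ∧
      (T n)[i]? = some e := ⟨_, rfl⟩
  have hPstep : ∀ n z e, P n z e → P (n + 1) z e := by
    intro n z e h
    rw [hP] at h ⊢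
    obtain ⟨i, hi, hie⟩ := h
    refine ⟨(X n).length + i, ?_, ?_⟩
    · rw [hs1]; push_cast; omega
    · have hlt : i < (T n).length := by
        by_contra hcon
        push Not at hcon
        rw [List.getElem?_eq_none hcon] at hie
        cases hie
      rw [hT, List.append_assoc, List.getElem?_append_right (by omega)]
      rw [show (X n).length + i - (X n).length = i by omega]
      rw [List.getElem?_append_left hlt]
      exact hie
  have hPmono : ∀ n m z e, n ≤ m → P n z e → P m z e := by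
    intro n m z e hnm h
    induction m, hnm using Nat.le_induction with
    | base => exact h
    | succ m _ ih => exact hPstep _ _ _ ih
  have hPfun : ∀ n z e e', P n z e → P n z e' → e = e' := by
    intro n z e e' h h'
    rw [hP] at h h'
    obtain ⟨i, hi, hie⟩ := h
    obtain ⟨j, hj, hje⟩ := h'
    have : i = j := by omega
    subst this
    rw [hie] at hje
    exact Option.some.inj hje
  have htot : ∀ z : ℤ, ∃ e, ∃ n, P n z e := by
    intro z
    obtain ⟨n1, hn1⟩ := zline_grow X hX (z.natAbs + 1)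
    obtain ⟨n2, hn2⟩ := zline_grow Y hY (z.natAbs + 1)
    have h1 : z.natAbs + 1 ≤ s (max n1 n2) := by rw [hs]; exact hn1 _ (le_max_left _ _)
    have h2 : z.natAbs + 1 ≤ r (max n1 n2) := by rw [hr]; exact hn2 _ (le_max_right _ _)
    have h3 := hlen (max n1 n2)
    have hlt : (z + s (max n1 n2)).toNat < (T (max n1 n2)).length := by omega
    refine ⟨(T (max n1 n2))[(z + s (max n1 n2)).toNat], max n1 n2, ?_⟩
    rw [hP]
    refine ⟨(z + s (max n1 n2)).toNat, by omega, ?_⟩
    exact List.getElem?_eq_getElem hlt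
  choose f hf using htot
  refine ⟨f, ⟨?_, ?_⟩, ?_⟩
  · intro z z' hzz
    obtain ⟨n, hn⟩ := hf z
    obtain ⟨n', hn'⟩ := hf z'
    have h1 := hPmono _ (max n n') _ _ (le_max_left _ _) hn
    have h2 := hPmono _ (max n n') _ _ (le_max_right _ _) hn'
    rw [hP] at h1 h2
    obtain ⟨i, hi, hie⟩ := h1
    obtain ⟨j, hj, hje⟩ := h2
    have hij : i = j := by
      obtain ⟨hi1, hi2⟩ := List.getElem?_eq_some_iff.mp hie
      obtain ⟨hj1, hj2⟩ := List.getElem?_eq_some_iff.mp hje
      exact (List.Nodup.getElem_inj_iff (hnd (max n n'))).mp (by rw [hi2, hj2, hzz])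
    omega
  · intro e
    obtain ⟨n, hn⟩ := hcov e
    obtain ⟨i, hi, hie⟩ := List.getElem_of_mem hn
    refine ⟨(i : ℤ) - s n, ?_⟩
    obtain ⟨m, hm⟩ := hf ((i : ℤ) - s n)
    have h1 : P n ((i : ℤ) - s n) e := by
      rw [hP]
      refine ⟨i, by omega, ?_⟩
      rw [List.getElem?_eq_getElem hi, hie]
    exact hPfun _ _ _ _ (hPmono _ (max n m) _ _ (le_max_right _ _) hm)
      (hPmono _ (max n m) _ _ (le_max_left _ _) h1)
  · intro z
    obtain ⟨n, hn⟩ := hf z
    obtain ⟨n', hn'⟩ := hf (z + 1)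
    have h1 := hPmono _ (max n n') _ _ (le_max_left _ _) hn
    have h2 := hPmono _ (max n n') _ _ (le_max_right _ _) hn'
    rw [hP] at h1 h2
    obtain ⟨i, hi, hie⟩ := h1
    obtain ⟨j, hj, hje⟩ := h2
    have hij : j = i + 1 := by omega
    subst hij
    obtain ⟨hi1, hi2⟩ := List.getElem?_eq_some_iff.mp hie
    obtain ⟨hj1, hj2⟩ := List.getElem?_eq_some_iff.mp hje
    have hc := (List.isChain_iff_getElem.mp (hch (max n n'))) i hj1
    rw [hi2, hj2] at hc
    exact hc

end Pool.Agent.Helper391.Lg
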