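import Pool.Agent.Helper391.Lg.Defs
import Pool.Agent.Helper391.Lg.P_tr_chain
import Pool.Agent.Helper391.Lg.P_step
import Pool.Agent.Helper391.Lg.P_zline



namespace Pool.Agent.Helper391.Lg
open Set


theorem stuck352 {E V : Type*} (ends : E → Sym2 V) (hfin : ∀ v, {e | v ∈ ends e}.Finite)
    (T X : ℕ → List E) (a : ℕ → V) (hmono : ∀ n e, e ∈ T n → e ∈ T (n + 1))
    (hcov : ∀ e, ∃ n, e ∈ T n) (ha : ∀ n, ∃ e, e ∉ T n ∧ a n ∈ ends e)
    (hX : ∀ n, X n = [] → a (n + 1) = a n) (n : ℕ) : ∃ m ≥ n, X m ≠ [] := by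
  by_contra hcon
  push Not at hcon
  have hconst : ∀ m ≥ n, a m = a n := by
    intro m hm
    induction m, hm using Nat.le_induction with
    | base => rfl
    | succ m hm ih => rw [hX m (hcon m hm), ih]
  have hmono' : ∀ k m e, k ≤ m → e ∈ T k → e ∈ T m := by
    intro k m e hkm he
    induction m, hkm using Nat.le_induction with
    | base => exact he
    | succ m hm ih => exact hmono m e ih
  choose k hk using hcov
  obtain ⟨e, he1, he2⟩ := ha (max n ((hfin (a n)).toFinset.sup k))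
  rw [hconst _ (le_max_left _ _)] at he2
  apply he1
  refine hmono' (k e) _ e ?_ (hk e)
  refine le_trans ?_ (le_max_right _ _)
  exact Finset.le_sup (f := k) ((hfin (a n)).mem_toFinset.2 he2)

theorem euler_double {E V : Type*} [Infinite E] [Countable E] [Nonempty V] (ends : E → Sym2 V)
    (hE : Eul ends) :
    ∃ f : ℤ → E, Function.Bijective f ∧ ∀ z, ∃ x, x ∈ ends (f z) ∧ x ∈ ends (f (z + 1)) := by
  obtain ⟨enum, henum⟩ := exists_surjective_nat E
  have e0 : E := enum 0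
  obtain ⟨v0, hv0⟩ : ∃ v, v ∈ ends e0 := ⟨_, Sym2.out_fst_mem (ends e0)⟩
  have hinv0 : Inv ends [] v0 v0 := by
    refine ⟨rfl, List.nodup_nil, ?_, ⟨e0, List.not_mem_nil, hv0⟩, ⟨e0, List.not_mem_nil, hv0⟩⟩
    intro e _ f _ x _ y _
    have hset : {e : E | e ∉ ([] : List E)} = Set.univ := by
      ext e
      simp
    rw [hset]
    exact hE.conn x y
  have hstep : ∀ (n : ℕ) (s : {s : List E × V × V // Inv ends s.1 s.2.1 s.2.2}),
      ∃ q : List E × List E × V × V, Inv ends (q.1 ++ s.1.1 ++ q.2.1) q.2.2.1 q.2.2.2 ∧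
        Tr ends q.2.2.1 q.1 s.1.2.1 ∧ Tr ends s.1.2.2 q.2.1 q.2.2.2 ∧
        enum n ∈ q.1 ++ s.1.1 ++ q.2.1 := by
    rintro n ⟨⟨T, a, b⟩, h⟩
    obtain ⟨X, Y, a', b', h1, h2, h3, h4⟩ := step ends hE T a b h (enum n)
    exact ⟨(X, Y, a', b'), h1, h2, h3, h4⟩
  choose Q hQ using hstep
  let S : ℕ → {s : List E × V × V // Inv ends s.1 s.2.1 s.2.2} := fun n =>
    Nat.rec ⟨([], v0, v0), hinv0⟩ (fun n s =>
      ⟨((Q n s).1 ++ s.1.1 ++ (Q n s).2.1, (Q n s).2.2.1, (Q n s).2.2.2), (hQ n s).1⟩) n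
  have hT : ∀ n, (S (n + 1)).1.1 = (Q n (S n)).1 ++ (S n).1.1 ++ (Q n (S n)).2.1 := fun n => rfl
  have hmono : ∀ n e, e ∈ (S n).1.1 → e ∈ (S (n + 1)).1.1 := by
    intro n e he
    rw [hT]
    exact List.mem_append_left _ (List.mem_append_right _ he)
  have hcov : ∀ e, ∃ n, e ∈ (S n).1.1 := by
    intro e
    obtain ⟨n, rfl⟩ := henum e
    exact ⟨n + 1, (hQ n (S n)).2.2.2⟩
  refine zline (fun e f => ∃ x, x ∈ ends e ∧ x ∈ ends f) (fun n => (S n).1.1)
    (fun n => (Q n (S n)).1) (fun n => (Q n (S n)).2.1) hT (fun n => (S n).2.nd)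
    (fun n => tr_chain ends _ _ _ (S n).2.tr) hcov ?_ ?_
  · refine stuck352 ends hE.fin (fun n => (S n).1.1) (fun n => (Q n (S n)).1)
      (fun n => (S n).1.2.1) hmono hcov (fun n => (S n).2.ha) ?_
    intro n hn
    have h := (hQ n (S n)).2.1
    rw [show (Q n (S n)).1 = [] from hn] at h
    exact h
  · refine stuck352 ends hE.fin (fun n => (S n).1.1) (fun n => (Q n (S n)).2.1)
      (fun n => (S n).1.2.2) hmono hcov (fun n => (S n).2.hb) ?_
    intro n hn
    have h := (hQ n (S n)).2.2.1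
    rw [show (Q n (S n)).2.1 = [] from hn] at h
    exact h.symm

end Pool.Agent.Helper391.Lg
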