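import Pool.Agent.Helper391.Lg.Defs



namespace Pool.Agent.Helper391.Lg
open Set


open Classical in
theorem pf_fin {V : Type*} (B : Set (Sym2 V))
    (hout : ∀ U : Set V, U.Finite → U.Nonempty → ∃ e ∈ B, (∃ v ∈ e, v ∈ U) ∧ ∃ v ∈ e, v ∉ U)
    (w : V → ZMod 2) (S : Finset V) :
    ∃ J ⊆ B, ∀ v ∈ S, (({e | e ∈ J ∧ v ∈ e}.ncard : ℕ) : ZMod 2) = w v := by
  set r : Sym2 V → (S → ZMod 2) := fun e v => if (v : V) ∈ e then 1 else 0 with hr
  have htop : Submodule.span (ZMod 2) (r '' B) = ⊤ := by
    by_contra hne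
    obtain ⟨f, hf0, hfW⟩ := Submodule.exists_le_ker_of_lt_top _ (lt_top_iff_ne_top.mpr hne)
    set U : Set V := {v | ∃ h : v ∈ S, f (Pi.single (⟨v, h⟩ : S) (1 : ZMod 2)) ≠ 0} with hU
    have hUfin : U.Finite := S.finite_toSet.subset (by rintro v ⟨h, -⟩; exact h)
    have hUne : U.Nonempty := by
      by_contra hemp
      apply hf0
      refine LinearMap.pi_ext' fun v => ?_
      refine LinearMap.ext_ring ?_
      by_contra hv
      exact hemp ⟨v, v.2, by simpa using hv⟩
    obtain ⟨e, heB, ⟨a, hae, haU⟩, b, hbe, hbU⟩ := hout U hUfin hUne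
    obtain ⟨haS, hfa⟩ := haU
    have hab : a ≠ b := by
      rintro rfl
      exact hbU ⟨haS, hfa⟩
    have hee : e = s(a, b) := ((Sym2.mem_and_mem_iff hab).mp ⟨hae, hbe⟩)
    have h0 : f (r e) = 0 := hfW (Submodule.subset_span ⟨e, heB, rfl⟩)
    have hsum : r e = ∑ v : S, (r e v) • (Pi.single v (1 : ZMod 2) : S → ZMod 2) := by
      ext u
      simp [Finset.sum_apply, Pi.single_apply]
    rw [hsum, map_sum] at h0
    rw [Finset.sum_eq_single (⟨a, haS⟩ : S)] at h0
    · rw [map_smul] at h0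
      apply hfa
      have : r e ⟨a, haS⟩ = 1 := by
        simp [hr, hae]
      rw [this, one_smul] at h0
      exact h0
    · intro u _ hu
      rw [map_smul]
      by_cases hue : (u : V) ∈ e
      · rw [hee, Sym2.mem_iff] at hue
        rcases hue with h1 | h1
        · exact absurd (Subtype.ext h1) hu
        · have : f (Pi.single u (1 : ZMod 2)) = 0 := by
            by_contra hne
            apply hbU
            refine ⟨h1 ▸ u.2, ?_⟩
            have : u = ⟨b, h1 ▸ u.2⟩ := Subtype.ext h1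
            rw [← this]
            exact hne
          rw [this, smul_zero]
      · have : r e u = 0 := by simp [hr, hue]
        rw [this, zero_smul]
    · intro h
      exact absurd (Finset.mem_univ _) h
  have hw : (fun v : S => w v) ∈ Submodule.span (ZMod 2) (r '' B) := by
    rw [htop]; trivial
  rw [Finsupp.mem_span_image_iff_linearCombination] at hw
  obtain ⟨l, hl, hlw⟩ := hw
  refine ⟨(l.support : Set (Sym2 V)), hl, ?_⟩
  intro v hv
  have h1 := congrFun hlw ⟨v, hv⟩
  rw [← h1]
  rw [Finsupp.linearCombination_apply, Finsupp.sum, Finset.sum_apply]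
  have h2 : {e | e ∈ (l.support : Set (Sym2 V)) ∧ v ∈ e} = ((l.support.filter (fun e => v ∈ e)) : Set (Sym2 V)) := by
    ext e
    simp
  rw [h2, Set.ncard_coe_finset]
  rw [Finset.card_filter]
  push_cast
  refine Finset.sum_congr rfl fun e he => ?_
  have h3 : l e = 1 := by
    have hne : l e ≠ 0 := Finsupp.mem_support_iff.mp he
    have : ∀ x : ZMod 2, x ≠ 0 → x = 1 := by decide
    exact this _ hne
  rw [Pi.smul_apply, h3, one_smul]

/-- a set of edges leaving every finite vertex set contains a subset with prescribed degree parities -/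
theorem parity_fix {V : Type*} (B : Set (Sym2 V)) (hfin : ∀ v, {e | e ∈ B ∧ v ∈ e}.Finite)
    (hdiag : ∀ e ∈ B, ¬ e.IsDiag)
    (hout : ∀ U : Set V, U.Finite → U.Nonempty → ∃ e ∈ B, (∃ v ∈ e, v ∈ U) ∧ ∃ v ∈ e, v ∉ U)
    (w : V → ZMod 2) :
    ∃ J ⊆ B, ∀ v, (({e | e ∈ J ∧ v ∈ e}.ncard : ℕ) : ZMod 2) = w v := by
  classical
  choose J hJB hJ using fun S : Finset V => pf_fin B hout w S
  set U : Ultrafilter (Finset V) := Ultrafilter.of Filter.atTop with hU
  have hUle : (U : Filter (Finset V)) ≤ Filter.atTop := Ultrafilter.of_le _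
  refine ⟨{e | ∀ᶠ S in (U : Filter (Finset V)), e ∈ J S}, ?_, ?_⟩
  · intro e he
    obtain ⟨S, hS⟩ := he.exists
    exact hJB S hS
  · intro v
    have h1 : ∀ᶠ S in (U : Filter (Finset V)), v ∈ S := by
      refine hUle ?_
      filter_upwards [Filter.eventually_ge_atTop ({v} : Finset V)] with S hS
      exact hS (Finset.mem_singleton_self v)
    have h2 : ∀ᶠ S in (U : Filter (Finset V)), ∀ e ∈ {e | e ∈ B ∧ v ∈ e},
        (e ∈ J S ↔ ∀ᶠ S in (U : Filter (Finset V)), e ∈ J S) := by
      rw [Filter.eventually_all_finite (hfin v)]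
      intro e _
      by_cases he : ∀ᶠ S in (U : Filter (Finset V)), e ∈ J S
      · filter_upwards [he] with S hS
        exact ⟨fun _ => he, fun _ => hS⟩
      · have he' : ∀ᶠ S in (U : Filter (Finset V)), e ∉ J S :=
          Ultrafilter.eventually_not.mpr he
        filter_upwards [he'] with S hS
        exact ⟨fun h => absurd h hS, fun h => absurd h he⟩
    obtain ⟨S, hvS, hS⟩ := (h1.and h2).exists
    rw [← hJ S v hvS]
    congr 2
    ext e
    constructor
    · rintro ⟨he, hve⟩
      have heB : e ∈ B := by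
        obtain ⟨S', hS'⟩ := Filter.Eventually.exists he
        exact hJB S' hS'
      exact ⟨(hS e ⟨heB, hve⟩).mpr he, hve⟩
    · rintro ⟨he, hve⟩
      exact ⟨(hS e ⟨hJB S he, hve⟩).mp he, hve⟩

end Pool.Agent.Helper391.Lg
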