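import Pool.Agent.Helper391.Lg.Defs
import Pool.Agent.Helper391.Lg.P_euler_double
import Pool.Agent.Helper391.Lg.P_parity_fix
import Pool.Agent.Helper391.Lg.P_countable_of_conn



namespace Pool.Agent.Helper391.Lg
open Set


theorem h940_finmem {V : Type*} (e : Sym2 V) : {v | v ∈ e}.Finite := by
  induction e using Sym2.ind with
  | _ a b =>
    have : {v | v ∈ s(a, b)} = {a, b} := by
      ext v; simp
    rw [this]
    exact Set.toFinite _

theorem h940_locfin {V : Type*} (G : SimpleGraph V) (hfin : ∀ v, (G.neighborSet v).Finite) (v : V) :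
    {e : Sym2 V | e ∈ G.edgeSet ∧ v ∈ e}.Finite := by
  refine ((hfin v).image (fun w => s(v, w))).subset ?_
  rintro e ⟨he, hv⟩
  obtain ⟨w, rfl⟩ := Sym2.mem_iff_exists.1 hv
  exact ⟨w, (SimpleGraph.mem_edgeSet G).1 he, rfl⟩

/-- from a decomposition to the two-way infinite path of the line graph -/
theorem dom_double {V : Type*} [Infinite V] (G : SimpleGraph V) (hfin : ∀ v, (G.neighborSet v).Finite)
    (A B : Set (Sym2 V)) (hAB : A ∪ B = G.edgeSet) (hd : Disjoint A B)
    (hB : ∀ U : Set V, U.Finite → U.Nonempty → ∃ e ∈ B, (∃ v ∈ e, v ∈ U) ∧ ∃ v ∈ e, v ∉ U)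
    (hA : ∀ u v, (SimpleGraph.fromEdgeSet A).Reachable u v)
    (hA1 : ∀ S : Set V, S.Finite → ∃ K : Set V, K.Finite ∧ S ⊆ K ∧ ∀ u, u ∉ K → ∀ v, v ∉ K →
      (SimpleGraph.fromEdgeSet {e | e ∈ A ∧ ∀ x ∈ e, x ∉ K}).Reachable u v) :
    ∃ f : ℤ → G.edgeSet, Function.Bijective f ∧ ∀ n, G.lineGraph.Adj (f n) (f (n + 1)) := by
  classical
  have hAG : A ⊆ G.edgeSet := by rw [← hAB]; exact subset_union_left
  have hBG : B ⊆ G.edgeSet := by rw [← hAB]; exact subset_union_right
  have hGconn : ∀ u v, G.Reachable u v := by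
    intro u v
    refine (hA u v).mono ?_
    have := SimpleGraph.fromEdgeSet_mono hAG
    rwa [SimpleGraph.fromEdgeSet_edgeSet] at this
  have hVc : Countable V := countable_of_conn G hfin hGconn
  have hSc : Countable (Sym2 V) := by
    have hs : Function.Surjective (fun p : V × V => Sym2.mk p.1 p.2) := by
      intro e
      induction e using Sym2.ind with
      | _ a b => exact ⟨(a, b), rfl⟩
    exact hs.countable
  have hEc : Countable G.edgeSet := Subtype.countable
  have hlf := h940_locfin G hfin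
  have hEi : Infinite G.edgeSet := by
    by_contra hcon
    rw [not_infinite_iff_finite] at hcon
    have hfinU : (⋃ e : G.edgeSet, {v | v ∈ (e : Sym2 V)}).Finite :=
      Set.finite_iUnion fun e => h940_finmem _
    have : (⋃ e : G.edgeSet, {v | v ∈ (e : Sym2 V)}) = univ := by
      rw [eq_univ_iff_forall]
      intro v
      obtain ⟨w, hw⟩ := exists_ne v
      obtain ⟨p⟩ := hGconn v w
      cases p with
      | nil => exact absurd rfl hw
      | cons hadj _ =>
        rw [mem_iUnion]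
        exact ⟨⟨_, (SimpleGraph.mem_edgeSet G).2 hadj⟩, by simp⟩
    rw [this] at hfinU
    exact Set.infinite_univ hfinU
  have hfA : ∀ v, {e | e ∈ A ∧ v ∈ e}.Finite := fun v =>
    (hlf v).subset fun e he => ⟨hAG he.1, he.2⟩
  have hfB : ∀ v, {e | e ∈ B ∧ v ∈ e}.Finite := fun v =>
    (hlf v).subset fun e he => ⟨hBG he.1, he.2⟩
  have hdiagG : ∀ e ∈ G.edgeSet, ¬ e.IsDiag := fun e he => G.not_isDiag_of_mem_edgeSet he
  obtain ⟨J, hJB, hJ⟩ := parity_fix B hfB (fun e he => hdiagG e (hBG he)) hB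
    (fun v => (({e | e ∈ A ∧ v ∈ e}.ncard : ℕ) : ZMod 2))
  have hfJ : ∀ v, {e | e ∈ J ∧ v ∈ e}.Finite := fun v =>
    (hfB v).subset fun e he => ⟨hJB he.1, he.2⟩
  let x : Sym2 V → V := fun e => (Quot.out e).1
  have hx : ∀ e, x e ∈ e := fun e => Sym2.out_fst_mem e
  let ends : G.edgeSet → Sym2 V := fun e =>
    if (e : Sym2 V) ∈ A ∪ J then (e : Sym2 V) else s(x e, x e)
  have hends1 : ∀ e : G.edgeSet, (e : Sym2 V) ∈ A ∪ J → ends e = e := fun e he => if_pos he
  have hends2 : ∀ e : G.edgeSet, (e : Sym2 V) ∉ A ∪ J → ends e = s(x e, x e) :=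
    fun e he => if_neg he
  have hmem : ∀ (e : G.edgeSet) (v : V), v ∈ ends e → v ∈ (e : Sym2 V) := by
    intro e v hv
    by_cases he : (e : Sym2 V) ∈ A ∪ J
    · rwa [hends1 e he] at hv
    · rw [hends2 e he] at hv
      simp only [Sym2.mem_iff, or_self] at hv
      rw [hv]
      exact hx e
  have hE : Eul ends := by
    refine ⟨?_, ?_, ?_, ?_⟩
    · intro v
      refine Set.Finite.subset (Set.Finite.preimage Subtype.val_injective.injOn (hlf v)) ?_
      intro e he
      exact ⟨e.2, hmem e v he⟩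
    · intro v
      have hset : {e : G.edgeSet | e ∈ Set.univ ∧ v ∈ ends e ∧ ¬ (ends e).IsDiag} =
          Subtype.val ⁻¹' ({e | e ∈ A ∧ v ∈ e} ∪ {e | e ∈ J ∧ v ∈ e}) := by
        ext e
        simp only [mem_ofPred_eq, mem_univ, true_and, mem_preimage, mem_union]
        by_cases he : (e : Sym2 V) ∈ A ∪ J
        · rw [hends1 e he]
          have h1 := hdiagG e e.2
          rcases he with he | he
          · constructor
            · rintro ⟨h2, _⟩; exact Or.inl ⟨he, h2⟩
            · rintro (⟨_, h2⟩ | ⟨_, h2⟩) <;> exact ⟨h2, h1⟩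
          · constructor
            · rintro ⟨h2, _⟩; exact Or.inr ⟨he, h2⟩
            · rintro (⟨_, h2⟩ | ⟨_, h2⟩) <;> exact ⟨h2, h1⟩
        · rw [hends2 e he]
          constructor
          · rintro ⟨_, h2⟩
            exact absurd rfl h2
          · rintro (⟨h2, _⟩ | ⟨h2, _⟩)
            · exact absurd (Or.inl h2) he
            · exact absurd (Or.inr h2) he
      unfold dg
      rw [hset, Set.ncard_preimage_of_injective_subset_range Subtype.val_injective]
      · rw [Set.ncard_union_eq _ (hfA v) (hfJ v)]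
        · have := hJ v
          rw [Nat.even_iff]
          have h2 : ((({e | e ∈ A ∧ v ∈ e}.ncard + {e | e ∈ J ∧ v ∈ e}.ncard : ℕ)) : ZMod 2) = 0 := by
            push_cast
            rw [this]
            exact CharTwo.add_self_eq_zero _
          rw [ZMod.natCast_eq_zero_iff] at h2
          exact Nat.mod_eq_zero_of_dvd h2
        · rw [Set.disjoint_left]
          rintro e ⟨h1, _⟩ ⟨h2, _⟩
          exact Set.disjoint_left.1 hd h1 (hJB h2)
      · rintro e (⟨he, _⟩ | ⟨he, _⟩)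
        · exact ⟨⟨e, hAG he⟩, rfl⟩
        · exact ⟨⟨e, hBG (hJB he)⟩, rfl⟩
    · intro u v
      refine (hA u v).mono (SimpleGraph.fromEdgeSet_mono ?_)
      intro e he
      exact ⟨⟨e, hAG he⟩, mem_univ _, hends1 _ (Or.inl he)⟩
    · intro X hX
      have hS : (⋃ e ∈ X, {v | v ∈ (e : Sym2 V)}).Finite :=
        hX.biUnion fun e _ => h940_finmem _
      obtain ⟨K, hK, hSK, hreach⟩ := hA1 _ hS
      refine ⟨K, hK, fun u hu v hv => (hreach u hu v hv).mono (SimpleGraph.fromEdgeSet_mono ?_)⟩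
      rintro e ⟨he, hek⟩
      refine ⟨⟨e, hAG he⟩, ?_, hends1 _ (Or.inl he)⟩
      intro heX
      refine hek (x e) (hx e) (hSK ?_)
      rw [mem_iUnion₂]
      exact ⟨⟨e, hAG he⟩, heX, hx e⟩
  obtain ⟨f, hf, hfx⟩ := euler_double ends hE
  refine ⟨f, hf, fun n => ?_⟩
  rw [SimpleGraph.lineGraph_adj_iff_exists]
  refine ⟨?_, ?_⟩
  · intro h
    have := hf.1 h
    omega
  · obtain ⟨y, hy1, hy2⟩ := hfx n
    exact ⟨y, hmem _ _ hy1, hmem _ _ hy2⟩

end Pool.Agent.Helper391.Lg
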