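import Pool.Agent.Helper391.Lg.Defs
import Pool.Agent.Helper391.Lg.P_decomp_reg
import Pool.Agent.Helper391.Lg.P_core_pack



namespace Pool.Agent.Helper391.Lg
open Set


theorem fd_inv {V : Type*} {G1 G2 : SimpleGraph V} (P : V → Prop)
    (h : ∀ x y, G1.Adj x y → P x → P y ∧ G2.Reachable x y) {u v : V} (hr : G1.Reachable u v)
    (hu : P u) : P v ∧ G2.Reachable u v := by
  obtain ⟨p⟩ := hr
  induction p with
  | nil => exact ⟨hu, SimpleGraph.Reachable.refl _⟩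
  | cons hadj p ih =>
    obtain ⟨h1, h2⟩ := h _ _ hadj hu
    obtain ⟨h3, h4⟩ := ih h1
    exact ⟨h3, h2.trans h4⟩

theorem fd_fin {V : Type*} (G : SimpleGraph V) (hfin : ∀ v, (G.neighborSet v).Finite) (S : Set V)
    (hS : S.Finite) : {e | e ∈ G.edgeSet ∧ ∃ v ∈ e, v ∈ S}.Finite := by
  refine (hS.biUnion (t := fun v => (fun w => s(v, w)) '' (G.neighborSet v))
    fun v _ => (hfin v).image _).subset ?_
  rintro e ⟨he, v, hv, hvS⟩
  obtain ⟨w, rfl⟩ := hv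
  simp only [Set.mem_iUnion]
  exact ⟨v, hvS, w, he, rfl⟩

theorem fin_decomp {V : Type*} [Infinite V] (G : SimpleGraph V) (hfin : ∀ v, (G.neighborSet v).Finite)
    (h4 : ∀ P : Set V, P.Nonempty → Pᶜ.Nonempty → (bd G P).Finite → 4 ≤ (bd G P).ncard)
    (hconn : ∀ u v, G.Reachable u v) (F₀ : Set V) (hne : F₀.Nonempty) {k : ℕ} (C : Fin k → Set V)
    (hR : Reg G F₀ C) (hI : Ipos G F₀) :
    ∃ A B : Set (Sym2 V), A ∪ B = G.edgeSet ∧ Disjoint A B ∧
      (∀ u v, (SimpleGraph.fromEdgeSet A).Reachable u v) ∧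
      (∀ i, ∀ S : Set V, S.Finite → ∃ K : Set V, K.Finite ∧ S ⊆ K ∧ ∀ u ∈ C i \ K, ∀ v ∈ C i \ K,
        (SimpleGraph.fromEdgeSet {e | e ∈ A ∧ ∀ x ∈ e, x ∈ C i ∧ x ∉ K}).Reachable u v) ∧
      (∀ Z : Set V, Z.Nonempty → Zᶜ.Nonempty → (bd G Z).Finite → ∃ e ∈ B, e ∈ bd G Z) := by
  have h4' : ∀ P : Set V, P.Finite → P.Nonempty → 4 ≤ (bd G P).ncard := by
    intro P hP hPn
    refine h4 P hPn ?_ ?_
    · exact hP.infinite_compl.nonempty
    · refine (fd_fin G hfin P hP).subset ?_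
      rintro e ⟨he, hv, -⟩
      exact ⟨he, hv⟩
  obtain ⟨A', B', hAB', hdis', hB1, hA2, hA3⟩ := decomp_reg G hfin h4' hconn F₀ hne C hR hI
  obtain ⟨A₀, B₀, hAB₀, hdis₀, hA₀, hB₀⟩ := core_pack G hfin h4 F₀ hne C hR
  have hA'm : ∀ e ∈ A', e ∈ G.edgeSet ∧ ∀ x ∈ e, x ∉ F₀ := fun e he => by
    have : e ∈ A' ∪ B' := Or.inl he
    rw [hAB'] at this
    exact this
  have hB'm : ∀ e ∈ B', e ∈ G.edgeSet ∧ ∀ x ∈ e, x ∉ F₀ := fun e he => by
    have : e ∈ A' ∪ B' := Or.inr he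
    rw [hAB'] at this
    exact this
  have hA₀m : ∀ e ∈ A₀, e ∈ G.edgeSet ∧ ∃ v ∈ e, v ∈ F₀ := fun e he => by
    have : e ∈ A₀ ∪ B₀ := Or.inl he
    rw [hAB₀] at this
    exact this
  have hB₀m : ∀ e ∈ B₀, e ∈ G.edgeSet ∧ ∃ v ∈ e, v ∈ F₀ := fun e he => by
    have : e ∈ A₀ ∪ B₀ := Or.inr he
    rw [hAB₀] at this
    exact this
  refine ⟨A' ∪ A₀, B' ∪ B₀, ?_, ?_, ?_, ?_, ?_⟩
  · ext e
    constructor
    · rintro ((h | h) | (h | h))
      · exact (hA'm e h).1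
      · exact (hA₀m e h).1
      · exact (hB'm e h).1
      · exact (hB₀m e h).1
    · intro he
      by_cases hF : ∃ v ∈ e, v ∈ F₀
      · have : e ∈ A₀ ∪ B₀ := by rw [hAB₀]; exact ⟨he, hF⟩
        rcases this with h | h
        · exact Or.inl (Or.inr h)
        · exact Or.inr (Or.inr h)
      · have : e ∈ A' ∪ B' := by
          rw [hAB']
          exact ⟨he, fun x hx hxF => hF ⟨x, hx, hxF⟩⟩
        rcases this with h | h
        · exact Or.inl (Or.inl h)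
        · exact Or.inr (Or.inl h)
  · rw [Set.disjoint_left]
    rintro e (h | h) (h' | h')
    · exact Set.disjoint_left.1 hdis' h h'
    · obtain ⟨v, hv, hvF⟩ := (hB₀m e h').2
      exact (hA'm e h).2 v hv hvF
    · obtain ⟨v, hv, hvF⟩ := (hA₀m e h).2
      exact (hB'm e h').2 v hv hvF
    · exact Set.disjoint_left.1 hdis₀ h h'
  · intro u v
    refine (fd_inv (fun _ => True) ?_ (hA₀ u v) trivial).2
    intro x y hxy _
    refine ⟨trivial, ?_⟩
    rw [SimpleGraph.fromEdgeSet_adj] at hxy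
    obtain ⟨h | ⟨i, hi⟩, hne'⟩ := hxy
    · refine SimpleGraph.Adj.reachable ?_
      rw [SimpleGraph.fromEdgeSet_adj]
      exact ⟨Or.inr h, hne'⟩
    · refine (hA2 i x (hi x (Sym2.mem_mk_left x y)) y (hi y (Sym2.mem_mk_right x y))).mono ?_
      exact SimpleGraph.fromEdgeSet_mono Set.subset_union_left
  · intro i S hS
    obtain ⟨K, hK, hSK, hcon⟩ := hA3 i (S ∪ F₀) (hS.union hR.finF)
    refine ⟨K, hK, Set.subset_union_left.trans hSK, fun u hu v hv => ?_⟩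
    refine (fd_inv (fun x => x ∈ C i) ?_ (hcon u hu v hv) hu.1).2
    intro x y hxy hx
    rw [SimpleGraph.fromEdgeSet_adj] at hxy
    obtain ⟨⟨hA, hav⟩, hne'⟩ := hxy
    have hyC : y ∈ C i := by
      have h1 := hR.noedge i _ (hA'm _ hA).1 ⟨x, Sym2.mem_mk_left x y, hx⟩ y (Sym2.mem_mk_right x y)
      rcases h1 with h1 | h1
      · exact absurd h1 ((hA'm _ hA).2 y (Sym2.mem_mk_right x y))
      · exact h1
    refine ⟨hyC, SimpleGraph.Adj.reachable ?_⟩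
    rw [SimpleGraph.fromEdgeSet_adj]
    refine ⟨⟨Or.inl hA, ?_⟩, hne'⟩
    intro z hz
    rcases Sym2.mem_iff.1 hz with rfl | rfl
    · exact ⟨hx, hav _ hz⟩
    · exact ⟨hyC, hav _ hz⟩
  · intro Z hZ hZc hZf
    by_contra hcon
    push Not at hcon
    -- edges of B do not cross Z
    have hcross : ∀ x y, s(x, y) ∈ B' ∪ B₀ → s(x, y) ∈ G.edgeSet → (x ∈ Z ↔ y ∈ Z) := by
      intro x y he heG
      by_contra hne'
      refine hcon _ he ⟨heG, ?_⟩
      by_cases hx : x ∈ Z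
      · have hy : y ∉ Z := fun hy => hne' ⟨fun _ => hy, fun _ => hx⟩
        exact ⟨⟨x, Sym2.mem_mk_left x y, hx⟩, ⟨y, Sym2.mem_mk_right x y, hy⟩⟩
      · have hy : y ∈ Z := by
          by_contra hy
          exact hne' ⟨fun h => absurd h hx, fun h => absurd h hy⟩
        exact ⟨⟨y, Sym2.mem_mk_right x y, hy⟩, ⟨x, Sym2.mem_mk_left x y, hx⟩⟩
    have hfinF := fd_fin G hfin F₀ hR.finF
    have hstep : ∀ i x y, (SimpleGraph.fromEdgeSet B').Adj x y → x ∈ C i →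
        y ∈ C i ∧ (x ∈ Z ↔ y ∈ Z) := by
      intro i x y hxy hx
      rw [SimpleGraph.fromEdgeSet_adj] at hxy
      obtain ⟨hB, hne'⟩ := hxy
      have hyC : y ∈ C i := by
        have h1 := hR.noedge i _ (hB'm _ hB).1 ⟨x, Sym2.mem_mk_left x y, hx⟩ y
          (Sym2.mem_mk_right x y)
        rcases h1 with h1 | h1
        · exact absurd h1 ((hB'm _ hB).2 y (Sym2.mem_mk_right x y))
        · exact h1
      exact ⟨hyC, hcross x y (Or.inl hB) (hB'm _ hB).1⟩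
    have hCi : ∀ i, (∀ x ∈ C i, x ∉ Z) ∨ (∀ x ∈ C i, x ∈ Z) := by
      intro i
      have hbf : (bd G (Z ∩ C i)).Finite := by
        refine (hZf.union hfinF).subset ?_
        rintro e ⟨heG, ⟨v, hv, hvZ, hvC⟩, ⟨w, hw, hwn⟩⟩
        have h1 := hR.noedge i e heG ⟨v, hv, hvC⟩ w hw
        rcases h1 with h1 | h1
        · exact Or.inr ⟨heG, w, hw, h1⟩
        · exact Or.inl ⟨heG, ⟨v, hv, hvZ⟩, ⟨w, hw, fun hwZ => hwn ⟨hwZ, h1⟩⟩⟩
      have hnF : ∀ x ∈ C i, x ∉ F₀ := fun x hx hxF => Set.disjoint_left.1 (hR.disjF i) hx hxF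
      rcases hR.one i (Z ∩ C i) Set.inter_subset_right hbf with hf | hf
      · left
        intro x hx hxZ
        obtain ⟨w, hw, hreach⟩ := hB1 x (hnF x hx) (Z ∩ C i) hf
        refine hw ?_
        refine (fd_inv (G2 := ⊤) (fun y => y ∈ Z ∩ C i) ?_ hreach ⟨hxZ, hx⟩).1
        intro a b hab ha
        obtain ⟨h1, h2⟩ := hstep i a b hab ha.2
        exact ⟨⟨h2.1 ha.1, h1⟩, SimpleGraph.Adj.reachable (by
          rw [SimpleGraph.top_adj]; exact hab.ne)⟩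
      · right
        intro x hx
        by_contra hxZ
        obtain ⟨w, hw, hreach⟩ := hB1 x (hnF x hx) (C i \ (Z ∩ C i)) hf
        refine hw ?_
        refine (fd_inv (G2 := ⊤) (fun y => y ∈ C i \ (Z ∩ C i)) ?_ hreach
          ⟨hx, fun h => hxZ h.1⟩).1
        intro a b hab ha
        obtain ⟨h1, h2⟩ := hstep i a b hab ha.1
        exact ⟨⟨h1, fun h => ha.2 ⟨h2.2 h.1, ha.1⟩⟩, SimpleGraph.Adj.reachable (by
          rw [SimpleGraph.top_adj]; exact hab.ne)⟩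
    obtain ⟨u, hu⟩ := hZ
    obtain ⟨v, hv⟩ := hZc
    refine hv (fd_inv (G2 := ⊤) (fun y => y ∈ Z) ?_ (hB₀ u v) hu).1
    intro a b hab ha
    have hne' := hab.ne
    rw [SimpleGraph.fromEdgeSet_adj] at hab
    refine ⟨?_, SimpleGraph.Adj.reachable (by rw [SimpleGraph.top_adj]; exact hne')⟩
    obtain ⟨h | ⟨i, hi⟩, -⟩ := hab
    · exact (hcross a b (Or.inr h) (hB₀m _ h).1).1 ha
    · rcases hCi i with h1 | h1
      · exact absurd ha (h1 a (hi a (Sym2.mem_mk_left a b)))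
      · exact h1 b (hi b (Sym2.mem_mk_right a b))

end Pool.Agent.Helper391.Lg
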