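import Pool.Agent.Helper391.Lg.Defs
import Pool.Agent.Helper391.Lg.P_h_bd



namespace Pool.Agent.Helper391.Lg
open Set


/-- a finite set with minimal boundary among its finite supersets satisfies (I) -/
theorem ipos_min {V : Type*} [Infinite V] (G : SimpleGraph V) (hfin : ∀ v, (G.neighborSet v).Finite)
    (h4 : ∀ P : Set V, P.Finite → P.Nonempty → 4 ≤ (bd G P).ncard) (F : Set V) (hF : F.Finite) :
    ∃ F' : Set V, F'.Finite ∧ F ⊆ F' ∧ Ipos G F' := by
  classical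
  have hex : ∃ n : ℕ, ∃ F' : Set V, F'.Finite ∧ F ⊆ F' ∧ (bd G F').ncard = n :=
    ⟨_, F, hF, subset_rfl, rfl⟩
  obtain ⟨F', hF', hFF', hn⟩ := Nat.find_spec hex
  refine ⟨F', hF', hFF', fun U hU hd => ?_⟩
  have h1 := h_bd G hfin h4 F' U hF' hU hd
  have h2 : (bd G F').ncard ≤ (bd G (F' ∪ U)).ncard := by
    rw [hn]
    exact Nat.find_min' hex ⟨F' ∪ U, hF'.union hU, hFF'.trans Set.subset_union_left, rfl⟩
  have h3 : ((bd G F').ncard : ℤ) ≤ (bd G (F' ∪ U)).ncard := by exact_mod_cast h2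
  linarith

end Pool.Agent.Helper391.Lg
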