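import Pool.Agent.Helper391.Lg.Defs



namespace Pool.Agent.Helper391.Lg
open Set


/-- the finite part of the residual is attached to `X` -/
theorem k_attach {E V : Type*} (ends : E → Sym2 V) (F : Set V) (hne : F.Nonempty) {k : ℕ}
    (C : Fin k → Set V) (hE : EulK ends F C) (X : Set E)
    (hXF : ∀ e, (∃ v ∈ ends e, v ∈ F) → e ∈ X) (Z : Set E) (I : Fin k → Set E)
    (hcov : ∀ e, (e ∈ Z ∨ ∃ i, e ∈ I i) ↔ e ∉ X)
    (hsep : ∀ i, ∀ e ∈ Z, ∀ f ∈ I i, ∀ x ∈ ends e, x ∉ ends f) :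
    ∀ e ∈ Z, ∀ x ∈ ends e, ∃ f ∈ X, ∃ y ∈ ends f, (Gr ends Z).Reachable x y := by
  have key : ∀ u w : V, (Gr ends Set.univ).Walk u w → w ∈ F → (∃ g ∈ Z, u ∈ ends g) →
      ∃ f ∈ X, ∃ y ∈ ends f, (Gr ends Z).Reachable u y := by
    intro u w p
    induction p with
    | nil =>
      rintro hw ⟨g, hg, hu⟩
      exact ⟨g, hXF g ⟨_, hu, hw⟩, _, hu, SimpleGraph.Reachable.refl _⟩
    | @cons u v w h p ih =>
      rintro hw ⟨g0, hg0, hu0⟩
      unfold Gr at h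
      rw [SimpleGraph.fromEdgeSet_adj] at h
      obtain ⟨⟨g, -, hg⟩, hne⟩ := h
      have hug : u ∈ ends g := by rw [hg]; exact Sym2.mem_mk_left _ _
      have hvg : v ∈ ends g := by rw [hg]; exact Sym2.mem_mk_right _ _
      by_cases hgX : g ∈ X
      · exact ⟨g, hgX, u, hug, SimpleGraph.Reachable.refl _⟩
      · rcases (hcov g).2 hgX with hZ | ⟨i, hi⟩
        · obtain ⟨f, hf, y, hy, hr⟩ := ih hw ⟨g, hZ, hvg⟩
          refine ⟨f, hf, y, hy, SimpleGraph.Reachable.trans (SimpleGraph.Adj.reachable ?_) hr⟩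
          unfold Gr
          rw [SimpleGraph.fromEdgeSet_adj]
          exact ⟨⟨g, hZ, hg⟩, hne⟩
        · exact absurd hug (hsep i g0 hg0 g hi u hu0)
  intro e he x hx
  obtain ⟨w, hw⟩ := hne
  obtain ⟨p⟩ := hE.conn x w
  exact key x w p hw ⟨e, he, hx⟩

end Pool.Agent.Helper391.Lg
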