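import Pool.Agent.Helper391.Lg.Defs
import Pool.Agent.Helper391.Lg.P_tr_of_reachable
import Pool.Agent.Helper391.Lg.P_tr_reach



namespace Pool.Agent.Helper391.Lg
open Set


/-- a finite edge set which is connected and contains all edges meeting `F` -/
theorem k_conn_core {E V : Type*} (ends : E → Sym2 V) (F : Set V) {k : ℕ} (C : Fin k → Set V)
    (hE : EulK ends F C) :
    ∃ X : Set E, X.Finite ∧ (∀ e, (∃ v ∈ ends e, v ∈ F) → e ∈ X) ∧
      (∀ e ∈ X, ∀ f ∈ X, ∀ x ∈ ends e, ∀ y ∈ ends f, (Gr ends X).Reachable x y) := by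
  have hX1 : {e | ∃ v ∈ ends e, v ∈ F}.Finite := by
    have h1 : {e | ∃ v ∈ ends e, v ∈ F} = ⋃ v ∈ F, {e | v ∈ ends e} := by
      ext e
      simp only [Set.mem_ofPred_eq, Set.mem_iUnion]
      constructor
      · rintro ⟨v, h1, h2⟩
        exact ⟨v, h2, h1⟩
      · rintro ⟨v, h1, h2⟩
        exact ⟨v, h2, h1⟩
    rw [h1]
    exact hE.finF.biUnion fun v _ => hE.fin v
  obtain ⟨X1, hX1d⟩ : ∃ X1 : Set E, X1 = {e | ∃ v ∈ ends e, v ∈ F} := ⟨_, rfl⟩
  rw [← hX1d] at hX1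
  obtain ⟨W, hWd⟩ : ∃ W : Set V, W = ⋃ e ∈ X1, {v | v ∈ ends e} := ⟨_, rfl⟩
  have hW : W.Finite := by
    rw [hWd]
    refine hX1.biUnion fun e _ => ?_
    induction ends e using Sym2.ind with
    | _ a b =>
      have : {v | v ∈ s(a, b)} = {a, b} := by
        ext v
        simp
      rw [this]
      exact (Set.finite_singleton b).insert a
  have hL : ∀ u v, ∃ l : List E, Tr ends u l v := fun u v => by
    obtain ⟨l, _, _, h⟩ := tr_of_reachable ends Set.univ u v (hE.conn u v)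
    exact ⟨l, h⟩
  choose L hL using hL
  obtain ⟨X, hXd⟩ : ∃ X : Set E, X = X1 ∪ ⋃ u ∈ W, ⋃ v ∈ W, {e | e ∈ L u v} := ⟨_, rfl⟩
  have hX : X.Finite := by
    rw [hXd]
    exact hX1.union (hW.biUnion fun u _ => hW.biUnion fun v _ => List.finite_toSet (L u v))
  have hsub : ∀ u ∈ W, ∀ v ∈ W, ∀ e ∈ L u v, e ∈ X := by
    intro u hu v hv e he
    rw [hXd]
    right
    simp only [Set.mem_iUnion]
    exact ⟨u, hu, v, hv, he⟩
  have ha : ∀ u ∈ W, ∀ v ∈ W, (Gr ends X).Reachable u v := fun u hu v hv =>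
    (tr_reach ends X (L u v) u v (hL u v) (hsub u hu v hv)).1
  have hb : ∀ e ∈ X, ∀ x ∈ ends e, ∃ u ∈ W, (Gr ends X).Reachable u x := by
    intro e he x hx
    rw [hXd] at he
    rcases he with he | he
    · refine ⟨x, ?_, SimpleGraph.Reachable.refl _⟩
      rw [hWd]
      simp only [Set.mem_iUnion]
      exact ⟨e, he, hx⟩
    · simp only [Set.mem_iUnion] at he
      obtain ⟨u, hu, v, hv, he⟩ := he
      exact ⟨u, hu, (tr_reach ends X (L u v) u v (hL u v) (hsub u hu v hv)).2 e he x hx⟩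
  refine ⟨X, hX, ?_, ?_⟩
  · intro e he
    rw [hXd, hX1d]
    exact Or.inl he
  · intro e he f hf x hx y hy
    obtain ⟨u, hu, h1⟩ := hb e he x hx
    obtain ⟨v, hv, h2⟩ := hb f hf y hy
    exact h1.symm.trans ((ha u hu v hv).trans h2)

end Pool.Agent.Helper391.Lg
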