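import Pool.Agent.Helper391.Lg.Defs



namespace Pool.Agent.Helper391.Lg
open Set


/-- a finite set `Y` containing all edges meeting `F` has an even number of odd vertices in `C i` -/
theorem k_odd_even {E V : Type*} (ends : E → Sym2 V) (F : Set V) {k : ℕ}
    (C : Fin k → Set V) (hE : EulK ends F C) (Y : Set E) (hY : Y.Finite)
    (hYF : ∀ e, (∃ v ∈ ends e, v ∈ F) → e ∈ Y) (i : Fin k) :
    {v | v ∈ C i ∧ Odd (dg ends Y v)}.Finite ∧ Even {v | v ∈ C i ∧ Odd (dg ends Y v)}.ncard := by
  classical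
  have hsym : ∀ z : Sym2 V, {v | v ∈ z}.Finite := by
    intro z
    induction z using Sym2.ind with
    | _ a b =>
      refine (Set.toFinite ({a, b} : Set V)).subset ?_
      intro v hv
      simpa using hv
  have hWfin : {v | v ∈ C i ∧ ∃ e ∈ Y, v ∈ ends e}.Finite := by
    refine (hY.biUnion (fun e _ => hsym (ends e))).subset ?_
    rintro v ⟨_, e, he, hv⟩
    exact Set.mem_biUnion he hv
  obtain ⟨W, hWdef⟩ : ∃ W, W = hWfin.toFinset := ⟨_, rfl⟩
  have hW : ∀ v, v ∈ W ↔ v ∈ C i ∧ ∃ e ∈ Y, v ∈ ends e := by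
    intro v; rw [hWdef, Set.Finite.mem_toFinset]; rfl
  obtain ⟨Yf, hYdef⟩ : ∃ Yf, Yf = hY.toFinset := ⟨_, rfl⟩
  have hYm : ∀ e, e ∈ Yf ↔ e ∈ Y := by
    intro e; rw [hYdef, Set.Finite.mem_toFinset]
  have hdg : ∀ v, dg ends Y v =
      (Yf.filter (fun e => v ∈ ends e ∧ ¬ (ends e).IsDiag)).card := by
    intro v
    unfold dg
    rw [← Set.ncard_coe_finset]
    congr 1
    ext e
    rw [Finset.coe_filter, Set.mem_ofPred_eq, Set.mem_ofPred_eq, hYm]
  have hset : {v | v ∈ C i ∧ Odd (dg ends Y v)} =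
      ((W.filter (fun v => Odd (dg ends Y v)) : Finset V) : Set V) := by
    ext v
    rw [Finset.coe_filter, Set.mem_ofPred_eq, Set.mem_ofPred_eq, hW]
    constructor
    · rintro ⟨h1, h2⟩
      refine ⟨⟨h1, ?_⟩, h2⟩
      have h3 : 0 < dg ends Y v := h2.pos
      rw [hdg, Finset.card_pos] at h3
      obtain ⟨e, he⟩ := h3
      rw [Finset.mem_filter] at he
      exact ⟨e, (hYm e).1 he.1, he.2.1⟩
    · rintro ⟨⟨h1, _⟩, h2⟩
      exact ⟨h1, h2⟩
  rw [hset]
  refine ⟨Finset.finite_toSet _, ?_⟩
  rw [Set.ncard_coe_finset, ← Finset.even_sum_iff_even_card_odd]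
  have hsum : ∑ v ∈ W, dg ends Y v =
      ∑ e ∈ Yf, (W.filter (fun v => v ∈ ends e ∧ ¬ (ends e).IsDiag)).card := by
    simp_rw [hdg]
    exact Finset.sum_card_bipartiteAbove_eq_sum_card_bipartiteBelow
      (fun v e => v ∈ ends e ∧ ¬ (ends e).IsDiag)
  rw [hsum, Finset.even_sum_iff_even_card_odd]
  have hcut : ((Yf.filter (fun e => Odd (W.filter
      (fun v => v ∈ ends e ∧ ¬ (ends e).IsDiag)).card) : Finset E) : Set E) =
      {e | (∃ v ∈ ends e, v ∈ F) ∧ ∃ v ∈ ends e, v ∈ C i} := by
    ext e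
    rw [Finset.coe_filter, Set.mem_ofPred_eq, Set.mem_ofPred_eq, hYm]
    constructor
    · rintro ⟨heY, hodd⟩
      have hpos := hodd.pos
      rw [Finset.card_pos] at hpos
      obtain ⟨y, hy⟩ := hpos
      rw [Finset.mem_filter, hW] at hy
      obtain ⟨⟨hyC, -⟩, hye, hdiag⟩ := hy
      obtain ⟨y', hy'⟩ := Sym2.mem_iff_exists.1 hye
      have hne : y ≠ y' := by
        intro h
        apply hdiag
        rw [hy', h]
        exact Sym2.mk_isDiag_iff.2 rfl
      have hy'C : y' ∉ C i := by
        intro hc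
        have hT : W.filter (fun v => v ∈ ends e ∧ ¬ (ends e).IsDiag) = {y, y'} := by
          ext v
          rw [Finset.mem_filter, hW, Finset.mem_insert, Finset.mem_singleton]
          constructor
          · rintro ⟨_, hv, _⟩
            rw [hy', Sym2.mem_iff] at hv
            exact hv
          · rintro (h | h)
            · subst h
              exact ⟨⟨hyC, e, heY, hye⟩, hye, hdiag⟩
            · subst h
              have : v ∈ ends e := by rw [hy']; exact Sym2.mem_mk_right _ _
              exact ⟨⟨hc, e, heY, this⟩, this, hdiag⟩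
        rw [hT, Finset.card_pair hne] at hodd
        exact absurd hodd (by decide)
      refine ⟨?_, y, hye, hyC⟩
      rcases hE.edge e with h | ⟨i', h⟩
      · exact h
      · exfalso
        have h1 := h y hye
        have h2 := h y' (by rw [hy']; exact Sym2.mem_mk_right _ _)
        by_cases hi : i' = i
        · rw [hi] at h2; exact hy'C h2
        · exact Set.disjoint_left.1 (hE.disj i' i hi) h1 hyC
    · rintro ⟨⟨x, hx, hxF⟩, y, hy, hyC⟩
      have heY : e ∈ Y := hYF e ⟨x, hx, hxF⟩
      have hxC : x ∉ C i := fun h => Set.disjoint_left.1 (hE.disjF i) h hxF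
      have hne : x ≠ y := fun h => hxC (h ▸ hyC)
      have hends : ends e = s(x, y) := ((Sym2.mem_and_mem_iff hne).1 ⟨hx, hy⟩)
      have hdiag : ¬ (ends e).IsDiag := by
        rw [hends, Sym2.mk_isDiag_iff]; exact hne
      refine ⟨heY, ?_⟩
      have hT : W.filter (fun v => v ∈ ends e ∧ ¬ (ends e).IsDiag) = {y} := by
        ext v
        rw [Finset.mem_filter, hW, Finset.mem_singleton]
        constructor
        · rintro ⟨⟨hvC, _⟩, hv, _⟩
          rw [hends, Sym2.mem_iff] at hv
          rcases hv with h | h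
          · exact absurd (h ▸ hvC) hxC
          · exact h
        · intro h
          subst h
          exact ⟨⟨hyC, e, heY, hy⟩, hy, hdiag⟩
      rw [hT, Finset.card_singleton]
      exact odd_one
  have := hE.cut i
  rw [← hcut, Set.ncard_coe_finset] at this
  exact this

end Pool.Agent.Helper391.Lg
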