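import Pool.Agent.Helper391.Lg.Defs



namespace Pool.Agent.Helper391.Lg
open Set


theorem k_residual_adj {E V : Type*} (ends : E → Sym2 V) (S : Set E) {u v : V} :
    (Gr ends S).Adj u v ↔ (∃ e ∈ S, ends e = s(u, v)) ∧ u ≠ v := by
  unfold Gr
  rw [SimpleGraph.fromEdgeSet_adj]
  rfl

theorem k_residual_ends {E V : Type*} (ends : E → Sym2 V) {S : Set E} {e : E} (he : e ∈ S)
    {x y : V} (hx : x ∈ ends e) (hy : y ∈ ends e) : (Gr ends S).Reachable x y := by
  by_cases hxy : x = y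
  · rw [hxy]
  · have h : ends e = s(x, y) := (Sym2.mem_and_mem_iff hxy).1 ⟨hx, hy⟩
    exact ((k_residual_adj ends S).2 ⟨⟨e, he, h⟩, hxy⟩).reachable

theorem k_residual_first {E V : Type*} (ends : E → Sym2 V) {S : Set E} {u v : V} (huv : u ≠ v)
    (h : (Gr ends S).Reachable u v) : ∃ e ∈ S, u ∈ ends e := by
  obtain ⟨p⟩ := h
  cases p with
  | nil => exact absurd rfl huv
  | cons hadj p =>
    obtain ⟨⟨e, he, hee⟩, _⟩ := (k_residual_adj ends S).1 hadj
    exact ⟨e, he, by rw [hee]; exact Sym2.mem_mk_left _ _⟩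

theorem k_residual_walk {E V : Type*} (ends : E → Sym2 V) {R I : Set E} {z : V}
    (hI : ∀ e ∈ R, (∃ x ∈ ends e, (Gr ends R).Reachable z x) → e ∈ I) {u v : V}
    (p : (Gr ends R).Walk u v) (h1 : (Gr ends R).Reachable z u)
    (h2 : (Gr ends I).Reachable z u) : (Gr ends I).Reachable z v := by
  induction p with
  | nil => exact h2
  | cons hadj p ih =>
    obtain ⟨⟨e, he, hee⟩, hne⟩ := (k_residual_adj ends R).1 hadj
    have heI : e ∈ I := hI e he ⟨_, by rw [hee]; exact Sym2.mem_mk_left _ _, h1⟩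
    exact ih (h1.trans hadj.reachable)
      (h2.trans ((k_residual_adj ends I).2 ⟨⟨e, heI, hee⟩, hne⟩).reachable)

theorem k_residual {E V : Type*} (ends : E → Sym2 V) (F : Set V) {k : ℕ} (C : Fin k → Set V)
    (hE : EulK ends F C) (X : Set E) (hX : X.Finite)
    (hXF : ∀ e, (∃ v ∈ ends e, v ∈ F) → e ∈ X) :
    ∃ (Z : Set E) (I : Fin k → Set E), Z.Finite ∧ (∀ i, (I i).Nonempty) ∧
      (∀ e, (e ∈ Z ∨ ∃ i, e ∈ I i) ↔ e ∉ X) ∧ (∀ i, Disjoint Z (I i)) ∧
      (∀ i, ∀ e ∈ I i, ∀ x ∈ ends e, x ∈ C i) ∧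
      (∀ i, ∀ e ∈ Z, ∀ f ∈ I i, ∀ x ∈ ends e, x ∉ ends f) ∧
      (∀ i, ∀ e ∈ I i, ∀ f ∈ I i, ∀ x ∈ ends e, ∀ y ∈ ends f, (Gr ends (I i)).Reachable x y) := by
  choose K hKf hK using fun i => hE.one i X hX
  have hne : ∀ i, ∃ z, z ∈ C i \ K i := fun i => ((hE.inf i).sdiff (hKf i)).nonempty
  choose z hz using hne
  let R : Fin k → Set E := fun i => {e | e ∉ X ∧ ∀ x ∈ ends e, x ∈ C i}
  have hR : ∀ e, e ∉ X → ∃ i, e ∈ R i := by
    intro e he
    rcases hE.edge e with h | ⟨i, hi⟩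
    · exact absurd (hXF e h) he
    · exact ⟨i, he, hi⟩
  let I : Fin k → Set E := fun i =>
    {e | e ∈ R i ∧ ∃ x ∈ ends e, (Gr ends (R i)).Reachable (z i) x}
  have hIall : ∀ i, ∀ e ∈ I i, ∀ x ∈ ends e, (Gr ends (R i)).Reachable (z i) x := by
    rintro i e ⟨he, y, hy, hzy⟩ x hx
    exact hzy.trans (k_residual_ends ends he hy hx)
  refine ⟨{e | e ∉ X ∧ ∀ i, e ∉ I i}, I, ?_, ?_, ?_, ?_, ?_, ?_, ?_⟩
  · have hfin : (⋃ i, ⋃ v ∈ K i, {e | v ∈ ends e}).Finite :=
      Set.finite_iUnion fun i => (hKf i).biUnion fun v _ => hE.fin v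
    refine hfin.subset ?_
    rintro e ⟨he, heI⟩
    obtain ⟨i, hi⟩ := hR e he
    obtain ⟨x, hx⟩ : ∃ x, x ∈ ends e := ⟨(ends e).out.1, Sym2.out_fst_mem _⟩
    simp only [Set.mem_iUnion]
    refine ⟨i, x, ?_, hx⟩
    by_contra hxK
    exact heI i ⟨hi, x, hx, hK i _ (hz i) _ ⟨hi.2 x hx, hxK⟩⟩
  · intro i
    have hinf : ((C i \ K i) \ {z i}).Nonempty :=
      (((hE.inf i).sdiff (hKf i)).sdiff (Set.finite_singleton _)).nonempty
    obtain ⟨z', hz', hne'⟩ := hinf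
    have hzz : z i ≠ z' := fun h => hne' (by rw [h]; rfl)
    obtain ⟨e, he, hze⟩ := k_residual_first ends hzz (hK i _ (hz i) _ hz')
    exact ⟨e, he, z i, hze, SimpleGraph.Reachable.refl _⟩
  · intro e
    constructor
    · rintro (h | ⟨i, hi⟩)
      · exact h.1
      · exact hi.1.1
    · intro he
      by_cases h : ∃ i, e ∈ I i
      · exact Or.inr h
      · push Not at h
        exact Or.inl ⟨he, h⟩
  · intro i
    rw [Set.disjoint_left]
    intro e he heI
    exact he.2 i heI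
  · intro i e he x hx
    exact he.1.2 x hx
  · intro i e he f hf x hxe hxf
    obtain ⟨j, hj⟩ := hR e he.1
    have hxi : x ∈ C i := hf.1.2 x hxf
    have hxj : x ∈ C j := hj.2 x hxe
    have hij : i = j := by
      by_contra hij
      exact Set.disjoint_left.1 (hE.disj i j hij) hxi hxj
    subst hij
    exact he.2 i ⟨hj, x, hxe, hIall i f hf x hxf⟩
  · intro i e he f hf x hx y hy
    have key : ∀ v, (Gr ends (R i)).Reachable (z i) v → (Gr ends (I i)).Reachable (z i) v := by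
      rintro v ⟨p⟩
      exact k_residual_walk ends (I := I i) (fun e he h => ⟨he, h⟩) p (SimpleGraph.Reachable.refl _)
        (SimpleGraph.Reachable.refl _)
    exact (key x (hIall i e he x hx)).symm.trans (key y (hIall i f hf y hy))

end Pool.Agent.Helper391.Lg
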