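import Pool.Agent.Helper391.Lg.Defs
import Pool.Agent.Helper391.Lg.P_tr_parity
import Pool.Agent.Helper391.Lg.P_tr_of_reachable



namespace Pool.Agent.Helper391.Lg
open Set


theorem k_tjoin_symm {E : Type*} (S T : Set E) (hS : S.Finite) (hT : T.Finite) :
    ((symmDiff S T).ncard : ZMod 2) = (S.ncard : ZMod 2) + (T.ncard : ZMod 2) := by
  have h1 : (symmDiff S T).ncard = (S \ T).ncard + (T \ S).ncard := by
    rw [Set.symmDiff_def]
    exact Set.ncard_union_eq (disjoint_sdiff_sdiff) (hS.subset Set.sdiff_subset)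
      (hT.subset Set.sdiff_subset)
  have h2 := Set.ncard_inter_add_ncard_sdiff_eq_ncard S T hS
  have h3 := Set.ncard_inter_add_ncard_sdiff_eq_ncard T S hT
  rw [Set.inter_comm T S] at h3
  rw [h1, ← h2, ← h3]
  push_cast
  have h4 : (2 : ZMod 2) = 0 := rfl
  linear_combination (-((S ∩ T).ncard : ZMod 2)) * h4

theorem k_tjoin_dg {E V : Type*} (ends : E → Sym2 V) (A B : Set E) (hA : A.Finite) (hB : B.Finite)
    (v : V) : (dg ends (symmDiff A B) v : ZMod 2) = (dg ends A v : ZMod 2) + (dg ends B v : ZMod 2) := by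
  unfold dg
  rw [← k_tjoin_symm _ _ (hA.subset fun e he => he.1) (hB.subset fun e he => he.1)]
  congr 2
  ext e
  simp only [Set.mem_symmDiff, Set.mem_setOf_eq]
  tauto

theorem k_tjoin {E V : Type*} [DecidableEq V] (ends : E → Sym2 V) (I : Set E) (O : Finset V)
    (hev : Even O.card) (hcon : ∀ x ∈ O, ∀ y ∈ O, (Gr ends I).Reachable x y) :
    ∃ J ⊆ I, J.Finite ∧ ∀ v, (dg ends J v : ZMod 2) = if v ∈ O then 1 else 0 := by
  induction hn : O.card using Nat.strong_induction_on generalizing O with
  | _ n ih =>
    rcases Finset.eq_empty_or_nonempty O with hO | ⟨x, hx⟩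
    · subst hO
      refine ⟨∅, Set.empty_subset _, Set.finite_empty, fun v => ?_⟩
      simp [dg]
    · have hc : 1 < O.card := by
        have h1 : 0 < O.card := Finset.card_pos.2 ⟨x, hx⟩
        obtain ⟨k, hk⟩ := hev
        omega
      obtain ⟨y, hy, hyx⟩ := Finset.exists_mem_ne hc x
      have hy' : y ∈ O.erase x := Finset.mem_erase.2 ⟨hyx, hy⟩
      have hcard : ((O.erase x).erase y).card = O.card - 2 := by
        rw [Finset.card_erase_of_mem hy', Finset.card_erase_of_mem hx]
        omega
      have hsub : ∀ z ∈ (O.erase x).erase y, z ∈ O := fun z hz =>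
        Finset.mem_of_mem_erase (Finset.mem_of_mem_erase hz)
      obtain ⟨J₀, hJI, hJf, hJd⟩ := ih (O.card - 2) (by omega) ((O.erase x).erase y)
        (by
          rw [hcard]
          obtain ⟨k, hk⟩ := hev
          exact ⟨k - 1, by omega⟩)
        (fun a ha b hb => hcon a (hsub a ha) b (hsub b hb)) hcard
      obtain ⟨l, hln, hlI, hlt⟩ := tr_of_reachable ends I x y (hcon x hx y hy)
      have hlf : {e | e ∈ l}.Finite := List.finite_toSet l
      refine ⟨symmDiff J₀ {e | e ∈ l}, ?_, ?_, fun v => ?_⟩
      · intro e he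
        rcases he with he | he
        · exact hJI he.1
        · exact hlI e he.1
      · exact hJf.symmDiff hlf
      · rw [k_tjoin_dg ends _ _ hJf hlf, hJd, tr_parity ends l x y v hlt hln]
        by_cases hvx : v = x
        · subst hvx
          rw [if_neg (fun h => (Finset.mem_erase.1 (Finset.mem_of_mem_erase h)).1 rfl), if_pos rfl,
            if_neg (fun h => hyx h.symm), if_pos hx]
          ring
        · by_cases hvy : v = y
          · subst hvy
            rw [if_neg (fun h => (Finset.mem_erase.1 h).1 rfl), if_neg hvx, if_pos rfl, if_pos hy]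
            ring
          · rw [if_neg hvx, if_neg hvy]
            simp [Finset.mem_erase, hvx, hvy]

end Pool.Agent.Helper391.Lg
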