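import Pool.Agent.Helper391.Lg.Defs
import Pool.Agent.Helper391.Lg.P_k_residual
import Pool.Agent.Helper391.Lg.P_k_tjoin
import Pool.Agent.Helper391.Lg.P_k_conn_core
import Pool.Agent.Helper391.Lg.P_k_attach
import Pool.Agent.Helper391.Lg.P_k_odd_even



namespace Pool.Agent.Helper391.Lg
open Set


theorem ke_dg_congr {E V : Type*} (ends : E → Sym2 V) {X X' : Set E} {v : V}
    (h : ∀ e, v ∈ ends e → (e ∈ X ↔ e ∈ X')) : dg ends X v = dg ends X' v := by
  unfold dg
  congr 1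
  ext e
  constructor
  · rintro ⟨h1, h2, h3⟩; exact ⟨(h e h2).1 h1, h2, h3⟩
  · rintro ⟨h1, h2, h3⟩; exact ⟨(h e h2).2 h1, h2, h3⟩

theorem ke_dg_union {E V : Type*} (ends : E → Sym2 V) {X X' : Set E} {v : V}
    (hfin : {e | v ∈ ends e}.Finite) (hd : Disjoint X X') :
    dg ends (X ∪ X') v = dg ends X v + dg ends X' v := by
  unfold dg
  rw [← Set.ncard_union_eq (s := {e | e ∈ X ∧ v ∈ ends e ∧ ¬ (ends e).IsDiag})
    (t := {e | e ∈ X' ∧ v ∈ ends e ∧ ¬ (ends e).IsDiag}) ?_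
    (hfin.subset fun e he => he.2.1) (hfin.subset fun e he => he.2.1)]
  · congr 1
    ext e
    constructor
    · rintro ⟨h1 | h1, h2, h3⟩
      · exact Or.inl ⟨h1, h2, h3⟩
      · exact Or.inr ⟨h1, h2, h3⟩
    · rintro (⟨h1, h2, h3⟩ | ⟨h1, h2, h3⟩)
      · exact ⟨Or.inl h1, h2, h3⟩
      · exact ⟨Or.inr h1, h2, h3⟩
  · rw [Set.disjoint_left]
    rintro e ⟨h1, -, -⟩ ⟨h2, -, -⟩
    exact Set.disjoint_left.1 hd h1 h2

theorem ke_gr_mono {E V : Type*} (ends : E → Sym2 V) {X Y : Set E} (h : X ⊆ Y) {u v : V}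
    (hr : (Gr ends X).Reachable u v) : (Gr ends Y).Reachable u v :=
  hr.mono (SimpleGraph.fromEdgeSet_mono (Set.image_mono h))

theorem ke_gr_edge {E V : Type*} (ends : E → Sym2 V) {X : Set E} {e : E} (he : e ∈ X) {u v : V}
    (hu : u ∈ ends e) (hv : v ∈ ends e) : (Gr ends X).Reachable u v := by
  by_cases huv : u = v
  · rw [huv]
  · have h1 : ends e = s(u, v) := ((Sym2.mem_and_mem_iff huv).1 ⟨hu, hv⟩)
    refine SimpleGraph.Adj.reachable ?_
    unfold Gr
    rw [SimpleGraph.fromEdgeSet_adj]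
    exact ⟨⟨e, he, h1⟩, huv⟩

theorem k_even {E V : Type*} (ends : E → Sym2 V) (F : Set V) (hne : F.Nonempty) {k : ℕ}
    (C : Fin (k + 1) → Set V) (hE : EulK ends F C) (hcov : ∀ v, v ∈ F ∨ ∃ i, v ∈ C i) :
    ∃ Y : Set E, Y.Finite ∧ Y.Nonempty ∧ (∀ e, (∃ v ∈ ends e, v ∈ F) → e ∈ Y) ∧
      (∀ v, Even (dg ends Y v)) ∧
      (∀ e ∈ Y, ∀ f ∈ Y, ∀ x ∈ ends e, ∀ y ∈ ends f, (Gr ends Y).Reachable x y) := by
  classical
  obtain ⟨X, hXf, hXF, hXc⟩ := k_conn_core ends F C hE
  -- an edge meeting `F`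
  obtain ⟨v₀, hv₀⟩ := hne
  obtain ⟨e₀, he₀, hev₀⟩ : ∃ e₀, e₀ ∈ X ∧ v₀ ∈ ends e₀ := by
    obtain ⟨w, hw⟩ := (hE.inf 0).nonempty
    have hwv : v₀ ≠ w := fun h => Set.disjoint_left.1 (hE.disjF 0) hw (h ▸ hv₀)
    obtain ⟨p⟩ := hE.conn v₀ w
    cases p with
    | nil => exact absurd rfl hwv
    | @cons _ c _ hab _ =>
      unfold Gr at hab
      rw [SimpleGraph.fromEdgeSet_adj] at hab
      obtain ⟨⟨e, -, he⟩, -⟩ := hab
      have hmem : v₀ ∈ ends e := he ▸ Sym2.mem_mk_left v₀ c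
      exact ⟨e, hXF e ⟨v₀, hmem, hv₀⟩, hmem⟩
  obtain ⟨Z, I, hZf, hIn, hcovI, hZI, hIC, hsep, hIconn⟩ := k_residual ends F C hE X hXf hXF
  have hatt := k_attach ends F ⟨v₀, hv₀⟩ C hE X hXF Z I hcovI hsep
  have hYF : ∀ e, (∃ v ∈ ends e, v ∈ F) → e ∈ X ∪ Z := fun e he => Or.inl (hXF e he)
  have hY0f : (X ∪ Z).Finite := hXf.union hZf
  have hodd := fun i => k_odd_even ends F C hE (X ∪ Z) hY0f hYF i
  have hXI : ∀ i, Disjoint (X ∪ Z) (I i) := by
    intro i
    rw [Set.disjoint_union_left]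
    refine ⟨?_, hZI i⟩
    rw [Set.disjoint_left]
    intro e h1 h2
    exact (hcovI e).1 (Or.inr ⟨i, h2⟩) h1
  have hCuniq : ∀ {i j v}, v ∈ C i → v ∈ C j → i = j := by
    intro i j v h1 h2
    by_contra hne
    exact Set.disjoint_left.1 (hE.disj i j hne) h1 h2
  -- the parity of the residual degrees
  have hdeg : ∀ i, ∀ v ∈ C i, dg ends Set.univ v = dg ends (X ∪ Z) v + dg ends (I i) v := by
    intro i v hv
    rw [← ke_dg_union ends (hE.fin v) (hXI i)]
    refine ke_dg_congr ends fun e hev => ⟨fun _ => ?_, fun _ => Set.mem_univ e⟩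
    by_cases heX : e ∈ X
    · exact Or.inl (Or.inl heX)
    · rcases (hcovI e).2 heX with h | ⟨j, h⟩
      · exact Or.inl (Or.inr h)
      · have : i = j := hCuniq hv (hIC j e h v hev)
        subst this
        exact Or.inr h
  have hJ : ∀ i, ∃ J ⊆ I i, J.Finite ∧ ∀ v, (dg ends J v : ZMod 2) =
      if v ∈ (hodd i).1.toFinset then 1 else 0 := by
    intro i
    refine k_tjoin ends (I i) (hodd i).1.toFinset ?_ ?_
    · rw [← Set.ncard_eq_toFinset_card _ (hodd i).1]
      exact (hodd i).2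
    · have hex : ∀ x ∈ (hodd i).1.toFinset, ∃ e ∈ I i, x ∈ ends e := by
        intro x hx
        rw [Set.Finite.mem_toFinset] at hx
        obtain ⟨hxC, hxo⟩ := hx
        have h1 := hdeg i x hxC
        have h2 := hE.even x
        rw [h1] at h2
        have h3 : Odd (dg ends (I i) x) := by
          by_contra h4
          rw [Nat.not_odd_iff_even] at h4
          have h5 := (Nat.even_add.1 h2).2 h4
          exact (Nat.not_even_iff_odd.2 hxo) h5
        have h4 : dg ends (I i) x ≠ 0 := by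
          intro h5
          rw [h5] at h3
          exact absurd h3 (by decide)
        obtain ⟨e, he1, he2, -⟩ := Set.nonempty_of_ncard_ne_zero h4
        exact ⟨e, he1, he2⟩
      intro x hx y hy
      obtain ⟨e, he, hxe⟩ := hex x hx
      obtain ⟨f, hf, hyf⟩ := hex y hy
      exact hIconn i e he f hf x hxe y hyf
  choose J hJI hJf hJd using hJ
  obtain ⟨Y1, hY1⟩ : ∃ Y1, Y1 = (X ∪ Z) ∪ ⋃ i, J i := ⟨_, rfl⟩
  have hY1f : Y1.Finite := by
    rw [hY1]
    exact hY0f.union (Set.finite_iUnion hJf)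
  have hXY1 : X ⊆ Y1 := by
    rw [hY1]
    exact Set.subset_union_left.trans Set.subset_union_left
  have hY1e : ∀ v, Even (dg ends Y1 v) := by
    intro v
    rcases hcov v with hvF | ⟨i, hvC⟩
    · have h1 : dg ends Y1 v = dg ends Set.univ v :=
        ke_dg_congr ends fun e hev => ⟨fun _ => Set.mem_univ e, fun _ =>
          hXY1 (hXF e ⟨v, hev, hvF⟩)⟩
      rw [h1]
      exact hE.even v
    · have h1 : dg ends Y1 v = dg ends (X ∪ Z) v + dg ends (J i) v := by
        rw [← ke_dg_union ends (hE.fin v) ((hXI i).mono_right (hJI i))]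
        refine ke_dg_congr ends fun e hev => ?_
        rw [hY1]
        constructor
        · rintro (h | h)
          · exact Or.inl h
          · obtain ⟨j, hj⟩ := Set.mem_iUnion.1 h
            have : i = j := hCuniq hvC (hIC j e (hJI j hj) v hev)
            subst this
            exact Or.inr hj
        · rintro (h | h)
          · exact Or.inl h
          · exact Or.inr (Set.mem_iUnion.2 ⟨i, h⟩)
      have h2 := hJd i v
      rw [h1, ← ZMod.natCast_eq_zero_iff_even]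
      push_cast
      rw [h2]
      by_cases ho : Odd (dg ends (X ∪ Z) v)
      · rw [if_pos (by rw [Set.Finite.mem_toFinset]; exact ⟨hvC, ho⟩),
          (ZMod.natCast_eq_one_iff_odd).2 ho]
        decide
      · rw [if_neg (by rw [Set.Finite.mem_toFinset]; exact fun h => ho h.2), add_zero]
        rw [Nat.not_odd_iff_even] at ho
        exact (ZMod.natCast_eq_zero_iff_even).2 ho
  -- the component of `v₀`
  obtain ⟨Y, hY⟩ : ∃ Y : Set E, Y = {e | e ∈ Y1 ∧ ∃ x ∈ ends e, (Gr ends Y1).Reachable v₀ x} :=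
    ⟨_, rfl⟩
  have hYY1 : Y ⊆ Y1 := by rw [hY]; exact fun e he => he.1
  have hYall : ∀ e ∈ Y, ∀ x ∈ ends e, (Gr ends Y1).Reachable v₀ x := by
    intro e he x hx
    rw [hY] at he
    obtain ⟨h1, y, hy, hr⟩ := he
    exact hr.trans (ke_gr_edge ends h1 hy hx)
  have hXY : X ⊆ Y := by
    intro e he
    rw [hY]
    obtain ⟨x, hx⟩ : ∃ x, x ∈ ends e := ⟨(ends e).out.1, Sym2.out_fst_mem _⟩
    exact ⟨hXY1 he, x, hx, ke_gr_mono ends hXY1 (hXc e₀ he₀ e he v₀ hev₀ x hx)⟩
  have hreach : ∀ u v, (Gr ends Y1).Reachable u v → (Gr ends Y1).Reachable v₀ u →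
      (Gr ends Y).Reachable u v := by
    intro u v huv
    obtain ⟨p⟩ := huv
    induction p with
    | nil => intro _; exact SimpleGraph.Reachable.refl _
    | @cons a b c hab p ih =>
      intro hr
      have hab' := hab
      unfold Gr at hab
      rw [SimpleGraph.fromEdgeSet_adj] at hab
      obtain ⟨⟨e, he, hee⟩, hne'⟩ := hab
      have ha : a ∈ ends e := hee ▸ Sym2.mem_mk_left a b
      have hb : b ∈ ends e := hee ▸ Sym2.mem_mk_right a b
      have heY : e ∈ Y := by rw [hY]; exact ⟨he, a, ha, hr⟩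
      exact (ke_gr_edge ends heY ha hb).trans (ih (hr.trans hab'.reachable))
  refine ⟨Y, hY1f.subset hYY1, ⟨e₀, hXY he₀⟩, fun e he => hXY (hXF e he), ?_, ?_⟩
  · intro v
    by_cases hr : (Gr ends Y1).Reachable v₀ v
    · have h1 : dg ends Y v = dg ends Y1 v :=
        ke_dg_congr ends fun e hev => ⟨fun h => hYY1 h, fun h => by
          rw [hY]; exact ⟨h, v, hev, hr⟩⟩
      rw [h1]
      exact hY1e v
    · have h1 : dg ends Y v = dg ends (∅ : Set E) v :=
        ke_dg_congr ends fun e hev => ⟨fun h => absurd (hYall e h v hev) hr, fun h =>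
          absurd h (Set.notMem_empty e)⟩
      rw [h1]
      unfold dg
      simp
  · intro e he f hf x hx y hy
    exact (hreach v₀ x (hYall e he x hx) (SimpleGraph.Reachable.refl _)).symm.trans
      (hreach v₀ y (hYall f hf y hy) (SimpleGraph.Reachable.refl _))

end Pool.Agent.Helper391.Lg
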