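import Pool.Agent.Helper391.Lg.Defs
import Pool.Agent.Helper391.Lg.P_tr_parity
import Pool.Agent.Helper391.Lg.P_absorb
import Pool.Agent.Helper391.Lg.P_k_residual
import Pool.Agent.Helper391.Lg.P_k_attach
import Pool.Agent.Helper391.Lg.P_k_even



namespace Pool.Agent.Helper391.Lg
open Set


theorem k_closed_split {E V : Type*} (ends : E → Sym2 V) (v : V)
    (hfin : {e | v ∈ ends e}.Finite) (A B : Set E) (hc : ∀ e, v ∈ ends e → (e ∈ A ∨ e ∈ B))
    (hd : ∀ e, e ∈ A → e ∉ B) : dg ends Set.univ v = dg ends A v + dg ends B v := by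
  unfold dg
  have hdis : Disjoint {e | e ∈ A ∧ v ∈ ends e ∧ ¬ (ends e).IsDiag}
      {e | e ∈ B ∧ v ∈ ends e ∧ ¬ (ends e).IsDiag} := by
    rw [Set.disjoint_left]
    rintro e ⟨h1, _⟩ ⟨h2, _⟩
    exact hd e h1 h2
  rw [← Set.ncard_union_eq hdis (hfin.subset (fun e he => he.2.1))
    (hfin.subset (fun e he => he.2.1))]
  congr 1
  ext e
  constructor
  · rintro ⟨_, h1, h2⟩
    rcases hc e h1 with h | h
    · exact Or.inl ⟨h, h1, h2⟩
    · exact Or.inr ⟨h, h1, h2⟩
  · rintro (⟨_, h1, h2⟩ | ⟨_, h1, h2⟩)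
    · exact ⟨Set.mem_univ _, h1, h2⟩
    · exact ⟨Set.mem_univ _, h1, h2⟩

theorem k_closed_zero {E V : Type*} (ends : E → Sym2 V) (v : V) (A : Set E)
    (hc : ∀ e ∈ A, v ∉ ends e) : dg ends A v = 0 := by
  unfold dg
  have : {e | e ∈ A ∧ v ∈ ends e ∧ ¬ (ends e).IsDiag} = (∅ : Set E) := by
    apply Set.eq_empty_of_forall_notMem
    rintro e ⟨h1, h2, _⟩
    exact hc e h1 h2
  rw [this, Set.ncard_empty]

theorem k_closed_mono {E V : Type*} (ends : E → Sym2 V) {A B : Set E} (h : A ⊆ B) {x y : V}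
    (hr : (Gr ends A).Reachable x y) : (Gr ends B).Reachable x y := by
  refine hr.mono ?_
  unfold Gr
  exact SimpleGraph.fromEdgeSet_mono (Set.image_mono h)

theorem k_closed_mem {V : Type*} (z : Sym2 V) : ∃ x, x ∈ z := by
  induction z using Sym2.ind with
  | _ a b => exact ⟨a, Sym2.mem_mk_left a b⟩

theorem k_closed {E V : Type*} (ends : E → Sym2 V) (F : Set V) (hne : F.Nonempty) {k : ℕ}
    (C : Fin (k + 1) → Set V) (hE : EulK ends F C) (hcov : ∀ v, v ∈ F ∨ ∃ i, v ∈ C i) :
    ∃ (P : List E) (q : V) (I : Fin (k + 1) → Set E), Tr ends q P q ∧ P.Nodup ∧ P ≠ [] ∧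
      (∀ e, (∃ v ∈ ends e, v ∈ F) → e ∈ P) ∧
      (∀ e, (∃ i, e ∈ I i) ↔ e ∉ P) ∧ (∀ i, (I i).Nonempty) ∧
      (∀ i, ∀ e ∈ I i, ∀ x ∈ ends e, x ∈ C i) ∧
      (∀ i, ∀ e ∈ I i, ∀ f ∈ I i, ∀ x ∈ ends e, ∀ y ∈ ends f, (Gr ends (I i)).Reachable x y) ∧
      (∀ i v, Even (dg ends (I i) v)) := by
  classical
  obtain ⟨Y, hYf, hYne, hYF, hYev, hYc⟩ := k_even ends F hne C hE hcov
  obtain ⟨e0, he0⟩ := hYne
  obtain ⟨q, hq⟩ := k_closed_mem (ends e0)
  obtain ⟨P1, hP1, hP1n, hP1e⟩ := absorb ends Y hYf hYev [] q q rfl List.nodup_nil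
    (by simp) (by
      intro e he x hx
      exact k_closed_mono ends Set.subset_union_left (hYc e0 he0 e he q hq x hx))
  have hP1e' : ∀ e, e ∈ P1 ↔ e ∈ Y := by
    intro e
    rw [hP1e e]
    simp
  obtain ⟨Z, I, hZf, hIne, hcovI, hdisj, hIC, hsep, hIc⟩ := k_residual ends F C hE Y hYf hYF
  have hZY : ∀ e ∈ Z, e ∉ Y := fun e he => (hcovI e).1 (Or.inl he)
  have hZI : ∀ i, ∀ e ∈ I i, e ∉ Z := fun i e he hz => Set.disjoint_left.1 (hdisj i) hz he
  have hIY : ∀ i, ∀ e ∈ I i, e ∉ Y := fun i e he => (hcovI e).1 (Or.inr ⟨i, he⟩)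
  have hZev : ∀ v, Even (dg ends Z v) := by
    intro v
    by_cases hv : ∃ e ∈ Z, v ∈ ends e
    · obtain ⟨e, he, hve⟩ := hv
      have h1 : dg ends Set.univ v = dg ends Y v + dg ends Z v := by
        apply k_closed_split ends v (hE.fin v)
        · intro f hf
          by_cases hfY : f ∈ Y
          · exact Or.inl hfY
          · right
            rcases (hcovI f).2 hfY with h | ⟨i, h⟩
            · exact h
            · exact absurd hf (hsep i e he f h v hve)
        · intro f hf hz
          exact hZY f hz hf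
      have h2 := hE.even v
      rw [h1] at h2
      exact (Nat.even_add.1 h2).1 (hYev v)
    · push Not at hv
      rw [k_closed_zero ends v Z hv]
      exact Even.zero
  obtain ⟨P, hP, hPn, hPe⟩ := absorb ends Z hZf hZev P1 q q hP1 hP1n
    (fun e he hz => hZY e hz ((hP1e' e).1 he)) (by
      intro e he x hx
      obtain ⟨f, hf, y, hy, hr⟩ := k_attach ends F hne C hE Y hYF Z I hcovI hsep e he x hx
      have h1 : (Gr ends (Z ∪ {e | e ∈ P1})).Reachable x y :=
        k_closed_mono ends Set.subset_union_left hr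
      have h2 : (Gr ends (Z ∪ {e | e ∈ P1})).Reachable q y := by
        refine k_closed_mono ends ?_ (hYc e0 he0 f hf q hq y hy)
        intro g hg
        exact Or.inr ((hP1e' g).2 hg)
      exact h2.trans h1.symm)
  have hPe' : ∀ e, e ∈ P ↔ (e ∈ Y ∨ e ∈ Z) := by
    intro e
    rw [hPe e, hP1e' e]
  refine ⟨P, q, I, hP, hPn, ?_, ?_, ?_, hIne, hIC, hIc, ?_⟩
  · intro h
    have := (hPe' e0).2 (Or.inl he0)
    rw [h] at this
    simp at this
  · intro e he
    exact (hPe' e).2 (Or.inl (hYF e he))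
  · intro e
    rw [hPe' e]
    constructor
    · rintro ⟨i, hi⟩ (h | h)
      · exact hIY i e hi h
      · exact hZI i e hi h
    · intro h
      push Not at h
      rcases (hcovI e).2 h.1 with h1 | h1
      · exact absurd h1 h.2
      · exact h1
  · intro i v
    by_cases hv : v ∈ C i
    · have h1 : dg ends Set.univ v = dg ends {e | e ∈ P} v + dg ends (I i) v := by
        apply k_closed_split ends v (hE.fin v)
        · intro f hf
          by_cases hfP : f ∈ P
          · exact Or.inl hfP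
          · right
            rw [hPe' f] at hfP
            push Not at hfP
            rcases (hcovI f).2 hfP.1 with h | ⟨j, h⟩
            · exact absurd h hfP.2
            · by_cases hij : i = j
              · rw [hij]
                exact h
              · exact absurd (hIC j f h v hf) (Set.disjoint_left.1 (hE.disj i j hij) hv)
        · intro f hf hfi
          rcases (hPe' f).1 hf with h | h
          · exact hIY i f hfi h
          · exact hZI i f hfi h
      have h2 : Even (dg ends {e | e ∈ P} v) := by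
        have h3 := tr_parity ends P q q v hP hPn
        rw [CharTwo.add_self_eq_zero] at h3
        exact (ZMod.natCast_eq_zero_iff_even).1 h3
      have h4 := hE.even v
      rw [h1] at h4
      exact (Nat.even_add.1 h4).1 h2
    · rw [k_closed_zero ends v (I i) (fun e he hve => hv (hIC i e he v hve))]
      exact Even.zero

end Pool.Agent.Helper391.Lg
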