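import Pool.Agent.Helper391.Lg.Defs
import Pool.Agent.Helper391.Lg.P_euler_double



namespace Pool.Agent.Helper391.Lg
open Set


theorem gap_lift {E V E' : Type*} {P : V → Prop} (ends : E → Sym2 V)
    (ends' : E' → Sym2 {v // P v}) (R : Set E) (R' : Set E')
    (h : ∀ e ∈ R, ∃ e' ∈ R', (ends' e').map Subtype.val = ends e) (a b : V)
    (w : (Gr ends R).Walk a b) : ∀ (ha : P a) (hb : P b),
      (Gr ends' R').Reachable ⟨a, ha⟩ ⟨b, hb⟩ := by
  induction w with
  | nil => intro ha hb; exact SimpleGraph.Reachable.refl _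
  | @cons a c b hac w ih =>
    intro ha hb
    rw [Gr, SimpleGraph.fromEdgeSet_adj] at hac
    obtain ⟨⟨e, he, hec⟩, hne⟩ := hac
    obtain ⟨e', he', hmap⟩ := h e he
    have hc : P c := by
      have h1 : c ∈ (ends' e').map Subtype.val := by rw [hmap, hec]; exact Sym2.mem_mk_right a c
      obtain ⟨y, _, rfl⟩ := Sym2.mem_map.1 h1
      exact y.2
    have h2 : ends' e' = s(⟨a, ha⟩, ⟨c, hc⟩) := by
      apply Sym2.map.injective Subtype.val_injective
      rw [hmap, hec]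
      rfl
    have h3 : (Gr ends' R').Adj ⟨a, ha⟩ ⟨c, hc⟩ := by
      rw [Gr, SimpleGraph.fromEdgeSet_adj]
      exact ⟨⟨e', he', h2⟩, fun h4 => hne (congrArg Subtype.val h4)⟩
    exact h3.reachable.trans (ih hc hb)

/-- the two one-way infinite parts inside a residual component -/
theorem k_gap {E V : Type*} [Countable E] (ends : E → Sym2 V) (I : Set E) (hIinf : I.Infinite)
    (hfin : ∀ v, {e | v ∈ ends e}.Finite) (heven : ∀ v, Even (dg ends I v))
    (hcon : ∀ e ∈ I, ∀ f ∈ I, ∀ x ∈ ends e, ∀ y ∈ ends f, (Gr ends I).Reachable x y)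
    (hone : ∀ X : Set E, X.Finite → ∃ K : Set V, K.Finite ∧ ∀ u, u ∉ K → (∃ e ∈ I, u ∈ ends e) →
      ∀ v, v ∉ K → (∃ e ∈ I, v ∈ ends e) → (Gr ends (I \ X)).Reachable u v)
    (p : V) (hp : ∃ e ∈ I, p ∈ ends e) :
    ∃ gp gm : ℕ → E, (∀ n, gp n ∈ I) ∧ (∀ n, gm n ∈ I) ∧ Function.Injective gp ∧
      Function.Injective gm ∧ (∀ m n, gp m ≠ gm n) ∧
      (∀ e ∈ I, (∃ n, gp n = e) ∨ ∃ n, gm n = e) ∧ p ∈ ends (gp 0) ∧ p ∈ ends (gm 0) ∧
      (∀ n, ∃ x, x ∈ ends (gp n) ∧ x ∈ ends (gp (n + 1))) ∧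
      (∀ n, ∃ x, x ∈ ends (gm n) ∧ x ∈ ends (gm (n + 1))) := by
  classical
  let P : V → Prop := fun v => ∃ e ∈ I, v ∈ ends e
  have hex : ∀ e : I, ∃ q : Sym2 {v // P v}, q.map Subtype.val = ends e := by
    rintro ⟨e, he⟩
    have hmem : ∀ x ∈ ends e, P x := fun x hx => ⟨e, he, hx⟩
    change ∃ q : Sym2 {v // P v}, q.map Subtype.val = ends e
    generalize ends e = s at hmem
    induction s using Sym2.ind with
    | _ a b =>
      exact ⟨s(⟨a, hmem a (Sym2.mem_mk_left a b)⟩, ⟨b, hmem b (Sym2.mem_mk_right a b)⟩), rfl⟩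
  choose q hq using hex
  let ends' : Option I → Sym2 {v // P v} := fun o => o.elim s(⟨p, hp⟩, ⟨p, hp⟩) q
  have hmem' : ∀ (v : {v // P v}) (e : I), v ∈ ends' (some e) ↔ v.1 ∈ ends e := by
    intro v e
    rw [← hq e, Sym2.mem_map]
    constructor
    · intro h; exact ⟨v, h, rfl⟩
    · rintro ⟨y, hy, hyv⟩
      rw [← Subtype.ext hyv]
      exact hy
  have hdiag : ∀ e : I, (ends' (some e)).IsDiag ↔ (ends e).IsDiag := by
    intro e
    rw [← hq e, Sym2.isDiag_map Subtype.val_injective]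
    exact Iff.rfl
  have hsome : ∀ (X' : Set (Option I)) (R : Set E), (∀ e : I, (e : E) ∈ R → some e ∈ X') →
      R ⊆ I → ∀ e ∈ R, ∃ e' ∈ X', (ends' e').map Subtype.val = ends e := by
    intro X' R h1 h2 e he
    exact ⟨some ⟨e, h2 he⟩, h1 ⟨e, h2 he⟩ he, hq ⟨e, h2 he⟩⟩
  have hEul : Eul ends' := by
    refine ⟨?_, ?_, ?_, ?_⟩
    · intro v
      have h1 : (Subtype.val ⁻¹' {e | v.1 ∈ ends e} : Set I).Finite :=
        (hfin v.1).preimage Subtype.val_injective.injOn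
      refine ((Set.finite_singleton (none : Option I)).union (h1.image some)).subset ?_
      rintro (_ | e) he
      · exact Or.inl rfl
      · exact Or.inr ⟨e, (hmem' v e).1 he, rfl⟩
    · intro v
      have h1 : {e : Option I | e ∈ (Set.univ : Set (Option I)) ∧ v ∈ ends' e ∧
          ¬ (ends' e).IsDiag} = some '' (Subtype.val ⁻¹' {e | e ∈ I ∧ v.1 ∈ ends e ∧
          ¬ (ends e).IsDiag} : Set I) := by
        ext o
        constructor
        · rintro ⟨_, h2, h3⟩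
          rcases o with _ | e
          · exact absurd (show (s((⟨p, hp⟩ : {v // P v}), ⟨p, hp⟩)).IsDiag from
              Sym2.mk_isDiag_iff.2 rfl) h3
          · exact ⟨e, ⟨e.2, (hmem' v e).1 h2, fun h4 => h3 ((hdiag e).2 h4)⟩, rfl⟩
        · rintro ⟨e, ⟨_, h2, h3⟩, rfl⟩
          exact ⟨trivial, (hmem' v e).2 h2, fun h4 => h3 ((hdiag e).1 h4)⟩
      have h2 : {e | e ∈ I ∧ v.1 ∈ ends e ∧ ¬ (ends e).IsDiag} =
          Subtype.val '' (Subtype.val ⁻¹' {e | e ∈ I ∧ v.1 ∈ ends e ∧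
          ¬ (ends e).IsDiag} : Set I) := by
        rw [Subtype.image_preimage_coe, Set.inter_eq_right.2 (fun e he => he.1)]
      have h3 := heven v.1
      rw [dg, h2, Set.ncard_image_of_injective _ Subtype.val_injective] at h3
      rw [dg, h1, Set.ncard_image_of_injective _ (Option.some_injective _)]
      exact h3
    · rintro ⟨u, hu⟩ ⟨v, hv⟩
      obtain ⟨e, he, hue⟩ := hu
      obtain ⟨f, hf, hvf⟩ := hv
      obtain ⟨w⟩ := hcon e he f hf u hue v hvf
      exact gap_lift ends ends' I Set.univ (hsome _ _ (fun _ _ => trivial) subset_rfl) u v w _ _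
    · intro X' hX'
      have h1 : (some ⁻¹' X' : Set I).Finite := hX'.preimage (Option.some_injective _).injOn
      obtain ⟨K, hK, hK'⟩ := hone (Subtype.val '' (some ⁻¹' X' : Set I)) (h1.image _)
      refine ⟨Subtype.val ⁻¹' K, hK.preimage Subtype.val_injective.injOn, ?_⟩
      rintro ⟨u, hu⟩ hu' ⟨v, hv⟩ hv'
      obtain ⟨w⟩ := hK' u hu' hu v hv' hv
      refine gap_lift ends ends' _ X'ᶜ (hsome _ _ ?_ Set.diff_subset) u v w _ _
      intro e he h2
      exact he.2 ⟨e, h2, rfl⟩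
  haveI : Infinite I := hIinf.to_subtype
  haveI : Nonempty {v // P v} := ⟨⟨p, hp⟩⟩
  obtain ⟨f, hf, hfx⟩ := euler_double ends' hEul
  obtain ⟨z0, hz0⟩ := hf.2 none
  have hg0 : ∀ z, ∃ e : E, z ≠ z0 → ∃ h : e ∈ I, f z = some ⟨e, h⟩ := by
    intro z
    by_cases hz : z = z0
    · obtain ⟨e, _⟩ := hp
      exact ⟨e, fun h => absurd hz h⟩
    · rcases hfz : f z with _ | e
      · exact absurd (hf.1 (hfz.trans hz0.symm)) hz
      · exact ⟨e, fun _ => ⟨e.2, rfl⟩⟩
  choose g hg using hg0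
  have ginj : ∀ z z', z ≠ z0 → z' ≠ z0 → g z = g z' → z = z' := by
    intro z z' hz hz' h
    obtain ⟨h1, h2⟩ := hg z hz
    obtain ⟨h3, h4⟩ := hg z' hz'
    apply hf.1
    rw [h2, h4]
    congr 2
  have gstep : ∀ z, z ≠ z0 → z + 1 ≠ z0 → ∃ x, x ∈ ends (g z) ∧ x ∈ ends (g (z + 1)) := by
    intro z hz hz'
    obtain ⟨x, hx, hx'⟩ := hfx z
    obtain ⟨h1, h2⟩ := hg z hz
    obtain ⟨h3, h4⟩ := hg (z + 1) hz'
    rw [h2, hmem'] at hx
    rw [h4, hmem'] at hx'
    exact ⟨x.1, hx, hx'⟩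
  have hnone : ∀ x : {v // P v}, x ∈ ends' none → x.1 = p := by
    intro x hx
    have : x ∈ s((⟨p, hp⟩ : {v // P v}), ⟨p, hp⟩) := hx
    rw [Sym2.mem_iff] at this
    rcases this with rfl | rfl <;> rfl
  refine ⟨fun n => g (z0 + 1 + n), fun n => g (z0 - 1 - n), fun n => (hg _ (by omega)).1,
    fun n => (hg _ (by omega)).1, ?_, ?_, ?_, ?_, ?_, ?_, ?_, ?_⟩
  · intro m n h
    have := ginj _ _ (by omega) (by omega) h
    omega
  · intro m n h
    have := ginj _ _ (by omega) (by omega) h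
    omega
  · intro m n h
    have := ginj _ _ (by omega) (by omega) h
    omega
  · intro e he
    obtain ⟨z, hz⟩ := hf.2 (some ⟨e, he⟩)
    have hzz : z ≠ z0 := by
      rintro rfl
      rw [hz] at hz0
      exact absurd hz0 (by simp)
    obtain ⟨h1, h2⟩ := hg z hzz
    rw [hz] at h2
    have h3 : g z = e := by
      have := Option.some.inj h2
      exact (congrArg Subtype.val this).symm
    rcases lt_or_gt_of_ne hzz with h4 | h4
    · right
      refine ⟨(z0 - 1 - z).toNat, ?_⟩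
      have : z0 - 1 - ((z0 - 1 - z).toNat : ℤ) = z := by
        rw [Int.toNat_of_nonneg (by omega)]
        ring
      simp only [this]
      exact h3
    · left
      refine ⟨(z - z0 - 1).toNat, ?_⟩
      have : z0 + 1 + ((z - z0 - 1).toNat : ℤ) = z := by
        rw [Int.toNat_of_nonneg (by omega)]
        ring
      simp only [this]
      exact h3
  · obtain ⟨x, hx, hx'⟩ := hfx z0
    rw [hz0] at hx
    obtain ⟨h3, h4⟩ := hg (z0 + 1) (by omega)
    rw [h4, hmem', hnone x hx] at hx'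
    simpa using hx'
  · obtain ⟨x, hx, hx'⟩ := hfx (z0 - 1)
    rw [sub_add_cancel, hz0] at hx'
    obtain ⟨h3, h4⟩ := hg (z0 - 1) (by omega)
    rw [h4, hmem', hnone x hx'] at hx
    simpa using hx
  · intro n
    have h1 : z0 + 1 + ((n + 1 : ℕ) : ℤ) = (z0 + 1 + n) + 1 := by push_cast; ring
    simp only [h1]
    exact gstep _ (by omega) (by omega)
  · intro n
    have h1 : z0 - 1 - (n : ℤ) = (z0 - 1 - ((n + 1 : ℕ) : ℤ)) + 1 := by push_cast; ring
    obtain ⟨x, hx, hx'⟩ := gstep (z0 - 1 - ((n + 1 : ℕ) : ℤ)) (by omega) (by omega)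
    refine ⟨x, ?_, hx⟩
    simp only [h1]
    exact hx'

end Pool.Agent.Helper391.Lg
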