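import Pool.Agent.Helper391.Lg.Defs



namespace Pool.Agent.Helper391.Lg
open Set


theorem k_inf_sub {E V : Type*} (ends : E → Sym2 V) (F : Set V) {k : ℕ}
    (C : Fin (k + 1) → Set V) (hE : EulK ends F C) (P : List E)
    (I : Fin (k + 1) → Set E) (hcov : ∀ e, (∃ i, e ∈ I i) ↔ e ∉ P)
    (hIC : ∀ i, ∀ e ∈ I i, ∀ x ∈ ends e, x ∈ C i) (i : Fin (k + 1)) (e : E) (he : e ∉ P)
    (hx : ∀ x ∈ ends e, x ∈ C i) : e ∈ I i := by
  obtain ⟨j, hj⟩ := (hcov e).2 he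
  by_cases hij : j = i
  · subst hij; exact hj
  · exfalso
    have h1 : (ends e).out.1 ∈ ends e := Sym2.out_fst_mem _
    exact Set.disjoint_left.1 (hE.disj j i hij) (hIC j e hj _ h1) (hx _ h1)

/-- the residual components satisfy the hypotheses of `k_gap` -/
theorem k_inf {E V : Type*} (ends : E → Sym2 V) (F : Set V) {k : ℕ}
    (C : Fin (k + 1) → Set V) (hE : EulK ends F C) (P : List E)
    (I : Fin (k + 1) → Set E) (hcov : ∀ e, (∃ i, e ∈ I i) ↔ e ∉ P)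
    (hIC : ∀ i, ∀ e ∈ I i, ∀ x ∈ ends e, x ∈ C i) (i : Fin (k + 1)) :
    (I i).Infinite ∧
    ∀ X : Set E, X.Finite → ∃ K : Set V, K.Finite ∧ ∀ u, u ∉ K → (∃ e ∈ I i, u ∈ ends e) →
      ∀ v, v ∉ K → (∃ e ∈ I i, v ∈ ends e) → (Gr ends (I i \ X)).Reachable u v := by
  have hsub := k_inf_sub ends F C hE P I hcov hIC i
  constructor
  · intro hfin
    obtain ⟨K, hK, hK2⟩ := hE.one i (I i ∪ {e | e ∈ P}) (hfin.union (List.finite_toSet P))
    have hinf : (C i \ K).Infinite := (hE.inf i).diff hK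
    obtain ⟨u, hu, v, hv, huv⟩ := hinf.nontrivial
    have h1 := hK2 u hu v hv
    have h2 : {e | e ∉ I i ∪ {e | e ∈ P} ∧ ∀ x ∈ ends e, x ∈ C i} = ∅ := by
      rw [Set.eq_empty_iff_forall_notMem]
      rintro e ⟨he1, he2⟩
      exact he1 (Or.inl (hsub e (fun h => he1 (Or.inr h)) he2))
    rw [h2] at h1
    have h3 : Gr ends (∅ : Set E) = ⊥ := by
      unfold Gr
      rw [Set.image_empty, SimpleGraph.fromEdgeSet_empty]
    rw [h3] at h1
    exact huv (SimpleGraph.reachable_bot.1 h1)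
  · intro X hX
    obtain ⟨K, hK, hK2⟩ := hE.one i (X ∪ {e | e ∈ P}) (hX.union (List.finite_toSet P))
    refine ⟨K, hK, ?_⟩
    rintro u hu ⟨e, he, hue⟩ v hv ⟨f, hf, hvf⟩
    have h1 := hK2 u ⟨hIC i e he u hue, hu⟩ v ⟨hIC i f hf v hvf, hv⟩
    refine h1.mono ?_
    unfold Gr
    refine SimpleGraph.fromEdgeSet_mono (Set.image_mono ?_)
    rintro g ⟨hg1, hg2⟩
    exact ⟨hsub g (fun h => hg1 (Or.inr h)) hg2, fun h => hg1 (Or.inl h)⟩

end Pool.Agent.Helper391.Lg
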