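import Pool.Agent.Helper391.Lg.Defs



namespace Pool.Agent.Helper391.Lg
open Set


/-- the bi-infinite line -/
def kLineD {E : Type*} (l : List E) (gp gm : ℕ → E) : ℤ → E
  | Int.ofNat n => if h : n < l.length then l[n] else gp (n - l.length)
  | Int.negSucc n => gm n

theorem kLineD_lt {E : Type*} (l : List E) (gp gm : ℕ → E) (n : ℕ) (h : n < l.length) :
    kLineD l gp gm (n : ℤ) = l[n] := by
  show (if h : n < l.length then l[n] else gp (n - l.length)) = l[n]
  rw [dif_pos h]

theorem kLineD_ge {E : Type*} (l : List E) (gp gm : ℕ → E) (n : ℕ) (h : ¬ n < l.length) :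
    kLineD l gp gm (n : ℤ) = gp (n - l.length) := by
  show (if h : n < l.length then l[n] else gp (n - l.length)) = gp (n - l.length)
  rw [dif_neg h]

theorem kLineD_neg {E : Type*} (l : List E) (gp gm : ℕ → E) (n : ℕ) :
    kLineD l gp gm (Int.negSucc n) = gm n := rfl

theorem k_line {E : Type*} (R : E → E → Prop) (hRs : ∀ e f, R e f → R f e) (l : List E)
    (hl : l ≠ []) (hch : l.IsChain R) (gp gm : ℕ → E) (h1 : ∀ n, R (gp n) (gp (n + 1)))
    (h2 : ∀ n, R (gm n) (gm (n + 1))) (h3 : R (l.getLast hl) (gp 0)) (h4 : R (gm 0) (l.head hl))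
    (hn : l.Nodup) (hgp : Function.Injective gp) (hgm : Function.Injective gm)
    (hd : ∀ m n, gp m ≠ gm n) (hlp : ∀ n, gp n ∉ l) (hlm : ∀ n, gm n ∉ l) :
    ∃ D : ℤ → E, (∀ z, R (D z) (D (z + 1))) ∧ (∀ n : ℕ, D ((l.length : ℤ) + n) = gp n) ∧
      (∀ n : ℕ, D (-1 - n) = gm n) ∧ Function.Injective D ∧
      (∀ e, (∃ z, D z = e) ↔ (e ∈ l ∨ (∃ n, gp n = e) ∨ ∃ n, gm n = e)) := by
  have hlen : 0 < l.length := List.length_pos_of_ne_nil hl
  refine ⟨kLineD l gp gm, ?_, ?_, ?_, ?_, ?_⟩
  · intro z
    obtain n | n := z
    · change R (kLineD l gp gm (n : ℤ)) (kLineD l gp gm ((n : ℤ) + 1))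
      have e : ((n : ℤ) + 1) = ((n + 1 : ℕ) : ℤ) := by push_cast; rfl
      rw [e]
      by_cases h : n + 1 < l.length
      · rw [kLineD_lt l gp gm n (by omega), kLineD_lt l gp gm (n + 1) h]
        exact List.isChain_iff_getElem.1 hch n h
      · rw [kLineD_ge l gp gm (n + 1) h]
        by_cases h' : n < l.length
        · rw [kLineD_lt l gp gm n h']
          have e1 : n + 1 - l.length = 0 := by omega
          rw [e1]
          have e2 : l[n] = l.getLast hl := by
            rw [List.getLast_eq_getElem]
            congr 1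
            omega
          rw [e2]
          exact h3
        · rw [kLineD_ge l gp gm n h']
          have e1 : n + 1 - l.length = (n - l.length) + 1 := by omega
          rw [e1]
          exact h1 _
    · obtain _ | m := n
      · have e : (Int.negSucc 0 + 1 : ℤ) = ((0 : ℕ) : ℤ) := rfl
        rw [e, kLineD_neg, kLineD_lt l gp gm 0 hlen]
        have e2 : l[0] = l.head hl := by
          rw [List.head_eq_getElem]
        rw [e2]
        exact h4
      · have e : (Int.negSucc (m + 1) + 1 : ℤ) = Int.negSucc m := rfl
        rw [e, kLineD_neg, kLineD_neg]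
        exact hRs _ _ (h2 m)
  · intro n
    have e : ((l.length : ℤ) + n) = ((l.length + n : ℕ) : ℤ) := by push_cast; rfl
    rw [e, kLineD_ge l gp gm _ (by omega)]
    congr 1
    omega
  · intro n
    have e : (-1 - (n : ℤ)) = Int.negSucc n := by
      rw [Int.negSucc_eq]; ring
    rw [e, kLineD_neg]
  · intro y z hyz
    obtain m | m := y
    · obtain n | n := z
      · change kLineD l gp gm (m : ℤ) = kLineD l gp gm (n : ℤ) at hyz
        by_cases hm : m < l.length
        · by_cases hn' : n < l.length
          · rw [kLineD_lt l gp gm m hm, kLineD_lt l gp gm n hn'] at hyz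
            rw [(List.Nodup.getElem_inj_iff hn).1 hyz]
          · rw [kLineD_lt l gp gm m hm, kLineD_ge l gp gm n hn'] at hyz
            exact absurd (hyz ▸ List.getElem_mem hm) (hlp _)
        · by_cases hn' : n < l.length
          · rw [kLineD_ge l gp gm m hm, kLineD_lt l gp gm n hn'] at hyz
            exact absurd (hyz ▸ List.getElem_mem hn') (hlp _)
          · rw [kLineD_ge l gp gm m hm, kLineD_ge l gp gm n hn'] at hyz
            have := hgp hyz
            have e : m = n := by omega
            rw [e]
      · change kLineD l gp gm (m : ℤ) = gm n at hyz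
        by_cases hm : m < l.length
        · rw [kLineD_lt l gp gm m hm] at hyz
          exact absurd (hyz ▸ List.getElem_mem hm) (hlm _)
        · rw [kLineD_ge l gp gm m hm] at hyz
          exact absurd hyz (hd _ _)
    · obtain n | n := z
      · change gm m = kLineD l gp gm (n : ℤ) at hyz
        by_cases hn' : n < l.length
        · rw [kLineD_lt l gp gm n hn'] at hyz
          exact absurd (hyz ▸ List.getElem_mem hn') (hlm _)
        · rw [kLineD_ge l gp gm n hn'] at hyz
          exact absurd hyz.symm (hd _ _)
      · change gm m = gm n at hyz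
        rw [hgm hyz]
  · intro e
    constructor
    · rintro ⟨z, rfl⟩
      obtain n | n := z
      · change kLineD l gp gm (n : ℤ) ∈ l ∨ _
        by_cases h : n < l.length
        · left
          rw [kLineD_lt l gp gm n h]
          exact List.getElem_mem h
        · right; left
          exact ⟨n - l.length, (kLineD_ge l gp gm n h).symm⟩
      · right; right
        exact ⟨n, rfl⟩
    · rintro (h | ⟨n, rfl⟩ | ⟨n, rfl⟩)
      · obtain ⟨n, hn', rfl⟩ := List.getElem_of_mem h
        exact ⟨(n : ℤ), kLineD_lt l gp gm n hn'⟩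
      · refine ⟨((l.length + n : ℕ) : ℤ), ?_⟩
        rw [kLineD_ge l gp gm _ (by omega)]
        congr 1
        omega
      · exact ⟨Int.negSucc n, rfl⟩

end Pool.Agent.Helper391.Lg
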