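import Pool.Agent.Helper391.Lg.Defs



namespace Pool.Agent.Helper391.Lg
open Set


theorem k_touch {E V : Type*} (ends : E → Sym2 V) (F : Set V) (hne : F.Nonempty) {k : ℕ}
    (C : Fin (k + 1) → Set V) (hE : EulK ends F C) (P : List E)
    (hPF : ∀ e, (∃ v ∈ ends e, v ∈ F) → e ∈ P) (I : Fin (k + 1) → Set E)
    (hcov : ∀ e, (∃ i, e ∈ I i) ↔ e ∉ P) (hIne : ∀ i, (I i).Nonempty)
    (hIC : ∀ i, ∀ e ∈ I i, ∀ x ∈ ends e, x ∈ C i) (i : Fin (k + 1)) :
    ∃ p, (∃ e ∈ P, p ∈ ends e) ∧ ∃ f ∈ I i, p ∈ ends f := by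
  obtain ⟨w, hw⟩ := hne
  obtain ⟨f, hf⟩ := hIne i
  obtain ⟨x, hx⟩ : ∃ x, x ∈ ends f := by
    induction h : ends f with
    | _ a b => exact ⟨a, by simp⟩
  have key : ∀ (u w' : V) (q : (Gr ends Set.univ).Walk u w'), w' ∈ F →
      (∃ f ∈ I i, u ∈ ends f) →
      ∃ p, (∃ e ∈ P, p ∈ ends e) ∧ ∃ f ∈ I i, p ∈ ends f := by
    intro u w' q
    induction q with
    | nil =>
      rintro hF ⟨f, hf, hu⟩
      exact absurd hF (Set.disjoint_left.1 (hE.disjF i) (hIC i f hf _ hu))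
    | @cons u v w' hadj q ih =>
      rintro hF ⟨f, hf, hu⟩
      have h1 : (SimpleGraph.fromEdgeSet (ends '' Set.univ)).Adj u v := hadj
      rw [SimpleGraph.fromEdgeSet_adj] at h1
      obtain ⟨⟨g, -, hg⟩, hne⟩ := h1
      have hug : u ∈ ends g := by rw [hg]; simp
      have hvg : v ∈ ends g := by rw [hg]; simp
      by_cases hgP : g ∈ P
      · exact ⟨u, ⟨g, hgP, hug⟩, f, hf, hu⟩
      · obtain ⟨j, hj⟩ := (hcov g).2 hgP
        have hji : j = i := by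
          by_contra hji
          exact Set.disjoint_left.1 (hE.disj j i hji) (hIC j g hj _ hug) (hIC i f hf _ hu)
        subst hji
        exact ih hF ⟨g, hj, hvg⟩
  obtain ⟨q⟩ := hE.conn x w
  exact key x w q hw ⟨f, hf, hx⟩

end Pool.Agent.Helper391.Lg
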