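import Pool.Agent.Helper391.Lg.Defs
import Pool.Agent.Helper391.Lg.P_tr_split



namespace Pool.Agent.Helper391.Lg
open Set


theorem seg_insert {E V ι : Type*} (ends : E → Sym2 V) (p : ι → V) (L : List (ι × List E)) :
    ∀ (a : V) (l₀ : List E) (b : V), Seg ends p a l₀ L b → ∀ (j : ι) (e : E),
      e ∈ l₀ ++ (L.map Prod.snd).flatten → p j ∈ ends e →
      ∃ (l₀' : List E) (L' : List (ι × List E)), Seg ends p a l₀' L' b ∧
        l₀' ++ (L'.map Prod.snd).flatten = l₀ ++ (L.map Prod.snd).flatten ∧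
        (L'.map Prod.fst).Perm (j :: L.map Prod.fst) := by
  induction L with
  | nil =>
    intro a l₀ b h j e he hp
    have he' : e ∈ l₀ := by simpa using he
    obtain ⟨l₁, l₂, h1, h2, h3⟩ := tr_split ends l₀ a b (p j) h e he' hp
    exact ⟨l₁, [(j, l₂)], ⟨h2, h3⟩, by simp [h1], by simp⟩
  | cons q rest ih =>
    obtain ⟨i, l⟩ := q
    intro a l₀ b h j e he hp
    by_cases he' : e ∈ l₀
    · obtain ⟨l₁, l₂, h1, h2, h3⟩ := tr_split ends l₀ a (p i) (p j) h.1 e he' hp
      exact ⟨l₁, (j, l₂) :: (i, l) :: rest, ⟨h2, h3, h.2⟩, by simp [h1], by simp⟩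
    · have he2 : e ∈ l ++ (rest.map Prod.snd).flatten := by
        simp only [List.map_cons, List.flatten_cons] at he
        rcases List.mem_append.1 he with h' | h'
        · exact absurd h' he'
        · exact h'
      obtain ⟨l', rest', h1, h2, h3⟩ := ih (p i) l b h.2 j e he2 hp
      refine ⟨l₀, (i, l') :: rest', ⟨h.1, h1⟩, ?_, ?_⟩
      · simp only [List.map_cons, List.flatten_cons]
        rw [h2]
      · simp only [List.map_cons]
        exact (h3.cons i).trans (List.Perm.swap j i _)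

end Pool.Agent.Helper391.Lg
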