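import Pool.Agent.Helper391.Lg.Defs
import Pool.Agent.Helper391.Lg.P_tr_append
import Pool.Agent.Helper391.Lg.P_tr_split
import Pool.Agent.Helper391.Lg.P_seg_insert



namespace Pool.Agent.Helper391.Lg
open Set


theorem aux_get {E V ι : Type*} (ends : E → Sym2 V) (p : ι → V) (L : List (ι × List E)) :
    ∀ (i0 : ι) (l₀ : List E) (b : V), Seg ends p (p i0) l₀ L b →
      ∀ (j : ℕ) (hj : j < ((i0, l₀) :: L).length),
        (∀ hj' : j + 1 < ((i0, l₀) :: L).length,
          Tr ends (p (((i0, l₀) :: L)[j]).1) (((i0, l₀) :: L)[j]).2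
            (p (((i0, l₀) :: L)[j + 1]).1)) ∧
        (j + 1 = ((i0, l₀) :: L).length →
          Tr ends (p (((i0, l₀) :: L)[j]).1) (((i0, l₀) :: L)[j]).2 b) := by
  induction L with
  | nil =>
    intro i0 l₀ b hS j hj
    have hj0 : j = 0 := by
      simp at hj
      exact hj
    subst hj0
    refine ⟨?_, ?_⟩
    · intro hj'
      simp at hj'
    · intro _
      exact hS
  | cons x rest ih =>
    obtain ⟨i, l⟩ := x
    intro i0 l₀ b hS j hj
    obtain ⟨h1, h2⟩ := hS
    rcases j with _ | j
    · refine ⟨?_, ?_⟩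
      · intro _
        exact h1
      · intro h
        simp at h
    · have hj2 : j < ((i, l) :: rest).length := by
        simpa using hj
      obtain ⟨g1, g2⟩ := ih i l b h2 j hj2
      refine ⟨?_, ?_⟩
      · intro hj'
        have hj3 : j + 1 < ((i, l) :: rest).length := by
          simpa using hj'
        exact g1 hj3
      · intro h
        have h3 : j + 1 = ((i, l) :: rest).length := by
          simpa using h
        exact g2 h3

theorem aux_ins {E V ι : Type*} (ends : E → Sym2 V) (p : ι → V) (a b : V) (P : List E)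
    (hP : Tr ends a P b) (hp : ∀ i, ∃ e ∈ P, p i ∈ ends e) (Js : List ι) :
    ∃ (l₀ : List E) (L : List (ι × List E)), Seg ends p a l₀ L b ∧
      l₀ ++ (L.map Prod.snd).flatten = P ∧ (L.map Prod.fst).Perm Js := by
  induction Js with
  | nil => exact ⟨P, [], hP, by simp, by simp⟩
  | cons j Js ih =>
    obtain ⟨l₀, L, h1, h2, h3⟩ := ih
    obtain ⟨e, he, hj⟩ := hp j
    rw [← h2] at he
    obtain ⟨l₀', L', g1, g2, g3⟩ := seg_insert ends p L a l₀ b h1 j e he hj
    exact ⟨l₀', L', g1, g2.trans h2, g3.trans (h3.cons j)⟩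

theorem seg_all {E V : Type*} (ends : E → Sym2 V) {k : ℕ} (p : Fin (k + 1) → V) (P : List E) (q : V)
    (hP : Tr ends q P q) (hp : ∀ i, ∃ e ∈ P, p i ∈ ends e) :
    ∃ (σ : Fin (k + 1) → Fin (k + 1)) (l : Fin (k + 1) → List E), Function.Bijective σ ∧
      (∀ j, Tr ends (p (σ j)) (l j) (p (σ (j + 1)))) ∧ (List.ofFn l).flatten.Perm P := by
  obtain ⟨e0, he0, hpe0⟩ := hp 0
  obtain ⟨Q1, Q2, hPQ, hQ1, hQ2⟩ := tr_split ends P q q (p 0) hP e0 he0 hpe0
  have hP' : Tr ends (p 0) (Q2 ++ Q1) (p 0) := (tr_append ends Q2 Q1 _ _).2 ⟨q, hQ2, hQ1⟩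
  have hperm : (Q2 ++ Q1).Perm P := by
    rw [hPQ]
    exact List.perm_append_comm
  have hp' : ∀ i, ∃ e ∈ Q2 ++ Q1, p i ∈ ends e := by
    intro i
    obtain ⟨e, he, h⟩ := hp i
    exact ⟨e, hperm.mem_iff.2 he, h⟩
  obtain ⟨l₀, L, hS, hfl, hpm⟩ := aux_ins ends p (p 0) (p 0) (Q2 ++ Q1) hP' hp'
    ((List.finRange k).map Fin.succ)
  obtain ⟨M, hM⟩ : ∃ M, M = ((0 : Fin (k + 1)), l₀) :: L := ⟨_, rfl⟩
  have hget := aux_get ends p L 0 l₀ (p 0) hS
  rw [← hM] at hget
  have hLlen : L.length = k := by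
    have := hpm.length_eq
    simpa using this
  have hMlen : M.length = k + 1 := by rw [hM, List.length_cons, hLlen]
  have hMperm : (M.map Prod.fst).Perm (List.finRange (k + 1)) := by
    rw [hM, List.map_cons, List.finRange_succ]
    exact hpm.cons 0
  have hMnd : (M.map Prod.fst).Nodup := (hMperm.nodup_iff).2 (List.nodup_finRange _)
  have hlt : ∀ j : Fin (k + 1), j.val < M.length := fun j => by rw [hMlen]; exact j.2
  refine ⟨fun j => (M[j.val]'(hlt j)).1, fun j => (M[j.val]'(hlt j)).2, ?_, ?_, ?_⟩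
  · apply Finite.injective_iff_bijective.1
    intro i j hij
    have hij' : (M[i.val]'(hlt i)).1 = (M[j.val]'(hlt j)).1 := hij
    have h1 : (M.map Prod.fst)[i.val]'(by rw [List.length_map]; exact hlt i) =
        (M.map Prod.fst)[j.val]'(by rw [List.length_map]; exact hlt j) := by
      rw [List.getElem_map, List.getElem_map]
      exact hij'
    have h2 := (List.Nodup.getElem_inj_iff hMnd).1 h1
    exact Fin.ext h2
  · intro j
    beta_reduce
    obtain ⟨g1, g2⟩ := hget j.val (hlt j)
    by_cases hj : j = Fin.last k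
    · subst hj
      have h1 := g2 (by rw [hMlen, Fin.val_last])
      have h2 : (M[((Fin.last k + 1 : Fin (k + 1))).val]'(hlt _)).1 = 0 := by
        have h3 : ((Fin.last k + 1 : Fin (k + 1))).val = 0 := by
          rw [Fin.last_add_one]
          rfl
        simp only [h3, hM, List.getElem_cons_zero]
      rw [h2]
      exact h1
    · have hjlt : j < Fin.last k := Fin.lt_last_iff_ne_last.2 hj
      have h3 : ((j + 1 : Fin (k + 1))).val = j.val + 1 := Fin.val_add_one_of_lt hjlt
      have h4 : j.val + 1 < M.length := by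
        rw [hMlen]
        have : j.val < k := hjlt
        omega
      have h5 : (M[((j + 1 : Fin (k + 1))).val]'(hlt _)).1 = (M[j.val + 1]'h4).1 := by
        simp only [h3]
      rw [h5]
      exact g1 h4
  · have h1 : List.ofFn (fun j : Fin (k + 1) => (M[j.val]'(hlt j)).2) = M.map Prod.snd := by
      apply List.ext_getElem
      · rw [List.length_ofFn, List.length_map, hMlen]
      · intro i hi1 hi2
        rw [List.getElem_ofFn, List.getElem_map]
    rw [h1]
    have h2 : (M.map Prod.snd).flatten = Q2 ++ Q1 := by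
      rw [hM, List.map_cons, List.flatten_cons]
      exact hfl
    rw [h2]
    exact hperm

end Pool.Agent.Helper391.Lg
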