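import Pool.Agent.Helper391.Lg.Defs
import Pool.Agent.Helper391.Lg.P_tr_append
import Pool.Agent.Helper391.Lg.P_tr_chain
import Pool.Agent.Helper391.Lg.P_k_closed
import Pool.Agent.Helper391.Lg.P_k_touch
import Pool.Agent.Helper391.Lg.P_seg_all
import Pool.Agent.Helper391.Lg.P_k_gap
import Pool.Agent.Helper391.Lg.P_k_inf
import Pool.Agent.Helper391.Lg.P_k_line



namespace Pool.Agent.Helper391.Lg
open Set


theorem tr_last_aux {E V : Type*} (ends : E → Sym2 V) : ∀ (l : List E) (a b : V)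
    (_ : Tr ends a l b) (hl : l ≠ []), b ∈ ends (l.getLast hl)
  | [], _, _, _, hl => (hl rfl).elim
  | [e], a, b, h, _ => by
      obtain ⟨c, hc, h2⟩ := h
      have h3 : c = b := h2
      subst h3
      simp [hc]
  | e :: f :: l, a, b, h, hl => by
      obtain ⟨c, _, h2⟩ := h
      have := tr_last_aux ends (f :: l) c b h2 (by simp)
      rw [List.getLast_cons (by simp)]
      exact this

theorem tr_head_aux {E V : Type*} (ends : E → Sym2 V) (l : List E) (a b : V)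
    (h : Tr ends a l b) (hl : l ≠ []) : a ∈ ends (l.head hl) := by
  cases l with
  | nil => exact (hl rfl).elim
  | cons e l =>
    obtain ⟨c, hc, _⟩ := h
    simp [hc]

theorem k_main {E V : Type*} [Countable E] (ends : E → Sym2 V) (F : Set V) (hne : F.Nonempty) {k : ℕ}
    (C : Fin (k + 1) → Set V) (hE : EulK ends F C) (hcov : ∀ v, v ∈ F ∨ ∃ i, v ∈ C i) :
    ∃ (D : Fin (k + 1) → ℤ → E) (σ : Fin (k + 1) → Fin (k + 1)), Function.Bijective σ ∧
      Function.Bijective (fun x : Fin (k + 1) × ℤ => D x.1 x.2) ∧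
      (∀ j z, ∃ x, x ∈ ends (D j z) ∧ x ∈ ends (D j (z + 1))) ∧
      (∀ j, ∃ N : ℕ, ∀ n : ℕ, N ≤ n → ∀ x ∈ ends (D j n), x ∈ C (σ (j + 1))) ∧
      (∀ j, ∃ N : ℕ, ∀ n : ℕ, N ≤ n → ∀ x ∈ ends (D j (-n)), x ∈ C (σ j)) := by
  obtain ⟨P, q, I, hTr, hnd, hPne, hPF, hcovI, hIne, hIC, hIconn, hIeven⟩ :=
    k_closed ends F hne C hE hcov
  have htouch := fun i => k_touch ends F hne C hE P hPF I hcovI hIne hIC i
  choose p hpP hpI using htouch
  obtain ⟨σ, l, hσ, hl, hperm⟩ := seg_all ends p P q hTr hpP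
  have hpC : ∀ i, p i ∈ C i := by
    intro i
    obtain ⟨f, hf, hpf⟩ := hpI i
    exact hIC i f hf _ hpf
  have hCinj : ∀ i j x, x ∈ C i → x ∈ C j → i = j := by
    intro i j x hi hj
    by_contra hij
    exact Set.disjoint_left.1 (hE.disj i j hij) hi hj
  have hIinj : ∀ i j e, e ∈ I i → e ∈ I j → i = j := by
    intro i j e hi hj
    obtain ⟨x, hx⟩ : ∃ x, x ∈ ends e := by
      induction ends e using Sym2.ind with
      | _ x y => exact ⟨x, by simp⟩
    exact hCinj i j x (hIC i e hi x hx) (hIC j e hj x hx)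
  have hPl : ∀ e, e ∈ P ↔ ∃ j, e ∈ l j := by
    intro e
    rw [← hperm.mem_iff, List.mem_flatten]
    simp only [List.mem_ofFn]
    constructor
    · rintro ⟨L, ⟨j, rfl⟩, he⟩; exact ⟨j, he⟩
    · rintro ⟨j, he⟩; exact ⟨_, ⟨j, rfl⟩, he⟩
  have hlne : ∀ j, l j ≠ [] := by
    intro j hj
    have h1 := hl j
    rw [hj] at h1
    have h2 : p (σ j) = p (σ (j + 1)) := h1
    have h3 : σ j = σ (j + 1) := by
      apply hCinj _ _ (p (σ j)) (hpC _)
      rw [h2]; exact hpC _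
    have h4 := hσ.1 h3
    have h5 : (1 : Fin (k + 1)) = 0 := by
      have : j + 1 = j + 0 := by rw [← h4, add_zero]
      exact add_left_cancel this
    have h6 : k = 0 := by simpa using h5
    subst h6
    obtain ⟨e, he⟩ := List.exists_mem_of_ne_nil P hPne
    obtain ⟨j', hj'⟩ := (hPl e).1 he
    have : j' = j := by
      apply Fin.ext
      have h7 := j.2
      have h8 := j'.2
      omega
    rw [this, hj] at hj'
    exact absurd hj' (by simp)
  have hflnd : (List.ofFn l).flatten.Nodup := hperm.nodup_iff.2 hnd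
  rw [List.nodup_flatten] at hflnd
  obtain ⟨hlnd, hlpw⟩ := hflnd
  have hlnd' : ∀ j, (l j).Nodup := fun j => hlnd _ (by rw [List.mem_ofFn]; exact ⟨j, rfl⟩)
  rw [List.pairwise_ofFn] at hlpw
  have hldisj : ∀ i j e, e ∈ l i → e ∈ l j → i = j := by
    intro i j e hi hj
    by_contra hij
    rcases lt_or_gt_of_ne hij with h | h
    · exact hlpw h hi hj
    · exact hlpw h hj hi
  have hgap := fun i => k_gap ends (I i) (k_inf ends F C hE P I hcovI hIC i).1 hE.fin (hIeven i)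
    (hIconn i) (k_inf ends F C hE P I hcovI hIC i).2 (p i) (hpI i)
  choose gp gm hgpI hgmI hgpinj hgminj hgd hgcov hgp0 hgm0 hgpc hgmc using hgap
  have hlI : ∀ j e i, e ∈ l j → e ∈ I i → False := by
    intro j e i hj hi
    exact (hcovI e).1 ⟨i, hi⟩ ((hPl e).2 ⟨j, hj⟩)
  have hline := fun j => k_line (fun e f => ∃ x, x ∈ ends e ∧ x ∈ ends f)
    (fun e f h => by obtain ⟨x, h1, h2⟩ := h; exact ⟨x, h2, h1⟩) (l j) (hlne j)
    (tr_chain ends (l j) _ _ (hl j)) (gp (σ (j + 1))) (gm (σ j)) (hgpc _) (hgmc _)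
    ⟨p (σ (j + 1)), tr_last_aux ends (l j) _ _ (hl j) (hlne j), hgp0 _⟩
    ⟨p (σ j), hgm0 _, tr_head_aux ends (l j) _ _ (hl j) (hlne j)⟩
    (hlnd' j) (hgpinj _) (hgminj _)
    (by
      intro m n h
      have h1 := hgpI (σ (j + 1)) m
      have h2 := hgmI (σ j) n
      rw [h] at h1
      have h3 := hIinj _ _ _ h1 h2
      rw [h3] at h
      exact hgd _ _ _ h)
    (fun n h => hlI j _ _ h (hgpI _ n)) (fun n h => hlI j _ _ h (hgmI _ n))
  choose D hDR hDp hDm hDinj hDcov using hline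
  refine ⟨D, σ, hσ, ⟨?_, ?_⟩, hDR, ?_, ?_⟩
  · rintro ⟨j, z⟩ ⟨j', z'⟩ h
    replace h : D j z = D j' z' := h
    have key : j = j' := by
      have c1 := (hDcov j (D j z)).1 ⟨z, rfl⟩
      have c2 := (hDcov j' (D j z)).1 ⟨z', h.symm⟩
      rcases c1 with c1 | ⟨n, c1⟩ | ⟨n, c1⟩
      · rcases c2 with c2 | ⟨m, c2⟩ | ⟨m, c2⟩
        · exact hldisj _ _ _ c1 c2
        · exact (hlI _ _ (σ (j' + 1)) c1 (by rw [← c2]; exact hgpI _ _)).elim
        · exact (hlI _ _ (σ j') c1 (by rw [← c2]; exact hgmI _ _)).elim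
      · rcases c2 with c2 | ⟨m, c2⟩ | ⟨m, c2⟩
        · exact (hlI _ _ (σ (j + 1)) c2 (by rw [← c1]; exact hgpI _ _)).elim
        · have e1 : σ (j + 1) = σ (j' + 1) :=
            hIinj _ _ (D j z) (by rw [← c1]; exact hgpI _ _) (by rw [← c2]; exact hgpI _ _)
          exact add_right_cancel (hσ.1 e1)
        · have e1 : σ (j + 1) = σ j' :=
            hIinj _ _ (D j z) (by rw [← c1]; exact hgpI _ _) (by rw [← c2]; exact hgmI _ _)
          rw [← c2, e1] at c1
          exact (hgd _ _ _ c1).elim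
      · rcases c2 with c2 | ⟨m, c2⟩ | ⟨m, c2⟩
        · exact (hlI _ _ (σ j) c2 (by rw [← c1]; exact hgmI _ _)).elim
        · have e1 : σ j = σ (j' + 1) :=
            hIinj _ _ (D j z) (by rw [← c1]; exact hgmI _ _) (by rw [← c2]; exact hgpI _ _)
          rw [← c1, e1] at c2
          exact (hgd _ _ _ c2).elim
        · have e1 : σ j = σ j' :=
            hIinj _ _ (D j z) (by rw [← c1]; exact hgmI _ _) (by rw [← c2]; exact hgmI _ _)
          exact hσ.1 e1
    subst key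
    rw [hDinj j h]
  · intro e
    by_cases he : e ∈ P
    · obtain ⟨j, hj⟩ := (hPl e).1 he
      obtain ⟨z, hz⟩ := (hDcov j e).2 (Or.inl hj)
      exact ⟨(j, z), hz⟩
    · obtain ⟨i, hi⟩ := (hcovI e).2 he
      obtain ⟨j, rfl⟩ := hσ.2 i
      rcases hgcov _ e hi with ⟨n, hn⟩ | ⟨n, hn⟩
      · obtain ⟨z, hz⟩ := (hDcov (j - 1) e).2 (Or.inr (Or.inl ⟨n, by
          rw [sub_add_cancel]; exact hn⟩))
        exact ⟨(j - 1, z), hz⟩
      · obtain ⟨z, hz⟩ := (hDcov j e).2 (Or.inr (Or.inr ⟨n, hn⟩))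
        exact ⟨(j, z), hz⟩
  · intro j
    refine ⟨(l j).length, fun n hn x hx => ?_⟩
    have e1 := hDp j (n - (l j).length)
    have e2 : (((l j).length : ℤ) + ((n - (l j).length : ℕ) : ℤ)) = (n : ℤ) := by omega
    rw [e2] at e1
    rw [e1] at hx
    exact hIC _ _ (hgpI _ _) x hx
  · intro j
    refine ⟨1, fun n hn x hx => ?_⟩
    have e1 := hDm j (n - 1)
    have e2 : ((-1 : ℤ) - ((n - 1 : ℕ) : ℤ)) = -(n : ℤ) := by omega
    rw [e2] at e1
    rw [e1] at hx
    exact hIC _ _ (hgmI _ _) x hx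

end Pool.Agent.Helper391.Lg
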