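import Pool.Agent.Helper391.Lg.Defs



namespace Pool.Agent.Helper391.Lg
open Set


/-- reachability avoiding the set `P` -/
def RAv {V : Type*} (H : SimpleGraph V) (P : Set V) : V → V → Prop :=
  Relation.ReflTransGen (fun a b => H.Adj a b ∧ b ∉ P)

theorem rav_step {V : Type*} (H : SimpleGraph V) (P : Set V) (x w : V) (h : RAv H P x w) :
    w = x ∨ ∃ y, H.Adj x y ∧ y ∉ insert x P ∧ RAv H (insert x P) y w := by
  unfold RAv at h ⊢
  induction h with
  | refl => exact Or.inl rfl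
  | @tail b c hb hbc ih =>
    by_cases hc : c = x
    · exact Or.inl hc
    · right
      have hc' : c ∉ insert x P := by
        rintro (h | h)
        · exact hc h
        · exact hbc.2 h
      rcases ih with rfl | ⟨y, h1, h2, h3⟩
      · exact ⟨c, hbc.1, hc', Relation.ReflTransGen.refl⟩
      · exact ⟨y, h1, h2, h3.tail ⟨hbc.1, hc'⟩⟩

theorem rav_next {V : Type*} (H : SimpleGraph V) (hfin : ∀ v, (H.neighborSet v).Finite)
    (P : Set V) (x : V) (hinf : {w | RAv H P x w}.Infinite) :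
    ∃ y, H.Adj x y ∧ y ∉ insert x P ∧ {w | RAv H (insert x P) y w}.Infinite := by
  by_contra hcon
  push Not at hcon
  apply hinf
  have hsub : {w | RAv H P x w} ⊆ {x} ∪ ⋃ y ∈ {y | y ∈ H.neighborSet x ∧ y ∉ insert x P},
      {w | RAv H (insert x P) y w} := by
    intro w hw
    rcases rav_step H P x w hw with h | ⟨y, h1, h2, h3⟩
    · exact Or.inl h
    · exact Or.inr (mem_iUnion₂.2 ⟨y, ⟨h1, h2⟩, h3⟩)
  refine ((finite_singleton x).union ?_).subset hsub
  refine Set.Finite.biUnion ((hfin x).subset fun y hy => hy.1) fun y hy => ?_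
  exact hcon y hy.1 hy.2

/-- an infinite component of a locally finite graph contains a ray -/
theorem koenig {V : Type*} (G : SimpleGraph V) (hfin : ∀ v, (G.neighborSet v).Finite)
    (T : Set (Sym2 V)) (hT : T ⊆ G.edgeSet) (v : V)
    (hinf : {w | (SimpleGraph.fromEdgeSet T).Reachable v w}.Infinite) :
    ∃ r : ℕ → V, Function.Injective r ∧ (∀ n, s(r n, r (n + 1)) ∈ T) ∧ r 0 = v := by
  obtain ⟨H, hH⟩ : ∃ H, H = SimpleGraph.fromEdgeSet T := ⟨_, rfl⟩
  rw [← hH] at hinf
  have hHT : ∀ a b, H.Adj a b → s(a, b) ∈ T := by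
    intro a b hab
    rw [hH, SimpleGraph.fromEdgeSet_adj] at hab
    exact hab.1
  have hHfin : ∀ v, (H.neighborSet v).Finite := by
    intro v
    refine (hfin v).subset fun w hw => ?_
    have h1 : H.Adj v w := hw
    rw [hH, SimpleGraph.fromEdgeSet_adj] at h1
    exact hT h1.1
  let St : Type _ := {s : Set V × V // s.2 ∉ s.1 ∧ {w | RAv H s.1 s.2 w}.Infinite}
  have hnext : ∀ s : St, ∃ t : St, t.1.1 = insert s.1.2 s.1.1 ∧ H.Adj s.1.2 t.1.2 := by
    intro s
    obtain ⟨y, h1, h2, h3⟩ := rav_next H hHfin s.1.1 s.1.2 s.2.2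
    exact ⟨⟨(insert s.1.2 s.1.1, y), h2, h3⟩, rfl, h1⟩
  choose nx hnx1 hnx2 using hnext
  have h0 : {w | RAv H ∅ v w}.Infinite := by
    refine hinf.mono fun w hw => ?_
    have h1 := (SimpleGraph.reachable_iff_reflTransGen v w).1 hw
    exact Relation.ReflTransGen.mono (fun a b hab => ⟨hab, fun h => h⟩) _ _ h1
  obtain ⟨st, hst0, hst1⟩ : ∃ st : ℕ → St, st 0 = ⟨(∅, v), fun h => h, h0⟩ ∧
      ∀ n, st (n + 1) = nx (st n) :=
    ⟨fun n => Nat.rec ⟨(∅, v), fun h => h, h0⟩ (fun _ s => nx s) n, rfl, fun n => rfl⟩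
  have hP : ∀ n, (st (n + 1)).1.1 = insert (st n).1.2 (st n).1.1 := by
    intro n; rw [hst1, hnx1]
  have hmono : ∀ m k, (st m).1.1 ⊆ (st (m + k)).1.1 := by
    intro m k
    induction k with
    | zero => exact subset_rfl
    | succ k ih =>
      rw [← add_assoc, hP]
      exact ih.trans (subset_insert _ _)
  have hne : ∀ m k, (st m).1.2 ≠ (st (m + 1 + k)).1.2 := by
    intro m k heq
    have h1 : (st m).1.2 ∈ (st (m + 1)).1.1 := by rw [hP]; exact mem_insert _ _
    have h2 := hmono (m + 1) k h1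
    rw [heq] at h2
    exact (st (m + 1 + k)).2.1 h2
  refine ⟨fun n => (st n).1.2, ?_, ?_, ?_⟩
  · intro a b hab
    rcases lt_trichotomy a b with h | h | h
    · obtain ⟨k, rfl⟩ := Nat.exists_eq_add_of_le (Nat.succ_le_of_lt h)
      exact absurd hab (hne a k)
    · exact h
    · obtain ⟨k, rfl⟩ := Nat.exists_eq_add_of_le (Nat.succ_le_of_lt h)
      exact absurd hab.symm (hne b k)
  · intro n
    have h1 := hnx2 (st n)
    rw [← hst1] at h1
    exact hHT _ _ h1
  · show (st 0).1.2 = v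
    rw [hst0]

end Pool.Agent.Helper391.Lg
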