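import Pool.Agent.Helper391.Lg.Defs



namespace Pool.Agent.Helper391.Lg
open Set


theorem mk_eulk {V : Type*} (G : SimpleGraph V) (hfin : ∀ v, (G.neighborSet v).Finite)
    (A J : Set (Sym2 V)) (hA : A ⊆ G.edgeSet) (hJ : J ⊆ G.edgeSet)
    (F : Set V) {k : ℕ} (C : Fin k → Set V) (hR : Reg G F C)
    (hAc : ∀ u v, (SimpleGraph.fromEdgeSet A).Reachable u v)
    (hAone : ∀ i, ∀ S : Set V, S.Finite → ∃ K : Set V, K.Finite ∧ S ⊆ K ∧ ∀ u ∈ C i \ K, ∀ v ∈ C i \ K,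
        (SimpleGraph.fromEdgeSet {e | e ∈ A ∧ ∀ x ∈ e, x ∈ C i ∧ x ∉ K}).Reachable u v)
    (hev : ∀ v, Even {e | e ∈ A ∪ J ∧ v ∈ e}.ncard)
    (hcut : ∀ i, Even {e | e ∈ A ∪ J ∧ e ∈ bd G (C i)}.ncard) :
    ∃ ends : G.edgeSet → Sym2 V, (∀ e : G.edgeSet, ∀ x ∈ ends e, x ∈ (e : Sym2 V)) ∧ EulK ends F C := by
  classical
  let ends : G.edgeSet → Sym2 V := fun e =>
    if (e : Sym2 V) ∈ A ∪ J then (e : Sym2 V) else s((e : Sym2 V).out.1, (e : Sym2 V).out.1)
  have hpos : ∀ e : G.edgeSet, (e : Sym2 V) ∈ A ∪ J → ends e = (e : Sym2 V) := fun e he => if_pos he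
  have hneg : ∀ e : G.edgeSet, (e : Sym2 V) ∉ A ∪ J →
      ends e = s((e : Sym2 V).out.1, (e : Sym2 V).out.1) := fun e he => if_neg he
  have hsub : ∀ e : G.edgeSet, ∀ x ∈ ends e, x ∈ (e : Sym2 V) := by
    intro e x hx
    by_cases h : (e : Sym2 V) ∈ A ∪ J
    · rwa [hpos e h] at hx
    · rw [hneg e h] at hx
      have hx' : x = (e : Sym2 V).out.1 := by simpa using hx
      rw [hx']
      exact Sym2.out_fst_mem _
  have hex : ∀ e : G.edgeSet, ∃ x, x ∈ ends e := by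
    intro e
    induction h : ends e using Sym2.ind with
    | _ a b => exact ⟨a, Sym2.mem_mk_left a b⟩
  have hAJ : ∀ e, e ∈ A ∪ J → e ∈ G.edgeSet := by
    rintro e (h | h)
    · exact hA h
    · exact hJ h
  refine ⟨ends, hsub, ?_⟩
  refine ⟨?_, ?_, ?_, hR.finF, hR.disjF, hR.disj, hR.inf, ?_, ?_, ?_⟩
  · intro v
    have h1 : {e : Sym2 V | e ∈ G.edgeSet ∧ v ∈ e}.Finite := by
      refine ((hfin v).image (fun w => s(v, w))).subset ?_
      rintro e ⟨he, hv⟩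
      obtain ⟨w, rfl⟩ := hv
      exact ⟨w, he, rfl⟩
    refine (h1.preimage (Subtype.val_injective.injOn)).subset ?_
    intro e he
    exact ⟨e.2, hsub e v he⟩
  · intro v
    have h1 : Subtype.val '' {e : G.edgeSet | e ∈ Set.univ ∧ v ∈ ends e ∧ ¬ (ends e).IsDiag} =
        {e | e ∈ A ∪ J ∧ v ∈ e} := by
      ext e
      constructor
      · rintro ⟨e, ⟨-, hv, hd⟩, rfl⟩
        by_cases h : (e : Sym2 V) ∈ A ∪ J
        · rw [hpos e h] at hv
          exact ⟨h, hv⟩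
        · rw [hneg e h] at hd
          exact absurd (by simp) hd
      · rintro ⟨he, hv⟩
        refine ⟨⟨e, hAJ e he⟩, ⟨Set.mem_univ _, ?_, ?_⟩, rfl⟩
        · rw [hpos ⟨e, hAJ e he⟩ he]; exact hv
        · rw [hpos ⟨e, hAJ e he⟩ he]
          exact G.not_isDiag_of_mem_edgeSet (hAJ e he)
    unfold dg
    rw [← Set.ncard_image_of_injective _ Subtype.val_injective, h1]
    exact hev v
  · intro u v
    refine (hAc u v).mono (SimpleGraph.fromEdgeSet_mono ?_)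
    intro e he
    exact ⟨⟨e, hA he⟩, Set.mem_univ _, hpos ⟨e, hA he⟩ (Or.inl he)⟩
  · intro e
    by_cases h : ∃ v ∈ ends e, v ∈ F
    · exact Or.inl h
    · right
      push Not at h
      obtain ⟨x, hx⟩ := hex e
      rcases hR.cover x with hxF | ⟨i, hxi⟩
      · exact absurd hxF (h x hx)
      · refine ⟨i, fun v hv => ?_⟩
        rcases hR.noedge i e e.2 ⟨x, hsub e x hx, hxi⟩ v (hsub e v hv) with hF | hC
        · exact absurd hF (h v hv)
        · exact hC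
  · intro i
    have h1 : Subtype.val '' {e : G.edgeSet | (∃ v ∈ ends e, v ∈ F) ∧ ∃ v ∈ ends e, v ∈ C i} =
        {e | e ∈ A ∪ J ∧ e ∈ bd G (C i)} := by
      ext e
      constructor
      · rintro ⟨e, ⟨⟨v1, hv1, hF⟩, v2, hv2, hC⟩, rfl⟩
        have hv1C : v1 ∉ C i := fun hc => (Set.disjoint_left.mp (hR.disjF i)) hc hF
        by_cases h : (e : Sym2 V) ∈ A ∪ J
        · rw [hpos e h] at hv1 hv2
          exact ⟨h, e.2, ⟨v2, hv2, hC⟩, v1, hv1, hv1C⟩
        · rw [hneg e h] at hv1 hv2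
          have e1 : v1 = (e : Sym2 V).out.1 := by simpa using hv1
          have e2 : v2 = (e : Sym2 V).out.1 := by simpa using hv2
          rw [e1, ← e2] at hv1C
          exact absurd hC hv1C
      · rintro ⟨he, he', ⟨v1, hv1, hv1C⟩, v2, hv2, hv2C⟩
        refine ⟨⟨e, hAJ e he⟩, ⟨⟨v2, ?_, ?_⟩, v1, ?_, hv1C⟩, rfl⟩
        · rw [hpos ⟨e, hAJ e he⟩ he]; exact hv2
        · rcases hR.noedge i e he' ⟨v1, hv1, hv1C⟩ v2 hv2 with hF | hC
          · exact hF
          · exact absurd hC hv2C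
        · rw [hpos ⟨e, hAJ e he⟩ he]; exact hv1
    rw [← Set.ncard_image_of_injective _ Subtype.val_injective, h1]
    exact hcut i
  · intro i X hX
    have hS : (⋃ e ∈ X, {v | v ∈ (e : Sym2 V)}).Finite := by
      refine hX.biUnion fun e _ => ?_
      induction h : (e : Sym2 V) using Sym2.ind with
      | _ a b =>
        refine (Set.toFinite {a, b}).subset ?_
        intro v hv
        simpa using hv
    obtain ⟨K, hK, hSK, hreach⟩ := hAone i _ hS
    refine ⟨K, hK, fun u hu v hv => ?_⟩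
    refine (hreach u hu v hv).mono (SimpleGraph.fromEdgeSet_mono ?_)
    rintro e ⟨he, hx⟩
    have heq := hpos ⟨e, hA he⟩ (Or.inl he)
    refine ⟨⟨e, hA he⟩, ⟨?_, ?_⟩, heq⟩
    · intro heX
      obtain ⟨x, hxe⟩ := hex ⟨e, hA he⟩
      rw [heq] at hxe
      exact (hx x hxe).2 (hSK (Set.mem_biUnion heX hxe))
    · intro x hxe
      rw [heq] at hxe
      exact (hx x hxe).1

end Pool.Agent.Helper391.Lg
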