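import Pool.Agent.Helper391.Lg.Defs
import Pool.Agent.Helper391.Lg.P_koenig



namespace Pool.Agent.Helper391.Lg
open Set


theorem one_end_aux_walk {V : Type*} (G : SimpleGraph V) (S : Set V) {u s : V} (p : G.Walk u s)
    (hs : s ∈ S) (hu : u ∉ S) : ∃ w, (∃ t ∈ S, w ∈ G.neighborSet t) ∧
      (SimpleGraph.fromEdgeSet {e | e ∈ G.edgeSet ∧ ∀ x ∈ e, x ∉ S}).Reachable u w := by
  induction p with
  | nil => exact absurd hs hu
  | @cons a b c hab p' ih =>
    by_cases hb : b ∈ S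
    · exact ⟨a, ⟨b, hb, hab.symm⟩, SimpleGraph.Reachable.refl _⟩
    · obtain ⟨w, hw, hr⟩ := ih hs hb
      refine ⟨w, hw, SimpleGraph.Reachable.trans ?_ hr⟩
      apply SimpleGraph.Adj.reachable
      rw [SimpleGraph.fromEdgeSet_adj]
      refine ⟨⟨hab, ?_⟩, hab.ne⟩
      intro x hx
      rcases Sym2.mem_iff.mp hx with rfl | rfl
      · exact hu
      · exact hb

theorem one_end_aux_ray {V : Type*} (T : Set (Sym2 V)) (r : ℕ → V) (hinj : Function.Injective r)
    (hr : ∀ n, s(r n, r (n + 1)) ∈ T) (m : ℕ) :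
    (SimpleGraph.fromEdgeSet T).Reachable (r 0) (r m) := by
  induction m with
  | zero => exact SimpleGraph.Reachable.refl _
  | succ m ih =>
    refine ih.trans (SimpleGraph.Adj.reachable ?_)
    rw [SimpleGraph.fromEdgeSet_adj]
    exact ⟨hr m, fun h => by have := hinj h; omega⟩

theorem one_end_of_rays {V : Type*} (G : SimpleGraph V) (hfin : ∀ v, (G.neighborSet v).Finite)
    (hconn : ∀ u v, G.Reachable u v)
    (hr : ∀ r r' : ℕ → V, Function.Injective r → (∀ n, G.Adj (r n) (r (n + 1))) →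
      Function.Injective r' → (∀ n, G.Adj (r' n) (r' (n + 1))) → ∀ S : Set V, S.Finite →
      ∃ m n, (∀ i ≥ m, r i ∉ S) ∧ (∀ i ≥ n, r' i ∉ S) ∧
        (SimpleGraph.fromEdgeSet {e | e ∈ G.edgeSet ∧ ∀ x ∈ e, x ∉ S}).Reachable (r m) (r' n)) :
    OneEnd G := by
  intro S hS
  by_cases hSe : S = ∅
  · refine ⟨∅, Set.finite_empty, by rw [hSe], ?_⟩
    intro u _ v _
    have e : {e | e ∈ G.edgeSet ∧ ∀ x ∈ e, x ∉ S} = G.edgeSet := by
      ext e
      rw [hSe]
      constructor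
      · intro h
        exact h.1
      · intro h
        exact ⟨h, fun x _ => by simp⟩
    rw [e, SimpleGraph.fromEdgeSet_edgeSet]
    exact hconn u v
  obtain ⟨s0, hs0⟩ := Set.nonempty_iff_ne_empty.mpr hSe
  set T : Set (Sym2 V) := {e | e ∈ G.edgeSet ∧ ∀ x ∈ e, x ∉ S} with hT
  have hTG : T ⊆ G.edgeSet := fun e he => he.1
  set N : Set V := ⋃ t ∈ S, G.neighborSet t with hN
  have hNfin : N.Finite := hS.biUnion fun t _ => hfin t
  set K : Set V := S ∪ ⋃ w ∈ {w | w ∈ N ∧ {x | (SimpleGraph.fromEdgeSet T).Reachable w x}.Finite},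
    {x | (SimpleGraph.fromEdgeSet T).Reachable w x} with hK
  have hKfin : K.Finite := by
    refine hS.union ?_
    refine Set.Finite.biUnion (hNfin.subset fun w hw => hw.1) ?_
    intro w hw
    exact hw.2
  have hinf : ∀ u, u ∉ K → {w | (SimpleGraph.fromEdgeSet T).Reachable u w}.Infinite := by
    intro u hu hufin
    apply hu
    have huS : u ∉ S := fun h => hu (Or.inl h)
    obtain ⟨p⟩ := hconn u s0
    obtain ⟨w, ⟨t, ht, hwt⟩, hr1⟩ := one_end_aux_walk G S p hs0 huS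
    refine Or.inr ?_
    rw [Set.mem_iUnion₂]
    refine ⟨w, ⟨?_, ?_⟩, hr1.symm⟩
    · rw [hN, Set.mem_iUnion₂]
      exact ⟨t, ht, hwt⟩
    · exact hufin.subset fun x hx => hr1.trans hx
  refine ⟨K, hKfin, Set.subset_union_left, ?_⟩
  intro u hu v hv
  obtain ⟨r, hri, hrT, hr0⟩ := koenig G hfin T hTG u (hinf u hu)
  obtain ⟨r', hri', hrT', hr0'⟩ := koenig G hfin T hTG v (hinf v hv)
  obtain ⟨m, n, -, -, hmn⟩ := hr r r' hri (fun n => hTG (hrT n)) hri' (fun n => hTG (hrT' n)) S hS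
  have h1 := one_end_aux_ray T r hri hrT m
  have h2 := one_end_aux_ray T r' hri' hrT' n
  rw [hr0] at h1
  rw [hr0'] at h2
  exact (h1.trans hmn).trans h2.symm

end Pool.Agent.Helper391.Lg
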