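import Pool.Agent.Helper391.Lg.Defs



namespace Pool.Agent.Helper391.Lg
open Set


theorem parity_gen {E ι : Type*} (B : Set E) (κ : ι → Set E) (hκ : ∀ j, (κ j).Finite) (w : ι → ZMod 2)
    (h : ∀ S : Finset ι, (∀ e ∈ B, Even {j | j ∈ S ∧ e ∈ κ j}.ncard) → ∑ j ∈ S, w j = 0) :
    ∃ J ⊆ B, ∀ j, (({e | e ∈ J ∧ e ∈ κ j}.ncard : ℕ) : ZMod 2) = w j := by
  classical
  let φ : ι → (E →₀ ZMod 2) := fun j =>
    ∑ e ∈ (hκ j).toFinset.filter (fun e => e ∈ B), Finsupp.single e 1
  let Φ : (ι →₀ ZMod 2) →ₗ[ZMod 2] (E →₀ ZMod 2) := Finsupp.linearCombination (ZMod 2) φ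
  let W : (ι →₀ ZMod 2) →ₗ[ZMod 2] ZMod 2 := Finsupp.linearCombination (ZMod 2) w
  have hφ : ∀ j, ∀ e ∈ B, φ j e = if e ∈ κ j then 1 else 0 := by
    intro j e he
    simp only [φ, Finsupp.finset_sum_apply, Finsupp.single_apply]
    rw [Finset.sum_ite_eq']
    simp [he]
  have hker : W ∈ (LinearMap.ker Φ).dualAnnihilator := by
    rw [Submodule.mem_dualAnnihilator]
    intro x hx
    rw [LinearMap.mem_ker] at hx
    have hone : ∀ j ∈ x.support, x j = 1 := by
      intro j hj
      have h1 := Finsupp.mem_support_iff.1 hj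
      generalize x j = y at h1
      revert h1
      revert y
      decide
    have h1 : ∑ j ∈ x.support, w j = 0 := by
      apply h
      intro e he
      have h2 : (Φ x) e = 0 := by rw [hx]; rfl
      have h3 : (Φ x) e = ∑ j ∈ x.support, (if e ∈ κ j then (1 : ZMod 2) else 0) := by
        simp only [Φ, Finsupp.linearCombination_apply, Finsupp.sum, Finsupp.finset_sum_apply,
          Finsupp.smul_apply, smul_eq_mul]
        refine Finset.sum_congr rfl fun j hj => ?_
        rw [hone j hj, one_mul, hφ j e he]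
      rw [h3, Finset.sum_boole] at h2
      have h4 : {j | j ∈ x.support ∧ e ∈ κ j} = ((x.support.filter fun j => e ∈ κ j : Finset ι) : Set ι) := by
        ext j; simp
      rw [h4, Set.ncard_coe_finset]
      exact (ZMod.natCast_eq_zero_iff_even).1 h2
    show W x = 0
    simp only [W, Finsupp.linearCombination_apply, Finsupp.sum, smul_eq_mul]
    rw [← h1]
    refine Finset.sum_congr rfl fun j hj => ?_
    rw [hone j hj, one_mul]
  rw [← LinearMap.range_dualMap_eq_dualAnnihilator_ker] at hker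
  obtain ⟨g, hg⟩ := hker
  refine ⟨{e | e ∈ B ∧ g (Finsupp.single e 1) = 1}, fun e he => he.1, fun j => ?_⟩
  have h1 : g (φ j) = w j := by
    have h2 : Φ.dualMap g (Finsupp.single j 1) = W (Finsupp.single j 1) := by rw [hg]
    rw [LinearMap.dualMap_apply] at h2
    simpa [Φ, W] using h2
  rw [← h1]
  simp only [φ, map_sum]
  have h3 : ∀ e, g (Finsupp.single e 1) = if g (Finsupp.single e 1) = 1 then (1 : ZMod 2) else 0 := by
    intro e
    generalize g (Finsupp.single e 1) = y
    revert y
    decide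
  rw [Finset.sum_congr rfl fun e _ => h3 e, Finset.sum_boole, Finset.filter_filter]
  congr 1
  rw [← Set.ncard_coe_finset]
  congr 1
  ext e
  simp only [Set.mem_setOf_eq, Finset.coe_filter, Set.Finite.mem_toFinset]
  tauto

end Pool.Agent.Helper391.Lg
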