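import Pool.Agent.Helper391.Lg.Defs
import Pool.Agent.Helper391.Lg.P_parity_gen



namespace Pool.Agent.Helper391.Lg
open Set


theorem bd_iff42 {V : Type*} (G : SimpleGraph V) (Z : Set V) (x y : V) :
    s(x, y) ∈ bd G Z ↔ G.Adj x y ∧ ((x ∈ Z ∧ y ∉ Z) ∨ (x ∉ Z ∧ y ∈ Z)) := by
  constructor
  · rintro ⟨he, ⟨v, hv, hvZ⟩, u, hu, huZ⟩
    refine ⟨(SimpleGraph.mem_edgeSet G).mp he, ?_⟩
    rcases Sym2.mem_iff.mp hv with rfl | rfl <;> rcases Sym2.mem_iff.mp hu with rfl | rfl
    · exact absurd hvZ huZ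
    · exact Or.inl ⟨hvZ, huZ⟩
    · exact Or.inr ⟨huZ, hvZ⟩
    · exact absurd hvZ huZ
  · rintro ⟨he, ⟨h1, h2⟩ | ⟨h1, h2⟩⟩
    · exact ⟨(SimpleGraph.mem_edgeSet G).mpr he, ⟨x, Sym2.mem_mk_left _ _, h1⟩,
        y, Sym2.mem_mk_right _ _, h2⟩
    · exact ⟨(SimpleGraph.mem_edgeSet G).mpr he, ⟨y, Sym2.mem_mk_right _ _, h2⟩,
        x, Sym2.mem_mk_left _ _, h1⟩

theorem parity_cuts {V : Type*} (G : SimpleGraph V) (hfin : ∀ v, (G.neighborSet v).Finite)
    (A B : Set (Sym2 V)) (hAB : A ∪ B = G.edgeSet) (hd : Disjoint A B)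
    (F : Set V) {k : ℕ} (C : Fin k → Set V) (hR : Reg G F C)
    (hB : ∀ Z : Set V, Z.Nonempty → Zᶜ.Nonempty → (bd G Z).Finite → ∃ e ∈ B, e ∈ bd G Z) :
    ∃ J ⊆ B, (∀ v, Even {e | e ∈ A ∪ J ∧ v ∈ e}.ncard) ∧
      ∀ i, Even {e | e ∈ A ∪ J ∧ e ∈ bd G (C i)}.ncard := by
  classical
  have hκl : ∀ v, {e | e ∈ G.edgeSet ∧ v ∈ e}.Finite := by
    intro v
    apply ((hfin v).image (fun w => s(v, w))).subset
    rintro e ⟨he, hv⟩
    obtain ⟨w, rfl⟩ := hv
    exact ⟨w, (SimpleGraph.mem_neighborSet _ _ _).mpr ((SimpleGraph.mem_edgeSet G).mp he), rfl⟩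
  have hκr : ∀ i, (bd G (C i)).Finite := by
    intro i
    apply (hR.finF.biUnion (fun v _ => hκl v)).subset
    rintro e ⟨he, hv, u, hue, huC⟩
    have hu := hR.noedge i e he hv u hue
    rcases hu with hu | hu
    · simp only [mem_iUnion]
      exact ⟨u, hu, he, hue⟩
    · exact absurd hu huC
  set κ : V ⊕ Fin k → Set (Sym2 V) :=
    Sum.elim (fun v => {e | e ∈ G.edgeSet ∧ v ∈ e}) (fun i => bd G (C i)) with hκdef
  have hκ : ∀ j, (κ j).Finite := by
    rintro (v | i)
    · exact hκl v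
    · exact hκr i
  have key : ∀ S : Finset (V ⊕ Fin k), ∃ ζ : V → ZMod 2, ∀ x y, G.Adj x y →
      ∑ j ∈ S, (if s(x, y) ∈ κ j then (1 : ZMod 2) else 0) = ζ x + ζ y := by
    intro S
    refine ⟨fun x => ∑ j ∈ S, (Sum.elim (fun v => if v = x then (1 : ZMod 2) else 0)
      (fun i => if x ∈ C i then 1 else 0) j), ?_⟩
    intro x y hxy
    beta_reduce
    rw [← Finset.sum_add_distrib]
    apply Finset.sum_congr rfl
    rintro (v | i) _
    · have hiff : s(x, y) ∈ κ (Sum.inl v) ↔ (v = x ∨ v = y) := by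
        constructor
        · rintro ⟨_, h⟩
          exact Sym2.mem_iff.mp h
        · intro h
          exact ⟨(SimpleGraph.mem_edgeSet G).mpr hxy, Sym2.mem_iff.mpr h⟩
      have hne := hxy.ne
      simp only [Sum.elim_inl]
      by_cases h1 : v = x
      · rw [if_pos (hiff.mpr (Or.inl h1)), if_pos h1, if_neg (h1 ▸ hne), add_zero]
      · by_cases h2 : v = y
        · rw [if_pos (hiff.mpr (Or.inr h2)), if_neg h1, if_pos h2, zero_add]
        · rw [if_neg (fun h => by rcases hiff.mp h with h | h; exacts [h1 h, h2 h]), if_neg h1,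
            if_neg h2, add_zero]
    · show (if s(x, y) ∈ bd G (C i) then (1 : ZMod 2) else 0) =
        (if x ∈ C i then 1 else 0) + (if y ∈ C i then 1 else 0)
      have hiff := bd_iff42 G (C i) x y
      by_cases h1 : x ∈ C i
      · by_cases h2 : y ∈ C i
        · rw [if_neg (fun h => by rcases (hiff.mp h).2 with h | h; exacts [h.2 h2, h.1 h1]),
            if_pos h1, if_pos h2]
          rfl
        · rw [if_pos (hiff.mpr ⟨hxy, Or.inl ⟨h1, h2⟩⟩), if_pos h1, if_neg h2, add_zero]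
      · by_cases h2 : y ∈ C i
        · rw [if_pos (hiff.mpr ⟨hxy, Or.inr ⟨h1, h2⟩⟩), if_neg h1, if_pos h2, zero_add]
        · rw [if_neg (fun h => by rcases (hiff.mp h).2 with h | h; exacts [h1 h.1, h2 h.2]),
            if_neg h1, if_neg h2, add_zero]
  have hnot1 : ∀ a : ZMod 2, a ≠ 1 → a = 0 := by decide
  have hmain : ∀ S : Finset (V ⊕ Fin k), (∀ e ∈ B, Even {j | j ∈ S ∧ e ∈ κ j}.ncard) →
      ∑ j ∈ S, (((A ∩ κ j).ncard : ℕ) : ZMod 2) = 0 := by
    intro S hS
    obtain ⟨ζ, hζ⟩ := key S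
    have hcount : ∀ e, (({j | j ∈ S ∧ e ∈ κ j}.ncard : ℕ) : ZMod 2) =
        ∑ j ∈ S, (if e ∈ κ j then (1 : ZMod 2) else 0) := by
      intro e
      have h1 : {j | j ∈ S ∧ e ∈ κ j} =
          ((S.filter (fun j => e ∈ κ j) : Finset (V ⊕ Fin k)) : Set (V ⊕ Fin k)) := by
        ext j
        simp
      rw [h1, Set.ncard_coe_finset, Finset.sum_boole]
    set Z : Set V := {x | ζ x = 1} with hZ
    have hbdZ : ∀ x y, s(x, y) ∈ bd G Z →
        ∑ j ∈ S, (if s(x, y) ∈ κ j then (1 : ZMod 2) else 0) = 1 := by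
      intro x y h
      obtain ⟨hxy, h⟩ := (bd_iff42 G Z x y).mp h
      rw [hζ x y hxy]
      rcases h with ⟨h1, h2⟩ | ⟨h1, h2⟩
      · rw [show ζ x = 1 from h1, hnot1 _ h2, add_zero]
      · rw [show ζ y = 1 from h2, hnot1 _ h1, zero_add]
    have hZfin : (bd G Z).Finite := by
      apply (S.finite_toSet.biUnion (fun j _ => hκ j)).subset
      intro e
      induction e with
      | h x y =>
        intro he
        have h1 := hbdZ x y he
        by_contra hcon
        have h2 : ∀ j ∈ S, (if s(x, y) ∈ κ j then (1 : ZMod 2) else 0) = 0 := by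
          intro j hj
          rw [if_neg]
          intro h3
          apply hcon
          simp only [mem_iUnion]
          exact ⟨j, hj, h3⟩
        rw [Finset.sum_eq_zero h2] at h1
        exact absurd h1 (by decide)
    have hconst : ∀ x y, ζ x = ζ y := by
      by_cases h1 : Z.Nonempty
      · by_cases h2 : Zᶜ.Nonempty
        · exfalso
          obtain ⟨e, heB, heZ⟩ := hB Z h1 h2 hZfin
          have h3 := hS e heB
          have h4 : (({j | j ∈ S ∧ e ∈ κ j}.ncard : ℕ) : ZMod 2) = 0 := by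
            rw [ZMod.natCast_eq_zero_iff]
            exact even_iff_two_dvd.mp h3
          rw [hcount] at h4
          induction e with
          | h x y =>
            rw [hbdZ x y heZ] at h4
            exact absurd h4 (by decide)
        · rw [Set.not_nonempty_iff_eq_empty, Set.compl_empty_iff] at h2
          intro x y
          have hx : x ∈ Z := h2 ▸ mem_univ x
          have hy : y ∈ Z := h2 ▸ mem_univ y
          rw [show ζ x = 1 from hx, show ζ y = 1 from hy]
      · rw [Set.not_nonempty_iff_eq_empty] at h1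
        intro x y
        have hx : x ∉ Z := by rw [h1]; exact fun h => h
        have hy : y ∉ Z := by rw [h1]; exact fun h => h
        rw [hnot1 _ hx, hnot1 _ hy]
    have hzero : ∀ e ∈ G.edgeSet, ∑ j ∈ S, (if e ∈ κ j then (1 : ZMod 2) else 0) = 0 := by
      intro e
      induction e with
      | h x y =>
        intro he
        rw [hζ x y ((SimpleGraph.mem_edgeSet G).mp he), hconst x y]
        exact CharTwo.add_self_eq_zero _
    have hW : (⋃ j ∈ (S : Set (V ⊕ Fin k)), A ∩ κ j).Finite :=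
      S.finite_toSet.biUnion (fun j _ => (hκ j).subset inter_subset_right)
    have hw : ∀ j ∈ S, (((A ∩ κ j).ncard : ℕ) : ZMod 2) =
        ∑ e ∈ hW.toFinset, (if e ∈ κ j then (1 : ZMod 2) else 0) := by
      intro j hj
      have h1 : A ∩ κ j =
          ((hW.toFinset.filter (fun e => e ∈ κ j) : Finset (Sym2 V)) : Set (Sym2 V)) := by
        ext e
        simp only [Finset.coe_filter, Set.Finite.mem_toFinset, mem_iUnion, mem_setOf_eq]
        constructor
        · rintro ⟨h2, h3⟩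
          exact ⟨⟨j, hj, h2, h3⟩, h3⟩
        · rintro ⟨⟨_, _, h2, _⟩, h3⟩
          exact ⟨h2, h3⟩
      rw [h1, Set.ncard_coe_finset, Finset.sum_boole]
    rw [Finset.sum_congr rfl hw, Finset.sum_comm]
    apply Finset.sum_eq_zero
    intro e he
    rw [Set.Finite.mem_toFinset] at he
    simp only [mem_iUnion] at he
    obtain ⟨_, _, heA, _⟩ := he
    exact hzero e (hAB ▸ Or.inl heA)
  obtain ⟨J, hJB, hJ⟩ := parity_gen B κ hκ (fun j => (((A ∩ κ j).ncard : ℕ) : ZMod 2)) hmain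
  have heven : ∀ j, Even {e | e ∈ A ∪ J ∧ e ∈ κ j}.ncard := by
    intro j
    have h1 : {e | e ∈ A ∪ J ∧ e ∈ κ j} = (A ∩ κ j) ∪ {e | e ∈ J ∧ e ∈ κ j} := by
      ext e
      constructor
      · rintro ⟨h2 | h2, h3⟩
        · exact Or.inl ⟨h2, h3⟩
        · exact Or.inr ⟨h2, h3⟩
      · rintro (⟨h2, h3⟩ | ⟨h2, h3⟩)
        · exact ⟨Or.inl h2, h3⟩
        · exact ⟨Or.inr h2, h3⟩
    have h2 : Disjoint (A ∩ κ j) {e | e ∈ J ∧ e ∈ κ j} := by
      rw [Set.disjoint_left]
      rintro e ⟨h3, _⟩ ⟨h4, _⟩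
      exact (Set.disjoint_left.mp hd) h3 (hJB h4)
    have h3 : (A ∩ κ j).Finite := (hκ j).subset inter_subset_right
    have h4 : {e | e ∈ J ∧ e ∈ κ j}.Finite := (hκ j).subset (fun e he => he.2)
    rw [h1, Set.ncard_union_eq h2 h3 h4, even_iff_two_dvd, ← ZMod.natCast_eq_zero_iff]
    push_cast
    rw [hJ j]
    exact CharTwo.add_self_eq_zero _
  refine ⟨J, hJB, ?_, ?_⟩
  · intro v
    have h1 : {e | e ∈ A ∪ J ∧ v ∈ e} = {e | e ∈ A ∪ J ∧ e ∈ κ (Sum.inl v)} := by
      ext e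
      constructor
      · rintro ⟨h2, h3⟩
        refine ⟨h2, ?_, h3⟩
        rw [← hAB]
        rcases h2 with h2 | h2
        · exact Or.inl h2
        · exact Or.inr (hJB h2)
      · rintro ⟨h2, h3⟩
        exact ⟨h2, h3.2⟩
    rw [h1]
    exact heven _
  · intro i
    exact heven (Sum.inr i)

end Pool.Agent.Helper391.Lg
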