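import Pool.Agent.Helper391.Lg.Defs



namespace Pool.Agent.Helper391.Lg
open Set


theorem ray_symm {V : Type*} (G : SimpleGraph V) (r s : ℕ → V)
    (h1 : RayEquiv G r s) : RayEquiv G s r := by
  intro S
  obtain ⟨m, n, hm, hn, p, hp⟩ := h1 S
  refine ⟨n, m, hn, hm, p.reverse, fun v hv => hp v ?_⟩
  rw [SimpleGraph.Walk.support_reverse, List.mem_reverse] at hv
  exact hv

end Pool.Agent.Helper391.Lg
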