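import Pool.Agent.Helper391.Lg.Defs



namespace Pool.Agent.Helper391.Lg
open Set


theorem ray_trans_seg {V : Type*} (G : SimpleGraph V) (s : ℕ → V) (hs : IsRay G s)
    (S : Finset V) (i : ℕ) (h : ∀ k, i ≤ k → s k ∉ S) (d : ℕ) :
    ∃ p : G.Walk (s i) (s (i + d)), ∀ v ∈ p.support, v ∉ S := by
  induction d with
  | zero =>
    refine ⟨SimpleGraph.Walk.nil, ?_⟩
    intro v hv
    rw [SimpleGraph.Walk.support_nil, List.mem_singleton] at hv
    rw [hv]
    exact h i le_rfl
  | succ d ih =>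
    obtain ⟨p, hp⟩ := ih
    refine ⟨p.concat (hs.2 (i + d)), ?_⟩
    intro v hv
    rw [SimpleGraph.Walk.support_concat] at hv
    rw [List.mem_append, List.mem_singleton] at hv
    rcases hv with hv | hv
    · exact hp v hv
    · rw [hv]
      exact h _ (by omega)

theorem ray_trans_seg2 {V : Type*} (G : SimpleGraph V) (s : ℕ → V) (hs : IsRay G s)
    (S : Finset V) (i j : ℕ) (hi : ∀ k, i ≤ k → s k ∉ S) (hj : ∀ k, j ≤ k → s k ∉ S) :
    ∃ p : G.Walk (s i) (s j), ∀ v ∈ p.support, v ∉ S := by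
  rcases le_total i j with h | h
  · obtain ⟨d, rfl⟩ := Nat.exists_eq_add_of_le h
    exact ray_trans_seg G s hs S i hi d
  · obtain ⟨d, rfl⟩ := Nat.exists_eq_add_of_le h
    obtain ⟨p, hp⟩ := ray_trans_seg G s hs S j hj d
    refine ⟨p.reverse, ?_⟩
    intro v hv
    rw [SimpleGraph.Walk.support_reverse, List.mem_reverse] at hv
    exact hp v hv

theorem ray_trans {V : Type*} (G : SimpleGraph V) (r s t : ℕ → V) (hs : IsRay G s)
    (h1 : RayEquiv G r s) (h2 : RayEquiv G s t) : RayEquiv G r t := by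
  intro S
  obtain ⟨m, n, hm, hn, p, hp⟩ := h1 S
  obtain ⟨m', n', hm', hn', p', hp'⟩ := h2 S
  obtain ⟨q, hq⟩ := ray_trans_seg2 G s hs S n m' hn hm'
  refine ⟨m, n', hm, hn', p.append (q.append p'), ?_⟩
  intro v hv
  rw [SimpleGraph.Walk.mem_support_append_iff, SimpleGraph.Walk.mem_support_append_iff] at hv
  rcases hv with hv | hv | hv
  · exact hp v hv
  · exact hq v hv
  · exact hp' v hv

end Pool.Agent.Helper391.Lg
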