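import Pool.Agent.Helper391.Lg.Defs
import Pool.Agent.Helper391.Lg.P_koenig
import Pool.Agent.Helper391.Lg.P_ray_trans
import Pool.Agent.Helper391.Lg.P_ray_symm
import Pool.Agent.Helper391.Lg.P_big_comps



namespace Pool.Agent.Helper391.Lg
open Set


theorem roe_reach_of_walk {V : Type*} (G : SimpleGraph V) (S : Set V) {u v : V} (p : G.Walk u v)
    (h : ∀ x ∈ p.support, x ∉ S) :
    (SimpleGraph.fromEdgeSet {e | e ∈ G.edgeSet ∧ ∀ x ∈ e, x ∉ S}).Reachable u v := by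
  induction p with
  | nil => exact SimpleGraph.Reachable.refl _
  | @cons a b c hab p ih =>
    have h1 : a ∉ S := h a (by simp)
    have h2 : b ∉ S := h b (by
      rw [SimpleGraph.Walk.support_cons]
      exact List.mem_cons_of_mem _ p.start_mem_support)
    have h3 := ih (fun x hx => h x (by
      rw [SimpleGraph.Walk.support_cons]
      exact List.mem_cons_of_mem _ hx))
    have h4 : (SimpleGraph.fromEdgeSet {e | e ∈ G.edgeSet ∧ ∀ x ∈ e, x ∉ S}).Adj a b := by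
      rw [SimpleGraph.fromEdgeSet_adj]
      refine ⟨⟨hab, ?_⟩, hab.ne⟩
      intro x hx
      rcases Sym2.mem_iff.1 hx with rfl | rfl
      · exact h1
      · exact h2
    exact h4.reachable.trans h3

theorem roe_walk_of_reach {V : Type*} (G : SimpleGraph V) (S : Set V) {u v : V}
    (h : (SimpleGraph.fromEdgeSet {e | e ∈ G.edgeSet ∧ ∀ x ∈ e, x ∉ S}).Reachable u v)
    (hu : u ∉ S) : ∃ p : G.Walk u v, ∀ x ∈ p.support, x ∉ S := by
  obtain ⟨q⟩ := h
  induction q with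
  | nil =>
    refine ⟨SimpleGraph.Walk.nil, ?_⟩
    intro x hx
    simp at hx
    rw [hx]
    exact hu
  | @cons a b c hab q ih =>
    rw [SimpleGraph.fromEdgeSet_adj] at hab
    obtain ⟨⟨h1, h2⟩, h3⟩ := hab
    have hb : b ∉ S := h2 b (by simp)
    obtain ⟨p, hp⟩ := ih hb
    have h1' : G.Adj a b := h1
    refine ⟨SimpleGraph.Walk.cons h1' p, ?_⟩
    intro x hx
    rw [SimpleGraph.Walk.support_cons] at hx
    rcases List.mem_cons.1 hx with rfl | hx
    · exact hu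
    · exact hp x hx

theorem roe_preserve {V : Type*} (T : Set (Sym2 V)) (Z : Set V)
    (hZ : ∀ x y, s(x, y) ∈ T → x ∈ Z → y ∈ Z) {u v : V}
    (h : (SimpleGraph.fromEdgeSet T).Reachable u v) (hu : u ∈ Z) : v ∈ Z := by
  obtain ⟨q⟩ := h
  induction q with
  | nil => exact hu
  | @cons a b c hab q ih =>
    rw [SimpleGraph.fromEdgeSet_adj] at hab
    exact ih (hZ a b hab.1 hu)

theorem roe_mono {V : Type*} (G : SimpleGraph V) {S S' : Set V} (hS : S ⊆ S') {u v : V}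
    (h : (SimpleGraph.fromEdgeSet {e | e ∈ G.edgeSet ∧ ∀ x ∈ e, x ∉ S'}).Reachable u v) :
    (SimpleGraph.fromEdgeSet {e | e ∈ G.edgeSet ∧ ∀ x ∈ e, x ∉ S}).Reachable u v := by
  apply h.mono
  apply SimpleGraph.fromEdgeSet_mono
  rintro e ⟨h1, h2⟩
  exact ⟨h1, fun x hx hxS => h2 x hx (hS hxS)⟩

theorem roe_elim {V : Type*} (G : SimpleGraph V) {r r' : ℕ → V} (h : RayEquiv G r r') (S : Set V)
    (hS : S.Finite) : ∃ m n : ℕ, (∀ i, m ≤ i → r i ∉ S) ∧ (∀ i, n ≤ i → r' i ∉ S) ∧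
      (SimpleGraph.fromEdgeSet {e | e ∈ G.edgeSet ∧ ∀ x ∈ e, x ∉ S}).Reachable (r m) (r' n) := by
  obtain ⟨m, n, h1, h2, p, hp⟩ := h hS.toFinset
  simp only [Set.Finite.mem_toFinset] at h1 h2 hp
  exact ⟨m, n, h1, h2, roe_reach_of_walk G S p hp⟩

theorem roe_not {V : Type*} (G : SimpleGraph V) {r r' : ℕ → V} (h : ¬ RayEquiv G r r') :
    ∃ S : Set V, S.Finite ∧ ∀ m n : ℕ, (∀ i, m ≤ i → r i ∉ S) → (∀ i, n ≤ i → r' i ∉ S) →
      ¬ (SimpleGraph.fromEdgeSet {e | e ∈ G.edgeSet ∧ ∀ x ∈ e, x ∉ S}).Reachable (r m) (r' n) := by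
  unfold RayEquiv at h
  push Not at h
  obtain ⟨S, hS⟩ := h
  refine ⟨(S : Set V), S.finite_toSet, ?_⟩
  intro m n h1 h2 h3
  obtain ⟨p, hp⟩ := roe_walk_of_reach G (S : Set V) h3 (h1 m le_rfl)
  obtain ⟨v, hv, hvS⟩ := hS m n (fun i hi => by simpa using h1 i hi)
    (fun i hi => by simpa using h2 i hi) p
  exact hp v hv (by simpa using hvS)

theorem roe_tail {V : Type*} (G : SimpleGraph V) {r : ℕ → V} (hr : IsRay G r) (S : Set V)
    (m : ℕ) (hm : ∀ i, m ≤ i → r i ∉ S) : ∀ i, m ≤ i →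
      (SimpleGraph.fromEdgeSet {e | e ∈ G.edgeSet ∧ ∀ x ∈ e, x ∉ S}).Reachable (r m) (r i) := by
  intro i hi
  induction i, hi using Nat.le_induction with
  | base => exact SimpleGraph.Reachable.refl _
  | succ i hi ih =>
    have h4 : (SimpleGraph.fromEdgeSet {e | e ∈ G.edgeSet ∧ ∀ x ∈ e, x ∉ S}).Adj (r i) (r (i + 1)) := by
      rw [SimpleGraph.fromEdgeSet_adj]
      refine ⟨⟨hr.2 i, ?_⟩, (hr.2 i).ne⟩
      intro x hx
      rcases Sym2.mem_iff.1 hx with rfl | rfl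
      · exact hm i hi
      · exact hm (i + 1) (by omega)
    exact ih.trans h4.reachable

theorem roe_tail2 {V : Type*} (G : SimpleGraph V) {r : ℕ → V} (hr : IsRay G r) (S : Set V)
    (m n : ℕ) (hm : ∀ i, m ≤ i → r i ∉ S) (hn : ∀ i, n ≤ i → r i ∉ S) :
      (SimpleGraph.fromEdgeSet {e | e ∈ G.edgeSet ∧ ∀ x ∈ e, x ∉ S}).Reachable (r m) (r n) :=
  (roe_tail G hr S m hm (max m n) (le_max_left _ _)).trans
    (roe_tail G hr S n hn (max m n) (le_max_right _ _)).symm

theorem roe_ev {V : Type*} {r : ℕ → V} (hr : Function.Injective r) (S : Set V) (hS : S.Finite) :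
    ∃ m, ∀ i, m ≤ i → r i ∉ S := by
  have h1 : (r ⁻¹' S).Finite := hS.preimage hr.injOn
  obtain ⟨M, hM⟩ := h1.bddAbove
  refine ⟨M + 1, fun i hi h => ?_⟩
  have := hM (show i ∈ r ⁻¹' S from h)
  omega

theorem reg_of_ends {V : Type*} (G : SimpleGraph V) (hfin : ∀ v, (G.neighborSet v).Finite)
    (hconn : ∀ u v, G.Reachable u v) (k : ℕ) (r : Fin (k + 1) → ℕ → V) (hr : EndRays G k r) :
    ∃ (F : Set V) (C : Fin (k + 1) → Set V), F.Nonempty ∧ Reg G F C := by
  classical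
  obtain ⟨hray, hneq, hex⟩ := hr
  have hw : ∀ i j, ∃ S : Set V, S.Finite ∧ (i ≠ j → ∀ m n : ℕ, (∀ l, m ≤ l → r i l ∉ S) →
      (∀ l, n ≤ l → r j l ∉ S) →
      ¬ (SimpleGraph.fromEdgeSet {e | e ∈ G.edgeSet ∧ ∀ x ∈ e, x ∉ S}).Reachable (r i m) (r j n)) := by
    intro i j
    by_cases hij : i = j
    · exact ⟨∅, Set.finite_empty, fun h => absurd hij h⟩
    · obtain ⟨S, hS, h⟩ := roe_not G (hneq i j hij)
      exact ⟨S, hS, fun _ => h⟩
  choose Sw hSwf hSw using hw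
  set S0 : Set V := (⋃ i, ⋃ j, Sw i j) ∪ {r 0 0} with hS0
  have hS0f : S0.Finite := by
    apply Set.Finite.union _ (Set.finite_singleton _)
    exact Set.finite_iUnion (fun i => Set.finite_iUnion (fun j => hSwf i j))
  have hS0n : S0.Nonempty := ⟨r 0 0, Or.inr rfl⟩
  have hSwS : ∀ i j, Sw i j ⊆ S0 := by
    intro i j x hx
    left
    exact Set.mem_iUnion.2 ⟨i, Set.mem_iUnion.2 ⟨j, hx⟩⟩
  have hm : ∀ i, ∃ m, ∀ l, m ≤ l → r i l ∉ S0 := fun i => roe_ev (hray i).1 S0 hS0f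
  choose m hm using hm
  set F : Set V := S0 ∪ {v | {w | (SimpleGraph.fromEdgeSet
    {e | e ∈ G.edgeSet ∧ ∀ x ∈ e, x ∉ S0}).Reachable v w}.Finite} with hF
  have hFf : F.Finite := big_comps G hfin hconn S0 hS0f hS0n
  set C : Fin (k + 1) → Set V := fun i => {v | v ∉ S0 ∧ (SimpleGraph.fromEdgeSet
    {e | e ∈ G.edgeSet ∧ ∀ x ∈ e, x ∉ S0}).Reachable (r i (m i)) v} with hC
  have hdisj : ∀ i j, i ≠ j → Disjoint (C i) (C j) := by
    intro i j hij
    rw [Set.disjoint_left]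
    rintro v ⟨_, h1⟩ ⟨_, h2⟩
    refine hSw i j hij (m i) (m j) (fun l hl h => hm i l hl (hSwS i j h))
      (fun l hl h => hm j l hl (hSwS i j h)) ?_
    exact roe_mono G (hSwS i j) (h1.trans h2.symm)
  have htl : ∀ i l, m i ≤ l → r i l ∈ C i := fun i l hl =>
    ⟨hm i l hl, roe_tail G (hray i) S0 (m i) (hm i) l hl⟩
  have hrange : ∀ i, (r i '' Set.Ici (m i)).Infinite := fun i =>
    (Set.Ici_infinite (m i)).image (hray i).1.injOn
  have hinf : ∀ i, (C i).Infinite := by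
    intro i
    apply (hrange i).mono
    rintro _ ⟨l, hl, rfl⟩
    exact htl i l hl
  have hdisjF : ∀ i, Disjoint (C i) F := by
    intro i
    rw [Set.disjoint_left]
    rintro v ⟨h1, h2⟩ h3
    rcases h3 with h3 | h3
    · exact h1 h3
    · apply hrange i
      apply Set.Finite.subset h3
      rintro _ ⟨l, hl, rfl⟩
      exact h2.symm.trans (htl i l hl).2
  have hnoedge : ∀ i, ∀ e ∈ G.edgeSet, (∃ v ∈ e, v ∈ C i) → ∀ v ∈ e, v ∈ F ∪ C i := by
    rintro i e he ⟨v, hve, hv⟩ w hwe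
    by_cases hwv : w = v
    · right
      rw [hwv]
      exact hv
    · by_cases hwS : w ∈ S0
      · left; left; exact hwS
      · right
        refine ⟨hwS, hv.2.trans ?_⟩
        have he' : e = s(v, w) := by
          have := (Sym2.mem_and_mem_iff (Ne.symm hwv)).1 ⟨hve, hwe⟩
          exact this
        apply SimpleGraph.Adj.reachable
        rw [SimpleGraph.fromEdgeSet_adj]
        refine ⟨⟨?_, ?_⟩, Ne.symm hwv⟩
        · rw [← he']
          exact he
        · intro x hx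
          rcases Sym2.mem_iff.1 hx with rfl | rfl
          · exact hv.1
          · exact hwS
  refine ⟨F, C, ⟨r 0 0, Or.inl (Or.inr rfl)⟩, ?_⟩
  refine ⟨hFf, ?_, hdisjF, hdisj, hinf, hnoedge, ?_⟩
  · -- cover
    intro v
    by_cases hvF : v ∈ F
    · left; exact hvF
    · right
      have hvS : v ∉ S0 := fun h => hvF (Or.inl h)
      have hvi : {w | (SimpleGraph.fromEdgeSet
          {e | e ∈ G.edgeSet ∧ ∀ x ∈ e, x ∉ S0}).Reachable v w}.Infinite := fun h => hvF (Or.inr h)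
      obtain ⟨s, hs1, hs2, hs3⟩ := koenig G hfin _ (fun e he => he.1) v hvi
      have hsr : IsRay G s := ⟨hs1, fun n => (hs2 n).1⟩
      obtain ⟨i, hi⟩ := hex s hsr
      refine ⟨i, hvS, ?_⟩
      obtain ⟨a, b, ha, hb, hab⟩ := roe_elim G hi S0 hS0f
      have h1 : ∀ l, 0 ≤ l → s l ∉ S0 := by
        intro l _
        exact (hs2 l).2 (s l) (by simp)
      have h2 := roe_tail G hsr S0 0 h1 a (Nat.zero_le _)
      rw [hs3] at h2
      exact ((h2.trans hab).trans (roe_tail2 G (hray i) S0 b (m i) hb (hm i))).symm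
  · -- one
    intro i Z hZ hbd
    by_contra hcon
    push Not at hcon
    obtain ⟨hZ1, hZ2⟩ := hcon
    have hZ1' : Z.Infinite := hZ1
    have hZ2' : (C i \ Z).Infinite := hZ2
    set S' : Set V := F ∪ {v | ∃ e ∈ bd G Z, v ∈ e} with hS'
    have hends : {v | ∃ e ∈ bd G Z, v ∈ e}.Finite := by
      have : {v | ∃ e ∈ bd G Z, v ∈ e} = ⋃ e ∈ bd G Z, {v | v ∈ e} := by
        ext v
        simp
      rw [this]
      apply Set.Finite.biUnion hbd
      intro e _
      induction e using Sym2.ind with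
      | _ x y =>
        have : {v | v ∈ s(x, y)} = {x, y} := by
          ext v
          simp
        rw [this]
        exact (Set.finite_singleton y).insert x
    have hS'f : S'.Finite := hFf.union hends
    have hS'n : S'.Nonempty := ⟨r 0 0, Or.inl (Or.inl (Or.inr rfl))⟩
    have hbig := big_comps G hfin hconn S' hS'f hS'n
    obtain ⟨z, hz, hzF⟩ := hZ1'.exists_notMem_finite hbig
    obtain ⟨z', hz', hzF'⟩ := hZ2'.exists_notMem_finite hbig
    have hzi : {w | (SimpleGraph.fromEdgeSet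
          {e | e ∈ G.edgeSet ∧ ∀ x ∈ e, x ∉ S'}).Reachable z w}.Infinite := fun h => hzF (Or.inr h)
    have hzi' : {w | (SimpleGraph.fromEdgeSet
          {e | e ∈ G.edgeSet ∧ ∀ x ∈ e, x ∉ S'}).Reachable z' w}.Infinite := fun h => hzF' (Or.inr h)
    obtain ⟨s, hs1, hs2, hs3⟩ := koenig G hfin _ (fun e he => he.1) z hzi
    obtain ⟨t, ht1, ht2, ht3⟩ := koenig G hfin _ (fun e he => he.1) z' hzi'
    have hsr : IsRay G s := ⟨hs1, fun n => (hs2 n).1⟩
    have htr : IsRay G t := ⟨ht1, fun n => (ht2 n).1⟩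
    -- edges avoiding S' preserve Z
    have hpres : ∀ x y, s(x, y) ∈ {e | e ∈ G.edgeSet ∧ ∀ x ∈ e, x ∉ S'} → x ∈ Z → y ∈ Z := by
      intro x y hxy hx
      by_contra hy
      have hb : s(x, y) ∈ bd G Z := ⟨hxy.1, ⟨x, by simp, hx⟩, ⟨y, by simp, hy⟩⟩
      exact hxy.2 x (by simp) (Or.inr ⟨_, hb, by simp⟩)
    have hpres' : ∀ x y, s(x, y) ∈ {e | e ∈ G.edgeSet ∧ ∀ x ∈ e, x ∉ S'} → x ∈ C i \ Z →
        y ∈ C i \ Z := by
      intro x y hxy hx
      have hyx : s(y, x) ∈ {e | e ∈ G.edgeSet ∧ ∀ x ∈ e, x ∉ S'} := by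
        rw [Sym2.eq_swap]
        exact hxy
      refine ⟨?_, fun hy => hx.2 (hpres y x hyx hy)⟩
      rcases hnoedge i _ hxy.1 ⟨x, by simp, hx.1⟩ y (by simp) with h | h
      · exact absurd (Or.inl h) (hxy.2 y (by simp))
      · exact h
    have hsZ : ∀ n, s n ∈ Z := by
      intro n
      induction n with
      | zero => rw [hs3]; exact hz
      | succ n ih => exact hpres _ _ (hs2 n) ih
    have htZ : ∀ n, t n ∈ C i \ Z := by
      intro n
      induction n with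
      | zero => rw [ht3]; exact hz'
      | succ n ih => exact hpres' _ _ (ht2 n) ih
    have hident : ∀ q : ℕ → V, IsRay G q → (∀ n, q n ∈ C i) → RayEquiv G q (r i) := by
      intro q hq hqC
      obtain ⟨j, hj⟩ := hex q hq
      obtain ⟨a, b, ha, hb, hab⟩ := roe_elim G hj S0 hS0f
      have h1 : r j (m j) ∈ C i := by
        refine ⟨hm j _ le_rfl, (hqC a).2.trans (hab.trans ?_)⟩
        exact roe_tail2 G (hray j) S0 b (m j) hb (hm j)
      have h2 : r j (m j) ∈ C j := htl j _ le_rfl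
      have hij : j = i := by
        by_contra hne
        exact Set.disjoint_left.1 (hdisj j i hne) h2 h1
      rw [hij] at hj
      exact hj
    have e1 := hident s hsr (fun n => hZ (hsZ n))
    have e2 := hident t htr (fun n => (htZ n).1)
    have e3 := ray_trans G s (r i) t (hray i) e1 (ray_symm G t (r i) e2)
    obtain ⟨a, b, ha, hb, hab⟩ := roe_elim G e3 S' hS'f
    exact (htZ b).2 (roe_preserve _ Z hpres hab (hsZ a))

end Pool.Agent.Helper391.Lg
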