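import Pool.Agent.Helper391.Lg.Defs



namespace Pool.Agent.Helper391.Lg
open Set


theorem tail_all_fin {V : Type*} (G : SimpleGraph V) (hfin : ∀ v, (G.neighborSet v).Finite)
    (F : Set V) (hF : F.Finite) : {e : Sym2 V | e ∈ G.edgeSet ∧ ∃ v ∈ e, v ∈ F}.Finite := by
  have h1 : (⋃ v ∈ F, (fun w => s(v, w)) '' G.neighborSet v).Finite :=
    hF.biUnion fun v _ => (hfin v).image _
  refine h1.subset ?_
  rintro e ⟨he, v, hv, hvF⟩
  obtain ⟨w, rfl⟩ := hv
  exact Set.mem_biUnion hvF ⟨w, he, rfl⟩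

theorem tail_all {V : Type*} (G : SimpleGraph V) (hfin : ∀ v, (G.neighborSet v).Finite)
    (F : Set V) {k : ℕ} (C : Fin k → Set V) (hR : Reg G F C)
    (s : ℕ → G.edgeSet) (hs : IsRay G.lineGraph s) :
    ∃ i, ∃ N : ℕ, ∀ n ≥ N, ∃ x, x ∈ (s n : Sym2 V) ∧ x ∈ C i := by
  have hS := tail_all_fin G hfin F hR.finF
  have hinj : Function.Injective (fun n => (s n : Sym2 V)) :=
    Subtype.val_injective.comp hs.1
  have hpre : {n : ℕ | (s n : Sym2 V) ∈ {e : Sym2 V | e ∈ G.edgeSet ∧ ∃ v ∈ e, v ∈ F}}.Finite :=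
    hS.preimage hinj.injOn
  obtain ⟨N, hN⟩ := hpre.bddAbove
  have hav : ∀ n, N + 1 ≤ n → ∀ v ∈ (s n : Sym2 V), v ∉ F := by
    intro n hn v hv hvF
    have h1 : n ≤ N := hN ⟨(s n).2, v, hv, hvF⟩
    omega
  obtain ⟨x, hx⟩ : ∃ x, x ∈ (s (N + 1) : Sym2 V) := by
    induction h : (s (N + 1) : Sym2 V) using Sym2.inductionOn with
    | _ a b => exact ⟨a, Sym2.mem_mk_left a b⟩
  rcases hR.cover x with hxF | ⟨i, hxi⟩
  · exact absurd hxF (hav _ le_rfl x hx)
  · refine ⟨i, N + 1, ?_⟩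
    have key : ∀ n, N + 1 ≤ n → (∃ y ∈ (s n : Sym2 V), y ∈ C i) := by
      intro n hn
      induction n, hn using Nat.le_induction with
      | base => exact ⟨x, hx, hxi⟩
      | succ n hn ih =>
        have hadj := hs.2 n
        rw [SimpleGraph.lineGraph_adj_iff_exists] at hadj
        obtain ⟨_, v, hv1, hv2⟩ := hadj
        rcases hR.noedge i _ (s n).2 ih v hv1 with h1 | h1
        · exact absurd h1 (hav n hn v hv1)
        · exact ⟨v, hv2, h1⟩
    intro n hn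
    exact key n hn

end Pool.Agent.Helper391.Lg
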