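import Pool.Agent.Helper391.Lg.Defs



namespace Pool.Agent.Helper391.Lg
open Set


theorem tail_equiv_adj {V : Type*} {G : SimpleGraph V} (S : Set G.edgeSet) (e e₁ : G.edgeSet) (he : e ∉ S)
    (he₁ : e₁ ∉ S) (u : V) (hu : u ∈ (e : Sym2 V)) (hu₁ : u ∈ (e₁ : Sym2 V)) :
    ∃ p : G.lineGraph.Walk e e₁, ∀ v ∈ p.support, v ∉ S := by
  by_cases h : e = e₁
  · subst h
    exact ⟨SimpleGraph.Walk.nil, by simpa using he⟩
  · have hadj : G.lineGraph.Adj e e₁ := SimpleGraph.lineGraph_adj_iff_exists.2 ⟨h, u, hu, hu₁⟩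
    refine ⟨SimpleGraph.Walk.cons hadj SimpleGraph.Walk.nil, ?_⟩
    intro v hv
    rw [SimpleGraph.Walk.support_cons, SimpleGraph.Walk.support_nil, List.mem_cons, List.mem_singleton] at hv
    rcases hv with rfl | rfl
    · exact he
    · exact he₁

theorem tail_equiv_trans {V : Type*} {G : SimpleGraph V} (S : Set G.edgeSet) {a b c : G.edgeSet}
    (h1 : ∃ p : G.lineGraph.Walk a b, ∀ v ∈ p.support, v ∉ S)
    (h2 : ∃ p : G.lineGraph.Walk b c, ∀ v ∈ p.support, v ∉ S) :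
    ∃ p : G.lineGraph.Walk a c, ∀ v ∈ p.support, v ∉ S := by
  obtain ⟨p, hp⟩ := h1
  obtain ⟨q, hq⟩ := h2
  refine ⟨p.append q, fun v hv => ?_⟩
  rcases (SimpleGraph.Walk.mem_support_append_iff p q).1 hv with h | h
  · exact hp v h
  · exact hq v h

theorem tail_equiv_walk {V : Type*} {G : SimpleGraph V} (S : Set G.edgeSet) (S' : Set V)
    (hS' : ∀ e ∈ S, ∀ x ∈ (e : Sym2 V), x ∈ S') {u v : V}
    (p : (SimpleGraph.fromEdgeSet {e | e ∈ G.edgeSet ∧ ∀ x ∈ e, x ∉ S'}).Walk u v) :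
    ∀ e : G.edgeSet, e ∉ S → u ∈ (e : Sym2 V) → ∃ e' : G.edgeSet, e' ∉ S ∧ v ∈ (e' : Sym2 V) ∧
      ∃ q : G.lineGraph.Walk e e', ∀ w ∈ q.support, w ∉ S := by
  induction p with
  | nil =>
    intro e he hu
    exact ⟨e, he, hu, SimpleGraph.Walk.nil, by simpa using he⟩
  | @cons u w v hadj p ih =>
    intro e he hu
    have h1 := (SimpleGraph.fromEdgeSet_adj _).1 hadj
    have he₁ : (⟨s(u, w), h1.1.1⟩ : G.edgeSet) ∉ S := fun h =>
      h1.1.2 u (Sym2.mem_mk_left u w) (hS' _ h u (Sym2.mem_mk_left u w))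
    obtain ⟨e', he', hv, hq⟩ := ih ⟨s(u, w), h1.1.1⟩ he₁ (Sym2.mem_mk_right u w)
    exact ⟨e', he', hv, tail_equiv_trans S (tail_equiv_adj S e _ he he₁ u hu (Sym2.mem_mk_left u w)) hq⟩

theorem tail_equiv_far {V : Type*} (G : SimpleGraph V) (hfin : ∀ v, (G.neighborSet v).Finite)
    (s : ℕ → G.edgeSet) (hs : Function.Injective s) (K' : Set V) (hK' : K'.Finite) (N : ℕ) :
    ∃ m ≥ N, ∀ i ≥ m, ∀ x ∈ (s i : Sym2 V), x ∉ K' := by
  have hA : (⋃ x ∈ K', (fun y => s(x, y)) '' G.neighborSet x).Finite :=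
    hK'.biUnion fun x _ => (hfin x).image _
  have hB : ((fun i => (s i : Sym2 V)) ⁻¹' (⋃ x ∈ K', (fun y => s(x, y)) '' G.neighborSet x)).Finite :=
    hA.preimage (Function.Injective.injOn (Subtype.val_injective.comp hs))
  obtain ⟨b, hb⟩ := hB.bddAbove
  refine ⟨max N (b + 1), le_max_left _ _, fun i hi x hx hxK => ?_⟩
  have h1 : i ∈ (fun i => (s i : Sym2 V)) ⁻¹' (⋃ x ∈ K', (fun y => s(x, y)) '' G.neighborSet x) := by
    rw [Set.mem_preimage, Set.mem_iUnion₂]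
    obtain ⟨y, hy⟩ := Sym2.mem_iff_exists.1 hx
    refine ⟨x, hxK, y, ?_, hy.symm⟩
    have h2 := (s i).2
    rw [hy] at h2
    exact h2
  have h3 := hb h1
  have h4 := (le_max_right N (b + 1)).trans hi
  omega

theorem tail_equiv {V : Type*} (G : SimpleGraph V) (hfin : ∀ v, (G.neighborSet v).Finite) (C : Set V)
    (hcon : ∀ S : Set V, S.Finite → ∃ K : Set V, K.Finite ∧ ∀ u ∈ C \ K, ∀ v ∈ C \ K,
      (SimpleGraph.fromEdgeSet {e | e ∈ G.edgeSet ∧ ∀ x ∈ e, x ∉ S}).Reachable u v)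
    (s t : ℕ → G.edgeSet) (hs : Function.Injective s) (ht : Function.Injective t)
    (hsC : ∃ N : ℕ, ∀ n ≥ N, ∃ x, x ∈ (s n : Sym2 V) ∧ x ∈ C)
    (htC : ∃ N : ℕ, ∀ n ≥ N, ∃ x, x ∈ (t n : Sym2 V) ∧ x ∈ C) : RayEquiv G.lineGraph s t := by
  intro S
  have hS'f : (⋃ e ∈ S, {x : V | x ∈ (e : Sym2 V)}).Finite := by
    refine S.finite_toSet.biUnion fun e _ => ?_
    induction (e : Sym2 V) using Sym2.ind with
    | _ x y =>
      refine (Set.toFinite ({x, y} : Set V)).subset ?_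
      intro z hz
      rw [Set.mem_setOf_eq, Sym2.mem_iff] at hz
      simpa using hz
  set S' : Set V := ⋃ e ∈ S, {x : V | x ∈ (e : Sym2 V)} with hS'
  have hmem : ∀ e ∈ (S : Set G.edgeSet), ∀ x ∈ (e : Sym2 V), x ∈ S' := by
    intro e he x hx
    rw [hS', Set.mem_iUnion₂]
    exact ⟨e, he, hx⟩
  obtain ⟨K, hK, hKr⟩ := hcon S' hS'f
  obtain ⟨N1, hN1⟩ := hsC
  obtain ⟨N2, hN2⟩ := htC
  obtain ⟨m, hm1, hm2⟩ := tail_equiv_far G hfin s hs (K ∪ S') (hK.union hS'f) N1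
  obtain ⟨n, hn1, hn2⟩ := tail_equiv_far G hfin t ht (K ∪ S') (hK.union hS'f) N2
  have hout : ∀ e : G.edgeSet, (∀ x ∈ (e : Sym2 V), x ∉ K ∪ S') → e ∉ S := by
    intro e he heS
    obtain ⟨x, hx⟩ : ∃ x, x ∈ (e : Sym2 V) := by
      induction (e : Sym2 V) using Sym2.ind with
      | _ x y => exact ⟨x, Sym2.mem_mk_left x y⟩
    exact he x hx (Or.inr (hmem e heS x hx))
  have hms : s m ∉ S := hout _ (hm2 m le_rfl)
  have hnt : t n ∉ S := hout _ (hn2 n le_rfl)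
  refine ⟨m, n, fun i hi => hout _ (hm2 i hi), fun i hi => hout _ (hn2 i hi), ?_⟩
  obtain ⟨u, hu, huC⟩ := hN1 m hm1
  obtain ⟨v, hv, hvC⟩ := hN2 n hn1
  obtain ⟨p⟩ := hKr u ⟨huC, fun h => hm2 m le_rfl u hu (Or.inl h)⟩ v ⟨hvC, fun h => hn2 n le_rfl v hv (Or.inl h)⟩
  obtain ⟨e', he', hve', hq⟩ := tail_equiv_walk (S : Set G.edgeSet) S' hmem p (s m) hms hu
  exact tail_equiv_trans (S : Set G.edgeSet) hq (tail_equiv_adj _ e' (t n) he' hnt v hve' hv)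

end Pool.Agent.Helper391.Lg
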