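import Pool.Agent.Helper391.Lg.Defs



namespace Pool.Agent.Helper391.Lg
open Set


theorem tail_inequiv {V : Type*} (G : SimpleGraph V) (hfin : ∀ v, (G.neighborSet v).Finite)
    (F : Set V) {k : ℕ} (C : Fin k → Set V) (hR : Reg G F C) (i j : Fin k) (hij : i ≠ j)
    (s t : ℕ → G.edgeSet)
    (hsC : ∃ N : ℕ, ∀ n ≥ N, ∃ x, x ∈ (s n : Sym2 V) ∧ x ∈ C i)
    (htC : ∃ N : ℕ, ∀ n ≥ N, ∃ x, x ∈ (t n : Sym2 V) ∧ x ∈ C j) : ¬ RayEquiv G.lineGraph s t := by
  classical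
  obtain ⟨N, hN⟩ := hsC
  obtain ⟨N', hN'⟩ := htC
  have hinc : ∀ v, {e : Sym2 V | e ∈ G.edgeSet ∧ v ∈ e}.Finite := by
    intro v
    refine ((hfin v).image (fun w => s(v, w))).subset ?_
    rintro e ⟨he, hv⟩
    obtain ⟨w, rfl⟩ := Sym2.mem_iff_exists.1 hv
    exact ⟨w, he, rfl⟩
  have hS0 : {e : G.edgeSet | ∃ v ∈ (e : Sym2 V), v ∈ F}.Finite := by
    have h1 : (⋃ v ∈ F, {e : Sym2 V | e ∈ G.edgeSet ∧ v ∈ e}).Finite :=
      hR.finF.biUnion (fun v _ => hinc v)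
    refine (h1.preimage Subtype.val_injective.injOn).subset ?_
    rintro ⟨e, he⟩ ⟨v, hv, hvF⟩
    rw [mem_preimage, mem_iUnion₂]
    exact ⟨v, hvF, he, hv⟩
  intro hray
  obtain ⟨m, n, hm, hn, p, hp⟩ := hray
    (hS0.toFinset ∪ (Finset.range N).image s ∪ (Finset.range N').image t)
  have hmN : N ≤ m := by
    by_contra hc
    push Not at hc
    refine hm m le_rfl ?_
    rw [Finset.mem_union, Finset.mem_union]
    exact Or.inl (Or.inr (Finset.mem_image.2 ⟨m, Finset.mem_range.2 hc, rfl⟩))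
  have hnN : N' ≤ n := by
    by_contra hc
    push Not at hc
    refine hn n le_rfl ?_
    rw [Finset.mem_union]
    exact Or.inr (Finset.mem_image.2 ⟨n, Finset.mem_range.2 hc, rfl⟩)
  -- an edge outside `S` does not meet `F`
  have hF : ∀ e : G.edgeSet,
      e ∉ (hS0.toFinset ∪ (Finset.range N).image s ∪ (Finset.range N').image t) →
      ∀ v ∈ (e : Sym2 V), v ∉ F := by
    intro e he v hv hvF
    apply he
    rw [Finset.mem_union, Finset.mem_union]
    exact Or.inl (Or.inl (hS0.mem_toFinset.2 ⟨v, hv, hvF⟩))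
  have hall : ∀ (l : Fin k) (e : G.edgeSet),
      e ∉ (hS0.toFinset ∪ (Finset.range N).image s ∪ (Finset.range N').image t) →
      (∃ x, x ∈ (e : Sym2 V) ∧ x ∈ C l) → ∀ v ∈ (e : Sym2 V), v ∈ C l := by
    rintro l e he ⟨x, hx, hxl⟩ v hv
    rcases hR.noedge l e e.2 ⟨x, hx, hxl⟩ v hv with h1 | h1
    · exact absurd h1 (hF e he v hv)
    · exact h1
  have hwalk : ∀ {e f : G.edgeSet} (p : G.lineGraph.Walk e f),
      (∀ v ∈ p.support,
        v ∉ (hS0.toFinset ∪ (Finset.range N).image s ∪ (Finset.range N').image t)) →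
      (∃ x, x ∈ (e : Sym2 V) ∧ x ∈ C i) → ∃ x, x ∈ (f : Sym2 V) ∧ x ∈ C i := by
    intro e f p
    induction p with
    | nil => exact fun _ h => h
    | cons hadj p ih =>
      intro hsup hx
      refine ih (fun v hv => hsup v (by rw [SimpleGraph.Walk.support_cons]; exact List.mem_cons_of_mem _ hv)) ?_
      obtain ⟨_, y, hy1, hy2⟩ := SimpleGraph.lineGraph_adj_iff_exists.1 hadj
      exact ⟨y, hy2, hall i _ (hsup _ (by rw [SimpleGraph.Walk.support_cons]; exact List.mem_cons_self)) hx y hy1⟩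
  obtain ⟨y, hy, hyj⟩ := hN' n hnN
  have h1 := hwalk p hp (hN m hmN)
  have h2 := hall i (t n) (hn n le_rfl) h1 y hy
  exact Set.disjoint_left.1 (hR.disj i j hij) h2 hyj

end Pool.Agent.Helper391.Lg
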